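import Pool.Agent.KS6_44.UU.Crt

namespace Pool.Agent.KS6_44.UU

open Finset

theorem rc2_int {n : ℕ} {β0 d α2 a20 h0 hl : ℤ} {βm a2m hm : Fin (n + 2) → ℤ} (hd : d ≠ 0)
    (F1 : β0 * h0 + ∑ i, βm i * hm i + d * hl = 0)
    (F2 : ∀ p : ℕ, p.Prime → (p : ℤ) ∣ h0 → (∀ i, (p : ℤ) ∣ hm i) → ¬ (p : ℤ) ∣ hl)
    (F4 : ∀ p : ℕ, p.Prime → (p : ℤ) ∣ β0 → (∀ i, (p : ℤ) ∣ βm i) → ¬ (p : ℤ) ∣ d)
    (F5 : α2 * β0 - d * a20 ≠ 0 ∨ ∃ i, α2 * βm i - d * a2m i ≠ 0) :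
    ∃ (ym : Fin (n + 2) → ℤ) (yl r0 : ℤ) (rm : Fin (n + 2) → ℤ) (rl γ : ℤ),
      γ = β0 + ∑ i, βm i * ym i + d * yl ∧
      r0 * h0 + ∑ i, rm i * hm i + rl * hl = 1 ∧
      r0 + ∑ i, rm i * ym i + rl * yl = 1 ∧
      (∀ p : ℕ, p.Prime → (∀ i : Fin (n + 1), (p : ℤ) ∣ βm i.succ - γ * rm i.succ) →
        ¬ (p : ℤ) ∣ d - γ * rl) ∧
      (∀ p : ℕ, p.Prime → (p : ℤ) ∣ d - γ * rl →
        ¬ (p : ℤ) ∣ α2 - (a20 + ∑ i, a2m i * ym i + α2 * yl) * rl) := by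
  -- Step 1a
  obtain ⟨y0m, hy0m⟩ := crts (fun p => (p : ℤ) ∣ d) (m := d) (a := β0) βm hd
    (fun p _ h => h) (fun p hp hpd hpb => by
      by_contra hcon
      push Not at hcon
      exact F4 p hp hpb hcon hpd)
  -- Step 1b
  obtain ⟨f0, f, hfne, hfprop⟩ : ∃ (f0 : ℤ) (f : Fin (n + 2) → ℤ), (f0 ≠ 0 ∨ ∃ i, f i ≠ 0) ∧
      ∀ s : Fin (n + 2) → ℤ, f0 + ∑ i, f i * s i ≠ 0 →
        ∃ i, hm i - h0 * (y0m i + d * s i) ≠ 0 := by
    by_cases hh : h0 = 0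
    · have : ∃ i, hm i ≠ 0 := by
        by_contra hcon
        push Not at hcon
        rw [hh] at F1
        simp only [hcon, mul_zero, Finset.sum_const_zero, add_zero, zero_add] at F1
        have hl0 : hl = 0 := (mul_eq_zero.1 F1).resolve_left hd
        exact F2 2 Nat.prime_two (by rw [hh]; exact dvd_zero _) (fun i => by
          rw [hcon i]; exact dvd_zero _) (by rw [hl0]; exact dvd_zero _)
      obtain ⟨i, hi⟩ := this
      refine ⟨hm i, 0, Or.inl hi, fun s _ => ⟨i, ?_⟩⟩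
      rw [hh, zero_mul, sub_zero]; exact hi
    · refine ⟨hm 0 - h0 * y0m 0, fun i => if i = 0 then -(h0 * d) else 0, Or.inr ⟨0, ?_⟩,
        fun s hs => ⟨0, ?_⟩⟩
      · simpa using ⟨hh, hd⟩
      · have : ∑ i, (if i = 0 then -(h0 * d) else 0) * s i = -(h0 * d) * s 0 := by
          rw [Finset.sum_eq_single 0]
          · simp
          · intro b _ hb; simp [hb]
          · simp
        rw [this] at hs
        intro h; apply hs; rw [← h]; ring
  obtain ⟨s, hs1, hs2⟩ := two_affine (f0 := f0)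
    (g0 := (α2 * β0 - d * a20) + ∑ i, (α2 * βm i - d * a2m i) * y0m i) f
    (fun i => (α2 * βm i - d * a2m i) * d) hfne (by
      by_cases hz : ∃ i, α2 * βm i - d * a2m i ≠ 0
      · obtain ⟨i, hi⟩ := hz
        exact Or.inr ⟨i, mul_ne_zero hi hd⟩
      · left
        push Not at hz
        simp only [hz, zero_mul, Finset.sum_const_zero, add_zero]
        rcases F5 with h | ⟨i, hi⟩
        · exact h
        · exact absurd (hz i) hi)
  obtain ⟨i0, hi0⟩ := hfprop s hs1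
  obtain ⟨ym, hym⟩ : ∃ ym : Fin (n + 2) → ℤ, ∀ i, ym i = y0m i + d * s i := ⟨_, fun i => rfl⟩
  have hγ1 : ∀ p : ℕ, p.Prime → (p : ℤ) ∣ d → ¬ (p : ℤ) ∣ β0 + ∑ i, βm i * ym i := by
    intro p hp hpd hdvd
    apply hy0m p hp hpd
    have : β0 + ∑ i, βm i * ym i = (β0 + ∑ i, y0m i * βm i) + d * ∑ i, βm i * s i := by
      rw [Finset.mul_sum, add_assoc, ← Finset.sum_add_distrib]
      congr 1
      exact Finset.sum_congr rfl fun i _ => by rw [hym]; ring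
    rw [this] at hdvd
    exact (dvd_add_left (Dvd.dvd.mul_right hpd _)).1 hdvd
  obtain ⟨κ, hκ⟩ : ∃ κ : ℤ, κ = (α2 * β0 - d * a20) + ∑ i, (α2 * βm i - d * a2m i) * ym i :=
    ⟨_, rfl⟩
  have hκ0 : κ ≠ 0 := by
    rw [hκ]
    intro h; apply hs2
    rw [← h, add_assoc, ← Finset.sum_add_distrib]
    congr 1
    exact Finset.sum_congr rfl fun i _ => by rw [hym]; ring
  rw [← hym] at hi0
  -- Step 1c
  obtain ⟨yl, hyl, hγ0⟩ := crt1' (fun p => ∀ i, (p : ℤ) ∣ hm i - h0 * ym i)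
    (m := hm i0 - h0 * ym i0) (a := hl) (b := -h0) (c := β0 + ∑ i, βm i * ym i) (e := d) hi0
    (fun p _ h => h i0) (fun p hp hq hpl hp0 => by
      rw [dvd_neg] at hp0
      refine F2 p hp hp0 (fun i => ?_) hpl
      have : hm i = (hm i - h0 * ym i) + h0 * ym i := by ring
      rw [this]; exact dvd_add (hq i) (Dvd.dvd.mul_right hp0 _)) (Or.inr hd)
  obtain ⟨γ, hγ⟩ : ∃ γ : ℤ, γ = β0 + ∑ i, βm i * ym i + d * yl := ⟨_, rfl⟩
  obtain ⟨ηm, hηm⟩ : ∃ ηm : Fin (n + 2) → ℤ, ∀ i, ηm i = hm i - h0 * ym i := ⟨_, fun i => rfl⟩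
  obtain ⟨ηl, hηl⟩ : ∃ ηl : ℤ, ηl = hl - h0 * yl := ⟨_, rfl⟩
  have hγ0' : γ ≠ 0 := by rw [hγ, mul_comm d]; exact hγ0
  have hγd : ∀ p : ℕ, p.Prime → (p : ℤ) ∣ d → ¬ (p : ℤ) ∣ γ := by
    intro p hp hpd hpg
    rw [hγ] at hpg
    exact hγ1 p hp hpd ((dvd_add_left (Dvd.dvd.mul_right hpd _)).1 hpg)
  have hprim : ∀ p : ℕ, p.Prime → (∀ i, (p : ℤ) ∣ ηm i) → ¬ (p : ℤ) ∣ ηl := by
    intro p hp h1 h2
    refine hyl p hp (fun i => by rw [← hηm]; exact h1 i) ?_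
    rw [hηl] at h2
    have : hl + yl * -h0 = hl - h0 * yl := by ring
    rw [this]; exact h2
  simp only [← hηm] at hi0
  -- relation (F1')
  have F1' : ∑ i, βm i * ηm i + d * ηl = -(h0 * γ) := by
    have e1 : ∑ i, βm i * ηm i = ∑ i, βm i * hm i - h0 * ∑ i, βm i * ym i := by
      rw [Finset.mul_sum, ← Finset.sum_sub_distrib]
      exact Finset.sum_congr rfl fun i _ => by rw [hηm]; ring
    rw [e1, hηl, hγ]; linear_combination F1
  -- base solution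
  obtain ⟨c, hc⟩ := bezout (Fin.cons ηl ηm : Fin (n + 3) → ℤ) (fun p hp => by
    by_contra hcon
    push Not at hcon
    exact hprim p hp (fun i => by simpa using hcon i.succ) (by simpa using hcon 0))
  rw [Fin.sum_univ_succ] at hc
  simp only [Fin.cons_zero, Fin.cons_succ] at hc
  obtain ⟨rl0, hrl0⟩ : ∃ rl0 : ℤ, rl0 = (1 - h0) * c 0 := ⟨_, rfl⟩
  obtain ⟨rm0, hrm0⟩ : ∃ rm0 : Fin (n + 2) → ℤ, ∀ i, rm0 i = (1 - h0) * c i.succ :=
    ⟨_, fun i => rfl⟩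
  have hbase : ∑ i, ηm i * rm0 i + ηl * rl0 = 1 - h0 := by
    have e1 : ∑ i, ηm i * rm0 i = (1 - h0) * ∑ i : Fin (n + 2), c i.succ * ηm i := by
      rw [Finset.mul_sum]
      exact Finset.sum_congr rfl fun i _ => by rw [hrm0]; ring
    rw [e1, hrl0]; linear_combination (1 - h0) * hc
  -- any solution satisfies the relation
  have hrel : ∀ (rm : Fin (n + 2) → ℤ) (rl : ℤ), ∑ i, ηm i * rm i + ηl * rl = 1 - h0 →
      ∑ i, ηm i * (βm i - γ * rm i) + ηl * (d - γ * rl) = -γ := by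
    intro rm rl h
    have e1 : ∑ i, ηm i * (βm i - γ * rm i) = ∑ i, βm i * ηm i - γ * ∑ i, ηm i * rm i := by
      rw [Finset.mul_sum, ← Finset.sum_sub_distrib]
      exact Finset.sum_congr rfl fun i _ => by ring
    rw [e1]; linear_combination F1' - γ * h
  -- Step 2a
  obtain ⟨σ, hσ, hσ0⟩ := crts' (fun p => (p : ℤ) ∣ κ) (m := κ) (a := d - γ * rl0)
    (fun i => -(γ * ηm i)) hκ0 (fun p _ h => h) (fun p hp hpk hpa => by
      by_contra hcon
      push Not at hcon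
      have hpp : Prime (p : ℤ) := Nat.prime_iff_prime_int.1 hp
      by_cases hpg : (p : ℤ) ∣ γ
      · have hpd : (p : ℤ) ∣ d := by
          have : d = (d - γ * rl0) + γ * rl0 := by ring
          rw [this]; exact dvd_add hpa (Dvd.dvd.mul_right hpg _)
        exact hγd p hp hpd hpg
      · have h1 : ∀ i, (p : ℤ) ∣ ηm i := fun i => by
          have := hcon i
          rw [dvd_neg] at this
          exact (hpp.dvd_or_dvd this).resolve_left hpg
        have h2 := hrel rm0 rl0 hbase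
        apply hpg
        rw [← dvd_neg, ← h2]
        exact dvd_add (Finset.dvd_sum fun i _ => Dvd.dvd.mul_right (h1 i) _)
          (Dvd.dvd.mul_left hpa _))
    ⟨i0, by rw [neg_ne_zero]; exact mul_ne_zero hγ0' hi0⟩
  obtain ⟨rl, hrl⟩ : ∃ rl : ℤ, rl = rl0 + ∑ i, σ i * ηm i := ⟨_, rfl⟩
  obtain ⟨rm1, hrm1⟩ : ∃ rm1 : Fin (n + 2) → ℤ, ∀ i, rm1 i = rm0 i - σ i * ηl := ⟨_, fun i => rfl⟩
  have hsol1 : ∑ i, ηm i * rm1 i + ηl * rl = 1 - h0 := by
    have e1 : ∑ i, ηm i * rm1 i = ∑ i, ηm i * rm0 i - ηl * ∑ i, σ i * ηm i := by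
      rw [Finset.mul_sum, ← Finset.sum_sub_distrib]
      exact Finset.sum_congr rfl fun i _ => by rw [hrm1]; ring
    rw [e1, hrl]; linear_combination hbase
  have hτl : d - γ * rl0 + ∑ i, σ i * -(γ * ηm i) = d - γ * rl := by
    have e1 : ∑ i, σ i * -(γ * ηm i) = -(γ * ∑ i, σ i * ηm i) := by
      rw [Finset.mul_sum, ← Finset.sum_neg_distrib]
      exact Finset.sum_congr rfl fun i _ => by ring
    rw [e1, hrl]; ring
  rw [hτl] at hσ0
  simp only [hτl] at hσ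
  -- Step 2b
  obtain ⟨t, ht⟩ := crt1 (fun p => (∀ i : Fin n, (p : ℤ) ∣ βm i.succ.succ - γ * rm1 i.succ.succ) ∧
      (p : ℤ) ∣ d - γ * rl) (m := d - γ * rl) (a := βm 1 - γ * rm1 1) (b := -(γ * ηm 0)) hσ0
    (fun p _ h => h.2) (fun p hp hq hp1 hpb => by
      have hpp : Prime (p : ℤ) := Nat.prime_iff_prime_int.1 hp
      have hpg : ¬ (p : ℤ) ∣ γ := by
        intro hpg
        have hpd : (p : ℤ) ∣ d := by
          have : d = (d - γ * rl) + γ * rl := by ring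
          rw [this]; exact dvd_add hq.2 (Dvd.dvd.mul_right hpg _)
        exact hγd p hp hpd hpg
      rw [dvd_neg] at hpb
      have hp0 : (p : ℤ) ∣ ηm 0 := (hpp.dvd_or_dvd hpb).resolve_left hpg
      have h2 := hrel rm1 rl hsol1
      apply hpg
      rw [← dvd_neg, ← h2]
      refine dvd_add ?_ (Dvd.dvd.mul_left hq.2 _)
      rw [Fin.sum_univ_succ, Fin.sum_univ_succ]
      refine dvd_add (Dvd.dvd.mul_right hp0 _) (dvd_add (Dvd.dvd.mul_left ?_ _)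
        (Finset.dvd_sum fun i _ => Dvd.dvd.mul_left (hq.1 i) _))
      exact hp1)
  obtain ⟨rm, hrmz, hrmo, hrms⟩ : ∃ rm : Fin (n + 2) → ℤ, rm 0 = rm1 0 - t * ηm 1 ∧
      rm 1 = rm1 1 + t * ηm 0 ∧ ∀ i : Fin n, rm i.succ.succ = rm1 i.succ.succ :=
    ⟨Fin.cons (rm1 0 - t * ηm 1) (Fin.cons (rm1 1 + t * ηm 0) fun i => rm1 i.succ.succ),
      by simp, rfl, fun i => by simp⟩
  have hsol : ∑ i, ηm i * rm i + ηl * rl = 1 - h0 := by
    rw [← hsol1]
    congr 1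
    rw [Fin.sum_univ_succ, Fin.sum_univ_succ, Fin.sum_univ_succ (n := n + 1),
      Fin.sum_univ_succ (n := n)]
    have e1 : (Fin.succ (0 : Fin (n + 1))) = 1 := rfl
    simp only [hrms, e1, hrmz, hrmo]
    ring
  refine ⟨ym, yl, 1 - ∑ i, rm i * ym i - rl * yl, rm, rl, γ, hγ, ?_, by ring, ?_, ?_⟩
  · have e1 : ∑ i, ηm i * rm i = ∑ i, rm i * hm i - h0 * ∑ i, rm i * ym i := by
      rw [Finset.mul_sum, ← Finset.sum_sub_distrib]
      exact Finset.sum_congr rfl fun i _ => by rw [hηm]; ring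
    rw [e1, hηl] at hsol
    linear_combination hsol
  · intro p hp h1 h2
    refine ht p hp ⟨fun i => ?_, h2⟩ ?_
    · have := h1 i.succ
      rwa [hrms] at this
    · have := h1 0
      have e1 : (Fin.succ (0 : Fin (n + 1))) = 1 := rfl
      rw [e1, hrmo] at this
      have e2 : βm 1 - γ * rm1 1 + t * -(γ * ηm 0) = βm 1 - γ * (rm1 1 + t * ηm 0) := by ring
      rw [e2]; exact this
  · intro p hp h1 h2
    refine hσ p hp ?_ h1
    have e1 : κ = γ * (α2 - (a20 + ∑ i, a2m i * ym i + α2 * yl) * rl) -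
        (a20 + ∑ i, a2m i * ym i + α2 * yl) * (d - γ * rl) := by
      have e2 : ∑ i, (α2 * βm i - d * a2m i) * ym i = α2 * ∑ i, βm i * ym i -
          d * ∑ i, a2m i * ym i := by
        rw [Finset.mul_sum, Finset.mul_sum, ← Finset.sum_sub_distrib]
        exact Finset.sum_congr rfl fun i _ => by ring
      rw [hκ, e2]
      linear_combination (-α2) * hγ
    rw [e1]
    exact dvd_sub (Dvd.dvd.mul_left h2 _) (Dvd.dvd.mul_left h1 _)

end Pool.Agent.KS6_44.UU
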