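import Pool.Agent.KS6_44.UU.Crt

namespace Pool.Agent.KS6_44.UU

open Finset

theorem f_int {n : ℕ} {β0 d h0 hl : ℤ} {βm αm hm : Fin (n + 2) → ℤ}
    (F1 : β0 * h0 + ∑ i, βm i * hm i + d * hl = 0)
    (F2 : ∀ p : ℕ, p.Prime → (p : ℤ) ∣ h0 → (∀ i, (p : ℤ) ∣ hm i) → ¬ (p : ℤ) ∣ hl)
    (F6 : ∀ p : ℕ, p.Prime → (p : ℤ) ∣ h0 → (∀ i, (p : ℤ) ∣ hm i) → ∀ i, (p : ℤ) ∣ αm i * hl)
    (R : ∀ p : ℕ, p.Prime → (∀ i, (p : ℤ) ∣ βm i) → ¬ (p : ℤ) ∣ d)
    (C : ∀ p : ℕ, p.Prime → (∀ i, (p : ℤ) ∣ αm i) → ¬ (p : ℤ) ∣ d) :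
    ∃ (ym : Fin (n + 2) → ℤ) (yl r0 : ℤ) (rm : Fin (n + 2) → ℤ) (rl : ℤ),
      β0 + ∑ i, βm i * ym i + d * yl = 1 ∧ rl = d - 1 ∧
      r0 * h0 + ∑ i, rm i * hm i + rl * hl = 1 ∧
      r0 + ∑ i, rm i * ym i + rl * yl = 1 := by
  -- base y
  obtain ⟨c, hc⟩ := bezout (Fin.cons d βm : Fin (n + 3) → ℤ) (fun p hp => by
    by_contra hcon
    push Not at hcon
    exact R p hp (fun i => by simpa using hcon i.succ) (by simpa using hcon 0))
  rw [Fin.sum_univ_succ] at hc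
  simp only [Fin.cons_zero, Fin.cons_succ] at hc
  obtain ⟨y0, hy0⟩ : ∃ y0 : Fin (n + 2) → ℤ, ∀ i, y0 i = (1 - β0) * c i.succ := ⟨_, fun i => rfl⟩
  have hbase : β0 + ∑ i, βm i * y0 i + d * ((1 - β0) * c 0) = 1 := by
    have e1 : ∑ i, βm i * y0 i = (1 - β0) * ∑ i : Fin (n + 2), c i.succ * βm i := by
      rw [Finset.mul_sum]
      exact Finset.sum_congr rfl fun i _ => by rw [hy0]; ring
    rw [e1]; linear_combination (1 - β0) * hc
  -- star
  have star : ∀ (ym : Fin (n + 2) → ℤ) (yl : ℤ), β0 + ∑ i, βm i * ym i + d * yl = 1 →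
      ∀ p : ℕ, p.Prime → (∀ i, (p : ℤ) ∣ hm i - h0 * ym i) → ¬ (p : ℤ) ∣ h0 * d := by
    intro ym yl hg p hp hη hpd
    have hpp : Prime (p : ℤ) := Nat.prime_iff_prime_int.1 hp
    have F1' : ∑ i, βm i * (hm i - h0 * ym i) + d * (hl - h0 * yl) = -h0 := by
      have e1 : ∑ i, βm i * (hm i - h0 * ym i) = ∑ i, βm i * hm i - h0 * ∑ i, βm i * ym i := by
        rw [Finset.mul_sum, ← Finset.sum_sub_distrib]
        exact Finset.sum_congr rfl fun i _ => by ring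
      rw [e1]; linear_combination F1 - h0 * hg
    have hp0 : (p : ℤ) ∣ h0 := by
      rcases hpp.dvd_or_dvd hpd with h | h
      · exact h
      · rw [← dvd_neg, ← F1']
        exact dvd_add (Finset.dvd_sum fun i _ => Dvd.dvd.mul_left (hη i) _)
          (Dvd.dvd.mul_right h _)
    have hpm : ∀ i, (p : ℤ) ∣ hm i := fun i => by
      have : hm i = (hm i - h0 * ym i) + h0 * ym i := by ring
      rw [this]; exact dvd_add (hη i) (Dvd.dvd.mul_right hp0 _)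
    have hpl := F2 p hp hp0 hpm
    refine C p hp (fun i => (hpp.dvd_or_dvd (F6 p hp hp0 hpm i)).resolve_right hpl) ?_
    have : d * hl = -(β0 * h0 + ∑ i, βm i * hm i) := by linarith
    have h2 : (p : ℤ) ∣ d * hl := by
      rw [this, dvd_neg]
      exact dvd_add (Dvd.dvd.mul_left hp0 _) (Finset.dvd_sum fun i _ =>
        Dvd.dvd.mul_left (hpm i) _)
    exact (hpp.dvd_or_dvd h2).resolve_right hpl
  have star' : ∀ σ : Fin (n + 2) → ℤ, β0 + ∑ i, βm i * (y0 i + d * σ i) +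
      d * ((1 - β0) * c 0 - ∑ i, βm i * σ i) = 1 := by
    intro σ
    have e1 : ∑ i, βm i * (y0 i + d * σ i) = ∑ i, βm i * y0 i + d * ∑ i, βm i * σ i := by
      rw [Finset.mul_sum, ← Finset.sum_add_distrib]
      exact Finset.sum_congr rfl fun i _ => by ring
    rw [e1]; linear_combination hbase
  -- find σ
  have hex : ∃ σ : Fin (n + 2) → ℤ, ∀ p : ℕ, p.Prime →
      ∃ i, ¬ (p : ℤ) ∣ hm i - h0 * (y0 i + d * σ i) := by
    by_cases h0d : h0 * d = 0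
    · refine ⟨0, fun p hp => ?_⟩
      by_contra hcon
      push Not at hcon
      exact star _ _ (star' 0) p hp hcon (by rw [h0d]; exact dvd_zero _)
    · obtain ⟨s, hs⟩ : ∃ s : ℤ, hm 0 - h0 * (y0 0 + d * s) ≠ 0 := by
        by_cases h : hm 0 - h0 * (y0 0 + d * 0) = 0
        · refine ⟨1, fun h' => h0d ?_⟩
          linear_combination h - h'
        · exact ⟨0, h⟩
      obtain ⟨t, ht⟩ := crt1 (fun p => (p : ℤ) ∣ hm 0 - h0 * (y0 0 + d * s) ∧
          ∀ i : Fin n, (p : ℤ) ∣ hm i.succ.succ - h0 * y0 i.succ.succ)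
          (m := hm 0 - h0 * (y0 0 + d * s)) (a := hm 1 - h0 * y0 1) (b := -(h0 * d)) hs
          (fun p _ h => h.1) (fun p hp hq hp1 hpb => by
            rw [dvd_neg] at hpb
            refine star _ _ (star' (Fin.cons s 0)) p hp (fun i => ?_) hpb
            refine Fin.cases ?_ (fun i => ?_) i
            · simpa using hq.1
            · refine Fin.cases ?_ (fun i => ?_) i
              · simpa using hp1
              · simpa using hq.2 i)
      refine ⟨Fin.cons s (Fin.cons t 0), fun p hp => ?_⟩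
      by_contra hcon
      push Not at hcon
      refine ht p hp ⟨by simpa using hcon 0, fun i => by simpa using hcon i.succ.succ⟩ ?_
      have := hcon (Fin.succ 0)
      have e1 : (Fin.succ (0 : Fin (n + 1))) = 1 := rfl
      simp only [Fin.cons_succ, Fin.cons_zero, e1] at this
      have e2 : hm 1 - h0 * y0 1 + t * -(h0 * d) = hm 1 - h0 * (y0 1 + d * t) := by ring
      rw [e2]; exact this
  obtain ⟨σ, hσ⟩ := hex
  obtain ⟨w, hw⟩ := bezout _ hσ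
  obtain ⟨ym, hym⟩ : ∃ ym : Fin (n + 2) → ℤ, ∀ i, ym i = y0 i + d * σ i := ⟨_, fun i => rfl⟩
  obtain ⟨yl, hyl⟩ : ∃ yl : ℤ, yl = (1 - β0) * c 0 - ∑ i, βm i * σ i := ⟨_, rfl⟩
  obtain ⟨e, he⟩ : ∃ e : ℤ, e = 1 - h0 - (hl - h0 * yl) * (d - 1) := ⟨_, rfl⟩
  have hγ : β0 + ∑ i, βm i * ym i + d * yl = 1 := by
    have := star' σ
    simp only [← hym, ← hyl] at this
    exact this
  simp only [← hym] at hw
  refine ⟨ym, yl, 1 - ∑ i, (e * w i) * ym i - (d - 1) * yl, fun i => e * w i, d - 1, hγ, rfl, ?_,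
    by ring⟩
  have e1 : ∑ i, w i * (hm i - h0 * ym i) = ∑ i, w i * hm i - h0 * ∑ i, w i * ym i := by
    rw [Finset.mul_sum, ← Finset.sum_sub_distrib]
    exact Finset.sum_congr rfl fun i _ => by ring
  have e2 : ∑ i, (e * w i) * ym i = e * ∑ i, w i * ym i := by
    rw [Finset.mul_sum]; exact Finset.sum_congr rfl fun i _ => by ring
  have e3 : ∑ i, (e * w i) * hm i = e * ∑ i, w i * hm i := by
    rw [Finset.mul_sum]; exact Finset.sum_congr rfl fun i _ => by ring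
  rw [e1] at hw
  rw [e2, e3]
  linear_combination e * hw + he

theorem dv_int {n : ℕ} {β0 d h0 hl : ℤ} {βm hm : Fin (n + 1) → ℤ}
    (F2 : ∀ p : ℕ, p.Prime → (p : ℤ) ∣ h0 → (∀ i, (p : ℤ) ∣ hm i) → ¬ (p : ℤ) ∣ hl)
    (F4 : ∀ p : ℕ, p.Prime → (p : ℤ) ∣ β0 → (∀ i, (p : ℤ) ∣ βm i) → ¬ (p : ℤ) ∣ d) :
    ∃ (ym : Fin (n + 1) → ℤ) (yl r0 : ℤ) (rm : Fin (n + 1) → ℤ) (rl : ℤ),
      β0 + ∑ i, βm i * ym i + d * yl ≠ 0 ∧ rl ≠ 0 ∧
      r0 * h0 + ∑ i, rm i * hm i + rl * hl = 1 ∧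
      r0 + ∑ i, rm i * ym i + rl * yl = 1 := by
  -- choose ym
  obtain ⟨ym, hm1, hm2⟩ : ∃ ym : Fin (n + 1) → ℤ,
      (β0 + ∑ i, βm i * ym i ≠ 0 ∨ d ≠ 0) ∧ (h0 ≠ 0 → hm 0 - h0 * ym 0 ≠ 0) := by
    obtain ⟨f0, f, hf, hf'⟩ : ∃ (f0 : ℤ) (f : Fin (n + 1) → ℤ), (f0 ≠ 0 ∨ ∃ i, f i ≠ 0) ∧
        ∀ s : Fin (n + 1) → ℤ, f0 + ∑ i, f i * s i ≠ 0 →
          (β0 + ∑ i, βm i * s i ≠ 0 ∨ d ≠ 0) := by
      by_cases hd : d = 0
      · refine ⟨β0, βm, ?_, fun s hs => Or.inl hs⟩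
        by_contra hcon
        push Not at hcon
        exact F4 2 Nat.prime_two (by rw [hcon.1]; exact dvd_zero _)
          (fun i => by rw [hcon.2 i]; exact dvd_zero _) (by rw [hd]; exact dvd_zero _)
      · exact ⟨1, 0, Or.inl one_ne_zero, fun s _ => Or.inr hd⟩
    obtain ⟨g0, g, hg, hg'⟩ : ∃ (g0 : ℤ) (g : Fin (n + 1) → ℤ), (g0 ≠ 0 ∨ ∃ i, g i ≠ 0) ∧
        ∀ s : Fin (n + 1) → ℤ, g0 + ∑ i, g i * s i ≠ 0 → (h0 ≠ 0 → hm 0 - h0 * s 0 ≠ 0) := by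
      by_cases hh : h0 = 0
      · exact ⟨1, 0, Or.inl one_ne_zero, fun s _ h => absurd hh h⟩
      · refine ⟨hm 0, fun i => if i = 0 then -h0 else 0, Or.inr ⟨0, by simpa using hh⟩,
          fun s hs _ => ?_⟩
        have : ∑ i, (if i = 0 then -h0 else 0) * s i = -h0 * s 0 := by
          rw [Finset.sum_eq_single 0]
          · simp
          · intro b _ hb; simp [hb]
          · simp
        rw [this] at hs
        intro h; apply hs; rw [← h]; ring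
    obtain ⟨s, hs1, hs2⟩ := two_affine f g hf hg
    exact ⟨s, hf' s hs1, hg' s hs2⟩
  -- choose yl
  obtain ⟨yl, hyl, hγ⟩ : ∃ yl : ℤ, (∀ p : ℕ, p.Prime → (∀ i, (p : ℤ) ∣ hm i - h0 * ym i) →
      ¬ (p : ℤ) ∣ hl - h0 * yl) ∧ β0 + ∑ i, βm i * ym i + d * yl ≠ 0 := by
    by_cases hh : h0 = 0
    · obtain ⟨t, -, ht⟩ := crt1' (fun _ => False) (m := 1) (a := 0) (b := 0)
        (c := β0 + ∑ i, βm i * ym i) (e := d) one_ne_zero (fun _ _ h => h.elim)
        (fun _ _ h => h.elim) hm1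
      refine ⟨t, fun p hp h1 h2 => ?_, by rw [mul_comm d]; exact ht⟩
      rw [hh] at h2
      simp only [hh, zero_mul, sub_zero] at h1 h2
      exact F2 p hp (by rw [hh]; exact dvd_zero _) h1 h2
    · obtain ⟨t, ht1, ht2⟩ := crt1' (fun p => ∀ i, (p : ℤ) ∣ hm i - h0 * ym i)
        (m := hm 0 - h0 * ym 0) (a := hl) (b := -h0)
        (c := β0 + ∑ i, βm i * ym i) (e := d) (hm2 hh) (fun p _ h => h 0)
        (fun p hp hq hpl hp0 => by
          rw [dvd_neg] at hp0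
          refine F2 p hp hp0 (fun i => ?_) hpl
          have : hm i = (hm i - h0 * ym i) + h0 * ym i := by ring
          rw [this]; exact dvd_add (hq i) (Dvd.dvd.mul_right hp0 _)) hm1
      refine ⟨t, fun p hp h1 h2 => ht1 p hp h1 ?_, by rw [mul_comm d]; exact ht2⟩
      have : hl + t * -h0 = hl - h0 * t := by ring
      rw [this]; exact h2
  obtain ⟨ηm, hηm⟩ : ∃ ηm : Fin (n + 1) → ℤ, ∀ i, ηm i = hm i - h0 * ym i := ⟨_, fun i => rfl⟩
  obtain ⟨ηl, hηl⟩ : ∃ ηl : ℤ, ηl = hl - h0 * yl := ⟨_, rfl⟩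
  simp only [← hηm, ← hηl] at hyl hm2
  obtain ⟨c, hc⟩ := bezout (Fin.cons ηl ηm : Fin (n + 2) → ℤ) (fun p hp => by
    by_contra hcon
    push Not at hcon
    exact hyl p hp (fun i => by simpa using hcon i.succ) (by simpa using hcon 0))
  rw [Fin.sum_univ_succ] at hc
  simp only [Fin.cons_zero, Fin.cons_succ] at hc
  obtain ⟨rl0, hrl0⟩ : ∃ rl0 : ℤ, rl0 = (1 - h0) * c 0 := ⟨_, rfl⟩
  obtain ⟨rm0, hrm0⟩ : ∃ rm0 : Fin (n + 1) → ℤ, ∀ i, rm0 i = (1 - h0) * c i.succ :=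
    ⟨_, fun i => rfl⟩
  have hbase : ∑ i, ηm i * rm0 i + ηl * rl0 = 1 - h0 := by
    have e1 : ∑ i, ηm i * rm0 i = (1 - h0) * ∑ i : Fin (n + 1), c i.succ * ηm i := by
      rw [Finset.mul_sum]
      exact Finset.sum_congr rfl fun i _ => by rw [hrm0]; ring
    rw [e1, hrl0]; linear_combination (1 - h0) * hc
  -- final assembly from any solution
  have hfin : ∀ (rm : Fin (n + 1) → ℤ) (rl : ℤ), ∑ i, ηm i * rm i + ηl * rl = 1 - h0 →
      rl ≠ 0 → ∃ (ym : Fin (n + 1) → ℤ) (yl r0 : ℤ) (rm : Fin (n + 1) → ℤ) (rl : ℤ),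
      β0 + ∑ i, βm i * ym i + d * yl ≠ 0 ∧ rl ≠ 0 ∧
      r0 * h0 + ∑ i, rm i * hm i + rl * hl = 1 ∧
      r0 + ∑ i, rm i * ym i + rl * yl = 1 := by
    intro rm rl hsol hrl
    refine ⟨ym, yl, 1 - ∑ i, rm i * ym i - rl * yl, rm, rl, hγ, hrl, ?_, by ring⟩
    have e1 : ∑ i, ηm i * rm i = ∑ i, rm i * hm i - h0 * ∑ i, rm i * ym i := by
      rw [Finset.mul_sum, ← Finset.sum_sub_distrib]
      exact Finset.sum_congr rfl fun i _ => by rw [hηm]; ring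
    rw [e1, hηl] at hsol
    linear_combination hsol
  by_cases hr : rl0 = 0
  · obtain ⟨i, hi⟩ : ∃ i, ηm i ≠ 0 := by
      by_cases hh : h0 = 0
      · by_contra hcon
        push Not at hcon
        rw [hr, hh] at hbase
        simp [hcon] at hbase
      · exact ⟨0, hm2 hh⟩
    refine hfin (fun j => rm0 j - if j = i then ηl else 0) (ηm i) ?_ hi
    have e1 : ∑ j, ηm j * (rm0 j - if j = i then ηl else 0) = ∑ j, ηm j * rm0 j - ηm i * ηl := by
      have : ∑ j, ηm j * (if j = i then ηl else 0) = ηm i * ηl := by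
        rw [Finset.sum_eq_single i]
        · simp
        · intro b _ hb; simp [hb]
        · simp
      rw [← this, ← Finset.sum_sub_distrib]
      exact Finset.sum_congr rfl fun j _ => by ring
    rw [e1]; rw [hr] at hbase; linear_combination hbase
  · exact hfin rm0 rl0 hbase hr

end Pool.Agent.KS6_44.UU
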