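import Pool.Agent.KS6_44.UU.SL2
import Pool.Agent.KS6_44.UU.Ints
import Pool.Agent.KS6_44.UU.Ints2

namespace Pool.Agent.KS6_44.UU

open Matrix Finset

/-- the Schur complement of the corner entry `1` -/
def schur {l : ℕ} (M : Mat (l + 1) (l + 1)) : Mat l l :=
  Matrix.of fun i j => M i.succ j.succ - M i.succ 0 * M 0 j.succ

lemma schur_blk {l : ℕ} (M : Mat (l + 1) (l + 1)) (h1 : M 0 0 = 1) :
    M = (blk (1 : Mat 1 1) (Matrix.of fun _ j => M 0 j.succ) (Matrix.of fun i _ => M i.succ 0)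
      (Matrix.of fun i j => M i.succ j.succ)).submatrix (Fin.cast (Nat.add_comm l 1))
        (Fin.cast (Nat.add_comm l 1)) := by
  have e0 : Fin.cast (Nat.add_comm l 1) 0 = Fin.castAdd l (0 : Fin 1) := by ext; simp
  have e1 : ∀ i : Fin l, Fin.cast (Nat.add_comm l 1) i.succ = Fin.natAdd 1 i := fun i => by
    ext; simp [Nat.add_comm]
  ext i j
  refine Fin.cases ?_ (fun i => ?_) i <;> refine Fin.cases ?_ (fun j => ?_) j
  · rw [Matrix.submatrix_apply, e0, blk_cc, h1]; simp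
  · rw [Matrix.submatrix_apply, e0, e1, blk_cn]; simp
  · rw [Matrix.submatrix_apply, e0, e1, blk_nc]; simp
  · rw [Matrix.submatrix_apply, e1, e1, blk_nn]; simp

lemma schur_GK {l k : ℕ} (M : Mat (l + 1) (l + 1)) (h1 : M 0 0 = 1) (h : GK k (schur M)) :
    GK k M := by
  rw [schur_blk M h1, GK.cast]
  refine GK.blk_of (A' := 1) Good.one (by simp) ?_
  convert h using 1
  ext i j
  simp [schur, Matrix.mul_apply]

lemma schur_det {l : ℕ} (M : Mat (l + 1) (l + 1)) (h1 : M 0 0 = 1) :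
    (schur M).det = M.det := by
  conv_rhs => rw [schur_blk M h1]
  have : (Fin.cast (Nat.add_comm l 1) : Fin (l + 1) → Fin (1 + l)) = finCongr (Nat.add_comm l 1) :=
    rfl
  rw [this, Matrix.det_submatrix_equiv_self, det_blk_one]
  congr 1
  ext i j
  simp [schur, Matrix.mul_apply]

/-- one can pass from `A` to `S` -/
def Move {a b : ℕ} (A : Mat a a) (S : Mat b b) : Prop :=
  (∀ k, GK k S → GK k A) ∧ S.det = A.det

lemma Move.trans {a b c : ℕ} {A : Mat a a} {B : Mat b b} {C : Mat c c} (h : Move A B)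
    (h' : Move B C) : Move A C :=
  ⟨fun k hk => h.1 k (h'.1 k hk), h'.2.trans h.2⟩

theorem top_move {l : ℕ} {A H : Mat (l + 1) (l + 1)} (hHA : H * A = 1)
    {y r : Fin (l + 1) → ℤ} (hy : y 0 = 1) (hr : ∑ j, r j * H j 0 = 1)
    (hry : ∑ j, r j * y j = 1) :
    Move A (Matrix.of fun i j => A i.succ j.succ - (A *ᵥ y) i.succ * r j.succ : Mat l l) := by
  obtain ⟨x, hx⟩ : ∃ x : Fin (l + 1) → ℤ, x = r ᵥ* H := ⟨_, rfl⟩
  have hx0 : x 0 = 1 := by
    rw [hx]; simpa [Matrix.vecMul, dotProduct] using hr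
  have hxA : x ᵥ* A = r := by
    rw [hx, Matrix.vecMul_vecMul, hHA, Matrix.vecMul_one]
  obtain ⟨u, hu⟩ : ∃ u : Mat (l + 1) (l + 1), u = (1 : Mat (l + 1) (l + 1)).updateRow 0 x :=
    ⟨_, rfl⟩
  obtain ⟨v, hv⟩ : ∃ v : Mat (l + 1) (l + 1), v = (1 : Mat (l + 1) (l + 1)).updateCol 0 y :=
    ⟨_, rfl⟩
  have hU : IsU u := by
    rw [hu]
    constructor
    · intro i
      refine Fin.cases ?_ (fun i => ?_) i
      · simp [hx0]
      · rw [Matrix.updateRow_ne (Fin.succ_ne_zero i)]; simp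
    · intro i j hij
      have hi : i ≠ 0 := by rintro rfl; exact absurd hij (Fin.not_lt_zero j)
      rw [Matrix.updateRow_ne hi, Matrix.one_apply_ne (ne_of_gt hij)]
  have hL : IsL v := by
    rw [hv]
    constructor
    · intro i
      refine Fin.cases ?_ (fun i => ?_) i
      · simp [hy]
      · rw [Matrix.updateCol_ne (Fin.succ_ne_zero i)]; simp
    · intro i j hij
      have hj : j ≠ 0 := by rintro rfl; exact absurd hij (Fin.not_lt_zero i)
      rw [Matrix.updateCol_ne hj, Matrix.one_apply_ne (ne_of_lt hij)]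
  have huA0 : ∀ j, (u * A) 0 j = r j := by
    intro j
    have : (u * A) 0 j = (x ᵥ* A) j := by
      rw [hu]; simp [Matrix.mul_apply, Matrix.vecMul, dotProduct]
    rw [this, hxA]
  have huA : ∀ (i : Fin l) j, (u * A) i.succ j = A i.succ j := by
    intro i j
    have : (u * A) i.succ j = ((1 : Mat (l + 1) (l + 1)) * A) i.succ j := by
      rw [Matrix.mul_apply, Matrix.mul_apply]
      refine Finset.sum_congr rfl fun t _ => ?_
      rw [hu, Matrix.updateRow_ne (Fin.succ_ne_zero i)]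
    rw [this, Matrix.one_mul]
  have hMs : ∀ i (j : Fin l), (u * A * v) i j.succ = (u * A) i j.succ := by
    intro i j
    have : (u * A * v) i j.succ = ((u * A) * (1 : Mat (l + 1) (l + 1))) i j.succ := by
      rw [Matrix.mul_apply, Matrix.mul_apply]
      refine Finset.sum_congr rfl fun t _ => ?_
      rw [hv, Matrix.updateCol_ne (Fin.succ_ne_zero j)]
    rw [this, Matrix.mul_one]
  have hM0 : ∀ i, (u * A * v) i 0 = ∑ t, (u * A) i t * y t := by
    intro i
    rw [Matrix.mul_apply]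
    refine Finset.sum_congr rfl fun t _ => ?_
    rw [hv, Matrix.updateCol_self]
  have h00 : (u * A * v) 0 0 = 1 := by
    rw [hM0]; simp only [huA0]; exact hry
  have hsch : schur (u * A * v) =
      (Matrix.of fun i j => A i.succ j.succ - (A *ᵥ y) i.succ * r j.succ : Mat l l) := by
    ext i j
    simp only [schur, Matrix.of_apply, hMs, huA, huA0, hM0]
    rfl
  refine ⟨fun k hk => ?_, ?_⟩
  · refine GK.of_mul hU hL (schur_GK _ h00 ?_)
    rw [hsch]; exact hk
  · rw [← hsch, schur_det _ h00, Matrix.det_mul, Matrix.det_mul, hU.det, hL.det, one_mul, mul_one]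

/-- middle indices -/
def mid {n : ℕ} (i : Fin n) : Fin (n + 2) := i.succ.castSucc

lemma sum_three {n : ℕ} (f : Fin (n + 2) → ℤ) :
    ∑ j, f j = f 0 + ∑ i : Fin n, f (mid i) + f (Fin.last (n + 1)) := by
  rw [Fin.sum_univ_castSucc, Fin.sum_univ_succ]; rfl

/-- row condition -/
def RC {n : ℕ} (A : Mat (n + 2) (n + 2)) : Prop :=
  ∀ p : ℕ, p.Prime → (∀ i : Fin n, (p : ℤ) ∣ A (Fin.last _) (mid i)) →
    ¬ (p : ℤ) ∣ A (Fin.last _) (Fin.last _)

/-- column condition -/
def CC {n : ℕ} (A : Mat (n + 2) (n + 2)) : Prop :=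
  ∀ p : ℕ, p.Prime → (∀ i : Fin n, (p : ℤ) ∣ A (mid i) (Fin.last _)) →
    ¬ (p : ℤ) ∣ A (Fin.last _) (Fin.last _)

section facts
variable {n : ℕ} {A H : Mat (n + 2) (n + 2)}

lemma row_prim (hAH : A * H = 1) (i : Fin (n + 2)) {p : ℕ} (hp : p.Prime)
    (h0 : (p : ℤ) ∣ A i 0) (hm : ∀ j : Fin n, (p : ℤ) ∣ A i (mid j)) :
    ¬ (p : ℤ) ∣ A i (Fin.last _) := by
  intro hl
  have h1 : (A * H) i i = 1 := by rw [hAH]; simp
  rw [Matrix.mul_apply, sum_three] at h1
  apply (Nat.prime_iff_prime_int.1 hp).not_dvd_one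
  rw [← h1]
  exact dvd_add (dvd_add (Dvd.dvd.mul_right h0 _)
    (Finset.dvd_sum fun j _ => Dvd.dvd.mul_right (hm j) _)) (Dvd.dvd.mul_right hl _)

lemma col_prim (hHA : H * A = 1) (i : Fin (n + 2)) {p : ℕ} (hp : p.Prime)
    (h0 : (p : ℤ) ∣ A 0 i) (hm : ∀ j : Fin n, (p : ℤ) ∣ A (mid j) i) :
    ¬ (p : ℤ) ∣ A (Fin.last _) i := by
  have := row_prim (A := Aᵀ) (H := Hᵀ) (by rw [← Matrix.transpose_mul, hHA, Matrix.transpose_one])
    i hp h0 hm
  exact this

lemma last_row_h (hAH : A * H = 1) :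
    A (Fin.last _) 0 * H 0 0 + ∑ i, A (Fin.last _) (mid i) * H (mid i) 0 +
      A (Fin.last _) (Fin.last _) * H (Fin.last _) 0 = 0 := by
  have h1 : (A * H) (Fin.last _) 0 = 0 := by
    rw [hAH, Matrix.one_apply_ne]; exact (Fin.last_pos).ne'
  rw [Matrix.mul_apply, sum_three] at h1
  exact h1

end facts

lemma det_to_inv {N : ℕ} {A : Mat N N} (hA : A.det = 1) : ∃ H, A * H = 1 ∧ H * A = 1 :=
  ⟨A.adjugate, by rw [Matrix.mul_adjugate, hA, one_smul],
    by rw [Matrix.adjugate_mul, hA, one_smul]⟩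

/-- the vector with prescribed entries -/
def vec3 {n : ℕ} (a : ℤ) (b : Fin n → ℤ) (c : ℤ) : Fin (n + 2) → ℤ :=
  Fin.snoc (α := fun _ => ℤ) (Fin.cons a b) c

@[simp] lemma vec3_zero {n : ℕ} (a : ℤ) (b : Fin n → ℤ) (c : ℤ) : vec3 a b c 0 = a := by
  have : (0 : Fin (n + 2)) = Fin.castSucc 0 := rfl
  rw [vec3, this, Fin.snoc_castSucc]; rfl

@[simp] lemma vec3_mid {n : ℕ} (a : ℤ) (b : Fin n → ℤ) (c : ℤ) (i : Fin n) :
    vec3 a b c (mid i) = b i := by
  rw [vec3, mid, Fin.snoc_castSucc]; rfl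

@[simp] lemma vec3_last {n : ℕ} (a : ℤ) (b : Fin n → ℤ) (c : ℤ) :
    vec3 a b c (Fin.last _) = c := by
  rw [vec3, Fin.snoc_last]

lemma mulVec_vec3 {n : ℕ} (A : Mat (n + 2) (n + 2)) (a : ℤ) (b : Fin n → ℤ) (c : ℤ) (i) :
    (A *ᵥ vec3 a b c) i = A i 0 * a + ∑ j, A i (mid j) * b j + A i (Fin.last _) * c := by
  rw [Matrix.mulVec, dotProduct, sum_three]; simp

/-- Lemma DV / Pre -/
theorem dv_move {n : ℕ} {A : Mat (n + 3) (n + 3)} (hA : A.det = 1) :
    ∃ S : Mat (n + 2) (n + 2), Move A S ∧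
      (A (Fin.last _) (Fin.last _) = 0 → S (Fin.last _) (Fin.last _) ≠ 0) := by
  obtain ⟨H, hAH, hHA⟩ := det_to_inv hA
  obtain ⟨ym, yl, r0, rm, rl, h1, h2, h3, h4⟩ := dv_int (n := n)
    (β0 := A (Fin.last _) 0) (d := A (Fin.last _) (Fin.last _)) (h0 := H 0 0)
    (hl := H (Fin.last _) 0) (βm := fun i => A (Fin.last _) (mid i)) (hm := fun i => H (mid i) 0)
    (fun p hp a b => col_prim (n := n + 1) hAH 0 hp a b)
    (fun p hp a b => row_prim (n := n + 1) hAH _ hp a b)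
  have hmv := top_move (l := n + 2) (A := A) (H := H) hHA (y := vec3 1 ym yl)
    (r := vec3 r0 rm rl) (by simp) (by rw [sum_three]; simpa using h3)
    (by rw [sum_three]; simpa using h4)
  refine ⟨_, hmv, fun h0 => ?_⟩
  rw [Matrix.of_apply, mulVec_vec3, Fin.succ_last, vec3_last, h0, zero_sub, neg_ne_zero]
  refine mul_ne_zero ?_ h2
  simpa [h0] using h1

lemma mid_succ {n : ℕ} (i : Fin n) : (mid i).succ = (mid i.succ : Fin (n + 3)) := rfl

lemma last_succ {n : ℕ} : (Fin.last n).succ = Fin.last (n + 1) := Fin.succ_last n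

lemma mid_ne_last {n : ℕ} (i : Fin n) : mid i ≠ Fin.last (n + 1) := (Fin.castSucc_lt_last _).ne

lemma mid_ne_zero {n : ℕ} (i : Fin n) : mid i ≠ 0 := by
  intro h; exact absurd (congrArg Fin.val h) (by simp [mid])

theorem rc2_move {n : ℕ} {A : Mat (n + 4) (n + 4)} (hA : A.det = 1)
    (hd : A (Fin.last _) (Fin.last _) ≠ 0) :
    ∃ S : Mat (n + 3) (n + 3), Move A S ∧ RC S ∧ CC S := by
  obtain ⟨H, hAH, hHA⟩ := det_to_inv hA
  obtain ⟨ym, yl, r0, rm, rl, γ, hγ, h1, h2, h3, h4⟩ := rc2_int (n := n)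
    (β0 := A (Fin.last _) 0) (d := A (Fin.last _) (Fin.last _)) (h0 := H 0 0)
    (hl := H (Fin.last _) 0) (βm := fun i => A (Fin.last _) (mid i)) (hm := fun i => H (mid i) 0)
    (α2 := A (mid 1) (Fin.last _)) (a20 := A (mid 1) 0) (a2m := fun i => A (mid 1) (mid i)) hd
    (last_row_h hAH)
    (fun p hp a b => col_prim (n := n + 2) hAH 0 hp a b)
    (fun p hp a b => row_prim (n := n + 2) hAH _ hp a b)
    (by
      by_contra hcon
      push Not at hcon
      have hall : ∀ j, A (mid 1) (Fin.last _) * A (Fin.last _) j -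
          A (Fin.last _) (Fin.last _) * A (mid 1) j = 0 := by
        intro j
        refine Fin.lastCases ?_ (fun j => ?_) j
        · ring
        · refine Fin.cases ?_ (fun j => ?_) j
          · exact hcon.1
          · exact hcon.2 j
      have e1 : (A * H) (Fin.last (n + 3)) (mid 1) = 0 := by
        rw [hAH, Matrix.one_apply_ne]; exact (mid_ne_last _).symm
      have e2 : (A * H) (mid (1 : Fin (n + 2))) (mid 1) = 1 := by
        rw [hAH, Matrix.one_apply_eq]
      have e3 : A (mid 1) (Fin.last _) * (A * H) (Fin.last (n + 3)) (mid 1) -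
          A (Fin.last _) (Fin.last _) * (A * H) (mid (1 : Fin (n + 2))) (mid 1) = 0 := by
        rw [Matrix.mul_apply, Matrix.mul_apply, Finset.mul_sum, Finset.mul_sum,
          ← Finset.sum_sub_distrib]
        refine Finset.sum_eq_zero fun j _ => ?_
        have := hall j
        linear_combination H j (mid 1) * this
      rw [e1, e2] at e3
      apply hd
      linear_combination -e3)
  have hmv := top_move (l := n + 3) (A := A) (H := H) hHA (y := vec3 1 ym yl)
    (r := vec3 r0 rm rl) (by simp) (by rw [sum_three]; simpa using h1)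
    (by rw [sum_three]; simpa using h2)
  have hγ' : (A *ᵥ vec3 1 ym yl) (Fin.last _) = γ := by
    rw [mulVec_vec3, hγ]; ring
  refine ⟨_, hmv, ?_, ?_⟩
  · intro p hp h5 h6
    refine h3 p hp (fun i => ?_) ?_
    · have := h5 i
      rw [Matrix.of_apply, last_succ, mid_succ, hγ', vec3_mid] at this
      exact this
    · rw [Matrix.of_apply, last_succ, hγ', vec3_last] at h6
      exact h6
  · intro p hp h5 h6
    refine h4 p hp ?_ ?_
    · rw [Matrix.of_apply, last_succ, hγ', vec3_last] at h6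
      exact h6
    · have := h5 0
      rw [Matrix.of_apply, last_succ, mid_succ, mulVec_vec3, vec3_last] at this
      have e1 : (Fin.succ (0 : Fin (n + 1))) = 1 := rfl
      rw [e1, mul_one] at this
      exact this

theorem f_move {n : ℕ} {A : Mat (n + 4) (n + 4)} (hA : A.det = 1) (hR : RC A) (hC : CC A) :
    ∃ S : Mat (n + 3) (n + 3), Move A S ∧ S (Fin.last _) (Fin.last _) = 1 := by
  obtain ⟨H, hAH, hHA⟩ := det_to_inv hA
  obtain ⟨ym, yl, r0, rm, rl, h0, hrl, h1, h2⟩ := f_int (n := n)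
    (β0 := A (Fin.last _) 0) (d := A (Fin.last _) (Fin.last _)) (h0 := H 0 0)
    (hl := H (Fin.last _) 0) (βm := fun i => A (Fin.last _) (mid i)) (hm := fun i => H (mid i) 0)
    (αm := fun i => A (mid i) (Fin.last _)) (last_row_h hAH)
    (fun p hp a b => col_prim (n := n + 2) hAH 0 hp a b)
    (by
      intro p hp a b i
      have e1 : (A * H) (mid i) 0 = 0 := by
        rw [hAH, Matrix.one_apply_ne (mid_ne_zero i)]
      rw [Matrix.mul_apply, sum_three] at e1
      have e2 : A (mid i) (Fin.last _) * H (Fin.last _) 0 = -(A (mid i) 0 * H 0 0 +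
          ∑ j, A (mid i) (mid j) * H (mid j) 0) := by linarith
      rw [e2, dvd_neg]
      exact dvd_add (Dvd.dvd.mul_left a _) (Finset.dvd_sum fun j _ => Dvd.dvd.mul_left (b j) _))
    hR hC
  have hmv := top_move (l := n + 3) (A := A) (H := H) hHA (y := vec3 1 ym yl)
    (r := vec3 r0 rm rl) (by simp) (by rw [sum_three]; simpa using h1)
    (by rw [sum_three]; simpa using h2)
  refine ⟨_, hmv, ?_⟩
  rw [Matrix.of_apply, last_succ, mulVec_vec3, vec3_last, hrl]
  linear_combination (1 - A (Fin.last _) (Fin.last _)) * h0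

theorem strip_move {n : ℕ} {A : Mat (n + 1) (n + 1)} (h1 : A (Fin.last _) (Fin.last _) = 1) :
    ∃ B : Mat n n, B.det = A.det ∧ ∀ k, GK (1 + k) B → GK k A := by
  obtain ⟨A11, hA11⟩ : ∃ X : Mat n n, X = Matrix.of fun i j =>
    A (Fin.castAdd 1 i) (Fin.castAdd 1 j) := ⟨_, rfl⟩
  obtain ⟨A12, hA12⟩ : ∃ X : Mat n 1, X = Matrix.of fun i j =>
    A (Fin.castAdd 1 i) (Fin.natAdd n j) := ⟨_, rfl⟩
  obtain ⟨A21, hA21⟩ : ∃ X : Mat 1 n, X = Matrix.of fun i j =>
    A (Fin.natAdd n i) (Fin.castAdd 1 j) := ⟨_, rfl⟩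
  have hA : A = blk A11 A12 A21 1 := by
    rw [hA11, hA12, hA21]
    refine blk_ext (by simp) (by simp) (by simp) (fun i j => ?_)
    rw [blk_nn]
    have hi : i = 0 := Subsingleton.elim _ _
    have hj : j = 0 := Subsingleton.elim _ _
    subst hi; subst hj
    have : Fin.natAdd n (0 : Fin 1) = Fin.last n := by ext; simp
    rw [this, h1]; simp
  have e : blk 1 (-A12) 0 1 * A * blk 1 0 (-A21) 1 = blk (A11 - A12 * A21) 0 0 (1 : Mat 1 1) := by
    rw [hA, blk_mul, blk_mul]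
    simp only [Matrix.mul_zero, Matrix.zero_mul, add_zero, zero_add, Matrix.mul_one,
      Matrix.one_mul, add_neg_cancel, Matrix.neg_mul, Matrix.mul_neg, neg_zero]
    rw [← sub_eq_add_neg]
  have hu : IsU (blk 1 (-A12) 0 (1 : Mat 1 1)) := IsU.one.blk IsU.one
  have hv : IsL (blk 1 0 (-A21) (1 : Mat 1 1)) := IsL.one.blk IsL.one
  refine ⟨A11 - A12 * A21, ?_, fun k hk => ?_⟩
  · have := congrArg Matrix.det e
    rw [Matrix.det_mul, Matrix.det_mul, hu.det, hv.det, det_blk_diag, one_mul, mul_one,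
      Matrix.det_one, mul_one] at this
    exact this.symm
  · refine GK.of_mul hu hv ?_
    rw [e]
    exact GK.unstrip hk

/-- the family of statements proved by induction -/
def PK (k n0 : ℕ) : Prop := ∀ N, n0 ≤ N → ∀ A : Mat N N, A.det = 1 → GK k A

theorem PK_base : PK 6 2 := by
  intro N hN
  induction N, hN using Nat.le_induction with
  | base => exact fun A hA => GK6_all A hA
  | succ N hN ih =>
    obtain ⟨n, rfl⟩ : ∃ n, N = n + 2 := ⟨N - 2, by omega⟩
    intro A hA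
    obtain ⟨S, hS, -⟩ := dv_move (n := n) hA
    exact hS.1 6 (ih S (by rw [hS.2, hA]))

/-- growth for nonzero corner -/
theorem growth_ne {n k n0 : ℕ} (h : PK (1 + k) n0) (hn : n0 ≤ n + 2) {A : Mat (n + 5) (n + 5)}
    (hA : A.det = 1) (hd : A (Fin.last _) (Fin.last _) ≠ 0) : GK k A := by
  obtain ⟨S, hS, hR, hC⟩ := rc2_move (n := n + 1) hA hd
  obtain ⟨S', hS', h1⟩ := f_move (n := n) (A := S) (by rw [hS.2, hA]) hR hC
  obtain ⟨B, hB, hB'⟩ := strip_move h1
  exact hS.1 k (hS'.1 k (hB' k (h _ hn B (by rw [hB, hS'.2, hS.2, hA]))))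

theorem PK_step {k n0 : ℕ} (h2 : 2 ≤ n0) (h : PK (1 + k) n0) : PK k (n0 + 4) := by
  intro N hN A hA
  obtain ⟨n, rfl⟩ : ∃ n, N = n + 6 := ⟨N - 6, by omega⟩
  by_cases hd : A (Fin.last _) (Fin.last _) = 0
  · obtain ⟨S, hS, hS0⟩ := dv_move (n := n + 3) hA
    exact hS.1 k (growth_ne (n := n) h (by omega) (by rw [hS.2, hA]) (hS0 hd))
  · exact growth_ne (n := n + 1) h (by omega) hA hd

theorem PK_zero : PK 0 26 := by
  have h5 : PK 5 6 := PK_step (n0 := 2) le_rfl PK_base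
  have h4 : PK 4 10 := PK_step (n0 := 6) (by norm_num) h5
  have h3 : PK 3 14 := PK_step (n0 := 10) (by norm_num) h4
  have h2 : PK 2 18 := PK_step (n0 := 14) (by norm_num) h3
  have h1 : PK 1 22 := PK_step (n0 := 18) (by norm_num) h2
  exact PK_step (n0 := 22) (by norm_num) h1

theorem good_of_26_le {n : ℕ} (hn : 26 ≤ n) (A : Mat n n) (hA : A.det = 1) : Good A :=
  GK.zero_iff.1 (PK_zero n hn A hA)

end Pool.Agent.KS6_44.UU
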