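import Pool.Agent.KS6_44.UU.Basic

namespace Pool.Agent.KS6_44.UU

open Matrix

/-- the algebraic heart -/
theorem GK6_of {T T' M1 N1 M2 N2 Y Y' X1 : Mat 2 2} (hT : Good T) (hT2 : T' * T = 1)
    (h1 : 1 - N1 * M1 = Y) (h2 : 1 - N2 * M2 = Y' * X1) (hY : Y * Y' = 1) (hY' : Y' * Y = 1)
    (hc : X1 * Y = Y * X1) (hX : Good X1) :
    GK ((2 + 2) + 2) (T * ((1 - M1 * N1) * (1 - M2 * N2))) := by
  refine GK.strip ?_
  -- first splitting
  refine GK.split (T := T) (T' := T') (T * hcat M1 ((1 - M1 * N1) * M2)) (vcat N1 N2) ?_ hT hT2 ?_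
  · rw [Matrix.mul_zero, Matrix.zero_mul, Matrix.mul_one, add_zero, add_zero, Matrix.mul_assoc T,
      hcat_mul_vcat]
    noncomm_ring
  rw [zero_add, zero_add, Matrix.one_mul, Matrix.mul_one, Matrix.mul_assoc _ T', 
    ← Matrix.mul_assoc T', hT2, Matrix.one_mul, vcat_mul_hcat, ← blk_one, blk_sub]
  have e1 : N1 * ((1 - M1 * N1) * M2) = Y * (N1 * M2) := by
    rw [← h1]; noncomm_ring
  have e2 : 1 - N2 * ((1 - M1 * N1) * M2) = Y' * X1 + (N2 * M1) * (N1 * M2) := by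
    rw [← h2]; noncomm_ring
  rw [e1, e2, h1, zero_sub, zero_sub]
  generalize N1 * M2 = P
  generalize N2 * M1 = Q
  -- second splitting
  obtain ⟨ν, hν⟩ : ∃ ν : Mat 2 2, ν = -P - Y' + Y' * Y' * X1 := ⟨_, rfl⟩
  obtain ⟨κ, hκ⟩ : ∃ κ : Mat 2 2, κ = -(Q * Y') - 1 + Y := ⟨_, rfl⟩
  obtain ⟨m2, hm2⟩ : ∃ m2 : Mat 2 2, m2 = -(Q * Y') - 1 := ⟨_, rfl⟩
  have a1 : Y + (1 - Y) = 1 := by abel
  have a2 : -(Y * P) + (ν + Y * P) = ν := by abel
  have a3 : -Q + m2 * (1 - Y) = κ := by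
    have : m2 * (1 - Y) = -(Q * Y') - 1 + Q * (Y' * Y) + Y := by rw [hm2]; noncomm_ring
    rw [this, hY', Matrix.mul_one, hκ]; abel
  have a4 : Y' * X1 + Q * P + m2 * (ν + Y * P) = κ * ν + 1 := by
    have t1 : Y * ν = -(Y * P) - 1 + Y' * X1 := by
      rw [hν]
      have : Y * (-P - Y' + Y' * Y' * X1) = -(Y * P) - Y * Y' + (Y * Y') * Y' * X1 := by
        noncomm_ring
      rw [this, hY, Matrix.one_mul]
    have t2 : m2 * (ν + Y * P) = -(Q * Y' * ν) - Q * (Y' * Y) * P - ν - Y * P := by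
      rw [hm2]; noncomm_ring
    have t3 : κ * ν = -(Q * Y' * ν) - ν + Y * ν := by
      rw [hκ]; noncomm_ring
    rw [t2, t3, t1, hY', Matrix.mul_one]; abel
  have hT4 : blk Y (-(Y * P)) (-Q) (Y' * X1 + Q * P) + vcat 1 m2 * hcat (1 - Y) (ν + Y * P) =
      blk 1 ν κ (κ * ν + 1) := by
    rw [vcat_mul_hcat, blk_add, Matrix.one_mul, Matrix.one_mul, a1, a2, a3, a4]
  unfold GK
  have hinv : blk (1 + ν * κ) (-ν) (-κ) 1 * blk 1 ν κ (κ * ν + 1) = 1 := by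
    rw [blk_mul, ← blk_one]
    congr 1 <;> noncomm_ring
  have hg : Good (blk 1 ν κ (κ * ν + 1)) := by
    have : blk 1 ν κ (κ * ν + 1) = blk 1 0 κ 1 * blk 1 ν 0 1 := by
      rw [blk_mul]; congr 1 <;> simp
    rw [this]
    exact Good.lr (IsL.one.blk IsL.one) (IsU.one.blk IsU.one)
  have := GK.split (k := 0) (A := blk Y (-(Y * P)) (-Q) (Y' * X1 + Q * P)) (B := 0) (C := 0)
    (D := (1 : Mat 2 2)) (T := blk 1 ν κ (κ * ν + 1)) (T' := blk (1 + ν * κ) (-ν) (-κ) 1)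
    (vcat 1 m2) (hcat (1 - Y) (ν + Y * P)) (by
      rw [Matrix.mul_zero, Matrix.zero_mul, Matrix.mul_one, add_zero, add_zero, hT4]) hg hinv ?_
  · exact GK.zero_iff.1 this
  · rw [GK.zero_iff]
    have key : (1 : Mat 2 2) - ((0 : Mat 2 (2 + 2)) + (1 : Mat 2 2) * hcat (1 - Y) (ν + Y * P)) * blk (1 + ν * κ) (-ν) (-κ) 1 *
        ((0 : Mat (2 + 2) 2) + vcat 1 m2 * (1 : Mat 2 2)) = X1 := by
      rw [zero_add, zero_add, Matrix.one_mul, Matrix.mul_one, hcat_mul_blk, hcat_mul_vcat]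
      have t1 : Y * (ν + P) = -1 + Y' * X1 := by
        rw [hν]
        have : Y * (-P - Y' + Y' * Y' * X1 + P) = - (Y * Y') + (Y * Y') * Y' * X1 := by
          noncomm_ring
        rw [this, hY, Matrix.one_mul]
      have t2 : (1 : Mat 2 2) - (((1 - Y) * (1 + ν * κ) + (ν + Y * P) * -κ) * 1 +
          ((1 - Y) * -ν + (ν + Y * P) * 1) * m2) = Y + (Y * (ν + P)) * (κ - m2) := by
        noncomm_ring
      have t3 : κ - m2 = Y := by rw [hκ, hm2]; abel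
      rw [t2, t3, t1]
      have : Y + (-1 + Y' * X1) * Y = Y' * (X1 * Y) := by noncomm_ring
      rw [this, hc, ← Matrix.mul_assoc, hY', Matrix.one_mul]
    rw [key]
    exact hX

end Pool.Agent.KS6_44.UU
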