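import Pool.Agent.KS6_44.UU.Alg

namespace Pool.Agent.KS6_44.UU

open Matrix

lemma cancel_right {P Q N : Mat 2 2} (hN : N.det ≠ 0) (h : P * N = Q * N) : P = Q := by
  have h1 : (P - Q) * N = 0 := by rw [Matrix.sub_mul, h, sub_self]
  have h2 : (P - Q) * (N * N.adjugate) = 0 := by rw [← Matrix.mul_assoc, h1, Matrix.zero_mul]
  rw [Matrix.mul_adjugate, Matrix.mul_smul, Matrix.mul_one] at h2
  have h3 : P - Q = 0 := (smul_eq_zero.1 h2).resolve_left hN
  exact sub_eq_zero.1 h3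

lemma exists_right_b {b : ℤ} {W : Mat 2 2} (h1 : b ∣ W 0 1) (h2 : b ∣ W 1 1) :
    ∃ K : Mat 2 2, K * !![1, 0; 0, b] = W := by
  obtain ⟨x, hx⟩ := h1
  obtain ⟨y, hy⟩ := h2
  refine ⟨!![W 0 0, x; W 1 0, y], ?_⟩
  ext i j
  fin_cases i <;> fin_cases j <;> simp [Matrix.mul_apply, Fin.sum_univ_two, hx, hy, mul_comm]

lemma exists_right_c {c : ℤ} {W : Mat 2 2} (h1 : c ∣ W 0 0) (h2 : c ∣ W 1 0) :
    ∃ K : Mat 2 2, K * !![c, 0; 0, 1] = W := by
  obtain ⟨x, hx⟩ := h1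
  obtain ⟨y, hy⟩ := h2
  refine ⟨!![x, W 0 1; y, W 1 1], ?_⟩
  ext i j
  fin_cases i <;> fin_cases j <;> simp [Matrix.mul_apply, Fin.sum_univ_two, hx, hy, mul_comm]

lemma pow_mod_b (a b c d : ℤ) (n : ℕ) :
    b ∣ ((!![a, b; c, d] : Mat 2 2) ^ n) 0 1 ∧ b ∣ ((!![a, b; c, d] : Mat 2 2) ^ n) 1 1 - d ^ n := by
  induction n with
  | zero => simp
  | succ n ih =>
    obtain ⟨⟨x, hx⟩, ⟨y, hy⟩⟩ := ih
    rw [pow_succ]
    generalize (!![a, b; c, d] : Mat 2 2) ^ n = P at *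
    constructor
    · refine ⟨P 0 0 + x * d, ?_⟩
      simp [Matrix.mul_apply, Fin.sum_univ_two, hx]; ring
    · refine ⟨P 1 0 + y * d, ?_⟩
      have : P 1 1 = b * y + d ^ n := by linarith
      simp [Matrix.mul_apply, Fin.sum_univ_two, this]; ring

lemma pow_mod_c (a b c d : ℤ) (n : ℕ) :
    c ∣ ((!![d, -b; -c, a] : Mat 2 2) ^ n) 1 0 ∧
      c ∣ ((!![d, -b; -c, a] : Mat 2 2) ^ n) 0 0 - d ^ n := by
  induction n with
  | zero => simp
  | succ n ih =>
    obtain ⟨⟨x, hx⟩, ⟨y, hy⟩⟩ := ih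
    rw [pow_succ]
    generalize (!![d, -b; -c, a] : Mat 2 2) ^ n = P at *
    constructor
    · refine ⟨x * d - P 1 1, ?_⟩
      simp [Matrix.mul_apply, Fin.sum_univ_two, hx]; ring
    · refine ⟨y * d - P 0 1, ?_⟩
      have : P 0 0 = c * y + d ^ n := by linarith
      simp [Matrix.mul_apply, Fin.sum_univ_two, this]; ring

lemma comm_pow {N X X1 : Mat 2 2} (h : N * X = X1 * N) (n : ℕ) : N * X ^ n = X1 ^ n * N := by
  induction n with
  | zero => simp
  | succ n ih => rw [pow_succ, pow_succ, ← Matrix.mul_assoc, ih, Matrix.mul_assoc, h,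
      ← Matrix.mul_assoc]

lemma good_X1 {a d e : ℤ} (h : a * d - e = 1) : Good (!![a, 1; e, d] : Mat 2 2) := by
  refine ⟨1, !![1, 0; 1 - a, 1], !![1, 0; d - 1, 1], !![1, 1; 0, 1], IsU.one, ?_, ?_, ?_, ?_⟩
  · constructor
    · intro i; fin_cases i <;> simp
    · intro i j hij; fin_cases i <;> fin_cases j <;> simp at hij ⊢
  · constructor
    · intro i; fin_cases i <;> simp
    · intro i j hij; fin_cases i <;> fin_cases j <;> simp at hij ⊢
  · constructor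
    · intro i; fin_cases i <;> simp
    · intro i j hij; fin_cases i <;> fin_cases j <;> simp at hij ⊢
  · have he : e = a * d - 1 := by linarith
    subst he
    ext i j
    fin_cases i <;> fin_cases j <;> simp [Matrix.mul_apply, Fin.sum_univ_two] <;> ring

theorem GK6_X {a b c d : ℤ} (hdet : a * d - b * c = 1) (hb : b ≠ 0) (hc : c ≠ 0) (v : ℕ)
    (h1 : b ∣ 1 - d ^ (v + 1)) (h2 : c ∣ 1 - d ^ v) {T T' h h' : Mat 2 2} (hT : Good T)
    (hT2 : T' * T = 1) (hh : h * h' = 1) (hh' : h' * h = 1) :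
    GK ((2 + 2) + 2) (T * (h' * !![a, b; c, d] * h)) := by
  obtain ⟨X, hX⟩ : ∃ X : Mat 2 2, X = !![a, b; c, d] := ⟨_, rfl⟩
  obtain ⟨X', hX'⟩ : ∃ X : Mat 2 2, X = !![d, -b; -c, a] := ⟨_, rfl⟩
  obtain ⟨X1, hX1⟩ : ∃ X : Mat 2 2, X = !![a, 1; b * c, d] := ⟨_, rfl⟩
  obtain ⟨X1', hX1'⟩ : ∃ X : Mat 2 2, X = !![d, -1; -(b * c), a] := ⟨_, rfl⟩
  obtain ⟨N2, hN2⟩ : ∃ X : Mat 2 2, X = !![0, 1; c, d - a] := ⟨_, rfl⟩
  obtain ⟨N1, hN1⟩ : ∃ X : Mat 2 2, X = !![1, 0; 0, b] := ⟨_, rfl⟩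
  have e1 : X * X' = 1 := by
    rw [hX, hX']; ext i j
    fin_cases i <;> fin_cases j <;> simp [Matrix.mul_apply, Fin.sum_univ_two] <;> linarith
  have e1' : X' * X = 1 := by
    rw [hX, hX']; ext i j
    fin_cases i <;> fin_cases j <;> simp [Matrix.mul_apply, Fin.sum_univ_two] <;> linarith
  have e2 : X1 * X1' = 1 := by
    rw [hX1, hX1']; ext i j
    fin_cases i <;> fin_cases j <;> simp [Matrix.mul_apply, Fin.sum_univ_two] <;> linarith
  have e2' : X1' * X1 = 1 := by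
    rw [hX1, hX1']; ext i j
    fin_cases i <;> fin_cases j <;> simp [Matrix.mul_apply, Fin.sum_univ_two] <;> linarith
  have c1 : N1 * X = X1 * N1 := by
    rw [hN1, hX, hX1]; ext i j
    fin_cases i <;> fin_cases j <;> simp [Matrix.mul_apply, Fin.sum_univ_two] <;> ring
  have c2 : N2 * X = X1 * N2 := by
    rw [hN2, hX, hX1]; ext i j
    fin_cases i <;> fin_cases j <;> simp [Matrix.mul_apply, Fin.sum_univ_two] <;> ring
  have c2' : N2 * X' = X1' * N2 := by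
    calc N2 * X' = X1' * X1 * (N2 * X') := by rw [e2', Matrix.one_mul]
      _ = X1' * (X1 * N2) * X' := by simp only [Matrix.mul_assoc]
      _ = X1' * N2 * (X * X') := by rw [← c2]; simp only [Matrix.mul_assoc]
      _ = X1' * N2 := by rw [e1, Matrix.mul_one]
  -- M1
  obtain ⟨M1, hM1⟩ : ∃ M1, M1 * N1 = 1 - X ^ (v + 1) := by
    rw [hN1]
    obtain ⟨p1, p2⟩ := pow_mod_b a b c d (v + 1)
    rw [← hX] at p1 p2
    refine exists_right_b ?_ ?_
    · simpa using p1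
    · have : (1 - X ^ (v + 1)) 1 1 = (1 - d ^ (v + 1)) - ((X ^ (v + 1)) 1 1 - d ^ (v + 1)) := by
        simp
      rw [this]; exact dvd_sub h1 p2
  obtain ⟨M2, hM2⟩ : ∃ M2, M2 * N2 = 1 - X' ^ v := by
    obtain ⟨p1, p2⟩ := pow_mod_c a b c d v
    rw [← hX'] at p1 p2
    obtain ⟨K, hK⟩ : ∃ K : Mat 2 2, K * !![c, 0; 0, 1] = 1 - X' ^ v := by
      refine exists_right_c ?_ ?_
      · have : (1 - X' ^ v) 0 0 = (1 - d ^ v) - ((X' ^ v) 0 0 - d ^ v) := by
          simp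
        rw [this]; exact dvd_sub h2 p2
      · simpa using p1
    refine ⟨K * !![a - d, 1; 1, 0], ?_⟩
    rw [← hK, hN2, Matrix.mul_assoc]
    congr 1
    ext i j
    fin_cases i <;> fin_cases j <;> simp [Matrix.mul_apply, Fin.sum_univ_two]
  have n1 : N1 * M1 = 1 - X1 ^ (v + 1) := by
    refine cancel_right (N := N1) (by rw [hN1]; simpa [Matrix.det_fin_two] using hb) ?_
    rw [Matrix.mul_assoc, hM1, Matrix.mul_sub, Matrix.sub_mul, comm_pow c1, Matrix.mul_one,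
      Matrix.one_mul]
  have n2 : N2 * M2 = 1 - X1' ^ v := by
    refine cancel_right (N := N2) (by rw [hN2]; simpa [Matrix.det_fin_two] using hc) ?_
    rw [Matrix.mul_assoc, hM2, Matrix.mul_sub, Matrix.sub_mul, comm_pow c2', Matrix.mul_one,
      Matrix.one_mul]
  have hpow : ∀ (P P' : Mat 2 2) (n : ℕ), P * P' = 1 → P' * P = 1 → P ^ n * P' ^ n = 1 := by
    intro P P' n q1 q2
    have hcm : Commute P P' := by rw [Commute, SemiconjBy, q1, q2]
    rw [← hcm.mul_pow, q1, one_pow]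
  have key := GK6_of (T := T) (T' := T') (M1 := h' * M1) (N1 := N1 * h) (M2 := h' * M2)
    (N2 := N2 * h) (Y := X1 ^ (v + 1)) (Y' := X1' ^ (v + 1)) (X1 := X1) hT hT2 ?_ ?_ ?_ ?_ ?_ ?_
  · have z1 : 1 - h' * M1 * (N1 * h) = h' * X ^ (v + 1) * h := by
      have : h' * M1 * (N1 * h) = h' * (M1 * N1) * h := by simp only [Matrix.mul_assoc]
      rw [this, hM1, Matrix.mul_sub, Matrix.sub_mul, Matrix.mul_one, hh']; abel
    have z2 : 1 - h' * M2 * (N2 * h) = h' * X' ^ v * h := by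
      have : h' * M2 * (N2 * h) = h' * (M2 * N2) * h := by simp only [Matrix.mul_assoc]
      rw [this, hM2, Matrix.mul_sub, Matrix.sub_mul, Matrix.mul_one, hh']; abel
    rw [z1, z2] at key
    have : h' * X ^ (v + 1) * h * (h' * X' ^ v * h) = h' * X * h := by
      calc h' * X ^ (v + 1) * h * (h' * X' ^ v * h)
          = h' * X ^ (v + 1) * (h * h') * X' ^ v * h := by simp only [Matrix.mul_assoc]
        _ = h' * (X * (X ^ v * X' ^ v)) * h := by
            rw [hh, Matrix.mul_one, pow_succ']; simp only [Matrix.mul_assoc]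
        _ = h' * X * h := by rw [hpow X X' v e1 e1', Matrix.mul_one]
    rw [this, hX] at key
    exact key
  · have : N1 * h * (h' * M1) = N1 * (h * h') * M1 := by simp only [Matrix.mul_assoc]
    rw [this, hh, Matrix.mul_one, n1]; abel
  · have : N2 * h * (h' * M2) = N2 * (h * h') * M2 := by simp only [Matrix.mul_assoc]
    rw [this, hh, Matrix.mul_one, n2, pow_succ, Matrix.mul_assoc, e2', Matrix.mul_one]; abel
  · exact hpow X1 X1' (v + 1) e2 e2'
  · exact hpow X1' X1 (v + 1) e2' e2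
  · rw [← pow_succ, ← pow_succ']
  · rw [hX1]; exact good_X1 (by linarith)

end Pool.Agent.KS6_44.UU
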