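import Mathlib

/-!
Unitriangular factorisations of integer matrices: block machinery.
-/

namespace Pool.Agent.KS6_44.UU

open Matrix

/-- integer matrices -/
abbrev Mat (m n : ℕ) := Matrix (Fin m) (Fin n) ℤ

/-- upper unitriangular -/
def IsU {n : ℕ} (u : Mat n n) : Prop := (∀ i, u i i = 1) ∧ ∀ i j, j < i → u i j = 0

/-- lower unitriangular -/
def IsL {n : ℕ} (v : Mat n n) : Prop := (∀ i, v i i = 1) ∧ ∀ i j, i < j → v i j = 0

lemma IsU.one {n : ℕ} : IsU (1 : Mat n n) :=
  ⟨fun i => by simp, fun i j h => by simp [Matrix.one_apply_ne (ne_of_gt h)]⟩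

lemma IsL.one {n : ℕ} : IsL (1 : Mat n n) :=
  ⟨fun i => by simp, fun i j h => by simp [Matrix.one_apply_ne (ne_of_lt h)]⟩

lemma IsU.transpose {n : ℕ} {u : Mat n n} (h : IsU u) : IsL uᵀ :=
  ⟨fun i => h.1 i, fun i j hij => h.2 j i hij⟩

lemma IsL.transpose {n : ℕ} {u : Mat n n} (h : IsL u) : IsU uᵀ :=
  ⟨fun i => h.1 i, fun i j hij => h.2 j i hij⟩

lemma IsU.mul {n : ℕ} {u v : Mat n n} (hu : IsU u) (hv : IsU v) : IsU (u * v) := by
  refine ⟨fun i => ?_, fun i j hij => ?_⟩
  · rw [Matrix.mul_apply, Finset.sum_eq_single i]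
    · rw [hu.1, hv.1, one_mul]
    · intro k _ hk
      rcases lt_or_gt_of_ne hk with h | h
      · rw [hu.2 i k h, zero_mul]
      · rw [hv.2 k i h, mul_zero]
    · intro h; exact absurd (Finset.mem_univ i) h
  · rw [Matrix.mul_apply]
    refine Finset.sum_eq_zero fun k _ => ?_
    rcases lt_or_ge k i with h | h
    · rw [hu.2 i k h, zero_mul]
    · rw [hv.2 k j (lt_of_lt_of_le hij h), mul_zero]

lemma IsL.mul {n : ℕ} {u v : Mat n n} (hu : IsL u) (hv : IsL v) : IsL (u * v) := by
  have := (IsU.mul hv.transpose hu.transpose).transpose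
  rwa [← Matrix.transpose_mul, Matrix.transpose_transpose] at this

lemma IsU.det {n : ℕ} {u : Mat n n} (hu : IsU u) : u.det = 1 := by
  rw [Matrix.det_of_isUpperTriangular (M := u) (fun i j hij => hu.2 i j hij)]
  simp [hu.1]

lemma IsL.det {n : ℕ} {u : Mat n n} (hu : IsL u) : u.det = 1 := by
  rw [← Matrix.det_transpose]; exact hu.transpose.det

lemma IsU.inv {n : ℕ} {u : Mat n n} (hu : IsU u) :
    ∃ u' : Mat n n, IsU u' ∧ u * u' = 1 ∧ u' * u = 1 := by
  have hd : IsUnit u.det := by rw [hu.det]; exact isUnit_one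
  have h1 : u * u⁻¹ = 1 := Matrix.mul_nonsing_inv u hd
  have h2 : u⁻¹ * u = 1 := Matrix.nonsing_inv_mul u hd
  have : Invertible u := Matrix.invertibleOfIsUnitDet u hd
  have hb : BlockTriangular u id := fun i j hij => hu.2 i j hij
  have hb' : BlockTriangular u⁻¹ id := blockTriangular_inv_of_blockTriangular hb
  have h0 : ∀ i j, j < i → u⁻¹ i j = 0 := fun i j hij => hb' hij
  refine ⟨u⁻¹, ⟨fun i => ?_, h0⟩, h1, h2⟩
  have h3 := congrFun (congrFun h1 i) i
  rw [Matrix.mul_apply, Finset.sum_eq_single i] at h3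
  · rw [hu.1, one_mul] at h3; rw [h3]; simp
  · intro k _ hk
    rcases lt_or_gt_of_ne hk with h | h
    · rw [hu.2 i k h, zero_mul]
    · rw [h0 k i h, mul_zero]
  · intro h; exact absurd (Finset.mem_univ i) h

lemma IsL.inv {n : ℕ} {u : Mat n n} (hu : IsL u) :
    ∃ u' : Mat n n, IsL u' ∧ u * u' = 1 ∧ u' * u = 1 := by
  obtain ⟨w, hw, h1, h2⟩ := hu.transpose.inv
  refine ⟨wᵀ, hw.transpose, ?_, ?_⟩
  · have := congrArg Matrix.transpose h2
    rwa [Matrix.transpose_mul, Matrix.transpose_transpose, Matrix.transpose_one] at this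
  · have := congrArg Matrix.transpose h1
    rwa [Matrix.transpose_mul, Matrix.transpose_transpose, Matrix.transpose_one] at this

/-- `A` can be moved into `U⁻U` by `U` from the left and `U⁻` from the right. -/
def Good {n : ℕ} (A : Mat n n) : Prop :=
  ∃ u v l r : Mat n n, IsU u ∧ IsL v ∧ IsL l ∧ IsU r ∧ u * A * v = l * r

lemma Good.of_mul {n : ℕ} {A u v : Mat n n} (hu : IsU u) (hv : IsL v) (h : Good (u * A * v)) :
    Good A := by
  obtain ⟨u1, v1, l, r, h1, h2, h3, h4, h5⟩ := h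
  exact ⟨u1 * u, v * v1, l, r, h1.mul hu, hv.mul h2, h3, h4, by
    rw [← h5]; simp only [Matrix.mul_assoc]⟩

lemma Good.one {n : ℕ} : Good (1 : Mat n n) :=
  ⟨1, 1, 1, 1, IsU.one, IsL.one, IsL.one, IsU.one, by simp⟩

lemma Good.lr {n : ℕ} {l r : Mat n n} (hl : IsL l) (hr : IsU r) : Good (l * r) :=
  ⟨1, 1, l, r, IsU.one, IsL.one, hl, hr, by simp⟩

/-- block matrices -/
def blk {m n : ℕ} (A : Mat m m) (B : Mat m n) (C : Mat n m) (D : Mat n n) :
    Mat (m + n) (m + n) :=
  (Matrix.fromBlocks A B C D).submatrix finSumFinEquiv.symm finSumFinEquiv.symm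

/-- horizontal concatenation -/
def hcat {m n k : ℕ} (B : Mat m n) (E : Mat m k) : Mat m (n + k) :=
  (Matrix.fromCols B E).submatrix id finSumFinEquiv.symm

/-- vertical concatenation -/
def vcat {m n k : ℕ} (B : Mat n m) (E : Mat k m) : Mat (n + k) m :=
  (Matrix.fromRows B E).submatrix finSumFinEquiv.symm id

section blk
variable {m n k : ℕ}

@[simp] lemma blk_cc (A : Mat m m) (B : Mat m n) (C : Mat n m) (D : Mat n n) (i j : Fin m) :
    blk A B C D (Fin.castAdd n i) (Fin.castAdd n j) = A i j := by simp [blk]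

@[simp] lemma blk_cn (A : Mat m m) (B : Mat m n) (C : Mat n m) (D : Mat n n) (i : Fin m)
    (j : Fin n) : blk A B C D (Fin.castAdd n i) (Fin.natAdd m j) = B i j := by simp [blk]

@[simp] lemma blk_nc (A : Mat m m) (B : Mat m n) (C : Mat n m) (D : Mat n n) (i : Fin n)
    (j : Fin m) : blk A B C D (Fin.natAdd m i) (Fin.castAdd n j) = C i j := by simp [blk]

@[simp] lemma blk_nn (A : Mat m m) (B : Mat m n) (C : Mat n m) (D : Mat n n) (i j : Fin n) :
    blk A B C D (Fin.natAdd m i) (Fin.natAdd m j) = D i j := by simp [blk]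

@[simp] lemma hcat_c (B : Mat m n) (E : Mat m k) (i : Fin m) (j : Fin n) :
    hcat B E i (Fin.castAdd k j) = B i j := by simp [hcat]

@[simp] lemma hcat_n (B : Mat m n) (E : Mat m k) (i : Fin m) (j : Fin k) :
    hcat B E i (Fin.natAdd n j) = E i j := by simp [hcat]

@[simp] lemma vcat_c (B : Mat n m) (E : Mat k m) (i : Fin n) (j : Fin m) :
    vcat B E (Fin.castAdd k i) j = B i j := by simp [vcat]

@[simp] lemma vcat_n (B : Mat n m) (E : Mat k m) (i : Fin k) (j : Fin m) :
    vcat B E (Fin.natAdd n i) j = E i j := by simp [vcat]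

lemma blk_ext {M N : Mat (m + n) (m + n)}
    (h1 : ∀ i j, M (Fin.castAdd n i) (Fin.castAdd n j) = N (Fin.castAdd n i) (Fin.castAdd n j))
    (h2 : ∀ i j, M (Fin.castAdd n i) (Fin.natAdd m j) = N (Fin.castAdd n i) (Fin.natAdd m j))
    (h3 : ∀ i j, M (Fin.natAdd m i) (Fin.castAdd n j) = N (Fin.natAdd m i) (Fin.castAdd n j))
    (h4 : ∀ i j, M (Fin.natAdd m i) (Fin.natAdd m j) = N (Fin.natAdd m i) (Fin.natAdd m j)) :
    M = N := by
  ext i j
  refine Fin.addCases (fun i => ?_) (fun i => ?_) i <;>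
    refine Fin.addCases (fun j => ?_) (fun j => ?_) j
  · exact h1 i j
  · exact h2 i j
  · exact h3 i j
  · exact h4 i j

lemma blk_eta (M : Mat (m + n) (m + n)) :
    M = blk (Matrix.of fun i j => M (Fin.castAdd n i) (Fin.castAdd n j))
      (Matrix.of fun i j => M (Fin.castAdd n i) (Fin.natAdd m j))
      (Matrix.of fun i j => M (Fin.natAdd m i) (Fin.castAdd n j))
      (Matrix.of fun i j => M (Fin.natAdd m i) (Fin.natAdd m j)) :=
  blk_ext (by simp) (by simp) (by simp) (by simp)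

lemma blk_mul (A A' : Mat m m) (B B' : Mat m n) (C C' : Mat n m) (D D' : Mat n n) :
    blk A B C D * blk A' B' C' D' =
      blk (A * A' + B * C') (A * B' + B * D') (C * A' + D * C') (C * B' + D * D') := by
  unfold blk
  rw [Matrix.submatrix_mul_equiv, Matrix.fromBlocks_multiply]

lemma blk_one : blk (1 : Mat m m) 0 0 (1 : Mat n n) = 1 := by
  unfold blk
  rw [Matrix.fromBlocks_one, Matrix.submatrix_one_equiv]

lemma blk_zero : blk (0 : Mat m m) 0 0 (0 : Mat n n) = 0 := by
  unfold blk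
  rw [Matrix.fromBlocks_zero]; rfl

lemma blk_add (A A' : Mat m m) (B B' : Mat m n) (C C' : Mat n m) (D D' : Mat n n) :
    blk A B C D + blk A' B' C' D' = blk (A + A') (B + B') (C + C') (D + D') :=
  blk_ext (by simp) (by simp) (by simp) (by simp)

lemma blk_sub (A A' : Mat m m) (B B' : Mat m n) (C C' : Mat n m) (D D' : Mat n n) :
    blk A B C D - blk A' B' C' D' = blk (A - A') (B - B') (C - C') (D - D') :=
  blk_ext (by simp) (by simp) (by simp) (by simp)

lemma hcat_mul_vcat {p q : ℕ} (B : Mat p n) (E : Mat p k) (B' : Mat n q) (E' : Mat k q) :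
    hcat B E * vcat B' E' = B * B' + E * E' := by
  unfold hcat vcat
  rw [Matrix.submatrix_mul_equiv, Matrix.fromCols_mul_fromRows]; rfl

lemma vcat_mul_hcat {p : ℕ} (B : Mat m p) (E : Mat n p) (B' : Mat p m) (E' : Mat p n) :
    vcat B E * hcat B' E' = blk (B * B') (B * E') (E * B') (E * E') :=
  blk_ext (by simp [Matrix.mul_apply]) (by simp [Matrix.mul_apply]) (by simp [Matrix.mul_apply])
    (by simp [Matrix.mul_apply])

lemma hcat_mul_blk {p : ℕ} (B : Mat p m) (E : Mat p n) (A : Mat m m) (B' : Mat m n)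
    (C : Mat n m) (D : Mat n n) :
    hcat B E * blk A B' C D = hcat (B * A + E * C) (B * B' + E * D) := by
  unfold hcat blk
  rw [Matrix.submatrix_mul_equiv, Matrix.fromCols_mul_fromBlocks]

lemma blk_mul_vcat {p : ℕ} (B : Mat m p) (E : Mat n p) (A : Mat m m) (B' : Mat m n)
    (C : Mat n m) (D : Mat n n) :
    blk A B' C D * vcat B E = vcat (A * B + B' * E) (C * B + D * E) := by
  unfold vcat blk
  rw [Matrix.submatrix_mul_equiv, Matrix.fromBlocks_mul_fromRows]

lemma vcat_mul {p q : ℕ} (B : Mat m p) (E : Mat n p) (A : Mat p q) :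
    vcat B E * A = vcat (B * A) (E * A) := by
  ext i j
  refine Fin.addCases (fun i => ?_) (fun i => ?_) i <;> simp [Matrix.mul_apply]

lemma mul_hcat {p q : ℕ} (B : Mat p m) (E : Mat p n) (A : Mat q p) :
    A * hcat B E = hcat (A * B) (A * E) := by
  ext i j
  refine Fin.addCases (fun j => ?_) (fun j => ?_) j <;> simp [Matrix.mul_apply]

lemma det_blk_one (B : Mat m n) (C : Mat n m) (D : Mat n n) :
    (blk 1 B C D).det = (D - C * B).det := by
  unfold blk
  rw [Matrix.det_submatrix_equiv_self, Matrix.det_fromBlocks_one₁₁]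

lemma det_blk_diag (A : Mat m m) (D : Mat n n) :
    (blk A 0 0 D).det = A.det * D.det := by
  unfold blk
  rw [Matrix.det_submatrix_equiv_self, Matrix.det_fromBlocks_zero₂₁]

lemma IsU.blk {A : Mat m m} {B : Mat m n} {D : Mat n n} (hA : IsU A) (hD : IsU D) :
    IsU (blk A B 0 D) := by
  constructor
  · intro i
    refine Fin.addCases (fun i => ?_) (fun i => ?_) i
    · rw [blk_cc]; exact hA.1 i
    · rw [blk_nn]; exact hD.1 i
  · intro i j
    refine Fin.addCases (fun i => ?_) (fun i => ?_) i <;>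
      refine Fin.addCases (fun j => ?_) (fun j => ?_) j <;> intro hij
    · rw [blk_cc]; exact hA.2 i j (by rw [Fin.lt_def] at hij ⊢; simpa using hij)
    · exfalso; rw [Fin.lt_def] at hij; simp at hij; omega
    · rw [blk_nc]; rfl
    · rw [blk_nn]; exact hD.2 i j (by rw [Fin.lt_def] at hij ⊢; simpa using hij)

lemma IsL.blk {A : Mat m m} {C : Mat n m} {D : Mat n n} (hA : IsL A) (hD : IsL D) :
    IsL (blk A 0 C D) := by
  constructor
  · intro i
    refine Fin.addCases (fun i => ?_) (fun i => ?_) i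
    · rw [blk_cc]; exact hA.1 i
    · rw [blk_nn]; exact hD.1 i
  · intro i j
    refine Fin.addCases (fun i => ?_) (fun i => ?_) i <;>
      refine Fin.addCases (fun j => ?_) (fun j => ?_) j <;> intro hij
    · rw [blk_cc]; exact hA.2 i j (by rw [Fin.lt_def] at hij ⊢; simpa using hij)
    · rw [blk_cn]; rfl
    · exfalso; rw [Fin.lt_def] at hij; simp at hij; omega
    · rw [blk_nn]; exact hD.2 i j (by rw [Fin.lt_def] at hij ⊢; simpa using hij)

/-- The basic criterion. -/
lemma good_blk {A A' : Mat m m} {B : Mat m n} {C : Mat n m} {D : Mat n n}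
    (hA : Good A) (h2 : A' * A = 1) (hS : Good (D - C * A' * B)) :
    Good (blk A B C D) := by
  obtain ⟨u, v, l, r, hu, hv, hl, hr, e1⟩ := hA
  obtain ⟨u2, v2, l2, r2, hu2, hv2, hl2, hr2, e2⟩ := hS
  obtain ⟨l', hl', l1, l1'⟩ := hl.inv
  obtain ⟨r', hr', r1, r1'⟩ := hr.inv
  obtain ⟨u', hu', u1, u1'⟩ := hu.inv
  have key : v * r' * l' * u = A' := by
    have h3 : A * (v * r' * l' * u) = 1 := by
      have : A * v = u' * (l * r) := by
        rw [← e1, ← Matrix.mul_assoc, ← Matrix.mul_assoc, u1', Matrix.one_mul]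
      calc A * (v * r' * l' * u) = (A * v) * r' * l' * u := by simp only [Matrix.mul_assoc]
        _ = u' * (l * (r * r') * l') * u := by rw [this]; simp only [Matrix.mul_assoc]
        _ = 1 := by rw [r1, Matrix.mul_one, l1, Matrix.mul_one, u1']
    calc v * r' * l' * u = (A' * A) * (v * r' * l' * u) := by rw [h2, Matrix.one_mul]
      _ = A' * (A * (v * r' * l' * u)) := by simp only [Matrix.mul_assoc]
      _ = A' := by rw [h3, Matrix.mul_one]
  refine ⟨blk u 0 0 u2, blk v 0 0 v2, blk l 0 (u2 * C * v * r') l2,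
    blk r (l' * u * B * v2) 0 r2, hu.blk hu2, hv.blk hv2, hl.blk hl2, hr.blk hr2, ?_⟩
  rw [blk_mul, blk_mul, blk_mul]
  simp only [Matrix.mul_zero, Matrix.zero_mul, add_zero, zero_add]
  have c2 : l * (l' * u * B * v2) = u * B * v2 := by
    simp only [← Matrix.mul_assoc]; rw [l1, Matrix.one_mul]
  have c3 : u2 * C * v * r' * r = u2 * C * v := by
    rw [Matrix.mul_assoc _ r' r, r1', Matrix.mul_one]
  have c4 : u2 * C * v * r' * (l' * u * B * v2) + l2 * r2 = u2 * D * v2 := by
    rw [← e2]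
    have : u2 * C * v * r' * (l' * u * B * v2) = u2 * C * (v * r' * l' * u) * B * v2 := by
      simp only [Matrix.mul_assoc]
    rw [this, key]
    simp only [Matrix.mul_sub, Matrix.sub_mul, Matrix.mul_assoc]
    abel
  rw [c2, c3, c4, e1]

lemma good_cast {a b : ℕ} (h : a = b) (M : Mat b b) :
    Good (M.submatrix (Fin.cast h) (Fin.cast h)) ↔ Good M := by
  subst h; rfl

lemma blk_assoc (A : Mat m m) (B : Mat m n) (C : Mat n m) (D : Mat n n) :
    blk (blk A B C D) 0 0 (1 : Mat k k) =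
      (blk A (hcat B 0) (vcat C 0) (blk D 0 0 (1 : Mat k k))).submatrix
        (Fin.cast (Nat.add_assoc m n k)) (Fin.cast (Nat.add_assoc m n k)) := by
  have e1 : ∀ i : Fin m, Fin.cast (Nat.add_assoc m n k) (Fin.castAdd k (Fin.castAdd n i)) =
      Fin.castAdd (n + k) i := fun i => by ext; simp
  have e2 : ∀ i : Fin n, Fin.cast (Nat.add_assoc m n k) (Fin.castAdd k (Fin.natAdd m i)) =
      Fin.natAdd m (Fin.castAdd k i) := fun i => by ext; simp
  have e3 : ∀ i : Fin k, Fin.cast (Nat.add_assoc m n k) (Fin.natAdd (m + n) i) =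
      Fin.natAdd m (Fin.natAdd n i) := fun i => by ext; simp [Nat.add_assoc]
  ext i j
  refine Fin.addCases (fun i => ?_) (fun i => ?_) i <;>
    refine Fin.addCases (fun j => ?_) (fun j => ?_) j
  · refine Fin.addCases (fun i => ?_) (fun i => ?_) i <;>
      refine Fin.addCases (fun j => ?_) (fun j => ?_) j <;>
      simp only [Matrix.submatrix_apply, e1, e2, blk_cc, blk_cn, blk_nc, blk_nn, hcat_c, vcat_c]
  · refine Fin.addCases (fun i => ?_) (fun i => ?_) i <;>
      simp only [Matrix.submatrix_apply, e1, e2, e3, blk_cc, blk_cn, blk_nc, blk_nn, hcat_n,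
        Matrix.zero_apply]
  · refine Fin.addCases (fun j => ?_) (fun j => ?_) j <;>
      simp only [Matrix.submatrix_apply, e1, e2, e3, blk_cc, blk_cn, blk_nc, blk_nn, vcat_n,
        Matrix.zero_apply]
  · simp only [Matrix.submatrix_apply, e3, blk_nn]

end blk

/-- `diag(A, 1_k)` is good. -/
def GK (k : ℕ) {n : ℕ} (A : Mat n n) : Prop := Good (blk A 0 0 (1 : Mat k k))

lemma GK.of_mul {k n : ℕ} {A u v : Mat n n} (hu : IsU u) (hv : IsL v) (h : GK k (u * A * v)) :
    GK k A := by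
  refine Good.of_mul (u := blk u 0 0 (1 : Mat k k)) (v := blk v 0 0 (1 : Mat k k))
    (hu.blk IsU.one) (hv.blk IsL.one) ?_
  rw [blk_mul, blk_mul]
  unfold GK at h
  simpa only [Matrix.mul_zero, Matrix.zero_mul, add_zero, zero_add, Matrix.mul_one] using h

lemma GK.cast {a b k : ℕ} (h : a = b) (M : Mat b b) :
    GK k (M.submatrix (Fin.cast h) (Fin.cast h)) ↔ GK k M := by
  subst h; rfl

lemma GK.blk_of {k m n : ℕ} {A A' : Mat m m} {B : Mat m n} {C : Mat n m} {D : Mat n n}
    (hA : Good A) (h2 : A' * A = 1) (hS : GK k (D - C * A' * B)) :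
    GK k (blk A B C D) := by
  unfold GK
  rw [blk_assoc, good_cast]
  refine good_blk hA h2 ?_
  rw [vcat_mul, vcat_mul_hcat, blk_sub]
  unfold GK at hS
  simpa only [Matrix.mul_zero, Matrix.zero_mul, sub_zero] using hS

/-- general splitting lemma -/
lemma GK.split {k m n : ℕ} {A T T' : Mat m m} {B : Mat m n} {C : Mat n m} {D : Mat n n}
    (M : Mat m n) (N : Mat n m) (hT : A + M * C + B * N + M * D * N = T) (hg : Good T)
    (h2 : T' * T = 1) (hS : GK k (D - (C + D * N) * T' * (B + M * D))) :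
    GK k (blk A B C D) := by
  refine GK.of_mul (u := blk 1 M 0 1) (v := blk 1 0 N 1) (IsU.one.blk IsU.one)
    (IsL.one.blk IsL.one) ?_
  rw [blk_mul, blk_mul]
  simp only [Matrix.mul_zero, Matrix.zero_mul, add_zero, zero_add, Matrix.mul_one, Matrix.one_mul]
  have e : A + M * C + (B + M * D) * N = T := by
    rw [← hT, Matrix.add_mul]; abel
  rw [e]
  exact GK.blk_of hg h2 hS

lemma GK.unstrip {k n j : ℕ} {B : Mat n n} (h : GK (j + k) B) :
    GK k (blk B 0 0 (1 : Mat j j)) := by
  unfold GK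
  rw [blk_assoc, good_cast, blk_one]
  have e1 : (hcat (0 : Mat n j) (0 : Mat n k)) = 0 := by
    ext i l; refine Fin.addCases (fun l => ?_) (fun l => ?_) l <;> simp
  have e2 : (vcat (0 : Mat j n) (0 : Mat k n)) = 0 := by
    ext l i; refine Fin.addCases (fun l => ?_) (fun l => ?_) l <;> simp
  rw [e1, e2]
  exact h

lemma GK.strip {k n j : ℕ} {B : Mat n n} (h : GK k (blk B 0 0 (1 : Mat j j))) :
    GK (j + k) B := by
  unfold GK at h
  rw [blk_assoc, good_cast, blk_one] at h
  have e1 : (hcat (0 : Mat n j) (0 : Mat n k)) = 0 := by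
    ext i l; refine Fin.addCases (fun l => ?_) (fun l => ?_) l <;> simp
  have e2 : (vcat (0 : Mat j n) (0 : Mat k n)) = 0 := by
    ext l i; refine Fin.addCases (fun l => ?_) (fun l => ?_) l <;> simp
  rw [e1, e2] at h
  exact h

lemma GK.zero_iff {n : ℕ} {A : Mat n n} : GK 0 A ↔ Good A := by
  unfold GK
  have : blk A 0 0 (1 : Mat 0 0) = A.submatrix (Fin.cast (Nat.add_zero n))
      (Fin.cast (Nat.add_zero n)) := by
    refine blk_ext (fun i j => ?_) (fun i j => j.elim0) (fun i j => i.elim0) (fun i j => i.elim0)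
    rw [blk_cc]; rfl
  rw [this, good_cast]

end Pool.Agent.KS6_44.UU
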