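import Pool.Agent.KS6_44.UU.Crt
import Pool.Agent.KS6_44.UU.Basic

/-!
Moving primitive integer vectors by `SL(n, ℤ)`.
-/

namespace Pool.Agent.KS6_44.UU

open Matrix

lemma tv_mulVec {n : ℕ} (i j : Fin n) (c : ℤ) (w : Fin n → ℤ) :
    (transvection i j c) *ᵥ w = w + Pi.single i (c * w j) := by
  rw [transvection, Matrix.add_mulVec, Matrix.one_mulVec]
  congr 1
  ext k
  by_cases h : k = i
  · subst h
    simp [Matrix.mulVec, dotProduct, Matrix.single_apply]
  · simp [Matrix.mulVec, dotProduct, Matrix.single_apply, h, Ne.symm h]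

/-- orbits of `SL(n, ℤ)` on vectors: at most one nonzero coordinate -/
lemma exists_SL_aux {n : ℕ} : ∀ (s : ℕ) (v : Fin n → ℤ), ∑ i, (v i).natAbs ≤ s →
    ∃ Z : Mat n n, Z.det = 1 ∧ ∀ i j, (Z *ᵥ v) i ≠ 0 → (Z *ᵥ v) j ≠ 0 → i = j := by
  intro s
  induction s with
  | zero =>
    intro v hv
    refine ⟨1, Matrix.det_one, fun i j hi => ?_⟩
    exfalso; apply hi
    rw [Matrix.one_mulVec]
    have : (v i).natAbs ≤ ∑ i, (v i).natAbs :=
      Finset.single_le_sum (f := fun i => (v i).natAbs) (fun _ _ => Nat.zero_le _)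
        (Finset.mem_univ i)
    exact Int.natAbs_eq_zero.1 (by omega)
  | succ s ih =>
    intro v hv
    by_cases hone : ∀ i j, v i ≠ 0 → v j ≠ 0 → i = j
    · exact ⟨1, Matrix.det_one, by rw [Matrix.one_mulVec]; exact hone⟩
    · push Not at hone
      obtain ⟨i, j, hi, hj, hij⟩ := hone
      -- reduce coordinate `b` by coordinate `a`
      have key : ∀ a b : Fin n, a ≠ b → v a ≠ 0 → v b ≠ 0 → (v a).natAbs ≤ (v b).natAbs →
          ∃ Z : Mat n n, Z.det = 1 ∧ ∀ i j, (Z *ᵥ v) i ≠ 0 → (Z *ᵥ v) j ≠ 0 → i = j := by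
        intro a b hab ha hb hle
        obtain ⟨c, hc⟩ : ∃ c : ℤ, (v b + c * v a).natAbs < (v b).natAbs := by
          rcases lt_or_gt_of_ne ha with h1 | h1 <;> rcases lt_or_gt_of_ne hb with h2 | h2
          · exact ⟨-1, by omega⟩
          · exact ⟨1, by omega⟩
          · exact ⟨1, by omega⟩
          · exact ⟨-1, by omega⟩
        set w := (transvection b a c) *ᵥ v with hw
        have hwe : w = v + Pi.single b (c * v a) := by rw [hw, tv_mulVec]
        have hsum : ∑ i, (w i).natAbs ≤ s := by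
          have h1 : ∑ i, (w i).natAbs < ∑ i, (v i).natAbs := by
            refine Finset.sum_lt_sum (fun k _ => ?_) ⟨b, Finset.mem_univ b, ?_⟩
            · rw [hwe, Pi.add_apply]
              by_cases hk : k = b
              · subst hk; rw [Pi.single_eq_same]; exact hc.le
              · rw [Pi.single_eq_of_ne hk, add_zero]
            · rw [hwe, Pi.add_apply, Pi.single_eq_same]; exact hc
          omega
        obtain ⟨Z, hZ, hZ2⟩ := ih w hsum
        refine ⟨Z * transvection b a c, ?_, ?_⟩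
        · rw [Matrix.det_mul, hZ, det_transvection_of_ne _ _ (Ne.symm hab), one_mul]
        · rw [← Matrix.mulVec_mulVec, ← hw]; exact hZ2
      rcases le_total (v i).natAbs (v j).natAbs with h | h
      · exact key i j hij hi hj h
      · exact key j i (Ne.symm hij) hj hi h

/-- every vector can be moved to a multiple of a given basis vector -/
lemma exists_SL {n : ℕ} (v : Fin n → ℤ) (i0 : Fin n) :
    ∃ (Z : Mat n n) (g : ℤ), Z.det = 1 ∧ Z *ᵥ v = Pi.single i0 g := by
  obtain ⟨Z, hZ, h1⟩ := exists_SL_aux _ v le_rfl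
  set w := Z *ᵥ v with hw
  by_cases h0 : ∀ i, i ≠ i0 → w i = 0
  · refine ⟨Z, w i0, hZ, ?_⟩
    rw [← hw]
    ext i
    by_cases hi : i = i0
    · subst hi; rw [Pi.single_eq_same]
    · rw [Pi.single_eq_of_ne hi, h0 i hi]
  · push Not at h0
    obtain ⟨k, hk, hwk⟩ := h0
    have hwe : w = Pi.single k (w k) := by
      ext i
      by_cases hi : i = k
      · subst hi; rw [Pi.single_eq_same]
      · rw [Pi.single_eq_of_ne hi]
        by_contra hne
        exact hi (h1 i k hne hwk)
    refine ⟨transvection k i0 (-1) * transvection i0 k 1 * Z, w k, ?_, ?_⟩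
    · rw [Matrix.det_mul, Matrix.det_mul, hZ, det_transvection_of_ne _ _ hk,
        det_transvection_of_ne _ _ (Ne.symm hk)]; norm_num
    · rw [← Matrix.mulVec_mulVec, ← hw, ← Matrix.mulVec_mulVec, tv_mulVec, tv_mulVec]
      rw [hwe]
      ext i
      by_cases hi : i = i0
      · subst hi
        simp [Pi.single_eq_of_ne (Ne.symm hk), Pi.single_eq_of_ne hk]
      · by_cases hi2 : i = k
        · subst hi2; simp [Pi.single_eq_of_ne hk, Pi.single_eq_of_ne (Ne.symm hk), hi]
        · simp [Pi.single_eq_of_ne hi, Pi.single_eq_of_ne hi2]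

/-- a primitive vector can be moved to a basis vector, in dimension at least two -/
lemma exists_SL_prim {n : ℕ} {v c : Fin n → ℤ} (hv : ∑ i, c i * v i = 1) {i0 i1 : Fin n}
    (h01 : i1 ≠ i0) : ∃ Z : Mat n n, Z.det = 1 ∧ Z *ᵥ v = Pi.single i0 1 := by
  obtain ⟨Z, g, hZ, hg⟩ := exists_SL v i0
  have hgd : g ∣ 1 := by
    have hZ' : IsUnit Z.det := by rw [hZ]; exact isUnit_one
    have h2 : v = Z⁻¹ *ᵥ (Pi.single i0 g) := by
      rw [← hg, Matrix.mulVec_mulVec, Matrix.nonsing_inv_mul _ hZ', Matrix.one_mulVec]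
    have h3 : ∀ i, g ∣ v i := by
      intro i
      rw [h2]
      simp only [Matrix.mulVec, dotProduct]
      refine Finset.dvd_sum fun k _ => ?_
      by_cases hk : k = i0
      · subst hk; rw [Pi.single_eq_same]; exact dvd_mul_left _ _
      · rw [Pi.single_eq_of_ne hk, mul_zero]; exact dvd_zero _
    rw [← hv]
    exact Finset.dvd_sum fun i _ => Dvd.dvd.mul_left (h3 i) _
  rcases Int.isUnit_iff.1 (isUnit_of_dvd_one hgd) with h | h
  · exact ⟨Z, hZ, by rw [hg, h]⟩
  · refine ⟨transvection i1 i0 (-1) * transvection i0 i1 2 * transvection i1 i0 (-1) * Z, ?_, ?_⟩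
    · rw [Matrix.det_mul, Matrix.det_mul, Matrix.det_mul, hZ, det_transvection_of_ne _ _ h01,
        det_transvection_of_ne _ _ (Ne.symm h01)]; norm_num
    · simp only [← Matrix.mulVec_mulVec, hg, h, tv_mulVec]
      ext i
      by_cases hi : i = i0
      · subst hi
        simp [Pi.single_eq_of_ne (Ne.symm h01), Pi.single_eq_of_ne h01]
      · by_cases hi2 : i = i1
        · subst hi2; simp [Pi.single_eq_of_ne h01, Pi.single_eq_of_ne (Ne.symm h01)]
        · simp [Pi.single_eq_of_ne hi, Pi.single_eq_of_ne hi2]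

end Pool.Agent.KS6_44.UU
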