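import Mathlib

namespace Pool.Agent.KS6_44.UU

/-- one-variable lemma -/
lemma crt1 (Q : ℕ → Prop) {m a b : ℤ} (hm : m ≠ 0)
    (hQ : ∀ p : ℕ, p.Prime → Q p → (p : ℤ) ∣ m)
    (h : ∀ p : ℕ, p.Prime → Q p → (p : ℤ) ∣ a → ¬ (p : ℤ) ∣ b) :
    ∃ t : ℤ, ∀ p : ℕ, p.Prime → Q p → ¬ (p : ℤ) ∣ a + t * b := by
  classical
  let S : Finset ℕ := m.natAbs.primeFactors.filter (fun p : ℕ => ¬ (p : ℤ) ∣ a)
  refine ⟨∏ p ∈ S, (p : ℤ), fun p hp hq hdvd => ?_⟩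
  have hpm : p ∈ m.natAbs.primeFactors := by
    rw [Nat.mem_primeFactors]
    exact ⟨hp, Int.natCast_dvd.1 (hQ p hp hq), by simpa using hm⟩
  by_cases hpa : (p : ℤ) ∣ a
  · have hb := h p hp hq hpa
    have h1 : (p : ℤ) ∣ (∏ p ∈ S, (p : ℤ)) * b := (dvd_add_right hpa).1 hdvd
    have hpp : Prime (p : ℤ) := Nat.prime_iff_prime_int.1 hp
    rcases hpp.dvd_or_dvd h1 with h2 | h2
    · obtain ⟨r, hr, hrd⟩ := hpp.exists_mem_finset_dvd h2
      have hr' := Finset.mem_filter.1 hr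
      have hrp : r.Prime := (Nat.mem_primeFactors.1 hr'.1).1
      have : p = r := (Nat.prime_dvd_prime_iff_eq hp hrp).1 (Int.natCast_dvd_natCast.1 hrd)
      subst this
      exact hr'.2 hpa
    · exact hb h2
  · have hpS : p ∈ S := Finset.mem_filter.2 ⟨hpm, hpa⟩
    have h1 : (p : ℤ) ∣ (∏ p ∈ S, (p : ℤ)) * b :=
      Dvd.dvd.mul_right (Finset.dvd_prod_of_mem (fun p : ℕ => (p : ℤ)) hpS) _
    exact hpa ((dvd_add_left h1).1 hdvd)

lemma crt1' (Q : ℕ → Prop) {m a b c e : ℤ} (hm : m ≠ 0)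
    (hQ : ∀ p : ℕ, p.Prime → Q p → (p : ℤ) ∣ m)
    (h : ∀ p : ℕ, p.Prime → Q p → (p : ℤ) ∣ a → ¬ (p : ℤ) ∣ b) (hce : c ≠ 0 ∨ e ≠ 0) :
    ∃ t : ℤ, (∀ p : ℕ, p.Prime → Q p → ¬ (p : ℤ) ∣ a + t * b) ∧ c + t * e ≠ 0 := by
  obtain ⟨t, ht⟩ := crt1 Q hm hQ h
  by_cases h0 : c + t * e = 0
  · have he : e ≠ 0 := by
      rcases hce with h | h
      · rintro rfl; apply h; simpa using h0
      · exact h
    refine ⟨t + m, fun p hp hq hdvd => ht p hp hq ?_, ?_⟩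
    · have h1 : (p : ℤ) ∣ m * b := Dvd.dvd.mul_right (hQ p hp hq) _
      have h2 : a + (t + m) * b = (a + t * b) + m * b := by ring
      rw [h2] at hdvd
      exact (dvd_add_left h1).1 hdvd
    · have : c + (t + m) * e = (c + t * e) + m * e := by ring
      rw [this, h0, zero_add]
      exact mul_ne_zero hm he
  · exact ⟨t, ht, h0⟩

lemma exists_gen {ι : Type*} [Fintype ι] (f : ι → ℤ) :
    ∃ (g : ℤ) (c : ι → ℤ), (∑ i, c i * f i = g) ∧ ∀ i, g ∣ f i := by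
  obtain ⟨g, hg⟩ := (IsPrincipalIdealRing.principal (Ideal.span (Set.range f))).principal
  have h1 : g ∈ Ideal.span (Set.range f) := by rw [hg]; exact Submodule.mem_span_singleton_self g
  obtain ⟨c, hc⟩ := (Ideal.mem_span_range_iff_exists_fun).1 h1
  refine ⟨g, c, hc, fun i => ?_⟩
  have : f i ∈ Ideal.span (Set.range f) := Ideal.subset_span ⟨i, rfl⟩
  rw [hg] at this
  exact Ideal.mem_span_singleton.1 this

lemma bezout {ι : Type*} [Fintype ι] (f : ι → ℤ)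
    (h : ∀ p : ℕ, p.Prime → ∃ i, ¬ (p : ℤ) ∣ f i) : ∃ c : ι → ℤ, ∑ i, c i * f i = 1 := by
  obtain ⟨g, c, hc, hg⟩ := exists_gen f
  have hu : g.natAbs = 1 := by
    by_contra hne
    obtain ⟨p, hp, hpg⟩ := Nat.exists_prime_and_dvd hne
    obtain ⟨i, hi⟩ := h p hp
    exact hi ((Int.natCast_dvd.2 hpg).trans (hg i))
  rcases Int.natAbs_eq g with h1 | h1 <;> rw [hu] at h1
  · exact ⟨c, by rw [hc, h1]; rfl⟩
  · exact ⟨fun i => - c i, by simp only [neg_mul, Finset.sum_neg_distrib]; rw [hc, h1]; rfl⟩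

lemma crts {ι : Type*} [Fintype ι] (Q : ℕ → Prop) {m a : ℤ} (b : ι → ℤ) (hm : m ≠ 0)
    (hQ : ∀ p : ℕ, p.Prime → Q p → (p : ℤ) ∣ m)
    (h : ∀ p : ℕ, p.Prime → Q p → (p : ℤ) ∣ a → ∃ i, ¬ (p : ℤ) ∣ b i) :
    ∃ t : ι → ℤ, ∀ p : ℕ, p.Prime → Q p → ¬ (p : ℤ) ∣ a + ∑ i, t i * b i := by
  obtain ⟨g, c, hc, hg⟩ := exists_gen b
  obtain ⟨t, ht⟩ := crt1 Q (a := a) (b := g) hm hQ (fun p hp hq hpa hpg => by
    obtain ⟨i, hi⟩ := h p hp hq hpa
    exact hi (hpg.trans (hg i)))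
  refine ⟨fun i => t * c i, fun p hp hq => ?_⟩
  have : ∑ i, t * c i * b i = t * g := by
    rw [← hc, Finset.mul_sum]; exact Finset.sum_congr rfl fun i _ => by ring
  rw [this]; exact ht p hp hq

lemma crts' {ι : Type*} [Fintype ι] (Q : ℕ → Prop) {m a : ℤ} (b : ι → ℤ) (hm : m ≠ 0)
    (hQ : ∀ p : ℕ, p.Prime → Q p → (p : ℤ) ∣ m)
    (h : ∀ p : ℕ, p.Prime → Q p → (p : ℤ) ∣ a → ∃ i, ¬ (p : ℤ) ∣ b i) (hb : ∃ i, b i ≠ 0) :
    ∃ t : ι → ℤ, (∀ p : ℕ, p.Prime → Q p → ¬ (p : ℤ) ∣ a + ∑ i, t i * b i) ∧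
      a + ∑ i, t i * b i ≠ 0 := by
  obtain ⟨g, c, hc, hg⟩ := exists_gen b
  have hg0 : g ≠ 0 := by
    rintro rfl
    obtain ⟨i, hi⟩ := hb
    exact hi (zero_dvd_iff.1 (hg i))
  obtain ⟨t, ht, ht0⟩ := crt1' Q (a := a) (b := g) (c := a) (e := g) hm hQ
    (fun p hp hq hpa hpg => by
      obtain ⟨i, hi⟩ := h p hp hq hpa
      exact hi (hpg.trans (hg i))) (Or.inr hg0)
  have : ∑ i, t * c i * b i = t * g := by
    rw [← hc, Finset.mul_sum]; exact Finset.sum_congr rfl fun i _ => by ring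
  exact ⟨fun i => t * c i, fun p hp hq => by rw [this]; exact ht p hp hq, by rw [this]; exact ht0⟩

/-- two nonzero affine functions have a common non-root -/
lemma two_affine {ι : Type*} [Fintype ι] [DecidableEq ι] {f0 g0 : ℤ} (f g : ι → ℤ)
    (hf : f0 ≠ 0 ∨ ∃ i, f i ≠ 0) (hg : g0 ≠ 0 ∨ ∃ i, g i ≠ 0) :
    ∃ s : ι → ℤ, f0 + ∑ i, f i * s i ≠ 0 ∧ g0 + ∑ i, g i * s i ≠ 0 := by
  classical
  have key : ∀ (h0 : ℤ) (h : ι → ℤ), (h0 ≠ 0 ∨ ∃ i, h i ≠ 0) →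
      (MvPolynomial.C h0 + ∑ i, MvPolynomial.C (h i) * MvPolynomial.X i :
        MvPolynomial ι ℤ) ≠ 0 := by
    intro h0 h hh hz
    have h1 : ∀ s : ι → ℤ, h0 + ∑ i, h i * s i = 0 := by
      intro s
      have := congrArg (MvPolynomial.eval s) hz
      simpa using this
    have h2 : h0 = 0 := by simpa using h1 0
    rcases hh with hh | ⟨i, hi⟩
    · exact hh h2
    · apply hi
      have := h1 (Pi.single i 1)
      rw [h2, zero_add, Finset.sum_eq_single i] at this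
      · simpa using this
      · intro j _ hj; rw [Pi.single_eq_of_ne hj, mul_zero]
      · intro hh; exact absurd (Finset.mem_univ i) hh
  have hne := mul_ne_zero (key f0 f hf) (key g0 g hg)
  by_contra hcon
  push Not at hcon
  apply hne
  apply MvPolynomial.funext
  intro s
  simp only [map_mul, map_add, map_sum, MvPolynomial.eval_C, MvPolynomial.eval_X, map_zero]
  by_cases h1 : f0 + ∑ i, f i * s i = 0
  · rw [h1, zero_mul]
  · rw [hcon s h1, mul_zero]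

end Pool.Agent.KS6_44.UU
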