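import Pool.Agent.KS6_44.UU.FrD

/-!
Clifford systems: operators `c x`, `d x`, `w` over `ℤ` with the relations of the form
`k² + x·ξ`, and the action of the two unipotent radicals.
-/

namespace Pool.Agent.KS6_44.UU

open Matrix

/-- a Clifford system in a matrix ring -/
structure CS (n : ℕ) (ι : Type) [Fintype ι] [DecidableEq ι] where
  c : (Fin n → ℤ) →ₗ[ℤ] Matrix ι ι ℤ
  d : (Fin n → ℤ) →ₗ[ℤ] Matrix ι ι ℤ
  w : Matrix ι ι ℤ
  cc : ∀ x, c x * c x = 0
  dd : ∀ x, d x * d x = 0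
  cd : ∀ x y, c x * d y + d y * c x = (x ⬝ᵥ y) • (1 : Matrix ι ι ℤ)
  ww : w * w = 1
  wc : ∀ x, w * c x = -(c x * w)
  wd : ∀ x, w * d x = -(d x * w)

namespace CS

variable {n : ℕ} {ι : Type} [Fintype ι] [DecidableEq ι] (C : CS n ι)

/-- exchange of creation and annihilation -/
def swap : CS n ι where
  c := C.d
  d := C.c
  w := C.w
  cc := C.dd
  dd := C.cc
  cd := fun x y => by rw [add_comm, C.cd, dotProduct_comm]
  ww := C.ww
  wc := C.wd
  wd := C.wc

lemma cc' (x y : Fin n → ℤ) : C.c x * C.c y = -(C.c y * C.c x) := by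
  have h := C.cc (x + y)
  rw [map_add, add_mul, mul_add, mul_add, C.cc, C.cc, zero_add, add_zero] at h
  exact eq_neg_of_add_eq_zero_left h

/-- the action of the unipotent radical -/
structure ActsP (p : Matrix ι ι ℤ) (x : Mat n 1) (M : Mat n n) : Prop where
  hw : p * C.w = (C.w + (2 : ℤ) • C.c (fun i => x i 0)) * p
  hc : ∀ y, p * C.c y = C.c y * p
  hd : ∀ ξ, p * C.d ξ = (C.d ξ - ((fun i => x i 0) ⬝ᵥ ξ) • C.w + C.c (M *ᵥ ξ)) * p

variable {C}

lemma ActsP.comp {p q : Matrix ι ι ℤ} {x y : Mat n 1} {M N : Mat n n} (hp : C.ActsP p x M)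
    (hq : C.ActsP q y N) : C.ActsP (q * p) (x + y) (M + N - (2 : ℤ) • (y * xᵀ)) := by
  refine ⟨?_, fun z => ?_, fun ξ => ?_⟩
  · have e : (fun i => (x + y) i 0) = (fun i => x i 0) + (fun i => y i 0) := rfl
    rw [e, map_add, mul_assoc, hp.hw, ← mul_assoc q, mul_add, mul_smul_comm, hq.hw, hq.hc,
      ← mul_assoc]
    congr 1
    simp only [add_mul, smul_add, smul_mul_assoc]
    abel
  · rw [mul_assoc, hp.hc, ← mul_assoc, hq.hc, mul_assoc]
  · rw [mul_assoc, hp.hd, ← mul_assoc q, mul_add, mul_sub, mul_smul_comm, hq.hd, hq.hw, hq.hc,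
      ← mul_assoc]
    congr 1
    have e1 : ((fun i => (x + y) i 0) ⬝ᵥ ξ) = ((fun i => x i 0) ⬝ᵥ ξ) + ((fun i => y i 0) ⬝ᵥ ξ) := by
      rw [← add_dotProduct]; rfl
    have e2 : (M + N - (2 : ℤ) • (y * xᵀ)) *ᵥ ξ =
        M *ᵥ ξ + N *ᵥ ξ - (2 * ((fun i => x i 0) ⬝ᵥ ξ)) • (fun i => y i 0) := by
      ext i
      simp only [Matrix.mulVec, dotProduct, Matrix.add_apply, Matrix.sub_apply, Matrix.smul_apply,
        Matrix.mul_apply, Finset.univ_unique, Fin.default_eq_zero, Finset.sum_singleton,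
        Matrix.transpose_apply, Pi.add_apply, Pi.sub_apply, Pi.smul_apply, smul_eq_mul]
      rw [← Finset.sum_add_distrib, Finset.mul_sum, Finset.sum_mul, ← Finset.sum_sub_distrib]
      exact Finset.sum_congr rfl fun j _ => by ring
    rw [e1, e2, map_sub, map_add, map_smul]
    simp only [add_mul, sub_mul, smul_mul_assoc, smul_add, add_smul, smul_smul]
    rw [show 2 * ((fun i => x i 0) ⬝ᵥ ξ) = ((fun i => x i 0) ⬝ᵥ ξ) * 2 by ring]
    abel

lemma ActsP.one : C.ActsP 1 0 0 := by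
  refine ⟨?_, fun z => by rw [one_mul, mul_one], fun ξ => ?_⟩
  · have : (fun i => (0 : Mat n 1) i 0) = 0 := rfl
    rw [this, map_zero, smul_zero, add_zero, one_mul, mul_one]
  · have : (fun i => (0 : Mat n 1) i 0) = 0 := rfl
    rw [this, zero_dotProduct, zero_smul, sub_zero, Matrix.zero_mulVec, map_zero, add_zero, one_mul,
      mul_one]

/-- short root elements -/
lemma actsP_short (x : Mat n 1) :
    C.ActsP (1 + C.c (fun i => x i 0) * C.w) x (-(x * xᵀ)) := by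
  obtain ⟨v, hv⟩ : ∃ v : Fin n → ℤ, v = fun i => x i 0 := ⟨_, rfl⟩
  rw [← hv]
  have hww := C.ww
  have hwv := C.wc v
  have hcv := C.cc v
  refine ⟨?_, fun z => ?_, fun ξ => ?_⟩
  · rw [← hv]
    have e1 : C.c v * C.w * C.w = C.c v := by rw [mul_assoc, hww, mul_one]
    have e2 : C.w * (C.c v * C.w) = -C.c v := by rw [← mul_assoc, hwv, neg_mul, e1]
    have e3 : C.c v * (C.c v * C.w) = 0 := by rw [← mul_assoc, hcv, zero_mul]
    simp only [add_mul, mul_add, one_mul, mul_one, smul_mul_assoc, e1, e2, e3, smul_zero]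
    rw [two_smul]; abel
  · have e1 : C.c v * C.w * C.c z = C.c z * (C.c v * C.w) := by
      rw [mul_assoc, C.wc z, mul_neg, ← mul_assoc, C.cc' v z, neg_mul, neg_neg, mul_assoc]
    rw [add_mul, mul_add, one_mul, mul_one, e1]
  · rw [← hv]
    have e0 : (-(x * xᵀ)) *ᵥ ξ = -((v ⬝ᵥ ξ) • v) := by
      ext i
      simp only [Matrix.mulVec, dotProduct, Matrix.neg_apply, Matrix.mul_apply,
        Finset.univ_unique, Fin.default_eq_zero, Finset.sum_singleton, Matrix.transpose_apply,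
        Pi.neg_apply, Pi.smul_apply, smul_eq_mul, hv, Finset.sum_mul]
      rw [← Finset.sum_neg_distrib]
      exact Finset.sum_congr rfl fun j _ => by ring
    rw [e0, map_neg, map_smul]
    have h1 : C.c v * C.d ξ = (v ⬝ᵥ ξ) • (1 : Matrix ι ι ℤ) - C.d ξ * C.c v :=
      eq_sub_of_add_eq (C.cd v ξ)
    have e1 : C.c v * C.w * C.d ξ = -((v ⬝ᵥ ξ) • C.w) + C.d ξ * (C.c v * C.w) := by
      rw [mul_assoc, C.wd ξ, mul_neg, ← mul_assoc, h1, sub_mul, smul_mul_assoc, one_mul, mul_assoc]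
      abel
    have e2 : C.w * (C.c v * C.w) = -C.c v := by
      rw [← mul_assoc, hwv, neg_mul, mul_assoc, hww, mul_one]
    have e3 : C.c v * (C.c v * C.w) = 0 := by rw [← mul_assoc, hcv, zero_mul]
    simp only [add_mul, mul_add, sub_mul, one_mul, mul_one, smul_mul_assoc, neg_mul, e1, e2, e3,
      smul_zero, smul_neg]
    abel

/-- long root elements -/
lemma actsP_long (u v : Fin n → ℤ) :
    C.ActsP (1 + C.c u * C.c v) 0 (Matrix.of fun i j => u i * v j - v i * u j) := by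
  have hz : (fun i => (0 : Mat n 1) i 0) = 0 := rfl
  refine ⟨?_, fun z => ?_, fun ξ => ?_⟩
  · rw [hz, map_zero, smul_zero, add_zero, add_mul, mul_add, one_mul, mul_one]
    have e1 : C.w * (C.c u * C.c v) = C.c u * C.c v * C.w := by
      rw [← mul_assoc, C.wc, neg_mul, mul_assoc, C.wc, mul_neg, neg_neg, mul_assoc]
    rw [e1]
  · have e1 : C.c u * C.c v * C.c z = C.c z * (C.c u * C.c v) := by
      rw [mul_assoc, C.cc' v z, mul_neg, ← mul_assoc, C.cc' u z, neg_mul, neg_neg, mul_assoc]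
    rw [add_mul, mul_add, one_mul, mul_one, e1]
  · rw [hz, zero_dotProduct, zero_smul, sub_zero]
    have e0 : (Matrix.of fun i j => u i * v j - v i * u j) *ᵥ ξ = (v ⬝ᵥ ξ) • u - (u ⬝ᵥ ξ) • v := by
      ext i
      simp only [Matrix.mulVec, dotProduct, Matrix.of_apply, Pi.sub_apply, Pi.smul_apply,
        smul_eq_mul, Finset.sum_mul]
      rw [← Finset.sum_sub_distrib]
      exact Finset.sum_congr rfl fun j _ => by ring
    rw [e0, map_sub, map_smul, map_smul]
    have h1 : C.c u * C.d ξ = (u ⬝ᵥ ξ) • (1 : Matrix ι ι ℤ) - C.d ξ * C.c u :=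
      eq_sub_of_add_eq (C.cd u ξ)
    have h2 : C.c v * C.d ξ = (v ⬝ᵥ ξ) • (1 : Matrix ι ι ℤ) - C.d ξ * C.c v :=
      eq_sub_of_add_eq (C.cd v ξ)
    have e1 : C.c u * C.c v * C.d ξ =
        (v ⬝ᵥ ξ) • C.c u - (u ⬝ᵥ ξ) • C.c v + C.d ξ * (C.c u * C.c v) := by
      rw [mul_assoc, h2, mul_sub, mul_smul_comm, mul_one, ← mul_assoc, h1, sub_mul,
        smul_mul_assoc, one_mul, mul_assoc]
      abel
    have e2 : C.c u * (C.c u * C.c v) = 0 := by rw [← mul_assoc, C.cc, zero_mul]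
    have e3 : C.c v * (C.c u * C.c v) = 0 := by
      rw [C.cc' u v, mul_neg, ← mul_assoc, C.cc, zero_mul, neg_zero]
    simp only [add_mul, mul_add, sub_mul, one_mul, mul_one, smul_mul_assoc, e1, e2, e3,
      smul_zero]
    abel

variable (C) in
/-- the group `H` contains the root elements -/
def HasP (H : Subgroup (Matrix ι ι ℤ)ˣ) : Prop :=
  (∀ x, ∃ u ∈ H, ((u : (Matrix ι ι ℤ)ˣ) : Matrix ι ι ℤ) = 1 + C.c x * C.w) ∧
  (∀ x y, ∃ u ∈ H, ((u : (Matrix ι ι ℤ)ˣ) : Matrix ι ι ℤ) = 1 + C.c x * C.c y)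

variable (C) in
/-- the move `(x, M)` is realised in `H` -/
def Real (H : Subgroup (Matrix ι ι ℤ)ˣ) (x : Mat n 1) (M : Mat n n) : Prop :=
  ∃ u ∈ H, C.ActsP ((u : (Matrix ι ι ℤ)ˣ) : Matrix ι ι ℤ) x M

lemma Real.comp {H : Subgroup (Matrix ι ι ℤ)ˣ} {x y : Mat n 1} {M N : Mat n n}
    (h : C.Real H x M) (h' : C.Real H y N) :
    C.Real H (x + y) (M + N - (2 : ℤ) • (y * xᵀ)) := by
  obtain ⟨u, hu, h1⟩ := h
  obtain ⟨v, hv, h2⟩ := h'
  exact ⟨v * u, H.mul_mem hv hu, by rw [Units.val_mul]; exact h1.comp h2⟩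

lemma Real.alt_sum {H : Subgroup (Matrix ι ι ℤ)ˣ}
    (hH : ∀ x y, ∃ u ∈ H, ((u : (Matrix ι ι ℤ)ˣ) : Matrix ι ι ℤ) = 1 + C.c x * C.c y)
    (f g : Fin n → Fin n → ℤ) (s : Finset (Fin n)) :
    C.Real H 0 (∑ k ∈ s, Matrix.of fun i j => f k i * g k j - g k i * f k j) := by
  classical
  induction s using Finset.induction_on with
  | empty => exact ⟨1, H.one_mem, by rw [Units.val_one]; exact ActsP.one⟩
  | insert a s ha ih =>
    obtain ⟨u, hu, h1⟩ := hH (f a) (g a)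
    have h2 : C.Real H 0 (Matrix.of fun i j => f a i * g a j - g a i * f a j) :=
      ⟨u, hu, by rw [h1]; exact actsP_long _ _⟩
    have := h2.comp ih
    rw [Finset.sum_insert ha]
    simpa using this

/-- alternating moves are realised by long root elements -/
theorem real_of_alt {H : Subgroup (Matrix ι ι ℤ)ˣ}
    (hH : ∀ x y, ∃ u ∈ H, ((u : (Matrix ι ι ℤ)ˣ) : Matrix ι ι ℤ) = 1 + C.c x * C.c y)
    {N : Mat n n} (hNalt : ∀ i j, N i j = - N j i) : C.Real H 0 N := by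
  have hsum : (∑ k ∈ (Finset.univ : Finset (Fin n)), Matrix.of fun i j =>
      (if i = k then 1 else 0) * (if k < j then N k j else 0) -
        (if k < i then N k i else 0) * (if j = k then 1 else 0)) = N := by
    ext i j
    rw [Matrix.sum_apply]
    simp only [Matrix.of_apply]
    rw [Finset.sum_sub_distrib]
    have e1 : ∑ k, (if i = k then (1 : ℤ) else 0) * (if k < j then N k j else 0) =
        if i < j then N i j else 0 := by
      rw [Finset.sum_eq_single i]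
      · simp
      · intro k _ hk; rw [if_neg (Ne.symm hk), zero_mul]
      · intro h; exact absurd (Finset.mem_univ _) h
    have e2 : ∑ k, (if k < i then N k i else 0) * (if j = k then (1 : ℤ) else 0) =
        if j < i then N j i else 0 := by
      rw [Finset.sum_eq_single j]
      · simp
      · intro k _ hk; rw [if_neg (Ne.symm hk), mul_zero]
      · intro h; exact absurd (Finset.mem_univ _) h
    rw [e1, e2]
    rcases lt_trichotomy i j with h | h | h
    · rw [if_pos h, if_neg (not_lt.2 h.le), sub_zero]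
    · subst h
      have := hNalt i i
      simp only [lt_irrefl, if_false, sub_zero]; omega
    · rw [if_neg (not_lt.2 h.le), if_pos h, zero_sub, hNalt i j]
  rw [← hsum]
  exact Real.alt_sum hH (fun k i => if i = k then 1 else 0) (fun k j => if k < j then N k j else 0) _

/-- every admissible move is realised -/
theorem real_of_PA {H : Subgroup (Matrix ι ι ℤ)ˣ} (hH : C.HasP H) {x : Mat n 1} {M : Mat n n}
    (h : PA x M) : C.Real H x M := by
  obtain ⟨N, hN⟩ : ∃ N : Mat n n, N = M + x * xᵀ := ⟨_, rfl⟩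
  have hNalt : ∀ i j, N i j = - N j i := by
    intro i j
    have h1 := congrFun (congrFun h i) j
    rw [hN]
    simp only [Matrix.add_apply, Matrix.transpose_apply, Matrix.neg_apply, Matrix.smul_apply,
      Matrix.mul_apply, Finset.univ_unique, Fin.default_eq_zero, Finset.sum_singleton,
      smul_eq_mul] at h1 ⊢
    linarith
  have h1 : C.Real H 0 N := real_of_alt hH.2 hNalt
  obtain ⟨u, hu, h2⟩ := hH.1 (fun i => x i 0)
  have h3 : C.Real H x (-(x * xᵀ)) := ⟨u, hu, by rw [h2]; exact actsP_short x⟩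
  have h4 := h3.comp h1
  have e : -(x * xᵀ) + N - (2 : ℤ) • ((0 : Mat n 1) * xᵀ) = M := by
    rw [hN, Matrix.zero_mul, smul_zero, sub_zero]; abel
  rwa [e, add_zero] at h4

variable (C) in
/-- the frame `F` annihilates `ψ` -/
def Ann (ψ : ι → ℤ) (F : Fr n) : Prop :=
  ∀ y : Fin n → ℤ, (((F.k *ᵥ y) 0) • C.w + C.c (F.b *ᵥ y) + C.d (F.d *ᵥ y)) *ᵥ ψ = 0

lemma Ann.actsP {ψ : ι → ℤ} {F : Fr n} (h : C.Ann ψ F) {p : Matrix ι ι ℤ} {x : Mat n 1}
    {M : Mat n n} (hp : C.ActsP p x M) : C.Ann (p *ᵥ ψ) (F.P x M) := by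
  intro y
  have h1 := h y
  have e1 : ((F.P x M).k *ᵥ y) 0 = (F.k *ᵥ y) 0 - (fun i => x i 0) ⬝ᵥ (F.d *ᵥ y) := by
    simp only [Fr.P]
    rw [Matrix.sub_mulVec, Pi.sub_apply, ← Matrix.mulVec_mulVec]
    rfl
  have e2 : (F.P x M).b *ᵥ y = F.b *ᵥ y + (2 * (F.k *ᵥ y) 0) • (fun i => x i 0) +
      M *ᵥ (F.d *ᵥ y) := by
    simp only [Fr.P]
    rw [Matrix.add_mulVec, Matrix.add_mulVec, Matrix.smul_mulVec, ← Matrix.mulVec_mulVec,
      ← Matrix.mulVec_mulVec]
    congr 2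
    ext i
    simp only [Pi.smul_apply, Matrix.mulVec, dotProduct, Finset.univ_unique, Fin.default_eq_zero,
      Finset.sum_singleton, smul_eq_mul]
    ring
  have e3 : (F.P x M).d = F.d := rfl
  rw [e1, e2, e3, Matrix.mulVec_mulVec]
  have e4 : (((F.k *ᵥ y) 0 - (fun i => x i 0) ⬝ᵥ (F.d *ᵥ y)) • C.w +
      C.c (F.b *ᵥ y + (2 * (F.k *ᵥ y) 0) • (fun i => x i 0) + M *ᵥ (F.d *ᵥ y)) +
      C.d (F.d *ᵥ y)) * p =
      p * (((F.k *ᵥ y) 0) • C.w + C.c (F.b *ᵥ y) + C.d (F.d *ᵥ y)) := by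
    rw [mul_add, mul_add, mul_smul_comm, hp.hw, hp.hc, hp.hd, map_add, map_add, map_smul]
    simp only [add_mul, sub_mul, smul_mul_assoc, smul_add, sub_smul, smul_smul]
    rw [mul_comm (2 : ℤ)]
    abel
  rw [e4, ← Matrix.mulVec_mulVec, h1, Matrix.mulVec_zero]

lemma Ann.swap {ψ : ι → ℤ} {F : Fr n} (h : C.Ann ψ F) : C.swap.Ann ψ F.swap := by
  intro y
  have := h y
  simp only [CS.swap, Fr.swap]
  rw [← this]
  congr 1
  abel

lemma Ann.actsQ {ψ : ι → ℤ} {F : Fr n} (h : C.Ann ψ F) {p : Matrix ι ι ℤ} {x : Mat n 1}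
    {M : Mat n n} (hp : C.swap.ActsP p x M) : C.Ann (p *ᵥ ψ) (F.Q x M) := by
  have h1 := Ann.actsP h.swap hp
  intro y
  have h2 := h1 y
  have e1 : (F.swap.P x M).k = (F.Q x M).k := rfl
  have e2 : (F.swap.P x M).b = (F.Q x M).d := rfl
  have e3 : (F.swap.P x M).d = (F.Q x M).b := rfl
  have e4 : C.swap.c = C.d := rfl
  have e5 : C.swap.d = C.c := rfl
  have e6 : C.swap.w = C.w := rfl
  rw [e1, e2, e3, e4, e5, e6, add_assoc, add_comm (C.d _), ← add_assoc] at h2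
  exact h2

end CS

end Pool.Agent.KS6_44.UU
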