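import Pool.Agent.KS6_44.UU.CsA

/-!
Clifford systems: reduction of a pure spinor to the vacuum.
-/

namespace Pool.Agent.KS6_44.UU

open Matrix

namespace CS

variable {n : ℕ} {ι : Type} [Fintype ι] [DecidableEq ι] {C : CS n ι}

lemma ann_unit {H : Subgroup (Matrix ι ι ℤ)ˣ} (hH : C.HasP H) {ψ : ι → ℤ} {F : Fr n}
    (hF : F.Iso) (hA : C.Ann ψ F) (hd : F.d.det = 1 ∨ F.d.det = -1) :
    ∃ p ∈ H, ∀ ξ, C.d ξ *ᵥ (((p : (Matrix ι ι ℤ)ˣ) : Matrix ι ι ℤ) *ᵥ ψ) = 0 := by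
  have hu : IsUnit F.d.det := by rcases hd with h | h <;> rw [h] <;> decide
  have hd1 : F.d * F.d⁻¹ = 1 := Matrix.mul_nonsing_inv _ hu
  have hd2 : F.d⁻¹ * F.d = 1 := Matrix.nonsing_inv_mul _ hu
  have ht1 : (F.d⁻¹)ᵀ * F.dᵀ = 1 := by rw [← Matrix.transpose_mul, hd1, Matrix.transpose_one]
  obtain ⟨x, hx⟩ : ∃ x : Mat n 1, x = (F.k * F.d⁻¹)ᵀ := ⟨_, rfl⟩
  have hxt : xᵀ = F.k * F.d⁻¹ := by rw [hx, Matrix.transpose_transpose]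
  obtain ⟨M, hM⟩ : ∃ M : Mat n n, M = -(F.b * F.d⁻¹) - (2 : ℤ) • (x * xᵀ) := ⟨_, rfl⟩
  have hs : (F.b * F.d⁻¹)ᵀ + F.b * F.d⁻¹ = -((2 : ℤ) • (x * xᵀ)) := by
    have h1 := hF.1
    have h2 : (F.d⁻¹)ᵀ * (F.bᵀ * F.d + F.dᵀ * F.b) * F.d⁻¹ = (F.b * F.d⁻¹)ᵀ + F.b * F.d⁻¹ := by
      rw [Matrix.mul_add, Matrix.add_mul, Matrix.transpose_mul]
      congr 1
      · calc (F.d⁻¹)ᵀ * (F.bᵀ * F.d) * F.d⁻¹ = (F.d⁻¹)ᵀ * F.bᵀ * (F.d * F.d⁻¹) := by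
              simp only [Matrix.mul_assoc]
          _ = _ := by rw [hd1, Matrix.mul_one]
      · calc (F.d⁻¹)ᵀ * (F.dᵀ * F.b) * F.d⁻¹ = ((F.d⁻¹)ᵀ * F.dᵀ) * F.b * F.d⁻¹ := by
              simp only [Matrix.mul_assoc]
          _ = _ := by rw [ht1, Matrix.one_mul]
    rw [← h2, h1, hx, Matrix.transpose_transpose, Matrix.transpose_mul]
    simp only [Matrix.mul_neg, Matrix.neg_mul, Matrix.mul_smul, Matrix.smul_mul, Matrix.mul_assoc]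
  have hPA : PA x M := by
    unfold PA
    have e1 : (x * xᵀ)ᵀ = x * xᵀ := by rw [Matrix.transpose_mul, Matrix.transpose_transpose]
    have e2 : M + Mᵀ = -((F.b * F.d⁻¹)ᵀ + F.b * F.d⁻¹) - (2 : ℤ) • (x * xᵀ) -
        (2 : ℤ) • (x * xᵀ) := by
      rw [hM, Matrix.transpose_sub, Matrix.transpose_neg, Matrix.transpose_smul, e1]; abel
    rw [e2, hs]; abel
  obtain ⟨p, hp, hp'⟩ := real_of_PA hH hPA
  refine ⟨p, hp, fun ξ => ?_⟩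
  have h1 := hA.actsP hp' (F.d⁻¹ *ᵥ ξ)
  have e1 : (F.P x M).k = 0 := by
    simp only [Fr.P]; rw [hxt, Matrix.mul_assoc, hd2, Matrix.mul_one, sub_self]
  have e2 : (F.P x M).b = 0 := by
    simp only [Fr.P]
    have e3 : x * xᵀ * F.d = x * F.k := by
      rw [hxt, Matrix.mul_assoc, Matrix.mul_assoc, hd2, Matrix.mul_one]
    rw [hM, Matrix.sub_mul, Matrix.neg_mul, Matrix.smul_mul, e3, Matrix.mul_assoc, hd2,
      Matrix.mul_one]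
    abel
  have e3 : (F.P x M).d = F.d := rfl
  have e4 : F.d *ᵥ (F.d⁻¹ *ᵥ ξ) = ξ := by
    rw [Matrix.mulVec_mulVec, hd1, Matrix.one_mulVec]
  rw [e1, e2, e3, e4, Matrix.zero_mulVec, Matrix.zero_mulVec, map_zero, Pi.zero_apply, zero_smul,
    add_zero, zero_add] at h1
  exact h1

lemma ann_sing {ψ : ι → ℤ} {F : Fr n} (hF : F.Iso) (hA : C.Ann ψ F) (hd : F.d.det = 0)
    (vac : (ι → ℤ) →ₗ[ℤ] ℤ) (hvc : ∀ x φ, vac (C.c x *ᵥ φ) = 0) : vac ψ = 0 := by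
  obtain ⟨y, hy0, hy⟩ := Matrix.exists_mulVec_eq_zero_iff.2 hd
  obtain ⟨h1, l, r, s, h2⟩ := hF
  have hk : (F.k *ᵥ y) 0 = 0 := by
    have h3 : y ⬝ᵥ ((F.bᵀ * F.d + F.dᵀ * F.b) *ᵥ y) = y ⬝ᵥ ((-((2 : ℤ) • (F.kᵀ * F.k))) *ᵥ y) := by
      rw [h1]
    have e1 : y ⬝ᵥ ((F.bᵀ * F.d + F.dᵀ * F.b) *ᵥ y) = 0 := by
      rw [Matrix.add_mulVec, ← Matrix.mulVec_mulVec, ← Matrix.mulVec_mulVec, hy,
        Matrix.mulVec_zero, zero_add, Matrix.dotProduct_mulVec, ← Matrix.mulVec_transpose,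
        Matrix.transpose_transpose, hy, zero_dotProduct]
    have e2 : y ⬝ᵥ ((-((2 : ℤ) • (F.kᵀ * F.k))) *ᵥ y) = -(2 * ((F.k *ᵥ y) 0) ^ 2) := by
      rw [Matrix.neg_mulVec, Matrix.smul_mulVec, ← Matrix.mulVec_mulVec, dotProduct_neg,
        dotProduct_smul, Matrix.dotProduct_mulVec, ← Matrix.mulVec_transpose,
        Matrix.transpose_transpose]
      simp only [dotProduct, Finset.univ_unique, Fin.default_eq_zero, Finset.sum_singleton,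
        smul_eq_mul]
      ring
    rw [e1, e2] at h3
    have : ((F.k *ᵥ y) 0) ^ 2 = 0 := by linarith
    exact pow_eq_zero_iff (by norm_num) |>.1 this
  have hky : F.k *ᵥ y = 0 := by
    ext i
    have : i = 0 := Subsingleton.elim _ _
    subst this; exact hk
  have hb : ∃ i, (F.b *ᵥ y) i ≠ 0 := by
    by_contra hcon
    push Not at hcon
    have hb0 : F.b *ᵥ y = 0 := funext hcon
    apply hy0
    have h3 := congrArg (fun A : Mat n n => A *ᵥ y) h2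
    simp only [Matrix.add_mulVec, ← Matrix.mulVec_mulVec, Matrix.one_mulVec] at h3
    rw [hky, hb0, hy, Matrix.mulVec_zero, Matrix.mulVec_zero, Matrix.mulVec_zero] at h3
    simpa using h3.symm
  obtain ⟨i, hi⟩ := hb
  have h3 := hA y
  rw [hk, hy, map_zero, add_zero, zero_smul, zero_add] at h3
  have h4 := C.cd (F.b *ᵥ y) (Pi.single i 1)
  have h5 := congrArg (fun A : Matrix ι ι ℤ => A *ᵥ ψ) h4
  simp only [Matrix.add_mulVec, ← Matrix.mulVec_mulVec, Matrix.smul_mulVec,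
    Matrix.one_mulVec] at h5
  rw [h3, Matrix.mulVec_zero, add_zero] at h5
  have h6 := congrArg vac h5
  rw [hvc, map_smul, dotProduct_single, mul_one, smul_eq_mul] at h6
  rcases mul_eq_zero.1 h6.symm with h | h
  · exact absurd h hi
  · exact h

/-- reduction of a pure spinor to the vacuum -/
theorem core (hn : 3 ≤ n) {P Q : Subgroup (Matrix ι ι ℤ)ˣ} (hP : C.HasP P) (hQ : C.swap.HasP Q)
    (vac : (ι → ℤ) →ₗ[ℤ] ℤ) (Ω : ι → ℤ) (hΩ : vac Ω = 1) (hvc : ∀ x φ, vac (C.c x *ᵥ φ) = 0)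
    (hvp : ∀ p ∈ P, ∀ φ, vac (((p : (Matrix ι ι ℤ)ˣ) : Matrix ι ι ℤ) *ᵥ φ) = vac φ)
    (E : Set (ι → ℤ))
    (hEP : ∀ p ∈ P, ∀ φ ∈ E, ((p : (Matrix ι ι ℤ)ˣ) : Matrix ι ι ℤ) *ᵥ φ ∈ E)
    (hEQ : ∀ p ∈ Q, ∀ φ ∈ E, ((p : (Matrix ι ι ℤ)ˣ) : Matrix ι ι ℤ) *ᵥ φ ∈ E)
    (hK : ∀ φ ∈ E, (∀ ξ, C.d ξ *ᵥ φ = 0) → ∃ k : ℤ, φ = k • Ω)
    (g : (Matrix ι ι ℤ)ˣ) (hgE : (g : Matrix ι ι ℤ) *ᵥ Ω ∈ E) {F : Fr n} (hF : F.Iso)
    (hA : C.Ann ((g : Matrix ι ι ℤ) *ᵥ Ω) F) :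
    ∃ p ∈ P, ∃ q ∈ Q, ∃ p' ∈ P,
      ((p' * q * p * g : (Matrix ι ι ℤ)ˣ) : Matrix ι ι ℤ) *ᵥ Ω = Ω := by
  obtain ⟨x, y, z, M, N, ε, h1, h2, hε, h3⟩ := fr_strong n hn F hF
  obtain ⟨p, hpP, hp⟩ := real_of_PA hP h1
  obtain ⟨q, hqQ, hq⟩ := real_of_PA hQ h2
  have hF2 := (hF.P h1).Q h2
  have hA2 := (hA.actsP hp).actsQ hq
  have hE2 := hEQ q hqQ _ (hEP p hpP _ hgE)
  -- the line in direction `z`
  have hr : ∀ ν : ℤ, ∃ r ∈ Q, ((r : (Matrix ι ι ℤ)ˣ) : Matrix ι ι ℤ) =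
      1 + C.d (fun i => (ν • z) i 0) * C.w := fun ν => hQ.1 _
  set ψ := (q : Matrix ι ι ℤ) *ᵥ ((p : Matrix ι ι ℤ) *ᵥ ((g : Matrix ι ι ℤ) *ᵥ Ω)) with hψ
  set F2 := (F.P x M).Q y N with hF2d
  let s1 : ℤ := vac ((C.d (fun i => z i 0) * C.w) *ᵥ ψ)
  have hs : ∀ ν : ℤ, vac ((1 + C.d (fun i => (ν • z) i 0) * C.w) *ᵥ ψ) = vac ψ + ν * s1 := by
    intro ν
    have e : (fun i => (ν • z) i 0) = ν • (fun i => z i 0) := rfl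
    rw [e, map_smul, Matrix.add_mulVec, Matrix.one_mulVec, smul_mul_assoc, Matrix.smul_mulVec,
      map_add, map_smul, smul_eq_mul]
  have hact : ∀ ν : ℤ, C.Ann ((1 + C.d (fun i => (ν • z) i 0) * C.w) *ᵥ ψ)
      (F2.Q (ν • z) (-(ν ^ 2 • (z * zᵀ)))) := by
    intro ν
    have h4 := hA2.actsQ (actsP_short (C := C.swap) (ν • z))
    have e : -((ν • z) * (ν • z)ᵀ) = -(ν ^ 2 • (z * zᵀ)) := by
      rw [Matrix.transpose_smul, Matrix.smul_mul, Matrix.mul_smul, smul_smul, pow_two]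
    rw [e] at h4
    exact h4
  have hIso : ∀ ν : ℤ, (F2.Q (ν • z) (-(ν ^ 2 • (z * zᵀ)))).Iso := fun ν => hF2.Q (PA.smul z ν)
  -- where the determinant is a unit
  have hunit : ∀ ν : ℤ, ((1 + ν) ^ 2 = 1) → ∃ r ∈ Q, ∃ p' ∈ P, ∃ k : ℤ,
      (((p' * r : (Matrix ι ι ℤ)ˣ) : Matrix ι ι ℤ) *ᵥ ψ = k • Ω) ∧ k = vac ψ + ν * s1 ∧
      (k = 1 ∨ k = -1) := by
    intro ν hν
    obtain ⟨r, hrQ, hr1⟩ := hr ν
    have hdet : (F2.Q (ν • z) (-(ν ^ 2 • (z * zᵀ)))).d.det = 1 ∨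
        (F2.Q (ν • z) (-(ν ^ 2 • (z * zᵀ)))).d.det = -1 := by
      rw [h3 ν, hν, mul_one]; exact hε
    obtain ⟨p', hp', hp2⟩ := ann_unit hP (hIso ν) (hact ν) hdet
    have hE3 := hEP p' hp' _ (hEQ r hrQ _ hE2)
    rw [hr1] at hE3
    obtain ⟨k, hk⟩ := hK _ hE3 hp2
    have hk' : ((p' * r : (Matrix ι ι ℤ)ˣ) : Matrix ι ι ℤ) *ᵥ ψ = k • Ω := by
      rw [Units.val_mul, ← Matrix.mulVec_mulVec, hr1, hk]
    refine ⟨r, hrQ, p', hp', k, hk', ?_, ?_⟩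
    · rw [← hs ν, ← hvp p' hp', hk, map_smul, hΩ, smul_eq_mul, mul_one]
    · have h5 : ((p' * r * q * p * g : (Matrix ι ι ℤ)ˣ) : Matrix ι ι ℤ) *ᵥ Ω = k • Ω := by
        rw [← hk', hψ]
        simp only [Units.val_mul, ← Matrix.mulVec_mulVec]
      have h6 := congrArg (fun φ => (((p' * r * q * p * g)⁻¹ : (Matrix ι ι ℤ)ˣ) :
        Matrix ι ι ℤ) *ᵥ φ) h5
      simp only [Matrix.mulVec_mulVec, Units.inv_mul, Matrix.one_mulVec, Matrix.mulVec_smul] at h6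
      have h7 := congrArg vac h6
      rw [hΩ, map_smul, smul_eq_mul] at h7
      exact Int.isUnit_iff.1 (IsUnit.of_mul_eq_one _ h7.symm)
  have hzero : vac ψ + (-1) * s1 = 0 := by
    rw [← hs]
    refine ann_sing (hIso (-1)) (hact (-1)) ?_ vac hvc
    rw [h3]; norm_num
  obtain ⟨r0, hr0, p0, hp0, k0, hk0, hk0', hk0''⟩ := hunit 0 (by norm_num)
  obtain ⟨r2, hr2, p2, hp2, k2, hk2, hk2', hk2''⟩ := hunit (-2) (by norm_num)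
  have hcomb : ∀ (a r : (Matrix ι ι ℤ)ˣ), ((a * (r * q) * p * g : (Matrix ι ι ℤ)ˣ) :
      Matrix ι ι ℤ) *ᵥ Ω = ((a * r : (Matrix ι ι ℤ)ˣ) : Matrix ι ι ℤ) *ᵥ ψ := by
    intro a r
    simp only [hψ, Units.val_mul, Matrix.mulVec_mulVec, Matrix.mul_assoc]
  have hfin : k0 = 1 ∨ k2 = 1 := by omega
  rcases hfin with h | h
  · refine ⟨p, hpP, r0 * q, Q.mul_mem hr0 hqQ, p0, hp0, ?_⟩
    rw [hcomb, hk0, h, one_smul]
  · refine ⟨p, hpP, r2 * q, Q.mul_mem hr2 hqQ, p2, hp2, ?_⟩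
    rw [hcomb, hk2, h, one_smul]

end CS

end Pool.Agent.KS6_44.UU
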