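import Pool.Agent.KS6_44.UU.CsB

/-!
Clifford systems: quadratic form, frames from group elements, Levi elements.
-/

namespace Pool.Agent.KS6_44.UU

open Matrix

namespace CS

variable {n : ℕ} {ι : Type} [Fintype ι] [DecidableEq ι] (C : CS n ι)

/-- the vector `k w + c x + d ξ` -/
def ga (k : ℤ) (x ξ : Fin n → ℤ) : Matrix ι ι ℤ := k • C.w + C.c x + C.d ξ

lemma ga_sq (k : ℤ) (x ξ : Fin n → ℤ) :
    C.ga k x ξ * C.ga k x ξ = (k ^ 2 + x ⬝ᵥ ξ) • (1 : Matrix ι ι ℤ) := by
  have h1 : C.c x * C.d ξ = (x ⬝ᵥ ξ) • (1 : Matrix ι ι ℤ) - C.d ξ * C.c x :=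
    eq_sub_of_add_eq (C.cd x ξ)
  simp only [ga, add_mul, mul_add, smul_mul_assoc, mul_smul_comm, C.cc, C.dd, C.ww, C.wc, C.wd, h1,
    smul_neg, smul_add, smul_smul, add_smul]
  rw [pow_two]; abel

variable {C}

omit [Fintype ι] in
lemma smul_one_inj [Nonempty ι] {a b : ℤ} (h : a • (1 : Matrix ι ι ℤ) = b • 1) : a = b := by
  obtain ⟨i⟩ := ‹Nonempty ι›
  have := congrFun (congrFun h i) i
  simpa using this

lemma polar {S : Mat n n} (hS : Sᵀ = S) (h : ∀ y : Fin n → ℤ, y ⬝ᵥ (S *ᵥ y) = 0) : S = 0 := by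
  have hd : ∀ i, S i i = 0 := by
    intro i
    have := h (Pi.single i 1)
    simpa using this
  ext i j
  have h1 := h (Pi.single i 1 + Pi.single j 1)
  have hs : S j i = S i j := congrFun (congrFun hS i) j
  simp only [Matrix.mulVec_add, dotProduct_add, add_dotProduct, Matrix.mulVec_single_one,
    single_one_dotProduct, Matrix.col_apply, hd, hs] at h1
  rw [Matrix.zero_apply]; omega

/-- frames coming from families of isotropic vectors -/
lemma iso_of [Nonempty ι] {F : Fr n}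
    (h0 : ∀ y, C.ga ((F.k *ᵥ y) 0) (F.b *ᵥ y) (F.d *ᵥ y) *
      C.ga ((F.k *ᵥ y) 0) (F.b *ᵥ y) (F.d *ᵥ y) = 0)
    (β : Fin n → Matrix ι ι ℤ) (l : Fin n → ℤ) (r s : Fin n → Fin n → ℤ)
    (hw : ∀ j, β j * C.w + C.w * β j = l j • (1 : Matrix ι ι ℤ))
    (hc : ∀ j x, β j * C.c x + C.c x * β j = (r j ⬝ᵥ x) • (1 : Matrix ι ι ℤ))
    (hd : ∀ j x, β j * C.d x + C.d x * β j = (s j ⬝ᵥ x) • (1 : Matrix ι ι ℤ))
    (hβ : ∀ j y, β j * C.ga ((F.k *ᵥ y) 0) (F.b *ᵥ y) (F.d *ᵥ y) +
      C.ga ((F.k *ᵥ y) 0) (F.b *ᵥ y) (F.d *ᵥ y) * β j = y j • (1 : Matrix ι ι ℤ)) :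
    F.Iso := by
  constructor
  · have key : F.bᵀ * F.d + F.dᵀ * F.b + (2 : ℤ) • (F.kᵀ * F.k) = 0 := by
      refine polar ?_ fun y => ?_
      · simp only [Matrix.transpose_add, Matrix.transpose_mul, Matrix.transpose_transpose,
          Matrix.transpose_smul]
        abel
      · have h1 := h0 y
        rw [ga_sq] at h1
        have h2 : ((F.k *ᵥ y) 0) ^ 2 + (F.b *ᵥ y) ⬝ᵥ (F.d *ᵥ y) = 0 :=
          smul_one_inj (ι := ι) (by rw [h1, zero_smul])
        have e1 : y ⬝ᵥ ((F.bᵀ * F.d) *ᵥ y) = (F.b *ᵥ y) ⬝ᵥ (F.d *ᵥ y) := by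
          rw [← Matrix.mulVec_mulVec, Matrix.dotProduct_mulVec, ← Matrix.mulVec_transpose,
            Matrix.transpose_transpose]
        have e2 : y ⬝ᵥ ((F.dᵀ * F.b) *ᵥ y) = (F.b *ᵥ y) ⬝ᵥ (F.d *ᵥ y) := by
          rw [← Matrix.mulVec_mulVec, Matrix.dotProduct_mulVec, ← Matrix.mulVec_transpose,
            Matrix.transpose_transpose, dotProduct_comm]
        have e3 : y ⬝ᵥ ((F.kᵀ * F.k) *ᵥ y) = ((F.k *ᵥ y) 0) ^ 2 := by
          rw [← Matrix.mulVec_mulVec, Matrix.dotProduct_mulVec, ← Matrix.mulVec_transpose,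
            Matrix.transpose_transpose]
          simp only [dotProduct, Finset.univ_unique, Fin.default_eq_zero, Finset.sum_singleton]
          ring
        rw [Matrix.add_mulVec, Matrix.add_mulVec, Matrix.smul_mulVec, dotProduct_add,
          dotProduct_add, dotProduct_smul, e1, e2, e3, smul_eq_mul]
        linarith
    exact eq_neg_of_add_eq_zero_left key
  · refine ⟨Matrix.of fun j _ => l j, Matrix.of r, Matrix.of s, ?_⟩
    have h3 : ∀ (y : Fin n → ℤ) j, l j * (F.k *ᵥ y) 0 + r j ⬝ᵥ (F.b *ᵥ y) + s j ⬝ᵥ (F.d *ᵥ y) =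
        y j := by
      intro y j
      refine smul_one_inj (ι := ι) ?_
      rw [← hβ j y, ga]
      simp only [mul_add, add_mul, mul_smul_comm, smul_mul_assoc, add_smul]
      rw [← hc j, ← hd j, mul_comm (l j), mul_smul, ← hw j, smul_add]
      abel
    ext j i
    have h4 := h3 (Pi.single i 1) j
    simp only [Matrix.mulVec_single_one] at h4
    rw [Matrix.add_apply, Matrix.add_apply, Matrix.mul_apply, Matrix.mul_apply, Matrix.mul_apply,
      Matrix.one_apply]
    simp only [Finset.univ_unique, Fin.default_eq_zero, Finset.sum_singleton, Matrix.of_apply]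
    simp only [dotProduct, Matrix.col_apply, Pi.single_apply] at h4
    rw [h4]

/-- extension of conjugation formulas by linearity -/
lemma ga_lin {m : ℕ} (g : Matrix ι ι ℤ) (f : (Fin m → ℤ) →ₗ[ℤ] Matrix ι ι ℤ) (k : Fin m → ℤ)
    (X Ξ : Fin m → Fin n → ℤ)
    (h : ∀ j, g * f (Pi.single j 1) = C.ga (k j) (X j) (Ξ j) * g) (y : Fin m → ℤ) :
    g * f y = C.ga (((Matrix.of fun (_ : Fin 1) j => k j) *ᵥ y) 0)
      ((Matrix.of fun i j => X j i) *ᵥ y) ((Matrix.of fun i j => Ξ j i) *ᵥ y) * g := by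
  have hy : y = ∑ j, y j • (Pi.single j 1 : Fin m → ℤ) := by
    ext i
    rw [Finset.sum_apply, Finset.sum_eq_single i]
    · simp
    · intro j _ hj; simp [Pi.single_eq_of_ne (Ne.symm hj)]
    · intro h; exact absurd (Finset.mem_univ _) h
  have e1 : (((Matrix.of fun (_ : Fin 1) j => k j) *ᵥ y) 0) = ∑ j, y j * k j := by
    simp only [Matrix.mulVec, dotProduct, Matrix.of_apply]
    exact Finset.sum_congr rfl fun j _ => mul_comm _ _
  have e2 : ∀ Y : Fin m → Fin n → ℤ, ((Matrix.of fun i j => Y j i) *ᵥ y) = ∑ j, y j • Y j := by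
    intro Y
    ext i
    rw [Finset.sum_apply]
    simp only [Matrix.mulVec, dotProduct, Matrix.of_apply, Pi.smul_apply, smul_eq_mul]
    exact Finset.sum_congr rfl fun j _ => mul_comm _ _
  rw [e1, e2, e2]
  conv_lhs => rw [hy]
  rw [map_sum, Finset.mul_sum, ga, map_sum, map_sum, Finset.sum_smul, ← Finset.sum_add_distrib,
    ← Finset.sum_add_distrib, Finset.sum_mul]
  refine Finset.sum_congr rfl fun j _ => ?_
  rw [map_smul, mul_smul_comm, h, map_smul, map_smul, ga, mul_smul, ← smul_add, ← smul_add,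
    smul_mul_assoc]

lemma ActsP.pres {p : Matrix ι ι ℤ} {x : Mat n 1} {M : Mat n n} (hp : C.ActsP p x M) (k : ℤ)
    (y ξ : Fin n → ℤ) : p * C.ga k y ξ =
      C.ga (k - (fun i => x i 0) ⬝ᵥ ξ) (y + (2 * k) • (fun i => x i 0) + M *ᵥ ξ) ξ * p := by
  simp only [ga]
  rw [mul_add, mul_add, mul_smul_comm, hp.hw, hp.hc, hp.hd, map_add, map_add, map_smul]
  simp only [add_mul, sub_mul, smul_mul_assoc, smul_add, sub_smul, smul_smul]
  rw [mul_comm (2 : ℤ)]
  abel

variable (C) in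
/-- Levi elements: `g` acts by `T` on the `c x` -/
structure Lev (g : Matrix ι ι ℤ) (T T' : Mat n n) : Prop where
  hT : Tᵀ * T' = 1
  hc : ∀ y, g * C.c y = C.c (T *ᵥ y) * g
  hd : ∀ y, g * C.d y = C.d (T' *ᵥ y) * g
  hw : g * C.w = C.w * g

lemma Lev.mul {g h : Matrix ι ι ℤ} {S S' T T' : Mat n n} (hg : C.Lev g T T') (hh : C.Lev h S S') :
    C.Lev (g * h) (T * S) (T' * S') := by
  refine ⟨?_, fun y => ?_, fun y => ?_, ?_⟩
  · rw [Matrix.transpose_mul]
    calc Sᵀ * Tᵀ * (T' * S') = Sᵀ * (Tᵀ * T') * S' := by simp only [Matrix.mul_assoc]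
      _ = 1 := by rw [hg.hT, Matrix.mul_one, hh.hT]
  · rw [mul_assoc, hh.hc, ← mul_assoc, hg.hc, mul_assoc, Matrix.mulVec_mulVec]
  · rw [mul_assoc, hh.hd, ← mul_assoc, hg.hd, mul_assoc, Matrix.mulVec_mulVec]
  · rw [mul_assoc, hh.hw, ← mul_assoc, hg.hw, mul_assoc]

lemma Lev.one : C.Lev 1 1 1 :=
  ⟨by simp, fun y => by simp, fun y => by simp, by simp⟩

lemma Lev.swap {g : Matrix ι ι ℤ} {T T' : Mat n n} (hg : C.Lev g T T') : C.swap.Lev g T' T :=
  ⟨by rw [← Matrix.transpose_transpose T, ← Matrix.transpose_mul, hg.hT, Matrix.transpose_one],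
    hg.hd, hg.hc, hg.hw⟩

/-- the elementary Levi elements -/
lemma lev_row (u v : Fin n → ℤ) (huv : v ⬝ᵥ u = 0) :
    C.Lev (1 + C.c u * C.d v) (1 + Matrix.vecMulVec u v) (1 - Matrix.vecMulVec v u) := by
  refine ⟨?_, fun y => ?_, fun y => ?_, ?_⟩
  · rw [Matrix.transpose_add, Matrix.transpose_one, Matrix.transpose_vecMulVec, Matrix.add_mul,
      Matrix.mul_sub, Matrix.mul_sub, Matrix.one_mul, Matrix.mul_one, Matrix.one_mul,
      Matrix.vecMulVec_mul_vecMulVec, dotProduct_comm, huv]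
    simp
  · have e : (1 + Matrix.vecMulVec u v) *ᵥ y = y + (v ⬝ᵥ y) • u := by
      rw [Matrix.add_mulVec, Matrix.one_mulVec, Matrix.vecMulVec_mulVec]
      congr 1
      ext i; simp [mul_comm]
    rw [e, map_add, map_smul]
    have h1 : C.d v * C.c y = (v ⬝ᵥ y) • (1 : Matrix ι ι ℤ) - C.c y * C.d v := by
      rw [dotProduct_comm]
      exact eq_sub_of_add_eq (by rw [add_comm]; exact C.cd y v)
    have h2 : C.c u * C.d v * C.c y = (v ⬝ᵥ y) • C.c u + C.c y * (C.c u * C.d v) := by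
      rw [mul_assoc, h1, mul_sub, mul_smul_comm, mul_one, ← mul_assoc, C.cc' u y, neg_mul,
        sub_neg_eq_add, mul_assoc]
    have h3 : C.c u * (C.c u * C.d v) = 0 := by rw [← mul_assoc, C.cc, zero_mul]
    simp only [add_mul, mul_add, one_mul, mul_one, smul_mul_assoc, h2, h3, smul_zero]
    abel
  · have e : (1 - Matrix.vecMulVec v u) *ᵥ y = y - (u ⬝ᵥ y) • v := by
      rw [Matrix.sub_mulVec, Matrix.one_mulVec, Matrix.vecMulVec_mulVec]
      congr 1
      ext i; simp [mul_comm]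
    rw [e, map_sub, map_smul]
    have hdd := C.swap.cc'
    have hdd' : C.d v * C.d y = -(C.d y * C.d v) := hdd v y
    have h1 : C.c u * C.d y = (u ⬝ᵥ y) • (1 : Matrix ι ι ℤ) - C.d y * C.c u :=
      eq_sub_of_add_eq (C.cd u y)
    have h2 : C.c u * C.d v * C.d y = -((u ⬝ᵥ y) • C.d v) + C.d y * (C.c u * C.d v) := by
      rw [mul_assoc, hdd', mul_neg, ← mul_assoc, h1, sub_mul, smul_mul_assoc, one_mul, mul_assoc]
      abel
    have h3 : C.d v * (C.c u * C.d v) = 0 := by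
      have h4 : C.d v * C.c u = -(C.c u * C.d v) := by
        have := C.cd u v
        rw [dotProduct_comm, huv, zero_smul, add_comm] at this
        exact eq_neg_of_add_eq_zero_left this
      rw [← mul_assoc, h4, neg_mul, mul_assoc, C.dd, mul_zero, neg_zero]
    simp only [add_mul, mul_add, sub_mul, one_mul, mul_one, smul_mul_assoc, h2, h3, smul_zero]
    abel
  · have e1 : C.w * (C.c u * C.d v) = C.c u * C.d v * C.w := by
      rw [← mul_assoc, C.wc, neg_mul, mul_assoc, C.wd, mul_neg, neg_neg, mul_assoc]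
    rw [add_mul, mul_add, one_mul, mul_one, e1]

/-- one row of an upper unitriangular matrix -/
lemma row_mem {H : Subgroup (Matrix ι ι ℤ)ˣ}
    (hH : ∀ i j, i < j → ∀ t : ℤ, ∃ u ∈ H, ((u : (Matrix ι ι ℤ)ˣ) : Matrix ι ι ℤ) =
      1 + t • (C.c (Pi.single i 1) * C.d (Pi.single j 1))) (k : Fin n) (ρ : Fin n → ℤ)
    (hρ : ∀ j, j ≤ k → ρ j = 0) :
    ∃ u ∈ H, ((u : (Matrix ι ι ℤ)ˣ) : Matrix ι ι ℤ) = 1 + C.c (Pi.single k 1) * C.d ρ := by
  classical
  have key : ∀ s : Finset (Fin n), ∃ u ∈ H, ((u : (Matrix ι ι ℤ)ˣ) : Matrix ι ι ℤ) =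
      1 + C.c (Pi.single k 1) * C.d (∑ j ∈ s, ρ j • Pi.single j 1) := by
    intro s
    induction s using Finset.induction_on with
    | empty => exact ⟨1, H.one_mem, by simp⟩
    | insert a s ha ih =>
      obtain ⟨u, hu, h1⟩ := ih
      by_cases hak : a ≤ k
      · refine ⟨u, hu, ?_⟩
        rw [Finset.sum_insert ha, hρ a hak, zero_smul, zero_add, h1]
      · obtain ⟨v, hv, h2⟩ := hH k a (not_le.1 hak) (ρ a)
        refine ⟨v * u, H.mul_mem hv hu, ?_⟩
        rw [Units.val_mul, h1, h2, Finset.sum_insert ha, map_add, map_smul]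
        generalize C.d (∑ j ∈ s, ρ j • Pi.single j 1) = D
        have h3 : C.c (Pi.single k 1) * C.d (Pi.single a 1) * (C.c (Pi.single k 1) * D) = 0 := by
          have h4 : C.d (Pi.single a 1) * C.c (Pi.single k 1) =
              -(C.c (Pi.single k 1) * C.d (Pi.single a 1)) := by
            have := C.cd (Pi.single k 1) (Pi.single a 1)
            rw [single_one_dotProduct, Pi.single_eq_of_ne (fun h => hak h.ge), zero_smul,
              add_comm] at this
            exact eq_neg_of_add_eq_zero_left this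
          rw [mul_assoc, ← mul_assoc (C.d _), h4, neg_mul, mul_neg, ← mul_assoc, ← mul_assoc,
            C.cc, zero_mul, zero_mul, neg_zero]
        simp only [add_mul, mul_add, one_mul, mul_one, smul_mul_assoc, mul_smul_comm, h3,
          smul_zero]
        abel
  obtain ⟨u, hu, h1⟩ := key Finset.univ
  refine ⟨u, hu, ?_⟩
  rw [h1]
  congr 3
  ext i
  rw [Finset.sum_apply, Finset.sum_eq_single i]
  · simp
  · intro j _ hj; simp [Pi.single_eq_of_ne (Ne.symm hj)]
  · intro h; exact absurd (Finset.mem_univ _) h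

/-- upper unitriangular matrices act through the group generated by the `x_{e_i-e_j}(t)`, `i<j` -/
theorem lev_upper {H : Subgroup (Matrix ι ι ℤ)ˣ}
    (hH : ∀ i j, i < j → ∀ t : ℤ, ∃ u ∈ H, ((u : (Matrix ι ι ℤ)ˣ) : Matrix ι ι ℤ) =
      1 + t • (C.c (Pi.single i 1) * C.d (Pi.single j 1))) {u : Mat n n} (hu : IsU u) :
    ∃ g ∈ H, ∃ T' : Mat n n, C.Lev ((g : (Matrix ι ι ℤ)ˣ) : Matrix ι ι ℤ) u T' := by
  have key : ∀ m k : ℕ, k + m = n → ∃ g ∈ H, ∃ T' : Mat n n,
      C.Lev ((g : (Matrix ι ι ℤ)ˣ) : Matrix ι ι ℤ)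
        (Matrix.of fun i j => if k ≤ (i : ℕ) then u i j else if i = j then 1 else 0) T' := by
    intro m
    induction m with
    | zero =>
      intro k hk
      refine ⟨1, H.one_mem, 1, ?_⟩
      have e : (Matrix.of fun i j : Fin n => if k ≤ (i : ℕ) then u i j else if i = j then 1 else 0) =
          1 := by
        ext i j
        rw [Matrix.of_apply, if_neg (by omega), Matrix.one_apply]
      rw [e, Units.val_one]
      exact Lev.one
    | succ m ih =>
      intro k hk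
      obtain ⟨g, hg, T', hL⟩ := ih (k + 1) (by omega)
      have hkn : k < n := by omega
      obtain ⟨v, hv, h1⟩ := row_mem hH ⟨k, hkn⟩
        (fun j => if (⟨k, hkn⟩ : Fin n) < j then u ⟨k, hkn⟩ j else 0)
        (fun j hj => if_neg (not_lt.2 hj))
      have h2 := lev_row (C := C) (Pi.single ⟨k, hkn⟩ 1)
        (fun j => if (⟨k, hkn⟩ : Fin n) < j then u ⟨k, hkn⟩ j else 0)
        (by rw [dotProduct_single, if_neg (lt_irrefl _), zero_mul])
      rw [← h1] at h2
      have h3 := hL.mul h2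
      refine ⟨g * v, H.mul_mem hg hv, T' * (1 - vecMulVec
        (fun j => if ⟨k, hkn⟩ < j then u ⟨k, hkn⟩ j else 0) (Pi.single ⟨k, hkn⟩ 1)), ?_⟩
      rw [Units.val_mul]
      refine (congrArg (fun A => C.Lev ((g : Matrix ι ι ℤ) * v) A _) ?_).mpr h3
      ext i j
      rw [Matrix.mul_add, Matrix.mul_one, Matrix.add_apply, Matrix.mul_apply]
      simp only [Matrix.of_apply, Matrix.vecMulVec_apply]
      rw [Finset.sum_eq_single ⟨k, hkn⟩]
      · rw [Pi.single_eq_same, one_mul]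
        rcases lt_trichotomy (i : ℕ) k with h | h | h
        · have hne : i ≠ ⟨k, hkn⟩ := fun h' => by rw [h'] at h; simp at h
          have a1 : ¬ k ≤ (i : ℕ) := by omega
          have a2 : ¬ k + 1 ≤ (i : ℕ) := by omega
          simp only [a1, a2, if_false, hne, zero_mul, add_zero]
        · have hie : i = ⟨k, hkn⟩ := Fin.ext h
          subst hie
          have a1 : ¬ k + 1 ≤ k := by omega
          simp only [le_refl, a1, if_true, if_false, one_mul]
          rcases lt_trichotomy (⟨k, hkn⟩ : Fin n) j with h' | h' | h'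
          · rw [if_neg (ne_of_lt h'), if_pos h', zero_add]
          · subst h'; rw [if_pos rfl, if_neg (lt_irrefl _), add_zero, hu.1]
          · rw [if_neg (ne_of_gt h'), if_neg (not_lt.2 h'.le), add_zero, hu.2 _ _ h']
        · have a1 : k ≤ (i : ℕ) := by omega
          have a2 : k + 1 ≤ (i : ℕ) := by omega
          simp only [a1, a2, if_true]
          rw [hu.2 i ⟨k, hkn⟩ (by rw [Fin.lt_def]; exact h), zero_mul, add_zero]
      · intro l _ hl; rw [Pi.single_eq_of_ne hl, zero_mul, mul_zero]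
      · intro h; exact absurd (Finset.mem_univ _) h
  obtain ⟨g, hg, T', hL⟩ := key n 0 (by omega)
  refine ⟨g, hg, T', ?_⟩
  have e : (Matrix.of fun i j : Fin n => if 0 ≤ (i : ℕ) then u i j else if i = j then 1 else 0) =
      u := by
    ext i j; rw [Matrix.of_apply, if_pos (Nat.zero_le _)]
  rwa [e] at hL

end CS

end Pool.Agent.KS6_44.UU
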