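import Mathlib

/-!
The spin representations of the simply connected Chevalley groups of types `B_n` and `D_n` over
`ℤ`, in explicit form.

The spin representation is the fermionic Fock space: the free `ℤ`-module with basis `e_B`, `B` a
subset of `{0, …, n-1}` (so `e_B = e_{b_1} ∧ … ∧ e_{b_k}` for `B = {b_1 < … < b_k}`), of rank
`2^n`. All group elements are written as matrices in this basis.
-/

namespace Pool.Agent.KS6_44.UU

open Matrix

/-- matrices indexed by the subsets of `Fin n` -/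
abbrev FM (n : ℕ) := Matrix (Finset (Fin n)) (Finset (Fin n)) ℤ

variable {n : ℕ}

/-- creation matrices `φ ↦ e_i ∧ φ`: `e_B ↦ ± e_{B ∪ {i}}` if `i ∉ B`, and `e_B ↦ 0` if `i ∈ B`;
the sign is `(-1)` to the number of elements of `B` below `i` -/
def cr (i : Fin n) : FM n := Matrix.of fun A B =>
  if i ∉ B ∧ A = insert i B then (-1) ^ (B.filter (· < i)).card else 0

/-- annihilation matrices (contractions with the dual basis vectors): the transposes of the
creation matrices -/
def an (i : Fin n) : FM n := (cr i)ᵀ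

/-- parity: `e_B ↦ (-1)^|B| e_B` -/
def par : FM n := Matrix.diagonal fun A => (-1) ^ A.card

/-- positive root elements of type `D_n`: `x_{e_i-e_j}(t) = 1 + t a_i⁺ a_j` and
`x_{e_i+e_j}(t) = 1 + t a_i⁺ a_j⁺` for `i < j`, `t ∈ ℤ` -/
def posD (n : ℕ) : Set (FM n)ˣ :=
  {g | ∃ (i j : Fin n) (t : ℤ), i < j ∧
    ((g : FM n) = 1 + t • (cr i * an j) ∨ (g : FM n) = 1 + t • (cr i * cr j))}

/-- negative root elements of type `D_n`: `x_{e_j-e_i}(t) = 1 + t a_j⁺ a_i` and
`x_{-e_i-e_j}(t) = 1 + t a_i a_j` for `i < j`, `t ∈ ℤ` -/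
def negD (n : ℕ) : Set (FM n)ˣ :=
  {g | ∃ (i j : Fin n) (t : ℤ), i < j ∧
    ((g : FM n) = 1 + t • (cr j * an i) ∨ (g : FM n) = 1 + t • (an i * an j))}

/-- positive root elements of type `B_n`: those of type `D_n` and the short ones
`x_{e_i}(t) = 1 + t a_i⁺ Γ`, `Γ` the parity -/
def posB (n : ℕ) : Set (FM n)ˣ :=
  posD n ∪ {g | ∃ (i : Fin n) (t : ℤ), (g : FM n) = 1 + t • (cr i * par)}

/-- negative root elements of type `B_n`: those of type `D_n` and the short ones
`x_{-e_i}(t) = 1 + t a_i Γ`, `Γ` the parity -/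
def negB (n : ℕ) : Set (FM n)ˣ :=
  negD n ∪ {g | ∃ (i : Fin n) (t : ℤ), (g : FM n) = 1 + t • (an i * par)}

end Pool.Agent.KS6_44.UU
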