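import Pool.Agent.KS6_44.UU.CsC
import Pool.Agent.KS6_44.UU.Defs

/-!
The fermionic Fock space over `ℤ` as an explicit matrix model: creation matrices `cr i`,
annihilation matrices `an i`, parity `par`, indexed by the subsets of `Fin N`.
-/

namespace Pool.Agent.KS6_44.UU

open Matrix

variable {N : ℕ}

/-- sign -/
def sg (i : Fin N) (B : Finset (Fin N)) : ℤ := (-1) ^ (B.filter (· < i)).card

lemma sg_sq (i : Fin N) (B : Finset (Fin N)) : sg i B * sg i B = 1 := by
  rw [sg, ← mul_pow]; norm_num

lemma sg_insert_self (i : Fin N) (B : Finset (Fin N)) : sg i (insert i B) = sg i B := by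
  rw [sg, sg, Finset.filter_insert, if_neg (lt_irrefl i)]

lemma sg_erase_self (i : Fin N) (B : Finset (Fin N)) : sg i (B.erase i) = sg i B := by
  rw [sg, sg, Finset.filter_erase, Finset.erase_eq_of_notMem]
  simp

lemma sg_insert_lt {i j : Fin N} (h : i < j) {B : Finset (Fin N)} (hi : i ∉ B) :
    sg j (insert i B) = -sg j B := by
  rw [sg, sg, Finset.filter_insert, if_pos h, Finset.card_insert_of_notMem (by simp [hi]), pow_succ]
  ring

lemma sg_insert_gt {i j : Fin N} (h : j < i) (B : Finset (Fin N)) :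
    sg j (insert i B) = sg j B := by
  rw [sg, sg, Finset.filter_insert, if_neg (not_lt.2 h.le)]

lemma sg_erase_lt {i j : Fin N} (h : i < j) {B : Finset (Fin N)} (hi : i ∈ B) :
    sg j (B.erase i) = -sg j B := by
  have h1 := sg_insert_lt h (Finset.notMem_erase i B)
  rw [Finset.insert_erase hi] at h1
  rw [h1, neg_neg]

lemma sg_erase_gt {i j : Fin N} (h : j < i) (B : Finset (Fin N)) :
    sg j (B.erase i) = sg j B := by
  rw [sg, sg, Finset.filter_erase, Finset.erase_eq_of_notMem]
  simp [not_lt.2 h.le]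

lemma cr_mulVec (i : Fin N) (φ : Finset (Fin N) → ℤ) (A : Finset (Fin N)) :
    (cr i *ᵥ φ) A = if i ∈ A then sg i A * φ (A.erase i) else 0 := by
  rw [Matrix.mulVec, dotProduct]
  by_cases h : i ∈ A
  · rw [if_pos h, Finset.sum_eq_single (A.erase i)]
    · rw [cr, Matrix.of_apply, if_pos ⟨Finset.notMem_erase i A, (Finset.insert_erase h).symm⟩]
      congr 1
      exact sg_erase_self i A
    · intro B _ hB
      rw [cr, Matrix.of_apply, if_neg, zero_mul]
      rintro ⟨h1, h2⟩
      apply hB
      rw [h2, Finset.erase_insert h1]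
    · intro h; exact absurd (Finset.mem_univ _) h
  · rw [if_neg h]
    refine Finset.sum_eq_zero fun B _ => ?_
    rw [cr, Matrix.of_apply, if_neg, zero_mul]
    rintro ⟨-, h2⟩
    exact h (h2 ▸ Finset.mem_insert_self i B)

lemma an_mulVec (i : Fin N) (φ : Finset (Fin N) → ℤ) (A : Finset (Fin N)) :
    (an i *ᵥ φ) A = if i ∈ A then 0 else sg i A * φ (insert i A) := by
  rw [Matrix.mulVec, dotProduct]
  by_cases h : i ∈ A
  · rw [if_pos h]
    refine Finset.sum_eq_zero fun B _ => ?_
    rw [an, Matrix.transpose_apply, cr, Matrix.of_apply, if_neg, zero_mul]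
    rintro ⟨h1, -⟩
    exact h1 h
  · rw [if_neg h, Finset.sum_eq_single (insert i A)]
    · rw [an, Matrix.transpose_apply, cr, Matrix.of_apply, if_pos ⟨h, rfl⟩]
      rfl
    · intro B _ hB
      rw [an, Matrix.transpose_apply, cr, Matrix.of_apply, if_neg, zero_mul]
      rintro ⟨-, h2⟩
      exact hB h2
    · intro h; exact absurd (Finset.mem_univ _) h

lemma par_mulVec (φ : Finset (Fin N) → ℤ) (A : Finset (Fin N)) :
    (par *ᵥ φ) A = (-1) ^ A.card * φ A := by
  rw [par, Matrix.mulVec_diagonal]

lemma mat_ext {ι : Type} [Fintype ι] [DecidableEq ι] {M M' : Matrix ι ι ℤ}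
    (h : ∀ φ i, (M *ᵥ φ) i = (M' *ᵥ φ) i) : M = M' := by
  ext i j
  have := h (Pi.single j 1) i
  simpa using this

lemma cr_sq (i : Fin N) : cr i * cr i = 0 := by
  refine mat_ext fun φ A => ?_
  rw [← Matrix.mulVec_mulVec, cr_mulVec, cr_mulVec, Matrix.zero_mulVec]
  simp

lemma cr_cr (i j : Fin N) : cr i * cr j + cr j * cr i = 0 := by
  by_cases hij : i = j
  · subst hij; rw [cr_sq, add_zero]
  refine mat_ext fun φ A => ?_
  rw [Matrix.add_mulVec, Pi.add_apply, ← Matrix.mulVec_mulVec, ← Matrix.mulVec_mulVec,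
    cr_mulVec, cr_mulVec, cr_mulVec, cr_mulVec, Matrix.zero_mulVec, Pi.zero_apply]
  by_cases hi : i ∈ A
  · by_cases hj : j ∈ A
    · have h1 : j ∈ A.erase i := Finset.mem_erase.2 ⟨Ne.symm hij, hj⟩
      have h2 : i ∈ A.erase j := Finset.mem_erase.2 ⟨hij, hi⟩
      rw [if_pos hi, if_pos hj, if_pos h1, if_pos h2, Finset.erase_right_comm]
      rcases lt_or_gt_of_ne hij with h | h
      · rw [sg_erase_lt h hi, sg_erase_gt h]; ring
      · rw [sg_erase_gt h, sg_erase_lt h hj]; ring
    · have h1 : j ∉ A.erase i := fun h => hj (Finset.mem_of_mem_erase h)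
      rw [if_pos hi, if_neg hj, if_neg h1]; ring
  · by_cases hj : j ∈ A
    · have h2 : i ∉ A.erase j := fun h => hi (Finset.mem_of_mem_erase h)
      rw [if_neg hi, if_pos hj, if_neg h2]; ring
    · rw [if_neg hi, if_neg hj]; ring

lemma an_an (i j : Fin N) : an i * an j + an j * an i = 0 := by
  have h := congrArg Matrix.transpose (cr_cr i j)
  rw [Matrix.transpose_add, Matrix.transpose_mul, Matrix.transpose_mul, Matrix.transpose_zero] at h
  rw [add_comm]; exact h

lemma an_sq (i : Fin N) : an i * an i = 0 := by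
  have h := congrArg Matrix.transpose (cr_sq i)
  rwa [Matrix.transpose_mul, Matrix.transpose_zero] at h

lemma cr_an (i j : Fin N) : cr i * an j + an j * cr i = if i = j then 1 else 0 := by
  refine mat_ext fun φ A => ?_
  rw [Matrix.add_mulVec, Pi.add_apply, ← Matrix.mulVec_mulVec, ← Matrix.mulVec_mulVec,
    cr_mulVec, an_mulVec, an_mulVec, cr_mulVec]
  by_cases hij : i = j
  · subst hij
    rw [if_pos rfl, Matrix.one_mulVec]
    by_cases hi : i ∈ A
    · rw [if_pos hi, if_neg (Finset.notMem_erase i A), if_pos hi, sg_erase_self,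
        Finset.insert_erase hi, add_zero, ← mul_assoc, sg_sq, one_mul]
    · rw [if_neg hi, if_neg hi, if_pos (Finset.mem_insert_self i A), sg_insert_self,
        Finset.erase_insert hi, zero_add, ← mul_assoc, sg_sq, one_mul]
  · rw [if_neg hij, Matrix.zero_mulVec, Pi.zero_apply]
    by_cases hi : i ∈ A
    · by_cases hj : j ∈ A
      · have h1 : j ∈ A.erase i := Finset.mem_erase.2 ⟨Ne.symm hij, hj⟩
        rw [if_pos hi, if_pos h1, if_pos hj]; ring
      · have h1 : j ∉ A.erase i := fun h => hj (Finset.mem_of_mem_erase h)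
        have h2 : i ∈ insert j A := Finset.mem_insert_of_mem hi
        have h3 : (insert j A).erase i = insert j (A.erase i) :=
          Finset.erase_insert_of_ne (Ne.symm hij)
        rw [if_pos hi, if_neg h1, if_neg hj, if_pos h2, h3]
        rcases lt_or_gt_of_ne hij with h | h
        · rw [sg_erase_lt h hi, sg_insert_gt h]; ring
        · rw [sg_erase_gt h, sg_insert_lt h hj]; ring
    · by_cases hj : j ∈ A
      · rw [if_neg hi, if_pos hj]; ring
      · have h2 : i ∉ insert j A := by
          rw [Finset.mem_insert]; push Not; exact ⟨hij, hi⟩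
        rw [if_neg hi, if_neg hj, if_neg h2]; ring

lemma par_sq : (par : FM N) * par = 1 := by
  rw [par, Matrix.diagonal_mul_diagonal, ← Matrix.diagonal_one]
  congr 1
  ext A
  rw [← mul_pow]; norm_num

lemma par_cr (i : Fin N) : par * cr i = -(cr i * par) := by
  refine mat_ext fun φ A => ?_
  rw [Matrix.neg_mulVec, Pi.neg_apply, ← Matrix.mulVec_mulVec, ← Matrix.mulVec_mulVec,
    par_mulVec, cr_mulVec, cr_mulVec, par_mulVec]
  by_cases hi : i ∈ A
  · rw [if_pos hi, if_pos hi]
    have : A.card = (A.erase i).card + 1 := (Finset.card_erase_add_one hi).symm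
    rw [this, pow_succ]; ring
  · rw [if_neg hi, if_neg hi]; ring

lemma par_transpose : (par : FM N)ᵀ = par := by rw [par, Matrix.diagonal_transpose]

lemma par_an (i : Fin N) : par * an i = -(an i * par) := by
  have h := congrArg Matrix.transpose (par_cr i)
  rw [Matrix.transpose_mul, Matrix.transpose_neg, Matrix.transpose_mul, par_transpose] at h
  have h' : an i * par = -(par * an i) := h
  rw [h', neg_neg]

/-- linear combinations -/
def lc {n : ℕ} (f : Fin n → FM N) : (Fin n → ℤ) →ₗ[ℤ] FM N := Fintype.linearCombination ℤ f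

lemma lc_apply {n : ℕ} (f : Fin n → FM N) (x : Fin n → ℤ) : lc f x = ∑ i, x i • f i := rfl

lemma lc_single {n : ℕ} (f : Fin n → FM N) (i : Fin n) : lc f (Pi.single i 1) = f i := by
  rw [lc_apply, Finset.sum_eq_single i]
  · rw [Pi.single_eq_same, one_smul]
  · intro j _ hj; rw [Pi.single_eq_of_ne hj, zero_smul]
  · intro h; exact absurd (Finset.mem_univ _) h

lemma lc_sq {n : ℕ} (f : Fin n → FM N) (h : ∀ i j, f i * f j + f j * f i = 0) (x : Fin n → ℤ) :
    lc f x * lc f x = 0 := by
  have e1 : lc f x * lc f x = ∑ i, ∑ j, (x i * x j) • (f i * f j) := by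
    rw [lc_apply, Finset.sum_mul]
    refine Finset.sum_congr rfl fun i _ => ?_
    rw [Finset.mul_sum]
    refine Finset.sum_congr rfl fun j _ => ?_
    rw [smul_mul_assoc, mul_smul_comm, smul_smul]
  have e2 : lc f x * lc f x = -(lc f x * lc f x) := by
    conv_lhs => rw [e1, Finset.sum_comm]
    rw [e1, ← Finset.sum_neg_distrib]
    refine Finset.sum_congr rfl fun i _ => ?_
    rw [← Finset.sum_neg_distrib]
    refine Finset.sum_congr rfl fun j _ => ?_
    rw [mul_comm (x j), ← smul_neg]
    congr 1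
    exact eq_neg_of_add_eq_zero_left (h j i)
  have e3 : (2 : ℤ) • (lc f x * lc f x) = 0 := by
    rw [two_smul]; nth_rw 1 [e2]; exact neg_add_cancel _
  ext A B
  have := congrFun (congrFun e3 A) B
  rw [Matrix.smul_apply, smul_eq_mul, Matrix.zero_apply] at this
  rw [Matrix.zero_apply]; omega

lemma lc_cd {n : ℕ} (f g : Fin n → FM N)
    (h : ∀ i j, f i * g j + g j * f i = if i = j then 1 else 0) (x y : Fin n → ℤ) :
    lc f x * lc g y + lc g y * lc f x = (x ⬝ᵥ y) • (1 : FM N) := by
  have e1 : lc f x * lc g y + lc g y * lc f x =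
      ∑ i, ∑ j, (x i * y j) • (f i * g j + g j * f i) := by
    rw [lc_apply, lc_apply, Finset.sum_mul, Finset.mul_sum, ← Finset.sum_add_distrib]
    refine Finset.sum_congr rfl fun i _ => ?_
    rw [Finset.mul_sum, Finset.sum_mul, ← Finset.sum_add_distrib]
    refine Finset.sum_congr rfl fun j _ => ?_
    rw [smul_mul_assoc, mul_smul_comm, smul_smul, smul_mul_assoc, mul_smul_comm, smul_smul,
      mul_comm (y j), smul_add]
  rw [e1, dotProduct, Finset.sum_smul]
  refine Finset.sum_congr rfl fun i _ => ?_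
  rw [Finset.sum_eq_single i]
  · rw [h, if_pos rfl]
  · intro j _ hj; rw [h, if_neg (Ne.symm hj), smul_zero]
  · intro h; exact absurd (Finset.mem_univ _) h

lemma lc_anti {n : ℕ} (f : Fin n → FM N) (w : FM N) (h : ∀ i, w * f i = -(f i * w))
    (x : Fin n → ℤ) : w * lc f x = -(lc f x * w) := by
  rw [lc_apply, Finset.mul_sum, Finset.sum_mul, ← Finset.sum_neg_distrib]
  refine Finset.sum_congr rfl fun i _ => ?_
  rw [mul_smul_comm, h, smul_mul_assoc, smul_neg]

/-- the Clifford system of type `B_N` -/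
def CB (N : ℕ) : CS N (Finset (Fin N)) where
  c := lc cr
  d := lc an
  w := par
  cc := lc_sq _ cr_cr
  dd := lc_sq _ an_an
  cd := lc_cd _ _ cr_an
  ww := par_sq
  wc := lc_anti _ _ par_cr
  wd := lc_anti _ _ par_an

/-- the Clifford system of type `B_n` inside type `D_{n+1}` -/
def CD (n : ℕ) : CS n (Finset (Fin (n + 1))) where
  c := lc fun i => cr i.succ
  d := lc fun i => an i.succ
  w := cr 0 + an 0
  cc := lc_sq _ fun i j => cr_cr _ _
  dd := lc_sq _ fun i j => an_an _ _
  cd := lc_cd _ _ fun i j => by rw [cr_an]; simp [Fin.succ_inj]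
  ww := by
    rw [add_mul, mul_add, mul_add, cr_sq, an_sq, zero_add, add_zero, cr_an, if_pos rfl]
  wc := lc_anti _ _ fun i => by
    have h1 : cr 0 * cr i.succ = -(cr i.succ * cr 0) := eq_neg_of_add_eq_zero_left (cr_cr _ _)
    have h2 : an 0 * cr i.succ = -(cr i.succ * an 0) := by
      have := cr_an i.succ (0 : Fin (n + 1))
      rw [if_neg (Fin.succ_ne_zero i), add_comm (cr i.succ * an 0)] at this
      exact eq_neg_of_add_eq_zero_left this
    rw [add_mul, mul_add, h1, h2]; abel
  wd := lc_anti _ _ fun i => by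
    have h1 : an 0 * an i.succ = -(an i.succ * an 0) := eq_neg_of_add_eq_zero_left (an_an _ _)
    have h2 : cr 0 * an i.succ = -(an i.succ * cr 0) := by
      have := cr_an (0 : Fin (n + 1)) i.succ
      rw [if_neg (Fin.succ_ne_zero i).symm] at this
      exact eq_neg_of_add_eq_zero_left this
    rw [add_mul, mul_add, h1, h2]; abel

/-- the vacuum vector -/
def Om (N : ℕ) : Finset (Fin N) → ℤ := Pi.single ∅ 1

/-- the vacuum coefficient -/
def vac (N : ℕ) : (Finset (Fin N) → ℤ) →ₗ[ℤ] ℤ := LinearMap.proj ∅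

lemma vac_apply (φ : Finset (Fin N) → ℤ) : vac N φ = φ ∅ := rfl

lemma vac_Om : vac N (Om N) = 1 := by rw [vac_apply, Om, Pi.single_eq_same]

lemma an_Om (i : Fin N) : an i *ᵥ Om N = 0 := by
  ext A
  rw [an_mulVec, Om, Pi.zero_apply]
  by_cases h : i ∈ A
  · rw [if_pos h]
  · rw [if_neg h, Pi.single_eq_of_ne, mul_zero]
    exact Finset.insert_ne_empty _ _

lemma vac_cr (i : Fin N) (φ : Finset (Fin N) → ℤ) : vac N (cr i *ᵥ φ) = 0 := by
  rw [vac_apply, cr_mulVec, if_neg (Finset.notMem_empty i)]

lemma par_Om : par *ᵥ Om N = Om N := by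
  ext A
  rw [par_mulVec, Om]
  by_cases h : A = ∅
  · subst h; simp
  · rw [Pi.single_eq_of_ne h, mul_zero]

lemma an_zero_imp {i : Fin N} {φ : Finset (Fin N) → ℤ} (h : an i *ᵥ φ = 0) {B : Finset (Fin N)}
    (hB : i ∈ B) : φ B = 0 := by
  have h1 := congrFun h (B.erase i)
  rw [an_mulVec, if_neg (Finset.notMem_erase i B), Finset.insert_erase hB, Pi.zero_apply] at h1
  have h2 := congrArg (fun z => sg i (B.erase i) * z) h1
  simp only [mul_zero, ← mul_assoc, sg_sq, one_mul] at h2
  exact h2

lemma kernel {φ : Finset (Fin N) → ℤ} (h : ∀ i, an i *ᵥ φ = 0) : φ = φ ∅ • Om N := by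
  ext B
  rw [Pi.smul_apply, Om, smul_eq_mul]
  by_cases hB : B = ∅
  · subst hB; rw [Pi.single_eq_same, mul_one]
  · obtain ⟨i, hi⟩ := Finset.nonempty_iff_ne_empty.2 hB
    rw [Pi.single_eq_of_ne hB, mul_zero, an_zero_imp (h i) hi]

lemma kernelD {n : ℕ} {φ : Finset (Fin (n + 1)) → ℤ} (h : ∀ i : Fin n, an i.succ *ᵥ φ = 0)
    (he : par *ᵥ φ = φ) : φ = φ ∅ • Om (n + 1) := by
  ext B
  rw [Pi.smul_apply, Om, smul_eq_mul]
  by_cases hB : B = ∅
  · subst hB; rw [Pi.single_eq_same, mul_one]
  · rw [Pi.single_eq_of_ne hB, mul_zero]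
    by_cases h0 : ∃ i : Fin n, i.succ ∈ B
    · obtain ⟨i, hi⟩ := h0
      exact an_zero_imp (h i) hi
    · push Not at h0
      have hB' : B = {0} := by
        obtain ⟨j, hj⟩ := Finset.nonempty_iff_ne_empty.2 hB
        ext k
        rw [Finset.mem_singleton]
        constructor
        · intro hk
          refine Fin.cases (fun _ => rfl) (fun i hk => absurd hk (h0 i)) k hk
        · rintro rfl
          revert hj
          refine Fin.cases (fun h => h) (fun i hj => absurd hj (h0 i)) j
      have h1 := congrFun he B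
      rw [par_mulVec, hB', Finset.card_singleton] at h1
      rw [hB']; linarith

/-- a matrix commuting with all creation matrices and fixing the vacuum is the identity -/
lemma eq_one_of_comm {h : FM N} (hc : ∀ i, h * cr i = cr i * h) (hO : h *ᵥ Om N = Om N) :
    h = 1 := by
  have key : ∀ B : Finset (Fin N), h *ᵥ (Pi.single B 1) = Pi.single B 1 := by
    intro B
    induction B using Finset.induction_on with
    | empty => exact hO
    | insert i B hi ih =>
      have e : (Pi.single (insert i B) 1 : Finset (Fin N) → ℤ) =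
          sg i B • (cr i *ᵥ Pi.single B 1) := by
        ext A
        rw [Pi.smul_apply, cr_mulVec, smul_eq_mul]
        by_cases hA : A = insert i B
        · subst hA
          rw [Pi.single_eq_same, if_pos (Finset.mem_insert_self i B), sg_insert_self,
            Finset.erase_insert hi, Pi.single_eq_same, mul_one, sg_sq]
        · rw [Pi.single_eq_of_ne hA]
          by_cases hiA : i ∈ A
          · rw [if_pos hiA, Pi.single_eq_of_ne, mul_zero, mul_zero]
            intro h'
            apply hA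
            rw [← h', Finset.insert_erase hiA]
          · rw [if_neg hiA, mul_zero]
      rw [e, Matrix.mulVec_smul, Matrix.mulVec_mulVec, hc, ← Matrix.mulVec_mulVec, ih]
  ext A B
  have := congrFun (key B) A
  rw [Matrix.mulVec_single_one, Matrix.col_apply] at this
  rw [this, Matrix.one_apply, Pi.single_apply]

end Pool.Agent.KS6_44.UU
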