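import Pool.Agent.KS6_44.UU.FkA

/-!
Stabiliser of the vacuum, and the invariant form of the spin representation.
-/

namespace Pool.Agent.KS6_44.UU

open Matrix

variable {N : ℕ}

instance : Nonempty (Finset (Fin N)) := ⟨∅⟩

lemma CB_c_single (i : Fin N) : (CB N).c (Pi.single i 1) = cr i := lc_single _ _

lemma CB_d_single (i : Fin N) : (CB N).d (Pi.single i 1) = an i := lc_single _ _

lemma CB_w : (CB N).w = par := rfl

lemma d_Om (ξ : Fin N → ℤ) : (CB N).d ξ *ᵥ Om N = 0 := by
  have : (CB N).d ξ = ∑ i, ξ i • an i := rfl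
  rw [this, Matrix.sum_mulVec]
  exact Finset.sum_eq_zero fun i _ => by rw [Matrix.smul_mulVec, an_Om, smul_zero]

lemma vac_c (x : Fin N → ℤ) (φ : Finset (Fin N) → ℤ) : vac N ((CB N).c x *ᵥ φ) = 0 := by
  have : (CB N).c x = ∑ i, x i • cr i := rfl
  rw [this, Matrix.sum_mulVec, map_sum]
  exact Finset.sum_eq_zero fun i _ => by rw [Matrix.smul_mulVec, map_smul, vac_cr, smul_zero]

lemma c_Om_zero {x : Fin N → ℤ} (h : (CB N).c x *ᵥ Om N = 0) : x = 0 := by
  ext i
  have h1 := congrFun h {i}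
  have : (CB N).c x = ∑ i, x i • cr i := rfl
  rw [this, Matrix.sum_mulVec, Finset.sum_apply, Finset.sum_eq_single i] at h1
  · rw [Matrix.smul_mulVec, Pi.smul_apply, cr_mulVec, if_pos (Finset.mem_singleton_self i), Om,
      Pi.zero_apply, smul_eq_mul] at h1
    have e : ({i} : Finset (Fin N)).erase i = ∅ := by simp
    rw [e, Pi.single_eq_same, mul_one] at h1
    have h2 := congrArg (fun z => z * sg i {i}) h1
    simp only [zero_mul, mul_assoc, sg_sq, mul_one] at h2
    exact h2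
  · intro k _ hk
    rw [Matrix.smul_mulVec, Pi.smul_apply, cr_mulVec, if_neg, smul_zero]
    rw [Finset.mem_singleton]; exact hk
  · intro h; exact absurd (Finset.mem_univ _) h

lemma Units_comm_of {ι : Type} [Fintype ι] [DecidableEq ι] {h : (Matrix ι ι ℤ)ˣ}
    {A B : Matrix ι ι ℤ} (e : A * (h : Matrix ι ι ℤ) = B * h) : A = B := by
  have := congrArg (fun z => z * ((h⁻¹ : (Matrix ι ι ℤ)ˣ) : Matrix ι ι ℤ)) e
  simpa only [mul_assoc, Units.mul_inv, mul_one] using this

/-- structure of the stabiliser of the vacuum -/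
theorem stab {h : (FM N)ˣ}
    (hd : ∀ j, ∃ k x ξ, (h : FM N) * an j = (CB N).ga k x ξ * (h : FM N))
    (hc : ∀ j, ∃ k x ξ, (h : FM N) * cr j = (CB N).ga k x ξ * (h : FM N))
    (hO : (h : FM N) *ᵥ Om N = Om N) :
    ∃ (a δ : Mat N N) (x : Mat N 1) (M : Mat N N), aᵀ * δ = 1 ∧ PA x M ∧
      ((h : FM N) * par = par * (h : FM N) → x = 0) ∧
      ∀ l q : (FM N)ˣ, (CB N).Lev l a δ → (l : FM N) *ᵥ Om N = Om N →
        (CB N).swap.ActsP q x M → (q : FM N) *ᵥ Om N = Om N → h = l * q := by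
  choose kd Xd Ξd hd' using hd
  choose kc Xc Ξc hc' using hc
  -- the images of the annihilators
  have hkx : ∀ j, kd j = 0 ∧ Xd j = 0 := by
    intro j
    have h1 := congrArg (fun A : FM N => A *ᵥ Om N) (hd' j)
    simp only [← Matrix.mulVec_mulVec] at h1
    rw [hO, an_Om, Matrix.mulVec_zero, CS.ga, Matrix.add_mulVec, Matrix.add_mulVec,
      Matrix.smul_mulVec, CB_w, par_Om, d_Om, add_zero] at h1
    have h2 := congrArg (vac N) h1
    rw [map_zero, map_add, map_smul, vac_Om, vac_c, smul_eq_mul, mul_one, add_zero] at h2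
    refine ⟨h2.symm, ?_⟩
    rw [← h2, zero_smul, zero_add] at h1
    exact c_Om_zero h1.symm
  obtain ⟨δ, hδ⟩ : ∃ δ : Mat N N, δ = Matrix.of fun i j => Ξd j i := ⟨_, rfl⟩
  have hD : ∀ y, (h : FM N) * (CB N).d y = (CB N).d (δ *ᵥ y) * (h : FM N) := by
    intro y
    have h1 := CS.ga_lin (C := CB N) (h : FM N) (CB N).d kd Xd Ξd
      (fun j => by rw [CB_d_single]; exact hd' j) y
    rw [h1, ← hδ]
    have e1 : (Matrix.of fun (_ : Fin 1) j => kd j) = 0 := by
      ext i j; rw [Matrix.of_apply, (hkx j).1]; rfl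
    have e2 : (Matrix.of fun i j => Xd j i) = 0 := by
      ext i j; rw [Matrix.of_apply, (hkx j).2]; rfl
    rw [e1, e2, Matrix.zero_mulVec, Matrix.zero_mulVec, CS.ga, map_zero, Pi.zero_apply, zero_smul,
      zero_add, zero_add]
  obtain ⟨K, hK⟩ : ∃ K : Mat 1 N, K = Matrix.of fun (_ : Fin 1) j => kc j := ⟨_, rfl⟩
  obtain ⟨a, ha⟩ : ∃ a : Mat N N, a = Matrix.of fun i j => Xc j i := ⟨_, rfl⟩
  obtain ⟨m, hm⟩ : ∃ m : Mat N N, m = Matrix.of fun i j => Ξc j i := ⟨_, rfl⟩
  have hC : ∀ y, (h : FM N) * (CB N).c y =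
      (CB N).ga ((K *ᵥ y) 0) (a *ᵥ y) (m *ᵥ y) * (h : FM N) := by
    intro y
    have h1 := CS.ga_lin (C := CB N) (h : FM N) (CB N).c kc Xc Ξc
      (fun j => by rw [CB_c_single]; exact hc' j) y
    rw [← hK, ← ha, ← hm] at h1
    exact h1
  -- duality
  have hdual : ∀ y z, (a *ᵥ y) ⬝ᵥ (δ *ᵥ z) = y ⬝ᵥ z := by
    intro y z
    have h1 : ((CB N).ga ((K *ᵥ y) 0) (a *ᵥ y) (m *ᵥ y) * (CB N).d (δ *ᵥ z) +
        (CB N).d (δ *ᵥ z) * (CB N).ga ((K *ᵥ y) 0) (a *ᵥ y) (m *ᵥ y)) * (h : FM N) =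
        ((y ⬝ᵥ z) • (1 : FM N)) * (h : FM N) := by
      rw [add_mul, mul_assoc, mul_assoc, ← hD, ← hC, ← mul_assoc, ← mul_assoc, ← hC, ← hD,
        mul_assoc, mul_assoc, ← mul_add, (CB N).cd, mul_smul_comm, mul_one, smul_mul_assoc,
        one_mul]
    have h2 := Units_comm_of h1
    have h3 : (CB N).ga ((K *ᵥ y) 0) (a *ᵥ y) (m *ᵥ y) * (CB N).d (δ *ᵥ z) +
        (CB N).d (δ *ᵥ z) * (CB N).ga ((K *ᵥ y) 0) (a *ᵥ y) (m *ᵥ y) =
        ((a *ᵥ y) ⬝ᵥ (δ *ᵥ z)) • (1 : FM N) := by
      have hdd : (CB N).d (m *ᵥ y) * (CB N).d (δ *ᵥ z) =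
          -((CB N).d (δ *ᵥ z) * (CB N).d (m *ᵥ y)) := (CB N).swap.cc' _ _
      rw [← (CB N).cd, CS.ga]
      simp only [add_mul, mul_add, smul_mul_assoc, mul_smul_comm, (CB N).wd, hdd, smul_neg]
      abel
    rw [h3] at h2
    exact CS.smul_one_inj h2
  have haδ : aᵀ * δ = 1 := by
    ext i j
    have h1 := hdual (Pi.single i 1) (Pi.single j 1)
    rw [Matrix.mulVec_single_one, Matrix.mulVec_single_one, single_one_dotProduct] at h1
    rw [Matrix.mul_apply, Matrix.one_apply]
    simp only [dotProduct, Matrix.col_apply, Pi.single_apply] at h1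
    exact h1
  have hδa : δ * aᵀ = 1 := mul_eq_one_comm.1 haδ
  -- isotropy
  have hiso : ∀ y, ((K *ᵥ y) 0) ^ 2 + (a *ᵥ y) ⬝ᵥ (m *ᵥ y) = 0 := by
    intro y
    have h1 : ((CB N).ga ((K *ᵥ y) 0) (a *ᵥ y) (m *ᵥ y) *
        (CB N).ga ((K *ᵥ y) 0) (a *ᵥ y) (m *ᵥ y)) * (h : FM N) = 0 * (h : FM N) := by
      rw [mul_assoc, ← hC, ← mul_assoc, ← hC, mul_assoc, (CB N).cc, mul_zero, zero_mul]
    have h2 := Units_comm_of h1
    rw [CS.ga_sq] at h2
    exact CS.smul_one_inj (ι := Finset (Fin N)) (by rw [h2, zero_smul])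
  refine ⟨a, δ, -Kᵀ, aᵀ * m, haδ, ?_, ?_, ?_⟩
  · have key : aᵀ * m + (aᵀ * m)ᵀ + (2 : ℤ) • ((-Kᵀ) * (-Kᵀ)ᵀ) = 0 := by
      refine CS.polar ?_ fun y => ?_
      · simp only [Matrix.transpose_add, Matrix.transpose_mul, Matrix.transpose_transpose,
          Matrix.transpose_smul, Matrix.transpose_neg]
        abel
      · have e1 : y ⬝ᵥ ((aᵀ * m) *ᵥ y) = (a *ᵥ y) ⬝ᵥ (m *ᵥ y) := by
          rw [← Matrix.mulVec_mulVec, Matrix.dotProduct_mulVec, ← Matrix.mulVec_transpose,
            Matrix.transpose_transpose]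
        have e2 : y ⬝ᵥ ((aᵀ * m)ᵀ *ᵥ y) = (a *ᵥ y) ⬝ᵥ (m *ᵥ y) := by
          rw [← e1, Matrix.dotProduct_mulVec, ← Matrix.mulVec_transpose,
            Matrix.transpose_transpose, dotProduct_comm]
        have e3 : y ⬝ᵥ (((-Kᵀ) * (-Kᵀ)ᵀ) *ᵥ y) = ((K *ᵥ y) 0) ^ 2 := by
          rw [Matrix.transpose_neg, Matrix.transpose_transpose, Matrix.neg_mul, Matrix.mul_neg,
            neg_neg, ← Matrix.mulVec_mulVec, Matrix.dotProduct_mulVec,
            ← Matrix.mulVec_transpose, Matrix.transpose_transpose]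
          simp only [dotProduct, Finset.univ_unique, Fin.default_eq_zero, Finset.sum_singleton]
          ring
        rw [Matrix.add_mulVec, Matrix.add_mulVec, Matrix.smul_mulVec, dotProduct_add,
          dotProduct_add, dotProduct_smul, e1, e2, e3, smul_eq_mul]
        have := hiso y
        linarith
    exact eq_neg_of_add_eq_zero_left key
  · intro hcomm
    have hk0 : ∀ y, (K *ᵥ y) 0 = 0 := by
      intro y
      have h1 : (par * (CB N).ga ((K *ᵥ y) 0) (a *ᵥ y) (m *ᵥ y) * par) * (h : FM N) =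
          (-(CB N).ga ((K *ᵥ y) 0) (a *ᵥ y) (m *ᵥ y)) * (h : FM N) := by
        have e1 : par * (CB N).c y * par = -(CB N).c y := by
          rw [← CB_w, (CB N).wc, neg_mul, mul_assoc, (CB N).ww, mul_one]
        calc (par * (CB N).ga ((K *ᵥ y) 0) (a *ᵥ y) (m *ᵥ y) * par) * (h : FM N)
            = par * ((CB N).ga ((K *ᵥ y) 0) (a *ᵥ y) (m *ᵥ y) * (h : FM N)) * par := by
              rw [mul_assoc _ par, ← hcomm]; simp only [mul_assoc]
          _ = (par * (h : FM N)) * ((CB N).c y * par) := by rw [← hC]; simp only [mul_assoc]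
          _ = (h : FM N) * (par * (CB N).c y * par) := by rw [← hcomm]; simp only [mul_assoc]
          _ = _ := by rw [e1, mul_neg, hC, neg_mul]
      have h2 := Units_comm_of h1
      have h3 : par * (CB N).ga ((K *ᵥ y) 0) (a *ᵥ y) (m *ᵥ y) * par =
          (CB N).ga ((K *ᵥ y) 0) (-(a *ᵥ y)) (-(m *ᵥ y)) := by
        rw [CS.ga, CS.ga, CB_w]
        have e1 : par * (CB N).c (a *ᵥ y) * par = -(CB N).c (a *ᵥ y) := by
          rw [← CB_w, (CB N).wc, neg_mul, mul_assoc, (CB N).ww, mul_one]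
        have e2 : par * (CB N).d (m *ᵥ y) * par = -(CB N).d (m *ᵥ y) := by
          rw [← CB_w, (CB N).wd, neg_mul, mul_assoc, (CB N).ww, mul_one]
        rw [mul_add, mul_add, add_mul, add_mul, e1, e2, mul_smul_comm, par_sq, smul_mul_assoc,
          one_mul, map_neg, map_neg]
      rw [h3, CS.ga, CS.ga, map_neg, map_neg] at h2
      have h4 : (2 * (K *ᵥ y) 0) • (CB N).w = 0 := by
        have : (2 * (K *ᵥ y) 0) • (CB N).w = (((K *ᵥ y) 0) • (CB N).w + -(CB N).c (a *ᵥ y) +
            -(CB N).d (m *ᵥ y)) - (-(((K *ᵥ y) 0) • (CB N).w + (CB N).c (a *ᵥ y) +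
            (CB N).d (m *ᵥ y))) := by
          rw [mul_smul, two_smul]; abel
        rw [this, h2, sub_self]
      have h5 := congrArg (fun A : FM N => A * (CB N).w) h4
      simp only [smul_mul_assoc, (CB N).ww, zero_mul] at h5
      have h6 : 2 * (K *ᵥ y) 0 = 0 :=
        CS.smul_one_inj (ι := Finset (Fin N)) (by rw [h5, zero_smul])
      omega
    ext i j
    have hj : j = 0 := Subsingleton.elim _ _
    subst hj
    have := hk0 (Pi.single i 1)
    rw [Matrix.mulVec_single_one, Matrix.col_apply] at this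
    rw [Matrix.neg_apply, Matrix.transpose_apply, this]; rfl
  · intro l q hl hlO hq hqO
    have hlq : ∀ y, ((l * q : (FM N)ˣ) : FM N) * (CB N).c y =
        (CB N).ga ((K *ᵥ y) 0) (a *ᵥ y) (m *ᵥ y) * ((l * q : (FM N)ˣ) : FM N) := by
      intro y
      have h1 : (q : FM N) * (CB N).c y = ((CB N).c y - ((fun i => (-Kᵀ) i 0) ⬝ᵥ y) • (CB N).w +
          (CB N).d ((aᵀ * m) *ᵥ y)) * (q : FM N) := hq.hd y
      have e1 : ((fun i => (-Kᵀ) i 0) ⬝ᵥ y) = -((K *ᵥ y) 0) := by
        simp only [dotProduct, Matrix.mulVec, Matrix.neg_apply, Matrix.transpose_apply, neg_mul,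
          Finset.sum_neg_distrib]
      have e2 : δ *ᵥ ((aᵀ * m) *ᵥ y) = m *ᵥ y := by
        rw [Matrix.mulVec_mulVec, ← Matrix.mul_assoc, hδa, Matrix.one_mul]
      rw [Units.val_mul, mul_assoc, h1, e1, ← mul_assoc, mul_add, mul_sub, mul_smul_comm, hl.hc,
        hl.hd, hl.hw, e2, ← mul_assoc, CS.ga]
      congr 1
      simp only [add_mul, smul_mul_assoc, neg_smul]
      abel
    have hone : (((l * q)⁻¹ * h : (FM N)ˣ) : FM N) = 1 := by
      refine eq_one_of_comm (fun i => ?_) ?_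
      · have h1 := hC (Pi.single i 1)
        have h2 := hlq (Pi.single i 1)
        rw [CB_c_single] at h1 h2
        generalize (CB N).ga ((K *ᵥ Pi.single i 1) 0) (a *ᵥ Pi.single i 1)
          (m *ᵥ Pi.single i 1) = G at h1 h2
        rw [Units.val_mul, mul_assoc, h1, ← mul_assoc, ← mul_assoc]
        congr 1
        have h3 : (((l * q)⁻¹ : (FM N)ˣ) : FM N) * (((l * q : (FM N)ˣ) : FM N) * cr i) *
            (((l * q)⁻¹ : (FM N)ˣ) : FM N) = (((l * q)⁻¹ : (FM N)ˣ) : FM N) * (G *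
            ((l * q : (FM N)ˣ) : FM N)) * (((l * q)⁻¹ : (FM N)ˣ) : FM N) := by rw [h2]
        rw [← mul_assoc, Units.inv_mul, one_mul, mul_assoc _ (G * _), mul_assoc G, Units.mul_inv,
          mul_one] at h3
        exact h3.symm
      · rw [Units.val_mul, ← Matrix.mulVec_mulVec, hO]
        have h1 : ((l * q : (FM N)ˣ) : FM N) *ᵥ Om N = Om N := by
          rw [Units.val_mul, ← Matrix.mulVec_mulVec, hqO, hlO]
        have h2 := congrArg (fun v => (((l * q)⁻¹ : (FM N)ˣ) : FM N) *ᵥ v) h1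
        simp only [Matrix.mulVec_mulVec, Units.inv_mul, Matrix.one_mulVec] at h2
        exact h2.symm
    have h1 : (l * q)⁻¹ * h = 1 := Units.ext hone
    rw [inv_mul_eq_one] at h1
    exact h1.symm

/-! ### the invariant form -/

/-- product of the `cr k + an k` -/
def Jl (l : List (Fin N)) : FM N := (l.map fun k => cr k + an k).prod

lemma Jl_cons (k : Fin N) (l : List (Fin N)) : Jl (k :: l) = (cr k + an k) * Jl l := by
  rw [Jl, List.map_cons, List.prod_cons]; rfl

lemma ca_cr {i k : Fin N} (h : i ≠ k) : cr i * (cr k + an k) = -((cr k + an k) * cr i) := by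
  have h1 : cr i * cr k = -(cr k * cr i) := eq_neg_of_add_eq_zero_left (cr_cr _ _)
  have h2 : cr i * an k = -(an k * cr i) := by
    have := cr_an i k
    rw [if_neg h] at this
    exact eq_neg_of_add_eq_zero_left this
  rw [mul_add, add_mul, h1, h2, neg_add]

lemma ca_an {i k : Fin N} (h : i ≠ k) : an i * (cr k + an k) = -((cr k + an k) * an i) := by
  have h1 : an i * an k = -(an k * an i) := eq_neg_of_add_eq_zero_left (an_an _ _)
  have h2 : an i * cr k = -(cr k * an i) := by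
    have := cr_an k i
    rw [if_neg h.symm, add_comm] at this
    exact eq_neg_of_add_eq_zero_left this
  rw [mul_add, add_mul, h1, h2, neg_add]

lemma Jl_comm (f : Fin N → FM N) (l : List (Fin N))
    (hf : ∀ i k, k ∈ l → i ≠ k → f i * (cr k + an k) = -((cr k + an k) * f i)) :
    ∀ i, i ∉ l → f i * Jl l = (-1 : ℤ) ^ l.length • (Jl l * f i) := by
  induction l with
  | nil => intro i _; simp [Jl]
  | cons k l ih =>
    intro i hi
    rw [List.mem_cons] at hi
    push Not at hi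
    rw [Jl_cons, ← mul_assoc, hf i k List.mem_cons_self hi.1, neg_mul, mul_assoc,
      ih (fun i k' hk' => hf i k' (List.mem_cons_of_mem _ hk')) i hi.2, List.length_cons, pow_succ,
      mul_smul_comm, mul_assoc]
    simp

lemma Jl_an_mem : ∀ (l : List (Fin N)), l.Nodup → ∀ i ∈ l,
    an i * Jl l = (-1 : ℤ) ^ (l.length + 1) • (Jl l * cr i) := by
  intro l
  induction l with
  | nil => intro _ i hi; simp at hi
  | cons k l ih =>
    intro hnd i hi
    rw [List.nodup_cons] at hnd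
    rw [Jl_cons]
    by_cases hik : i = k
    · subst hik
      have h1 := Jl_comm cr l (fun i k _ h => ca_cr h) i hnd.1
      rw [← mul_assoc, mul_add, an_sq, add_zero, mul_assoc, h1, mul_assoc (cr i + an i)]
      have h2 : (cr i + an i) * (Jl l * cr i) =
          (-1 : ℤ) ^ l.length • ((cr i + an i) * (cr i * Jl l)) := by
        rw [h1, mul_smul_comm, smul_smul, ← mul_pow]; norm_num
      rw [h2, h1, mul_smul_comm, mul_smul_comm, add_mul, ← mul_assoc (cr i) (Jl l), h1,
        List.length_cons]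
      have h3 : cr i * Jl l * cr i = 0 := by
        rw [h1, smul_mul_assoc, mul_assoc, cr_sq, mul_zero, smul_zero]
      rw [smul_mul_assoc, mul_assoc (Jl l), cr_sq, mul_zero, smul_zero, zero_add, smul_smul,
        smul_smul]
      congr 1
      have : (-1 : ℤ) ^ l.length * (-1) ^ l.length = 1 := by rw [← mul_pow]; norm_num
      rw [mul_assoc, this, mul_one, pow_succ, pow_succ]; ring
    · have hil : i ∈ l := by
        rcases List.mem_cons.1 hi with h | h
        · exact absurd h hik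
        · exact h
      rw [← mul_assoc, ca_an hik, neg_mul, mul_assoc, ih hnd.2 i hil, List.length_cons,
        mul_smul_comm, mul_assoc, pow_succ _ (l.length + 1)]
      simp

lemma Jl_cr_mem : ∀ (l : List (Fin N)), l.Nodup → ∀ i ∈ l,
    cr i * Jl l = (-1 : ℤ) ^ (l.length + 1) • (Jl l * an i) := by
  intro l
  induction l with
  | nil => intro _ i hi; simp at hi
  | cons k l ih =>
    intro hnd i hi
    rw [List.nodup_cons] at hnd
    rw [Jl_cons]
    by_cases hik : i = k
    · subst hik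
      have h1 := Jl_comm an l (fun i k _ h => ca_an h) i hnd.1
      rw [← mul_assoc, mul_add, cr_sq, zero_add, mul_assoc, h1, mul_assoc (cr i + an i)]
      have h2 : (cr i + an i) * (Jl l * an i) =
          (-1 : ℤ) ^ l.length • ((cr i + an i) * (an i * Jl l)) := by
        rw [h1, mul_smul_comm, smul_smul, ← mul_pow]; norm_num
      rw [h2, h1, mul_smul_comm, mul_smul_comm, add_mul, ← mul_assoc (an i) (Jl l), h1,
        List.length_cons]
      rw [smul_mul_assoc, mul_assoc (Jl l), an_sq, mul_zero, smul_zero, add_zero, smul_smul,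
        smul_smul]
      congr 1
      have : (-1 : ℤ) ^ l.length * (-1) ^ l.length = 1 := by rw [← mul_pow]; norm_num
      rw [mul_assoc, this, mul_one, pow_succ, pow_succ]; ring
    · have hil : i ∈ l := by
        rcases List.mem_cons.1 hi with h | h
        · exact absurd h hik
        · exact h
      rw [← mul_assoc, ca_cr hik, neg_mul, mul_assoc, ih hnd.2 i hil, List.length_cons,
        mul_smul_comm, mul_assoc, pow_succ _ (l.length + 1)]
      simp

lemma par_Jl : ∀ l : List (Fin N), par * Jl l = (-1 : ℤ) ^ l.length • (Jl l * par) := by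
  intro l
  induction l with
  | nil => simp [Jl]
  | cons k l ih =>
    have h1 : par * (cr k + an k) = -((cr k + an k) * par) := by
      rw [mul_add, add_mul, par_cr, par_an, neg_add]
    rw [Jl_cons, ← mul_assoc, h1, neg_mul, mul_assoc, ih, List.length_cons, pow_succ,
      mul_smul_comm, mul_assoc]
    simp

lemma Jl_unit : ∀ l : List (Fin N), IsUnit (Jl l) := by
  intro l
  induction l with
  | nil => simp [Jl]
  | cons k l ih =>
    rw [Jl_cons]
    refine IsUnit.mul ?_ ih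
    have h1 : (cr k + an k) * (cr k + an k) = 1 := by
      rw [add_mul, mul_add, mul_add, cr_sq, an_sq, zero_add, add_zero, cr_an, if_pos rfl]
    exact IsUnit.of_mul_eq_one _ h1

end Pool.Agent.KS6_44.UU
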