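import Pool.Agent.KS6_44.UU.FkB
import Pool.Agent.KS6_44.UU.Growth

/-!
Root elements as units, root groups of Clifford systems, Levi elements.
-/

namespace Pool.Agent.KS6_44.UU

open Matrix

section units

variable {ι : Type} [Fintype ι] [DecidableEq ι]

lemma unit_of_sq {X : Matrix ι ι ℤ} (h : X * X = 0) :
    ∃ u : (Matrix ι ι ℤ)ˣ, (u : Matrix ι ι ℤ) = 1 + X :=
  ⟨⟨1 + X, 1 - X, by rw [add_mul, mul_sub, mul_sub, h]; simp,
    by rw [sub_mul, mul_add, mul_add, h]; simp⟩, rfl⟩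

lemma unit_inv_of {u : (Matrix ι ι ℤ)ˣ} {X : Matrix ι ι ℤ} (hu : (u : Matrix ι ι ℤ) = 1 + X)
    (h : X * X = 0) : ((u⁻¹ : (Matrix ι ι ℤ)ˣ) : Matrix ι ι ℤ) = 1 - X := by
  have h1 : (u : Matrix ι ι ℤ) * (1 - X) = 1 := by
    rw [hu, add_mul, mul_sub, mul_sub, h]; simp
  exact Units.inv_eq_of_mul_eq_one_right h1

lemma one_add_inj {u v : (Matrix ι ι ℤ)ˣ} {X : Matrix ι ι ℤ} (hu : (u : Matrix ι ι ℤ) = 1 + X)
    (hv : (v : Matrix ι ι ℤ) = 1 + X) : u = v := Units.ext (by rw [hu, hv])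

end units

namespace CS

variable {n : ℕ} {ι : Type} [Fintype ι] [DecidableEq ι] {C : CS n ι}

lemma sum_single_fin (x : Fin n → ℤ) : ∑ j, x j • (Pi.single j 1 : Fin n → ℤ) = x := by
  ext i
  rw [Finset.sum_apply, Finset.sum_eq_single i]
  · simp
  · intro j _ hj; simp [Pi.single_eq_of_ne (Ne.symm hj)]
  · intro h; exact absurd (Finset.mem_univ _) h

lemma cxcy_sq (x y : Fin n → ℤ) : C.c x * C.c y * (C.c x * C.c y) = 0 := by
  rw [mul_assoc, ← mul_assoc (C.c y), C.cc' y x, neg_mul, mul_neg, mul_assoc (C.c x), C.cc,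
    mul_zero, mul_zero, neg_zero]

lemma cxw_sq (x : Fin n → ℤ) : C.c x * C.w * (C.c x * C.w) = 0 := by
  rw [mul_assoc, ← mul_assoc C.w, C.wc, neg_mul, mul_neg, ← mul_assoc, ← mul_assoc, C.cc,
    zero_mul, zero_mul, neg_zero]

lemma cxcy_add (x y y' : Fin n → ℤ) :
    (1 + C.c x * C.c y) * (1 + C.c x * C.c y') = 1 + C.c x * C.c (y + y') := by
  have h : C.c x * C.c y * (C.c x * C.c y') = 0 := by
    rw [mul_assoc, ← mul_assoc (C.c y), C.cc' y x, neg_mul, mul_neg, ← mul_assoc, ← mul_assoc,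
      C.cc, zero_mul, zero_mul, neg_zero]
  simp only [map_add, mul_add, add_mul, one_mul, mul_one, h]
  abel

/-- the long root elements `1 + c x c y` from those of basis vectors -/
theorem long_of_basis {H : Subgroup (Matrix ι ι ℤ)ˣ}
    (h2 : ∀ i j, i < j → ∀ t : ℤ, ∃ u ∈ H, ((u : (Matrix ι ι ℤ)ˣ) : Matrix ι ι ℤ) =
      1 + t • (C.c (Pi.single i 1) * C.c (Pi.single j 1))) (x y : Fin n → ℤ) :
    ∃ u ∈ H, ((u : (Matrix ι ι ℤ)ˣ) : Matrix ι ι ℤ) = 1 + C.c x * C.c y := by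
  classical
  -- symmetry
  have hsym : ∀ x y, (∃ u ∈ H, ((u : (Matrix ι ι ℤ)ˣ) : Matrix ι ι ℤ) = 1 + C.c x * C.c y) →
      ∃ u ∈ H, ((u : (Matrix ι ι ℤ)ˣ) : Matrix ι ι ℤ) = 1 + C.c y * C.c x := by
    rintro x y ⟨u, hu, h⟩
    refine ⟨u⁻¹, H.inv_mem hu, ?_⟩
    rw [unit_inv_of h (cxcy_sq x y), C.cc' y x]
    abel
  -- linearity
  have hlin : ∀ x, (∀ j (t : ℤ), ∃ u ∈ H, ((u : (Matrix ι ι ℤ)ˣ) : Matrix ι ι ℤ) =
      1 + C.c x * C.c (t • Pi.single j 1)) → ∀ y,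
      ∃ u ∈ H, ((u : (Matrix ι ι ℤ)ˣ) : Matrix ι ι ℤ) = 1 + C.c x * C.c y := by
    intro x hx y
    have key : ∀ s : Finset (Fin n), ∃ u ∈ H, ((u : (Matrix ι ι ℤ)ˣ) : Matrix ι ι ℤ) =
        1 + C.c x * C.c (∑ j ∈ s, y j • Pi.single j 1) := by
      intro s
      induction s using Finset.induction_on with
      | empty => exact ⟨1, H.one_mem, by simp⟩
      | insert a s ha ih =>
        obtain ⟨u, hu, h⟩ := ih
        obtain ⟨v, hv, h'⟩ := hx a (y a)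
        refine ⟨v * u, H.mul_mem hv hu, ?_⟩
        rw [Units.val_mul, h, h', cxcy_add, Finset.sum_insert ha]
    obtain ⟨u, hu, h⟩ := key Finset.univ
    rw [sum_single_fin] at h
    exact ⟨u, hu, h⟩
  have hbas : ∀ i j (t : ℤ), ∃ u ∈ H, ((u : (Matrix ι ι ℤ)ˣ) : Matrix ι ι ℤ) =
      1 + C.c (Pi.single i 1) * C.c (t • Pi.single j 1) := by
    intro i j t
    rcases lt_trichotomy i j with h | h | h
    · obtain ⟨u, hu, h'⟩ := h2 i j h t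
      exact ⟨u, hu, by rw [h', map_smul, mul_smul_comm]⟩
    · subst h
      exact ⟨1, H.one_mem, by rw [map_smul, mul_smul_comm, C.cc, smul_zero, add_zero,
        Units.val_one]⟩
    · obtain ⟨u, hu, h'⟩ := h2 j i h (-t)
      refine ⟨u, hu, ?_⟩
      rw [h', map_smul, mul_smul_comm, C.cc' (Pi.single i 1), smul_neg, neg_smul]
  refine hlin x (fun j t => hsym _ _ ?_) y
  have h3 : ∀ y, ∃ u ∈ H, ((u : (Matrix ι ι ℤ)ˣ) : Matrix ι ι ℤ) =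
      1 + C.c (t • Pi.single j 1) * C.c y := by
    refine hlin _ fun i s => ?_
    obtain ⟨u, hu, h⟩ := hbas j i (t * s)
    refine ⟨u, hu, ?_⟩
    rw [h, map_smul, map_smul, map_smul, mul_smul_comm, mul_smul_comm, smul_mul_assoc, smul_smul,
      mul_comm]
  exact h3 x

/-- all root elements from those of basis vectors -/
theorem hasP_of_basis {H : Subgroup (Matrix ι ι ℤ)ˣ}
    (h1 : ∀ i (t : ℤ), ∃ u ∈ H, ((u : (Matrix ι ι ℤ)ˣ) : Matrix ι ι ℤ) =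
      1 + t • (C.c (Pi.single i 1) * C.w))
    (h2 : ∀ i j, i < j → ∀ t : ℤ, ∃ u ∈ H, ((u : (Matrix ι ι ℤ)ˣ) : Matrix ι ι ℤ) =
      1 + t • (C.c (Pi.single i 1) * C.c (Pi.single j 1))) : C.HasP H := by
  classical
  have hl := long_of_basis h2
  refine ⟨fun x => ?_, hl⟩
  have key : ∀ s : Finset (Fin n), ∃ u ∈ H, ((u : (Matrix ι ι ℤ)ˣ) : Matrix ι ι ℤ) =
      1 + C.c (∑ j ∈ s, x j • Pi.single j 1) * C.w := by
    intro s
    induction s using Finset.induction_on with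
    | empty => exact ⟨1, H.one_mem, by simp⟩
    | insert a s ha ih =>
      obtain ⟨u, hu, h⟩ := ih
      obtain ⟨v, hv, h'⟩ := h1 a (x a)
      obtain ⟨z, hz, h''⟩ := hl (x a • Pi.single a 1) (∑ j ∈ s, x j • Pi.single j 1)
      refine ⟨v * u * z, H.mul_mem (H.mul_mem hv hu) hz, ?_⟩
      have h3 : x a • (C.c (Pi.single a 1) * C.w) = C.c (x a • Pi.single a 1) * C.w := by
        rw [map_smul, smul_mul_assoc]
      rw [h3] at h'
      rw [Units.val_mul, Units.val_mul, h, h', h'', Finset.sum_insert ha]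
      generalize (∑ j ∈ s, x j • Pi.single j 1 : Fin n → ℤ) = y
      generalize (x a • Pi.single a 1 : Fin n → ℤ) = b
      have e1 : C.c b * C.w * (C.c y * C.w) = -(C.c b * C.c y) := by
        rw [mul_assoc, ← mul_assoc C.w, C.wc, neg_mul, mul_assoc (C.c y), C.ww, mul_one, mul_neg]
      have e2 : C.c b * C.w * (C.c b * C.c y) = 0 := by
        rw [mul_assoc, ← mul_assoc C.w, C.wc, neg_mul, mul_neg, ← mul_assoc, ← mul_assoc, C.cc,
          zero_mul, zero_mul, neg_zero]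
      have e3 : C.c y * C.w * (C.c b * C.c y) = 0 := by
        have e0 : C.w * (C.c b * C.c y) = C.c b * C.c y * C.w := by
          rw [← mul_assoc, C.wc, neg_mul, mul_assoc, C.wc, mul_neg, neg_neg, mul_assoc]
        have e0' : C.c y * (C.c b * C.c y) = 0 := by
          rw [C.cc' b y, mul_neg, ← mul_assoc, C.cc, zero_mul, neg_zero]
        rw [mul_assoc, e0, ← mul_assoc, e0', zero_mul]
      have e4 := cxcy_sq (C := C) b y
      rw [map_add]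
      simp only [add_mul, mul_add, one_mul, mul_one, e1, e2, e3, e4, neg_mul]
      abel
  obtain ⟨u, hu, h⟩ := key Finset.univ
  rw [sum_single_fin] at h
  exact ⟨u, hu, h⟩

lemma Lev.inv {g : (Matrix ι ι ℤ)ˣ} {T T' : Mat n n} (hg : C.Lev (g : Matrix ι ι ℤ) T T') :
    C.Lev ((g⁻¹ : (Matrix ι ι ℤ)ˣ) : Matrix ι ι ℤ) T'ᵀ Tᵀ := by
  have h1 : T * T'ᵀ = 1 := by
    have := congrArg Matrix.transpose (mul_eq_one_comm.1 hg.hT)
    rwa [Matrix.transpose_mul, Matrix.transpose_transpose, Matrix.transpose_one] at this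
  have h2 : T' * Tᵀ = 1 := mul_eq_one_comm.1 hg.hT
  refine ⟨?_, fun y => ?_, fun y => ?_, ?_⟩
  · rw [Matrix.transpose_transpose, h2]
  · have h3 := hg.hc (T'ᵀ *ᵥ y)
    rw [Matrix.mulVec_mulVec, h1, Matrix.one_mulVec] at h3
    have h4 := congrArg (fun A => ((g⁻¹ : (Matrix ι ι ℤ)ˣ) : Matrix ι ι ℤ) * A *
      ((g⁻¹ : (Matrix ι ι ℤ)ˣ) : Matrix ι ι ℤ)) h3
    simp only [← mul_assoc, Units.inv_mul, one_mul] at h4
    rw [mul_assoc _ (g : Matrix ι ι ℤ), Units.mul_inv, mul_one] at h4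
    exact h4.symm
  · have h3 := hg.hd (Tᵀ *ᵥ y)
    rw [Matrix.mulVec_mulVec, h2, Matrix.one_mulVec] at h3
    have h4 := congrArg (fun A => ((g⁻¹ : (Matrix ι ι ℤ)ˣ) : Matrix ι ι ℤ) * A *
      ((g⁻¹ : (Matrix ι ι ℤ)ˣ) : Matrix ι ι ℤ)) h3
    simp only [← mul_assoc, Units.inv_mul, one_mul] at h4
    rw [mul_assoc _ (g : Matrix ι ι ℤ), Units.mul_inv, mul_one] at h4
    exact h4.symm
  · have h4 := congrArg (fun A => ((g⁻¹ : (Matrix ι ι ℤ)ˣ) : Matrix ι ι ℤ) * A *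
      ((g⁻¹ : (Matrix ι ι ℤ)ˣ) : Matrix ι ι ℤ)) hg.hw
    simp only [← mul_assoc, Units.inv_mul, one_mul] at h4
    rw [mul_assoc _ (g : Matrix ι ι ℤ), Units.mul_inv, mul_one] at h4
    exact h4.symm

variable (C) in
/-- the abelian part: generated by the `1 + c x c y` -/
def PL : Subgroup (Matrix ι ι ℤ)ˣ :=
  Subgroup.closure {u | ∃ x y, (u : Matrix ι ι ℤ) = 1 + C.c x * C.c y}

variable (C) in
/-- generated by the `1 + c x w`, `1 + c x c y` -/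
def PS : Subgroup (Matrix ι ι ℤ)ˣ :=
  Subgroup.closure {u | (∃ x, (u : Matrix ι ι ℤ) = 1 + C.c x * C.w) ∨
    ∃ x y, (u : Matrix ι ι ℤ) = 1 + C.c x * C.c y}

lemma hasP_PS : C.HasP C.PS := by
  refine ⟨fun x => ?_, fun x y => ?_⟩
  · obtain ⟨u, hu⟩ := unit_of_sq (cxw_sq (C := C) x)
    exact ⟨u, Subgroup.subset_closure (Or.inl ⟨x, hu⟩), hu⟩
  · obtain ⟨u, hu⟩ := unit_of_sq (cxcy_sq (C := C) x y)
    exact ⟨u, Subgroup.subset_closure (Or.inr ⟨x, y, hu⟩), hu⟩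

lemma long_PL (x y : Fin n → ℤ) :
    ∃ u ∈ C.PL, ((u : (Matrix ι ι ℤ)ˣ) : Matrix ι ι ℤ) = 1 + C.c x * C.c y := by
  obtain ⟨u, hu⟩ := unit_of_sq (cxcy_sq (C := C) x y)
  exact ⟨u, Subgroup.subset_closure ⟨x, y, hu⟩, hu⟩

lemma PL_le {H : Subgroup (Matrix ι ι ℤ)ˣ}
    (h : ∀ x y, ∃ u ∈ H, ((u : (Matrix ι ι ℤ)ˣ) : Matrix ι ι ℤ) = 1 + C.c x * C.c y) :
    C.PL ≤ H := by
  rw [PL, Subgroup.closure_le]
  rintro u ⟨x, y, hu⟩
  obtain ⟨v, hv, hv'⟩ := h x y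
  rwa [one_add_inj hu hv']

lemma PS_le {H : Subgroup (Matrix ι ι ℤ)ˣ} (h : C.HasP H) : C.PS ≤ H := by
  rw [PS, Subgroup.closure_le]
  rintro u (⟨x, hu⟩ | ⟨x, y, hu⟩)
  · obtain ⟨v, hv, hv'⟩ := h.1 x
    rwa [one_add_inj hu hv']
  · obtain ⟨v, hv, hv'⟩ := h.2 x y
    rwa [one_add_inj hu hv']

lemma conj_val {g u : (Matrix ι ι ℤ)ˣ} {X Y : Matrix ι ι ℤ} (hu : (u : Matrix ι ι ℤ) = 1 + X)
    (h : (g : Matrix ι ι ℤ) * X = Y * g) :
    ((g * u * g⁻¹ : (Matrix ι ι ℤ)ˣ) : Matrix ι ι ℤ) = 1 + Y := by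
  rw [Units.val_mul, Units.val_mul, hu, mul_add, add_mul, mul_one, Units.mul_inv, h, mul_assoc,
    Units.mul_inv, mul_one]

lemma conj_closure {S : Set (Matrix ι ι ℤ)ˣ} {g : (Matrix ι ι ℤ)ˣ}
    (h : ∀ u ∈ S, g * u * g⁻¹ ∈ Subgroup.closure S) :
    ∀ u ∈ Subgroup.closure S, g * u * g⁻¹ ∈ Subgroup.closure S := by
  intro u hu
  induction hu using Subgroup.closure_induction with
  | mem x hx => exact h x hx
  | one => simp
  | mul x y _ _ hx hy =>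
    have : g * (x * y) * g⁻¹ = (g * x * g⁻¹) * (g * y * g⁻¹) := by group
    rw [this]; exact Subgroup.mul_mem _ hx hy
  | inv x _ hx =>
    have : g * x⁻¹ * g⁻¹ = (g * x * g⁻¹)⁻¹ := by group
    rw [this]; exact Subgroup.inv_mem _ hx

lemma Lev.conj_PL {g : (Matrix ι ι ℤ)ˣ} {T T' : Mat n n} (hg : C.Lev (g : Matrix ι ι ℤ) T T') :
    ∀ u ∈ C.PL, g * u * g⁻¹ ∈ C.PL := by
  refine conj_closure ?_
  rintro u ⟨x, y, hu⟩
  refine Subgroup.subset_closure ⟨T *ᵥ x, T *ᵥ y, conj_val hu ?_⟩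
  rw [← mul_assoc, hg.hc, mul_assoc, hg.hc, mul_assoc]

lemma Lev.conj_PS {g : (Matrix ι ι ℤ)ˣ} {T T' : Mat n n} (hg : C.Lev (g : Matrix ι ι ℤ) T T') :
    ∀ u ∈ C.PS, g * u * g⁻¹ ∈ C.PS := by
  refine conj_closure ?_
  rintro u (⟨x, hu⟩ | ⟨x, y, hu⟩)
  · refine Subgroup.subset_closure (Or.inl ⟨T *ᵥ x, conj_val hu ?_⟩)
    rw [← mul_assoc, hg.hc, mul_assoc, hg.hw, mul_assoc]
  · refine Subgroup.subset_closure (Or.inr ⟨T *ᵥ x, T *ᵥ y, conj_val hu ?_⟩)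
    rw [← mul_assoc, hg.hc, mul_assoc, hg.hc, mul_assoc]

variable (C) in
/-- `g` preserves the space of vectors under conjugation -/
def Pr (g : Matrix ι ι ℤ) : Prop :=
  ∀ k x ξ, ∃ k' x' ξ', g * C.ga k x ξ = C.ga k' x' ξ' * g

lemma Pr.mul {g h : Matrix ι ι ℤ} (hg : C.Pr g) (hh : C.Pr h) : C.Pr (g * h) := by
  intro k x ξ
  obtain ⟨k1, x1, ξ1, h1⟩ := hh k x ξ
  obtain ⟨k2, x2, ξ2, h2⟩ := hg k1 x1 ξ1
  exact ⟨k2, x2, ξ2, by rw [mul_assoc, h1, ← mul_assoc, h2, mul_assoc]⟩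

lemma Pr.one : C.Pr 1 := fun k x ξ => ⟨k, x, ξ, by rw [one_mul, mul_one]⟩

lemma ActsP.pr {p : Matrix ι ι ℤ} {x : Mat n 1} {M : Mat n n} (hp : C.ActsP p x M) : C.Pr p :=
  fun k y ξ => ⟨_, _, _, hp.pres k y ξ⟩

lemma swap_ga (k : ℤ) (x ξ : Fin n → ℤ) : C.swap.ga k x ξ = C.ga k ξ x := by
  simp only [ga, swap]; abel

lemma Pr.of_swap {g : Matrix ι ι ℤ} (h : C.swap.Pr g) : C.Pr g := by
  intro k x ξ
  obtain ⟨k', x', ξ', h1⟩ := h k ξ x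
  rw [swap_ga, swap_ga] at h1
  exact ⟨k', ξ', x', h1⟩

lemma Lev.pr {g : Matrix ι ι ℤ} {T T' : Mat n n} (hg : C.Lev g T T') : C.Pr g := by
  intro k x ξ
  refine ⟨k, T *ᵥ x, T' *ᵥ ξ, ?_⟩
  rw [ga, ga, mul_add, mul_add, mul_smul_comm, hg.hc, hg.hd, hg.hw, add_mul, add_mul,
    smul_mul_assoc]

end CS

end Pool.Agent.KS6_44.UU
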