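import Pool.Agent.KS6_44.UU.FkC

/-!
The groups of types `B_N` and `D_N` in the spin representation: the invariant form, the Levi
subgroup `SL_N`, the stabiliser of the vacuum.
-/

namespace Pool.Agent.KS6_44.UU

open Matrix

variable {N : ℕ}

lemma anti_cc {i j : Fin N} : cr i * cr j = -(cr j * cr i) := eq_neg_of_add_eq_zero_left (cr_cr _ _)

lemma anti_aa {i j : Fin N} : an i * an j = -(an j * an i) := eq_neg_of_add_eq_zero_left (an_an _ _)

lemma anti_ca {i j : Fin N} (h : i ≠ j) : cr i * an j = -(an j * cr i) := by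
  have := cr_an i j
  rw [if_neg h] at this
  exact eq_neg_of_add_eq_zero_left this

lemma sq_cc (i j : Fin N) : cr i * cr j * (cr i * cr j) = 0 := by
  rw [mul_assoc, ← mul_assoc (cr j), anti_cc (i := j) (j := i), neg_mul, mul_neg, mul_assoc (cr i),
    cr_sq, mul_zero, mul_zero, neg_zero]

lemma sq_aa (i j : Fin N) : an i * an j * (an i * an j) = 0 := by
  rw [mul_assoc, ← mul_assoc (an j), anti_aa (i := j) (j := i), neg_mul, mul_neg, mul_assoc (an i),
    an_sq, mul_zero, mul_zero, neg_zero]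

lemma sq_ca {i j : Fin N} (h : i ≠ j) : cr i * an j * (cr i * an j) = 0 := by
  rw [mul_assoc, ← mul_assoc (an j), ← neg_neg (an j * cr i), ← anti_ca h, neg_mul, mul_neg,
    mul_assoc (cr i), an_sq, mul_zero, mul_zero, neg_zero]

lemma sq_cp (i : Fin N) : cr i * par * (cr i * par) = 0 := by
  rw [mul_assoc, ← mul_assoc par, par_cr, neg_mul, mul_neg, ← mul_assoc, ← mul_assoc, cr_sq,
    zero_mul, zero_mul, neg_zero]

lemma sq_ap (i : Fin N) : an i * par * (an i * par) = 0 := by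
  rw [mul_assoc, ← mul_assoc par, par_an, neg_mul, mul_neg, ← mul_assoc, ← mul_assoc, an_sq,
    zero_mul, zero_mul, neg_zero]

lemma sq_smul {X : FM N} (h : X * X = 0) (t : ℤ) : t • X * (t • X) = 0 := by
  rw [smul_mul_assoc, mul_smul_comm, h, smul_zero, smul_zero]

/-- a matrix is a basic root direction of type `B_N` -/
def Dir (X : FM N) : Prop :=
  (∃ i j, i ≠ j ∧ X = cr i * an j) ∨ (∃ i j, i ≠ j ∧ X = cr i * cr j) ∨
    (∃ i j, i ≠ j ∧ X = an i * an j) ∨ (∃ i, X = cr i * par) ∨ ∃ i, X = an i * par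

lemma Dir.sq {X : FM N} (h : Dir X) : X * X = 0 := by
  rcases h with ⟨i, j, h, rfl⟩ | ⟨i, j, h, rfl⟩ | ⟨i, j, h, rfl⟩ | ⟨i, rfl⟩ | ⟨i, rfl⟩
  · exact sq_ca h
  · exact sq_cc i j
  · exact sq_aa i j
  · exact sq_cp i
  · exact sq_ap i

/-- the root elements of type `B_N` -/
def rootB (N : ℕ) : Set (FM N)ˣ := {g | ∃ X : FM N, Dir X ∧ ∃ t : ℤ, (g : FM N) = 1 + t • X}

lemma posB_sub : posB N ⊆ rootB N := by
  rintro g (⟨i, j, t, hij, h | h⟩ | ⟨i, t, h⟩)
  · exact ⟨_, Or.inl ⟨i, j, hij.ne, rfl⟩, t, h⟩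
  · exact ⟨_, Or.inr (Or.inl ⟨i, j, hij.ne, rfl⟩), t, h⟩
  · exact ⟨_, Or.inr (Or.inr (Or.inr (Or.inl ⟨i, rfl⟩))), t, h⟩

lemma negB_sub : negB N ⊆ rootB N := by
  rintro g (⟨i, j, t, hij, h | h⟩ | ⟨i, t, h⟩)
  · exact ⟨_, Or.inl ⟨j, i, hij.ne', rfl⟩, t, h⟩
  · exact ⟨_, Or.inr (Or.inr (Or.inl ⟨i, j, hij.ne, rfl⟩)), t, h⟩
  · exact ⟨_, Or.inr (Or.inr (Or.inr (Or.inr ⟨i, rfl⟩))), t, h⟩

/-- the whole group of type `B_N` -/
abbrev GB (N : ℕ) : Subgroup (FM N)ˣ := Subgroup.closure (rootB N)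

/-! ### the invariant form -/

/-- the matrix of the invariant form -/
def JJ (N : ℕ) : FM N := Jl (List.finRange N) * par

lemma JJ_facts (N : ℕ) : ∃ τ : ℤ, τ * τ = 1 ∧
    (∀ i : Fin N, (cr i)ᵀ * JJ N = τ • (JJ N * cr i)) ∧
    (∀ i : Fin N, (an i)ᵀ * JJ N = τ • (JJ N * an i)) ∧
    (par : FM N)ᵀ * JJ N = τ • (JJ N * par) := by
  have hnd := List.nodup_finRange N
  have hlen : (List.finRange N).length = N := List.length_finRange
  refine ⟨(-1) ^ N, by rw [← mul_pow]; norm_num, fun i => ?_, fun i => ?_, ?_⟩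
  · have h1 := Jl_an_mem _ hnd i (List.mem_finRange i)
    rw [hlen] at h1
    have h2 : (cr i)ᵀ = an i := rfl
    rw [h2, JJ, ← mul_assoc, h1, smul_mul_assoc, mul_assoc, mul_assoc, par_cr, pow_succ, mul_neg,
      mul_neg, mul_one, neg_smul, smul_neg]
  · have h1 := Jl_cr_mem _ hnd i (List.mem_finRange i)
    rw [hlen] at h1
    have h2 : (an i)ᵀ = cr i := Matrix.transpose_transpose _
    rw [h2, JJ, ← mul_assoc, h1, smul_mul_assoc, mul_assoc, mul_assoc, par_an, pow_succ, mul_neg,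
      mul_neg, mul_one, neg_smul, smul_neg]
  · rw [par_transpose, JJ, ← mul_assoc, par_Jl, hlen, smul_mul_assoc]

/-- the group preserving the form -/
def GJ (N : ℕ) : Subgroup (FM N)ˣ where
  carrier := {g | (g : FM N)ᵀ * JJ N * g = JJ N}
  mul_mem' := by
    intro a b ha hb
    have ha' : (a : FM N)ᵀ * JJ N * a = JJ N := ha
    have hb' : (b : FM N)ᵀ * JJ N * b = JJ N := hb
    show ((a * b : (FM N)ˣ) : FM N)ᵀ * JJ N * ((a * b : (FM N)ˣ) : FM N) = JJ N
    rw [Units.val_mul, Matrix.transpose_mul]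
    calc (b : FM N)ᵀ * (a : FM N)ᵀ * JJ N * ((a : FM N) * b)
        = (b : FM N)ᵀ * ((a : FM N)ᵀ * JJ N * a) * b := by simp only [mul_assoc]
      _ = JJ N := by rw [ha', hb']
  one_mem' := by
    show ((1 : (FM N)ˣ) : FM N)ᵀ * JJ N * ((1 : (FM N)ˣ) : FM N) = JJ N
    rw [Units.val_one, Matrix.transpose_one, one_mul, mul_one]
  inv_mem' := by
    intro a ha
    have ha' : (a : FM N)ᵀ * JJ N * a = JJ N := ha
    show ((a⁻¹ : (FM N)ˣ) : FM N)ᵀ * JJ N * ((a⁻¹ : (FM N)ˣ) : FM N) = JJ N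
    have h1 : ((a⁻¹ : (FM N)ˣ) : FM N)ᵀ * (a : FM N)ᵀ = 1 := by
      rw [← Matrix.transpose_mul, Units.mul_inv, Matrix.transpose_one]
    calc ((a⁻¹ : (FM N)ˣ) : FM N)ᵀ * JJ N * ((a⁻¹ : (FM N)ˣ) : FM N)
        = ((a⁻¹ : (FM N)ˣ) : FM N)ᵀ * ((a : FM N)ᵀ * JJ N * a) * ((a⁻¹ : (FM N)ˣ) : FM N) := by
          rw [ha']
      _ = (((a⁻¹ : (FM N)ˣ) : FM N)ᵀ * (a : FM N)ᵀ) * JJ N *
          ((a : FM N) * ((a⁻¹ : (FM N)ˣ) : FM N)) := by simp only [mul_assoc]
      _ = JJ N := by rw [h1, Units.mul_inv, one_mul, mul_one]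

lemma mem_GJ {g : (FM N)ˣ} : g ∈ GJ N ↔ (g : FM N)ᵀ * JJ N * g = JJ N := Iff.rfl

lemma GJ_of {X Y : FM N} {τ : ℤ} (hτ : τ * τ = 1) (hX : Xᵀ * JJ N = τ • (JJ N * X))
    (hY : Yᵀ * JJ N = τ • (JJ N * Y)) (hXY : Y * X = -(X * Y)) :
    (X * Y)ᵀ * JJ N = -(JJ N * (X * Y)) := by
  rw [Matrix.transpose_mul, mul_assoc, hX, mul_smul_comm, ← mul_assoc, hY, smul_mul_assoc,
    smul_smul, hτ, one_smul, mul_assoc, hXY, mul_neg]

lemma GB_le_GJ : GB N ≤ GJ N := by
  rw [GB, Subgroup.closure_le]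
  rintro g ⟨X, hX, t, hg⟩
  obtain ⟨τ, hτ, h1, h2, h3⟩ := JJ_facts N
  have hX2 := hX.sq
  have hXJ : Xᵀ * JJ N = -(JJ N * X) := by
    rcases hX with ⟨i, j, h, rfl⟩ | ⟨i, j, h, rfl⟩ | ⟨i, j, h, rfl⟩ | ⟨i, rfl⟩ | ⟨i, rfl⟩
    · exact GJ_of hτ (h1 i) (h2 j) (by rw [anti_ca h, neg_neg])
    · exact GJ_of hτ (h1 i) (h1 j) anti_cc
    · exact GJ_of hτ (h2 i) (h2 j) anti_aa
    · exact GJ_of hτ (h1 i) h3 (par_cr i)
    · exact GJ_of hτ (h2 i) h3 (par_an i)
  show (g : FM N)ᵀ * JJ N * g = JJ N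
  have e1 : (1 - t • X) * (1 + t • X) = 1 := by
    rw [sub_mul, mul_add, mul_add, sq_smul hX2 t]; simp
  have e2 : (1 + t • X)ᵀ * JJ N = JJ N * (1 - t • X) := by
    rw [Matrix.transpose_add, Matrix.transpose_one, Matrix.transpose_smul, add_mul, one_mul,
      smul_mul_assoc, hXJ, mul_sub, mul_one, mul_smul_comm, smul_neg, sub_eq_add_neg]
  rw [hg, e2, mul_assoc, e1, mul_one]

/-! ### the element with determinant `-1` -/

lemma anck (k : Fin N) : an k * cr k = 1 - cr k * an k := by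
  have := cr_an k k
  rw [if_pos rfl] at this
  exact eq_sub_of_add_eq' this

/-- occupation number -/
def En (k : Fin N) : FM N := cr k * an k

lemma En_sq (k : Fin N) : En k * En k = En k := by
  rw [En, mul_assoc, ← mul_assoc (an k), anck, sub_mul, one_mul, mul_assoc (cr k), an_sq,
    mul_zero, sub_zero]

lemma En_transpose (k : Fin N) : (En k)ᵀ = En k := by
  have h1 : (an k : FM N)ᵀ = cr k := Matrix.transpose_transpose _
  have h2 : (cr k : FM N)ᵀ = an k := rfl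
  rw [En, Matrix.transpose_mul, h1, h2]

lemma cr_En (k : Fin N) : cr k * En k = 0 := by rw [En, ← mul_assoc, cr_sq, zero_mul]

lemma an_En (k : Fin N) : an k * En k = an k := by
  rw [En, ← mul_assoc, anck, sub_mul, one_mul, mul_assoc, an_sq, mul_zero, sub_zero]

lemma En_c (k : Fin N) (y : Fin N → ℤ) :
    En k * (CB N).c y = y k • cr k + (CB N).c y * En k := by
  have h1 : an k * (CB N).c y = y k • (1 : FM N) - (CB N).c y * an k := by
    have := (CB N).cd y (Pi.single k 1)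
    rw [CB_d_single, dotProduct_single, mul_one, add_comm] at this
    exact eq_sub_of_add_eq this
  have h2 : cr k * (CB N).c y = -((CB N).c y * cr k) := by
    have := (CB N).cc' (Pi.single k 1) y
    rwa [CB_c_single] at this
  rw [En, mul_assoc, h1, mul_sub, mul_smul_comm, mul_one, ← mul_assoc, h2, neg_mul, mul_assoc]
  abel

lemma En_d (k : Fin N) (y : Fin N → ℤ) :
    En k * (CB N).d y = -(y k • an k) + (CB N).d y * En k := by
  have h1 : cr k * (CB N).d y = y k • (1 : FM N) - (CB N).d y * cr k := by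
    have := (CB N).cd (Pi.single k 1) y
    rw [CB_c_single, single_one_dotProduct] at this
    exact eq_sub_of_add_eq this
  have h2 : an k * (CB N).d y = -((CB N).d y * an k) := by
    have := (CB N).swap.cc' (Pi.single k 1) y
    have e : (CB N).swap.c = (CB N).d := rfl
    rwa [e, CB_d_single] at this
  rw [En, mul_assoc, h2, mul_neg, ← mul_assoc, h1, sub_mul, smul_mul_assoc, one_mul, mul_assoc]
  abel

lemma En_par (k : Fin N) : En k * par = par * En k := by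
  have h1 : an k * par = -(par * an k) := by rw [par_an, neg_neg]
  have h2 : cr k * par = -(par * cr k) := by rw [par_cr, neg_neg]
  rw [En, mul_assoc, h1, mul_neg, ← mul_assoc, h2, neg_mul, neg_neg, mul_assoc]

/-- the matrix `1 - 2 E` -/
def Rn (k : Fin N) : FM N := 1 - (2 : ℤ) • En k

lemma two_smul_idem {A : Type} [Ring A] {E : A} (h : E * E = E) :
    (1 - (2 : ℤ) • E) * (1 - (2 : ℤ) • E) = 1 := by
  rw [sub_mul, mul_sub, mul_sub, one_mul, mul_one, one_mul, smul_mul_assoc, mul_smul_comm, h,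
    two_smul, two_smul]
  abel

lemma Rn_sq (k : Fin N) : Rn k * Rn k = 1 := two_smul_idem (En_sq k)

lemma Rn_JJ (k : Fin N) : Rn k * JJ N = -(JJ N * Rn k) := by
  obtain ⟨τ, hτ, h2, h3, -⟩ := JJ_facts N
  have h2' : an k * JJ N = τ • (JJ N * cr k) := h2 k
  have h3' : cr k * JJ N = τ • (JJ N * an k) := by
    have := h3 k
    have e2 : (an k : FM N)ᵀ = cr k := Matrix.transpose_transpose _
    rwa [e2] at this
  have h4 : En k * JJ N = JJ N * (1 - En k) := by
    rw [En, mul_assoc, h2', mul_smul_comm, ← mul_assoc, h3', smul_mul_assoc, smul_smul, hτ,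
      one_smul, mul_assoc, anck]
  rw [Rn, sub_mul, one_mul, smul_mul_assoc, h4, mul_sub, mul_sub, mul_one, mul_smul_comm,
    smul_sub, two_smul]
  abel

lemma Rn_not_mem (k : Fin N) {r : (FM N)ˣ} (hr : (r : FM N) = Rn k) : r ∉ GB N := by
  intro hmem
  have h1 : (r : FM N)ᵀ * JJ N * r = JJ N := GB_le_GJ hmem
  have hRt : (Rn k)ᵀ = Rn k := by
    rw [Rn, Matrix.transpose_sub, Matrix.transpose_smul, En_transpose, Matrix.transpose_one]
  rw [hr, hRt, Rn_JJ, neg_mul, mul_assoc, Rn_sq, mul_one] at h1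
  have h6 : (2 : ℤ) • JJ N = 0 := by
    rw [two_smul]; nth_rw 1 [← h1]; exact neg_add_cancel _
  have h7 : JJ N = 0 := by
    ext A B
    have := congrFun (congrFun h6 A) B
    rw [Matrix.smul_apply, smul_eq_mul, Matrix.zero_apply] at this
    rw [Matrix.zero_apply]; omega
  have h8 : IsUnit (JJ N) := (Jl_unit _).mul (IsUnit.of_mul_eq_one _ par_sq)
  rw [h7] at h8
  exact not_isUnit_zero h8

/-- the diagonal matrix with one entry `-1` -/
def Dk (k : Fin N) : Mat N N := Matrix.diagonal fun i => if i = k then -1 else 1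

lemma Dk_sq (k : Fin N) : Dk k * Dk k = 1 := by
  rw [Dk, Matrix.diagonal_mul_diagonal, ← Matrix.diagonal_one]
  congr 1
  ext i
  by_cases h : i = k
  · rw [if_pos h]; norm_num
  · rw [if_neg h]; norm_num

lemma Dk_transpose (k : Fin N) : (Dk k)ᵀ = Dk k := Matrix.diagonal_transpose _

lemma Dk_mulVec (k : Fin N) (y : Fin N → ℤ) : Dk k *ᵥ y = y - (2 * y k) • Pi.single k 1 := by
  ext i
  rw [Dk, Matrix.mulVec_diagonal, Pi.sub_apply, Pi.smul_apply, smul_eq_mul]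
  by_cases h : i = k
  · subst h; rw [if_pos rfl, Pi.single_eq_same]; ring
  · rw [if_neg h, Pi.single_eq_of_ne h]; ring

lemma Dk_det (k : Fin N) : (Dk k).det = -1 := by
  rw [Dk, Matrix.det_diagonal, Finset.prod_ite_eq']
  simp

lemma Rn_lev (k : Fin N) : (CB N).Lev (Rn k) (Dk k) (Dk k) := by
  refine ⟨by rw [Dk_transpose, Dk_sq], fun y => ?_, fun y => ?_, ?_⟩
  · rw [Dk_mulVec, map_sub, map_smul, CB_c_single, Rn, sub_mul, mul_sub, one_mul, mul_one,
      sub_mul, smul_mul_assoc, En_c, mul_smul_comm, smul_mul_assoc, mul_smul_comm, cr_En,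
      smul_zero, smul_zero, sub_zero, smul_add, smul_smul]
    abel
  · rw [Dk_mulVec, map_sub, map_smul, CB_d_single, Rn, sub_mul, mul_sub, one_mul, mul_one,
      sub_mul, smul_mul_assoc, En_d, mul_smul_comm, smul_mul_assoc, mul_smul_comm, an_En,
      smul_add, smul_neg, smul_smul, smul_comm (2 * y k) (2 : ℤ) (an k)]
    abel
  · rw [Rn, CB_w, sub_mul, mul_sub, one_mul, mul_one, smul_mul_assoc, mul_smul_comm, En_par]

/-- a unit outside the group, of determinant `-1` on the vectors -/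
lemma exists_R (k : Fin N) : ∃ r : (FM N)ˣ, r ∉ GB N ∧
    (r : FM N) *ᵥ Om N = Om N ∧ (CB N).Lev (r : FM N) (Dk k) (Dk k) := by
  refine ⟨⟨Rn k, Rn k, Rn_sq k, Rn_sq k⟩, Rn_not_mem k rfl, ?_, Rn_lev k⟩
  show Rn k *ᵥ Om N = Om N
  rw [Rn, Matrix.sub_mulVec, Matrix.one_mulVec, Matrix.smul_mulVec, En, ← Matrix.mulVec_mulVec,
    an_Om, Matrix.mulVec_zero, smul_zero, sub_zero]

end Pool.Agent.KS6_44.UU
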