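import Pool.Agent.KS6_44.UU.FkD

/-!
The Levi subgroup `SL_N` of the groups of types `B_N` and `D_N`, and the stabiliser of the vacuum.
-/

namespace Pool.Agent.KS6_44.UU

open Matrix

section closure

variable {ι : Type} [Fintype ι] [DecidableEq ι]

lemma fix_closure {S : Set (Matrix ι ι ℤ)ˣ} {ψ : ι → ℤ}
    (h : ∀ u ∈ S, (u : Matrix ι ι ℤ) *ᵥ ψ = ψ) {u : (Matrix ι ι ℤ)ˣ}
    (hu : u ∈ Subgroup.closure S) : (u : Matrix ι ι ℤ) *ᵥ ψ = ψ := by
  induction hu using Subgroup.closure_induction with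
  | mem x hx => exact h x hx
  | one => rw [Units.val_one, Matrix.one_mulVec]
  | mul x y _ _ hx hy => rw [Units.val_mul, ← Matrix.mulVec_mulVec, hy, hx]
  | inv x _ hx =>
    nth_rw 1 [← hx]
    rw [Matrix.mulVec_mulVec, Units.inv_mul, Matrix.one_mulVec]

lemma lin_closure {S : Set (Matrix ι ι ℤ)ˣ} {f : (ι → ℤ) →ₗ[ℤ] ℤ}
    (h : ∀ u ∈ S, ∀ φ, f ((u : Matrix ι ι ℤ) *ᵥ φ) = f φ) {u : (Matrix ι ι ℤ)ˣ}
    (hu : u ∈ Subgroup.closure S) : ∀ φ, f ((u : Matrix ι ι ℤ) *ᵥ φ) = f φ := by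
  induction hu using Subgroup.closure_induction with
  | mem x hx => exact h x hx
  | one => intro φ; rw [Units.val_one, Matrix.one_mulVec]
  | mul x y _ _ hx hy => intro φ; rw [Units.val_mul, ← Matrix.mulVec_mulVec, hx, hy]
  | inv x _ hx =>
    intro φ
    rw [← hx, Matrix.mulVec_mulVec, Units.mul_inv, Matrix.one_mulVec]

lemma comm_closure {S : Set (Matrix ι ι ℤ)ˣ} {A : Matrix ι ι ℤ}
    (h : ∀ u ∈ S, (u : Matrix ι ι ℤ) * A = A * (u : Matrix ι ι ℤ)) {u : (Matrix ι ι ℤ)ˣ}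
    (hu : u ∈ Subgroup.closure S) : (u : Matrix ι ι ℤ) * A = A * (u : Matrix ι ι ℤ) := by
  induction hu using Subgroup.closure_induction with
  | mem x hx => exact h x hx
  | one => rw [Units.val_one, one_mul, mul_one]
  | mul x y _ _ hx hy => rw [Units.val_mul, mul_assoc, hy, ← mul_assoc, hx, mul_assoc]
  | inv x _ hx =>
    calc ((x⁻¹ : (Matrix ι ι ℤ)ˣ) : Matrix ι ι ℤ) * A
        = ((x⁻¹ : (Matrix ι ι ℤ)ˣ) : Matrix ι ι ℤ) * (A * x) *
            ((x⁻¹ : (Matrix ι ι ℤ)ˣ) : Matrix ι ι ℤ) := by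
          rw [mul_assoc, mul_assoc A, Units.mul_inv, mul_one]
      _ = A * ((x⁻¹ : (Matrix ι ι ℤ)ˣ) : Matrix ι ι ℤ) := by
          rw [← hx, ← mul_assoc, Units.inv_mul, one_mul]

end closure

lemma CS.cxdv_sq {n : ℕ} {ι : Type} [Fintype ι] [DecidableEq ι] {C : CS n ι} {x v : Fin n → ℤ}
    (h : v ⬝ᵥ x = 0) : C.c x * C.d v * (C.c x * C.d v) = 0 := by
  have h1 : C.d v * C.c x = -(C.c x * C.d v) := by
    have := C.cd x v
    rw [dotProduct_comm, h, zero_smul, add_comm] at this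
    exact eq_neg_of_add_eq_zero_left this
  rw [mul_assoc, ← mul_assoc (C.d v), h1, neg_mul, mul_neg, mul_assoc (C.c x), C.dd, mul_zero,
    mul_zero, neg_zero]

variable {N : ℕ}

/-- the Levi subgroup, generated by the `1 + c x d v` with `v · x = 0` -/
def LV (N : ℕ) : Subgroup (FM N)ˣ :=
  Subgroup.closure {u | ∃ x v, v ⬝ᵥ x = 0 ∧ (u : FM N) = 1 + (CB N).c x * (CB N).d v}

/-- its upper unitriangular subgroup -/
def LU (N : ℕ) : Subgroup (FM N)ˣ :=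
  Subgroup.closure {u | ∃ (i j : Fin N) (t : ℤ), i < j ∧ (u : FM N) = 1 + t • (cr i * an j)}

/-- its lower unitriangular subgroup -/
def LL (N : ℕ) : Subgroup (FM N)ˣ :=
  Subgroup.closure {u | ∃ (i j : Fin N) (t : ℤ), i < j ∧ (u : FM N) = 1 + t • (cr j * an i)}

lemma mem_LV {x v : Fin N → ℤ} (h : v ⬝ᵥ x = 0) :
    ∃ u ∈ LV N, (u : FM N) = 1 + (CB N).c x * (CB N).d v := by
  obtain ⟨u, hu⟩ := unit_of_sq (CS.cxdv_sq (C := CB N) h)
  exact ⟨u, Subgroup.subset_closure ⟨x, v, h, hu⟩, hu⟩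

lemma LU_le_LV : LU N ≤ LV N := by
  rw [LU, Subgroup.closure_le]
  rintro u ⟨i, j, t, hij, hu⟩
  refine Subgroup.subset_closure ⟨Pi.single i 1, t • Pi.single j 1, ?_, ?_⟩
  · rw [smul_dotProduct, single_one_dotProduct, Pi.single_eq_of_ne hij.ne', smul_zero]
  · rw [map_smul, CB_c_single, CB_d_single, mul_smul_comm]; exact hu

lemma LL_le_LV : LL N ≤ LV N := by
  rw [LL, Subgroup.closure_le]
  rintro u ⟨i, j, t, hij, hu⟩
  refine Subgroup.subset_closure ⟨Pi.single j 1, t • Pi.single i 1, ?_, ?_⟩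
  · rw [smul_dotProduct, single_one_dotProduct, Pi.single_eq_of_ne hij.ne, smul_zero]
  · rw [map_smul, CB_c_single, CB_d_single, mul_smul_comm]; exact hu

lemma LV_lev {l : (FM N)ˣ} (hl : l ∈ LV N) :
    ∃ T T' : Mat N N, T.det = 1 ∧ (CB N).Lev (l : FM N) T T' := by
  unfold LV at hl
  induction hl using Subgroup.closure_induction with
  | mem u hu =>
    obtain ⟨x, v, h, hu⟩ := hu
    refine ⟨1 + Matrix.vecMulVec x v, 1 - Matrix.vecMulVec v x, ?_, ?_⟩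
    · rw [Matrix.vecMulVec_eq (Fin 1), Matrix.det_one_add_replicateCol_mul_replicateRow, h,
        add_zero]
    · rw [hu]; exact CS.lev_row x v h
  | one => exact ⟨1, 1, Matrix.det_one, by rw [Units.val_one]; exact CS.Lev.one⟩
  | mul x y _ _ hx hy =>
    obtain ⟨T, T', h1, h2⟩ := hx
    obtain ⟨S, S', h3, h4⟩ := hy
    exact ⟨T * S, T' * S', by rw [Matrix.det_mul, h1, h3, one_mul], by
      rw [Units.val_mul]; exact h2.mul h4⟩
  | inv x _ hx =>
    obtain ⟨T, T', h1, h2⟩ := hx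
    refine ⟨T'ᵀ, Tᵀ, ?_, h2.inv⟩
    have := congrArg Matrix.det h2.hT
    rw [Matrix.det_mul, Matrix.det_transpose, h1, one_mul, Matrix.det_one] at this
    rw [Matrix.det_transpose, this]

lemma LV_Om {l : (FM N)ˣ} (hl : l ∈ LV N) : (l : FM N) *ᵥ Om N = Om N := by
  refine fix_closure ?_ hl
  rintro u ⟨x, v, -, hu⟩
  rw [hu, Matrix.add_mulVec, Matrix.one_mulVec, ← Matrix.mulVec_mulVec, d_Om, Matrix.mulVec_zero,
    add_zero]

lemma LV_vac {l : (FM N)ˣ} (hl : l ∈ LV N) : ∀ φ, vac N ((l : FM N) *ᵥ φ) = vac N φ := by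
  refine lin_closure ?_ hl
  rintro u ⟨x, v, -, hu⟩ φ
  rw [hu, Matrix.add_mulVec, Matrix.one_mulVec, ← Matrix.mulVec_mulVec, map_add, vac_c, add_zero]

lemma par_cc' (x y : Fin N → ℤ) : (CB N).c x * (CB N).c y * par = par * ((CB N).c x * (CB N).c y) := by
  rw [← CB_w, ← mul_assoc, (CB N).wc, neg_mul, mul_assoc, mul_assoc, (CB N).wc, mul_neg, neg_neg]

lemma par_dd' (x y : Fin N → ℤ) : (CB N).d x * (CB N).d y * par = par * ((CB N).d x * (CB N).d y) := by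
  rw [← CB_w, ← mul_assoc, (CB N).wd, neg_mul, mul_assoc, mul_assoc, (CB N).wd, mul_neg, neg_neg]

lemma par_cd' (x y : Fin N → ℤ) : (CB N).c x * (CB N).d y * par = par * ((CB N).c x * (CB N).d y) := by
  rw [← CB_w, ← mul_assoc, (CB N).wc, neg_mul, mul_assoc, mul_assoc, (CB N).wd, mul_neg, neg_neg]

lemma LV_par {l : (FM N)ˣ} (hl : l ∈ LV N) : (l : FM N) * par = par * (l : FM N) := by
  refine comm_closure ?_ hl
  rintro u ⟨x, v, -, hu⟩
  rw [hu, add_mul, mul_add, one_mul, mul_one, par_cd']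

lemma PL_par {p : (FM N)ˣ} (hp : p ∈ (CB N).PL) : (p : FM N) * par = par * (p : FM N) := by
  refine comm_closure ?_ hp
  rintro u ⟨x, v, hu⟩
  rw [hu, add_mul, mul_add, one_mul, mul_one, par_cc']

lemma QL_par {p : (FM N)ˣ} (hp : p ∈ (CB N).swap.PL) : (p : FM N) * par = par * (p : FM N) := by
  refine comm_closure ?_ hp
  rintro u ⟨x, v, hu⟩
  have e : (CB N).swap.c = (CB N).d := rfl
  rw [e] at hu
  rw [hu, add_mul, mul_add, one_mul, mul_one, par_dd']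

lemma PS_vac {p : (FM N)ˣ} (hp : p ∈ (CB N).PS) : ∀ φ, vac N ((p : FM N) *ᵥ φ) = vac N φ := by
  refine lin_closure ?_ hp
  rintro u (⟨x, hu⟩ | ⟨x, v, hu⟩) φ
  · rw [hu, Matrix.add_mulVec, Matrix.one_mulVec, ← Matrix.mulVec_mulVec, map_add, vac_c, add_zero]
  · rw [hu, Matrix.add_mulVec, Matrix.one_mulVec, ← Matrix.mulVec_mulVec, map_add, vac_c, add_zero]

lemma PL_vac {p : (FM N)ˣ} (hp : p ∈ (CB N).PL) : ∀ φ, vac N ((p : FM N) *ᵥ φ) = vac N φ := by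
  refine lin_closure ?_ hp
  rintro u ⟨x, v, hu⟩ φ
  rw [hu, Matrix.add_mulVec, Matrix.one_mulVec, ← Matrix.mulVec_mulVec, map_add, vac_c, add_zero]

lemma QS_Om {p : (FM N)ˣ} (hp : p ∈ (CB N).swap.PS) : (p : FM N) *ᵥ Om N = Om N := by
  refine fix_closure ?_ hp
  have e : (CB N).swap.c = (CB N).d := rfl
  have e' : (CB N).swap.w = par := rfl
  rintro u (⟨x, hu⟩ | ⟨x, v, hu⟩)
  · rw [e, e'] at hu
    rw [hu, Matrix.add_mulVec, Matrix.one_mulVec, ← Matrix.mulVec_mulVec, par_Om, d_Om, add_zero]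
  · rw [e] at hu
    rw [hu, Matrix.add_mulVec, Matrix.one_mulVec, ← Matrix.mulVec_mulVec, d_Om,
      Matrix.mulVec_zero, add_zero]

lemma QL_Om {p : (FM N)ˣ} (hp : p ∈ (CB N).swap.PL) : (p : FM N) *ᵥ Om N = Om N := by
  refine fix_closure ?_ hp
  have e : (CB N).swap.c = (CB N).d := rfl
  rintro u ⟨x, v, hu⟩
  rw [e] at hu
  rw [hu, Matrix.add_mulVec, Matrix.one_mulVec, ← Matrix.mulVec_mulVec, d_Om,
    Matrix.mulVec_zero, add_zero]

/-! ### preservation of the space of vectors -/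

lemma Dir.pr {X : FM N} (h : Dir X) (t : ℤ) : (CB N).Pr (1 + t • X) := by
  have ec : (CB N).swap.c = (CB N).d := rfl
  have ew : (CB N).swap.w = par := rfl
  rcases h with ⟨i, j, h, rfl⟩ | ⟨i, j, h, rfl⟩ | ⟨i, j, h, rfl⟩ | ⟨i, rfl⟩ | ⟨i, rfl⟩
  · have h1 := CS.lev_row (C := CB N) (Pi.single i 1) (t • Pi.single j 1)
      (by rw [smul_dotProduct, single_one_dotProduct, Pi.single_eq_of_ne h.symm, smul_zero])
    rw [map_smul, CB_c_single, CB_d_single, mul_smul_comm] at h1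
    exact h1.pr
  · have h1 := CS.actsP_long (C := CB N) (Pi.single i 1) (t • Pi.single j 1)
    rw [map_smul, CB_c_single, CB_c_single, mul_smul_comm] at h1
    exact h1.pr
  · have h1 := CS.actsP_long (C := (CB N).swap) (Pi.single i 1) (t • Pi.single j 1)
    rw [map_smul, ec, CB_d_single, CB_d_single, mul_smul_comm] at h1
    exact h1.pr.of_swap
  · have h1 := CS.actsP_short (C := CB N) (t • (Matrix.of fun k (_ : Fin 1) =>
      (Pi.single i 1 : Fin N → ℤ) k))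
    have e : (fun k => (t • (Matrix.of fun k (_ : Fin 1) => (Pi.single i 1 : Fin N → ℤ) k)) k 0) =
        t • (Pi.single i 1 : Fin N → ℤ) := rfl
    rw [e, map_smul, CB_c_single, smul_mul_assoc, CB_w] at h1
    exact h1.pr
  · have h1 := CS.actsP_short (C := (CB N).swap) (t • (Matrix.of fun k (_ : Fin 1) =>
      (Pi.single i 1 : Fin N → ℤ) k))
    have e : (fun k => (t • (Matrix.of fun k (_ : Fin 1) => (Pi.single i 1 : Fin N → ℤ) k)) k 0) =
        t • (Pi.single i 1 : Fin N → ℤ) := rfl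
    rw [e, map_smul, ec, CB_d_single, smul_mul_assoc, ew] at h1
    exact h1.pr.of_swap

lemma GB_pr {g : (FM N)ˣ} (hg : g ∈ GB N) :
    (CB N).Pr (g : FM N) ∧ (CB N).Pr ((g⁻¹ : (FM N)ˣ) : FM N) := by
  unfold GB at hg
  induction hg using Subgroup.closure_induction with
  | mem u hu =>
    obtain ⟨X, hX, t, hu⟩ := hu
    refine ⟨by rw [hu]; exact hX.pr t, ?_⟩
    rw [unit_inv_of hu (sq_smul hX.sq t), sub_eq_add_neg, ← neg_smul]
    exact hX.pr _
  | one => exact ⟨CS.Pr.one, by rw [inv_one]; exact CS.Pr.one⟩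
  | mul x y _ _ hx hy =>
    refine ⟨by rw [Units.val_mul]; exact hx.1.mul hy.1, ?_⟩
    rw [_root_.mul_inv_rev, Units.val_mul]
    exact hy.2.mul hx.2
  | inv x _ hx => exact ⟨hx.2, by rw [inv_inv]; exact hx.1⟩

lemma an_eq_ga (j : Fin N) : an j = (CB N).ga 0 0 (Pi.single j 1) := by
  rw [CS.ga, zero_smul, map_zero, zero_add, zero_add, CB_d_single]

lemma cr_eq_ga (j : Fin N) : cr j = (CB N).ga 0 (Pi.single j 1) 0 := by
  rw [CS.ga, zero_smul, map_zero, zero_add, add_zero, CB_c_single]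

/-! ### the Levi subgroup -/

lemma lev_lower {v : Mat N N} (hv : IsL v) : ∃ g ∈ LL N, ∃ T' : Mat N N,
    (CB N).Lev (g : FM N) v T' := by
  obtain ⟨v', hv', h1, h2⟩ := hv.inv
  have ec : (CB N).swap.c = (CB N).d := rfl
  have ed : (CB N).swap.d = (CB N).c := rfl
  obtain ⟨g, hg, T', hL⟩ := CS.lev_upper (C := (CB N).swap) (H := LL N) (u := v'ᵀ) (by
    intro i j hij t
    obtain ⟨u, hu⟩ := unit_of_sq (sq_smul (sq_ca hij.ne') (-t))
    refine ⟨u, Subgroup.subset_closure ⟨i, j, -t, hij, hu⟩, ?_⟩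
    rw [hu, ec, ed, CB_c_single, CB_d_single, anti_ca hij.ne', neg_smul, smul_neg, neg_neg])
    hv'.transpose
  have h3 : T' = v := by
    have h4 := hL.hT
    rw [Matrix.transpose_transpose] at h4
    calc T' = v * v' * T' := by rw [h1, Matrix.one_mul]
      _ = v := by rw [Matrix.mul_assoc, h4, Matrix.mul_one]
  subst h3
  exact ⟨g, hg, v'ᵀ, hL.swap⟩

lemma lev_upper' {u : Mat N N} (hu : IsU u) : ∃ g ∈ LU N, ∃ T' : Mat N N,
    (CB N).Lev (g : FM N) u T' := by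
  refine CS.lev_upper (C := CB N) (H := LU N) ?_ hu
  intro i j hij t
  obtain ⟨u, hu⟩ := unit_of_sq (sq_smul (sq_ca hij.ne) t)
  exact ⟨u, Subgroup.subset_closure ⟨i, j, t, hij, hu⟩, by rw [hu, CB_c_single, CB_d_single]⟩

/-- `SL_N` is `U U⁻ U U⁻` in the Levi subgroup -/
theorem levi_good (hN : 26 ≤ N) {T : Mat N N} (hT : T.det = 1) :
    ∃ a1 ∈ LU N, ∃ b1 ∈ LL N, ∃ a2 ∈ LU N, ∃ b2 ∈ LL N, ∃ T' : Mat N N,
      (CB N).Lev ((a1 * b1 * a2 * b2 : (FM N)ˣ) : FM N) T T' := by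
  obtain ⟨u, v, l, r, hu, hv, hl, hr, e⟩ := good_of_26_le hN T hT
  obtain ⟨u', hu', -, h2⟩ := hu.inv
  obtain ⟨v', hv', h3, -⟩ := hv.inv
  obtain ⟨a1, ha1, A1, h4⟩ := lev_upper' hu'
  obtain ⟨b1, hb1, B1, h5⟩ := lev_lower hl
  obtain ⟨a2, ha2, A2, h6⟩ := lev_upper' hr
  obtain ⟨b2, hb2, B2, h7⟩ := lev_lower hv'
  refine ⟨a1, ha1, b1, hb1, a2, ha2, b2, hb2, A1 * B1 * A2 * B2, ?_⟩
  have h8 := ((h4.mul h5).mul h6).mul h7
  have h9 : u' * l * r * v' = T := by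
    rw [Matrix.mul_assoc u', ← e]
    calc u' * (u * T * v) * v' = (u' * u) * T * (v * v') := by simp only [Matrix.mul_assoc]
      _ = T := by rw [h2, h3, Matrix.one_mul, Matrix.mul_one]
  rw [h9] at h8
  exact h8

lemma lev_unique {l l' : (FM N)ˣ} {T T' S : Mat N N} (h : (CB N).Lev (l : FM N) T T')
    (h' : (CB N).Lev (l' : FM N) T S) (hO : (l : FM N) *ᵥ Om N = Om N)
    (hO' : (l' : FM N) *ᵥ Om N = Om N) : l = l' := by
  have h1 : ((l'⁻¹ * l : (FM N)ˣ) : FM N) = 1 := by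
    refine eq_one_of_comm (fun i => ?_) ?_
    · have h2 := h.hc (Pi.single i 1)
      have h3 := h'.inv.hc (T *ᵥ Pi.single i 1)
      have h4 : Sᵀ * T = 1 := by
        have := congrArg Matrix.transpose h'.hT
        rwa [Matrix.transpose_mul, Matrix.transpose_transpose, Matrix.transpose_one] at this
      rw [Matrix.mulVec_mulVec, h4, Matrix.one_mulVec] at h3
      rw [CB_c_single] at h2 h3
      rw [Units.val_mul, mul_assoc, h2, ← mul_assoc, h3, mul_assoc]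
    · rw [Units.val_mul, ← Matrix.mulVec_mulVec, hO]
      nth_rw 1 [← hO']
      rw [Matrix.mulVec_mulVec, Units.inv_mul, Matrix.one_mulVec]
  have h2 : l'⁻¹ * l = 1 := Units.ext h1
  rw [inv_mul_eq_one] at h2
  exact h2.symm

/-- every element of the Levi subgroup is a product of four unitriangular ones -/
theorem LV_fact (hN : 26 ≤ N) {l : (FM N)ˣ} (hl : l ∈ LV N) :
    ∃ a1 ∈ LU N, ∃ b1 ∈ LL N, ∃ a2 ∈ LU N, ∃ b2 ∈ LL N, l = a1 * b1 * a2 * b2 := by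
  obtain ⟨T, T', hT, hL⟩ := LV_lev hl
  obtain ⟨a1, ha1, b1, hb1, a2, ha2, b2, hb2, S, hS⟩ := levi_good hN hT
  refine ⟨a1, ha1, b1, hb1, a2, ha2, b2, hb2, lev_unique hL hS (LV_Om hl) (LV_Om ?_)⟩
  exact Subgroup.mul_mem _ (Subgroup.mul_mem _ (Subgroup.mul_mem _ (LU_le_LV ha1) (LL_le_LV hb1))
    (LU_le_LV ha2)) (LL_le_LV hb2)

lemma LU_le_GB : LU N ≤ GB N := by
  rw [LU, Subgroup.closure_le]
  rintro u ⟨i, j, t, hij, hu⟩
  exact Subgroup.subset_closure ⟨_, Or.inl ⟨i, j, hij.ne, rfl⟩, t, hu⟩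

lemma LL_le_GB : LL N ≤ GB N := by
  rw [LL, Subgroup.closure_le]
  rintro u ⟨i, j, t, hij, hu⟩
  exact Subgroup.subset_closure ⟨_, Or.inl ⟨j, i, hij.ne', rfl⟩, t, hu⟩

lemma QS_le {H : Subgroup (FM N)ˣ}
    (h1 : ∀ (i : Fin N) (t : ℤ), ∃ u ∈ H, (u : FM N) = 1 + t • (an i * par))
    (h2 : ∀ (i j : Fin N), i < j → ∀ t : ℤ, ∃ u ∈ H, (u : FM N) = 1 + t • (an i * an j)) :
    (CB N).swap.PS ≤ H := by
  have ec : (CB N).swap.c = (CB N).d := rfl
  have ew : (CB N).swap.w = par := rfl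
  refine CS.PS_le (CS.hasP_of_basis (fun i t => ?_) fun i j hij t => ?_)
  · rw [ec, ew, CB_d_single]; exact h1 i t
  · rw [ec, CB_d_single, CB_d_single]; exact h2 i j hij t

lemma QL_le {H : Subgroup (FM N)ˣ}
    (h2 : ∀ (i j : Fin N), i < j → ∀ t : ℤ, ∃ u ∈ H, (u : FM N) = 1 + t • (an i * an j)) :
    (CB N).swap.PL ≤ H := by
  have ec : (CB N).swap.c = (CB N).d := rfl
  refine CS.PL_le (CS.long_of_basis fun i j hij t => ?_)
  rw [ec, CB_d_single, CB_d_single]; exact h2 i j hij t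

lemma PS_le' {H : Subgroup (FM N)ˣ}
    (h1 : ∀ (i : Fin N) (t : ℤ), ∃ u ∈ H, (u : FM N) = 1 + t • (cr i * par))
    (h2 : ∀ (i j : Fin N), i < j → ∀ t : ℤ, ∃ u ∈ H, (u : FM N) = 1 + t • (cr i * cr j)) :
    (CB N).PS ≤ H := by
  refine CS.PS_le (CS.hasP_of_basis (fun i t => ?_) fun i j hij t => ?_)
  · rw [CB_w, CB_c_single]; exact h1 i t
  · rw [CB_c_single, CB_c_single]; exact h2 i j hij t

lemma PL_le' {H : Subgroup (FM N)ˣ}
    (h2 : ∀ (i j : Fin N), i < j → ∀ t : ℤ, ∃ u ∈ H, (u : FM N) = 1 + t • (cr i * cr j)) :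
    (CB N).PL ≤ H := by
  refine CS.PL_le (CS.long_of_basis fun i j hij t => ?_)
  rw [CB_c_single, CB_c_single]; exact h2 i j hij t

lemma QS_le_GB : (CB N).swap.PS ≤ GB N := by
  refine QS_le (fun i t => ?_) fun i j hij t => ?_
  · obtain ⟨u, hu⟩ := unit_of_sq (sq_smul (sq_ap i) t)
    exact ⟨u, Subgroup.subset_closure ⟨_, Or.inr (Or.inr (Or.inr (Or.inr ⟨i, rfl⟩))), t, hu⟩, hu⟩
  · obtain ⟨u, hu⟩ := unit_of_sq (sq_smul (sq_aa i j) t)
    exact ⟨u, Subgroup.subset_closure ⟨_, Or.inr (Or.inr (Or.inl ⟨i, j, hij.ne, rfl⟩)), t, hu⟩, hu⟩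

/-- **the stabiliser of the vacuum** -/
theorem stab_fact (hN : 26 ≤ N) {h : (FM N)ˣ} (hG : h ∈ GB N) (hO : (h : FM N) *ᵥ Om N = Om N) :
    ∃ l ∈ LV N, (∃ q ∈ (CB N).swap.PS, h = l * q) ∧
      ((h : FM N) * par = par * (h : FM N) → ∃ q ∈ (CB N).swap.PL, h = l * q) := by
  have hpr := (GB_pr hG).1
  obtain ⟨a, δ, x, M, haδ, hPA, hpar, hfac⟩ := stab (h := h)
    (fun j => by rw [an_eq_ga]; exact hpr _ _ _) (fun j => by rw [cr_eq_ga]; exact hpr _ _ _) hO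
  have hδ : ∀ {l : (FM N)ˣ} {T' : Mat N N}, (CB N).Lev (l : FM N) a T' →
      (CB N).Lev (l : FM N) a δ := by
    intro l T' hl
    have h1 : T' = δ := by
      have h2 : δ * aᵀ = 1 := mul_eq_one_comm.1 haδ
      calc T' = δ * aᵀ * T' := by rw [h2, Matrix.one_mul]
        _ = δ := by rw [Matrix.mul_assoc, hl.hT, Matrix.mul_one]
    rwa [h1] at hl
  obtain ⟨q, hq, hq'⟩ := CS.real_of_PA (C := (CB N).swap) CS.hasP_PS hPA
  have hdet : a.det = 1 ∨ a.det = -1 := by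
    have := congrArg Matrix.det haδ
    rw [Matrix.det_mul, Matrix.det_transpose, Matrix.det_one] at this
    exact Int.isUnit_iff.1 (IsUnit.of_mul_eq_one _ this)
  rcases hdet with hdet | hdet
  · obtain ⟨a1, ha1, b1, hb1, a2, ha2, b2, hb2, S, hS⟩ := levi_good hN hdet
    have hl : a1 * b1 * a2 * b2 ∈ LV N :=
      Subgroup.mul_mem _ (Subgroup.mul_mem _ (Subgroup.mul_mem _ (LU_le_LV ha1) (LL_le_LV hb1))
        (LU_le_LV ha2)) (LL_le_LV hb2)
    refine ⟨_, hl, ⟨q, hq, hfac _ _ (hδ hS) (LV_Om hl) hq' (QS_Om hq)⟩, fun hc => ?_⟩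
    have hx := hpar hc
    subst hx
    have halt : ∀ i j, M i j = -M j i := by
      intro i j
      have := congrFun (congrFun hPA i) j
      rw [Matrix.zero_mul, smul_zero, neg_zero, Matrix.add_apply, Matrix.transpose_apply,
        Matrix.zero_apply] at this
      omega
    obtain ⟨q', hq1, hq2⟩ := CS.real_of_alt (C := (CB N).swap) (H := (CB N).swap.PL)
      CS.long_PL halt
    exact ⟨q', hq1, hfac _ _ (hδ hS) (LV_Om hl) hq2 (QL_Om hq1)⟩
  · exfalso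
    have h0 : 0 < N := by omega
    obtain ⟨r, hr, hrO, hrL⟩ := exists_R (⟨0, h0⟩ : Fin N)
    obtain ⟨a1, ha1, b1, hb1, a2, ha2, b2, hb2, S, hS⟩ := levi_good hN
      (T := a * Dk ⟨0, h0⟩) (by rw [Matrix.det_mul, hdet, Dk_det]; norm_num)
    have hl : a1 * b1 * a2 * b2 ∈ LV N :=
      Subgroup.mul_mem _ (Subgroup.mul_mem _ (Subgroup.mul_mem _ (LU_le_LV ha1) (LL_le_LV hb1))
        (LU_le_LV ha2)) (LL_le_LV hb2)
    have hlG : a1 * b1 * a2 * b2 ∈ GB N :=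
      Subgroup.mul_mem _ (Subgroup.mul_mem _ (Subgroup.mul_mem _ (LU_le_GB ha1) (LL_le_GB hb1))
        (LU_le_GB ha2)) (LL_le_GB hb2)
    have h1 := hS.mul hrL
    rw [Matrix.mul_assoc, Dk_sq, Matrix.mul_one, ← Units.val_mul] at h1
    have h2 := hfac _ q (hδ h1) (by
      rw [Units.val_mul, ← Matrix.mulVec_mulVec, hrO, LV_Om hl]) hq' (QS_Om hq)
    apply hr
    have h3 : r = (a1 * b1 * a2 * b2)⁻¹ * h * q⁻¹ := by rw [h2]; group
    rw [h3]
    exact Subgroup.mul_mem _ (Subgroup.mul_mem _ (Subgroup.inv_mem _ hlG) hG)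
      (Subgroup.inv_mem _ (QS_le_GB hq))

end Pool.Agent.KS6_44.UU
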