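import Pool.Agent.KS6_44.UU.FkE
import Pool.Agent.KS6_44.UU.Compl

/-!
Factorisation of the groups of types `B_N` and `D_N`.
-/

namespace Pool.Agent.KS6_44.UU

open Matrix Pointwise

section groups

variable {G : Type} [Group G]

lemma sup_fact {A L : Subgroup G} (h : ∀ l ∈ L, ∀ a ∈ A, l * a * l⁻¹ ∈ A) {g : G}
    (hg : g ∈ Subgroup.closure ((A : Set G) ∪ L)) : ∃ a ∈ A, ∃ l ∈ L, g = a * l := by
  induction hg using Subgroup.closure_induction with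
  | mem x hx =>
    rcases hx with hx | hx
    · exact ⟨x, hx, 1, L.one_mem, by rw [mul_one]⟩
    · exact ⟨1, A.one_mem, x, hx, by rw [one_mul]⟩
  | one => exact ⟨1, A.one_mem, 1, L.one_mem, by rw [mul_one]⟩
  | mul x y _ _ hx hy =>
    obtain ⟨a, ha, l, hl, rfl⟩ := hx
    obtain ⟨a', ha', l', hl', rfl⟩ := hy
    exact ⟨a * (l * a' * l⁻¹), A.mul_mem ha (h l hl a' ha'), l * l', L.mul_mem hl hl', by group⟩
  | inv x _ hx =>
    obtain ⟨a, ha, l, hl, rfl⟩ := hx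
    refine ⟨l⁻¹ * a⁻¹ * (l⁻¹)⁻¹, h _ (L.inv_mem hl) _ (A.inv_mem ha), l⁻¹, L.inv_mem hl, by group⟩

lemma asm {U Um P Q L LU LL : Subgroup G} (hPU : P ≤ U) (hQU : Q ≤ Um) (hU : LU ≤ U)
    (hL : LL ≤ Um) (hUL : LU ≤ L) (hLL : LL ≤ L) (hnP : ∀ l ∈ L, ∀ p ∈ P, l * p * l⁻¹ ∈ P)
    (hnQ : ∀ l ∈ L, ∀ q ∈ Q, l * q * l⁻¹ ∈ Q) {p1 q1 p2 a1 b1 a2 b2 q2 : G} (h1 : p1 ∈ P)
    (h2 : q1 ∈ Q) (h3 : p2 ∈ P) (h4 : a1 ∈ LU) (h5 : b1 ∈ LL) (h6 : a2 ∈ LU) (h7 : b2 ∈ LL)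
    (h8 : q2 ∈ Q) : p1 * q1 * p2 * (a1 * b1 * a2 * b2) * q2 ∈ ((U : Set G) * (Um : Set G)) ^ 2 := by
  have e : p1 * q1 * p2 * (a1 * b1 * a2 * b2) * q2 =
      ((p1 * a1) * ((a1⁻¹ * q1 * (a1⁻¹)⁻¹) * b1)) *
        ((((a1 * b1)⁻¹ * p2 * ((a1 * b1)⁻¹)⁻¹) * a2) * (b2 * q2)) := by group
  rw [e, pow_two]
  have h9 : a1 * b1 ∈ L := L.mul_mem (hUL h4) (hLL h5)
  exact Set.mul_mem_mul
    (Set.mul_mem_mul (U.mul_mem (hPU h1) (hU h4))
      (Um.mul_mem (hQU (hnQ _ (L.inv_mem (hUL h4)) _ h2)) (hL h5)))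
    (Set.mul_mem_mul (U.mul_mem (hPU (hnP _ (L.inv_mem h9) _ h3)) (hU h6))
      (Um.mul_mem (hL h7) (hQU h8)))

end groups

namespace CS

variable {n : ℕ} {ι : Type} [Fintype ι] [DecidableEq ι] {C : CS n ι}

lemma ga_w (k : ℤ) (x ξ : Fin n → ℤ) :
    C.ga k x ξ * C.w + C.w * C.ga k x ξ = (2 * k) • (1 : Matrix ι ι ℤ) := by
  simp only [ga, add_mul, mul_add, smul_mul_assoc, mul_smul_comm, C.ww, C.wc, C.wd]
  rw [two_mul, add_smul]; abel

lemma ga_c (k : ℤ) (x ξ y : Fin n → ℤ) :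
    C.ga k x ξ * C.c y + C.c y * C.ga k x ξ = (ξ ⬝ᵥ y) • (1 : Matrix ι ι ℤ) := by
  have h1 := C.cd y ξ
  rw [dotProduct_comm] at h1
  rw [← h1]
  simp only [ga, add_mul, mul_add, smul_mul_assoc, mul_smul_comm, C.wc, C.cc' x y, smul_neg]
  abel

lemma ga_d (k : ℤ) (x ξ y : Fin n → ℤ) :
    C.ga k x ξ * C.d y + C.d y * C.ga k x ξ = (x ⬝ᵥ y) • (1 : Matrix ι ι ℤ) := by
  have h1 := C.cd x y
  have h2 : C.d ξ * C.d y = -(C.d y * C.d ξ) := C.swap.cc' ξ y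
  rw [← h1]
  simp only [ga, add_mul, mul_add, smul_mul_assoc, mul_smul_comm, C.wd, h2, smul_neg]
  abel

lemma cancel_right {g : (Matrix ι ι ℤ)ˣ} {A B : Matrix ι ι ℤ} (e : A * (g : Matrix ι ι ℤ) = B * g) :
    A = B := by
  have := congrArg (fun z => z * ((g⁻¹ : (Matrix ι ι ℤ)ˣ) : Matrix ι ι ℤ)) e
  simpa only [mul_assoc, Units.mul_inv, mul_one] using this

/-- frames from group elements -/
lemma frame_of [Nonempty ι] {g : (Matrix ι ι ℤ)ˣ} {F : Fr n}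
    {A : (Fin n → ℤ) → Matrix ι ι ℤ}
    (hA : ∀ y, (g : Matrix ι ι ℤ) * A y =
      C.ga ((F.k *ᵥ y) 0) (F.b *ᵥ y) (F.d *ᵥ y) * (g : Matrix ι ι ℤ))
    (hAA : ∀ y, A y * A y = 0) {B β : Fin n → Matrix ι ι ℤ}
    (hB : ∀ j, (g : Matrix ι ι ℤ) * B j = β j * (g : Matrix ι ι ℤ))
    (hBA : ∀ j y, B j * A y + A y * B j = y j • (1 : Matrix ι ι ℤ))
    (l : Fin n → ℤ) (r s : Fin n → Fin n → ℤ)
    (hw : ∀ j, β j * C.w + C.w * β j = l j • (1 : Matrix ι ι ℤ))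
    (hc : ∀ j x, β j * C.c x + C.c x * β j = (r j ⬝ᵥ x) • (1 : Matrix ι ι ℤ))
    (hd : ∀ j x, β j * C.d x + C.d x * β j = (s j ⬝ᵥ x) • (1 : Matrix ι ι ℤ)) : F.Iso := by
  refine iso_of (C := C) (fun y => ?_) β l r s hw hc hd fun j y => ?_
  · refine cancel_right (g := g) ?_
    rw [mul_assoc, ← hA, ← mul_assoc, ← hA, mul_assoc, hAA, mul_zero, zero_mul]
  · refine cancel_right (g := g) ?_
    rw [add_mul, mul_assoc, mul_assoc, ← hA, ← hB, ← mul_assoc, ← mul_assoc, ← hB, ← hA,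
      mul_assoc, mul_assoc, ← mul_add, hBA, mul_smul_comm, mul_one, smul_mul_assoc, one_mul]

end CS

variable {N : ℕ}

/-- **type B**: reduction of a group element to the stabiliser of the vacuum -/
theorem B_fact (hN : 26 ≤ N) {g : (FM N)ˣ} (hg : g ∈ GB N) :
    ∃ p1 ∈ (CB N).PS, ∃ q1 ∈ (CB N).swap.PS, ∃ p2 ∈ (CB N).PS, ∃ l ∈ LV N,
      ∃ q2 ∈ (CB N).swap.PS, g = p1 * q1 * p2 * l * q2 := by
  have hpr := (GB_pr hg).1
  choose k X Ξ hd using fun j : Fin N => hpr 0 0 (Pi.single j 1)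
  choose k' X' Ξ' hc using fun j : Fin N => hpr 0 (Pi.single j 1) 0
  simp only [← an_eq_ga] at hd
  simp only [← cr_eq_ga] at hc
  obtain ⟨F, hF⟩ : ∃ F : Fr N, F = ⟨Matrix.of fun (_ : Fin 1) j => k j,
    Matrix.of fun i j => X j i, Matrix.of fun i j => Ξ j i⟩ := ⟨_, rfl⟩
  have hA : ∀ y, (g : FM N) * (CB N).d y =
      (CB N).ga ((F.k *ᵥ y) 0) (F.b *ᵥ y) (F.d *ᵥ y) * (g : FM N) := by
    intro y
    have := CS.ga_lin (C := CB N) (g : FM N) (CB N).d k X Ξ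
      (fun j => by rw [CB_d_single]; exact hd j) y
    rw [hF]; exact this
  have hIso : F.Iso := by
    refine CS.frame_of (C := CB N) (B := cr) hA (CB N).dd hc (fun j y => ?_) _ _ _
      (fun j => CS.ga_w _ _ _) (fun j x => CS.ga_c _ _ _ _) fun j x => CS.ga_d _ _ _ _
    have := (CB N).cd (Pi.single j 1) y
    rwa [CB_c_single, single_one_dotProduct] at this
  have hAnn : (CB N).Ann ((g : FM N) *ᵥ Om N) F := by
    intro y
    have h1 : (CB N).ga ((F.k *ᵥ y) 0) (F.b *ᵥ y) (F.d *ᵥ y) *ᵥ ((g : FM N) *ᵥ Om N) = 0 := by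
      rw [Matrix.mulVec_mulVec, ← hA, ← Matrix.mulVec_mulVec, d_Om, Matrix.mulVec_zero]
    exact h1
  have hPG : (CB N).PS ≤ GB N := by
    refine PS_le' (fun i t => ?_) fun i j hij t => ?_
    · obtain ⟨u, hu⟩ := unit_of_sq (sq_smul (sq_cp i) t)
      exact ⟨u, Subgroup.subset_closure ⟨_, Or.inr (Or.inr (Or.inr (Or.inl ⟨i, rfl⟩))), t, hu⟩, hu⟩
    · obtain ⟨u, hu⟩ := unit_of_sq (sq_smul (sq_cc i j) t)
      exact ⟨u, Subgroup.subset_closure ⟨_, Or.inr (Or.inl ⟨i, j, hij.ne, rfl⟩), t, hu⟩, hu⟩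
  obtain ⟨p, hp, q, hq, p', hp', h⟩ := CS.core (C := CB N) (by omega) (P := (CB N).PS)
    (Q := (CB N).swap.PS) CS.hasP_PS CS.hasP_PS (vac N) (Om N) vac_Om vac_c
    (fun p hp φ => PS_vac hp φ) Set.univ (fun _ _ _ _ => Set.mem_univ _)
    (fun _ _ _ _ => Set.mem_univ _)
    (fun φ _ hφ => ⟨φ ∅, kernel fun i => by rw [← CB_d_single]; exact hφ _⟩) g
    (Set.mem_univ _) hIso hAnn
  have hG : p' * q * p * g ∈ GB N := Subgroup.mul_mem _ (Subgroup.mul_mem _ (Subgroup.mul_mem _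
    (hPG hp') (QS_le_GB hq)) (hPG hp)) hg
  obtain ⟨l, hl, ⟨q2, hq2, e⟩, -⟩ := stab_fact hN hG h
  refine ⟨p⁻¹, Subgroup.inv_mem _ hp, q⁻¹, Subgroup.inv_mem _ hq, p'⁻¹, Subgroup.inv_mem _ hp', l,
    hl, q2, hq2, ?_⟩
  rw [mul_assoc (p⁻¹ * q⁻¹ * p'⁻¹), ← e]; group

/-! ### type D -/

lemma k_zero {g : (FM N)ˣ} (hg : (g : FM N) * par = par * (g : FM N)) {A : FM N}
    (hA : par * A * par = -A) {k : ℤ} {x ξ : Fin N → ℤ}
    (h : (g : FM N) * A = (CB N).ga k x ξ * (g : FM N)) : k = 0 := by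
  have h1 : par * (CB N).ga k x ξ * par = -(CB N).ga k x ξ := by
    refine CS.cancel_right (g := g) ?_
    calc par * (CB N).ga k x ξ * par * (g : FM N)
        = par * ((CB N).ga k x ξ * (g : FM N)) * par := by
          rw [mul_assoc _ par, ← hg]; simp only [mul_assoc]
      _ = (par * (g : FM N)) * (A * par) := by rw [← h]; simp only [mul_assoc]
      _ = (g : FM N) * (par * A * par) := by rw [← hg]; simp only [mul_assoc]
      _ = _ := by rw [hA, mul_neg, h, neg_mul]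
  have h2 : (CB N).w * (CB N).ga k x ξ * (CB N).w = k • (CB N).w - (CB N).c x - (CB N).d ξ := by
    rw [CS.ga, mul_add, mul_add, add_mul, add_mul, (CB N).wc, (CB N).wd, mul_smul_comm,
      (CB N).ww, smul_mul_assoc, one_mul, neg_mul, neg_mul, mul_assoc, mul_assoc, (CB N).ww,
      mul_one, mul_one]
    abel
  rw [← CB_w, h2, CS.ga] at h1
  have h3 : (2 * k) • (CB N).w = 0 := by
    have : (2 * k) • (CB N).w = (k • (CB N).w - (CB N).c x - (CB N).d ξ) -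
        (-(k • (CB N).w + (CB N).c x + (CB N).d ξ)) := by
      rw [mul_smul, two_smul]; abel
    rw [this, h1, sub_self]
  have h5 := congrArg (fun A : FM N => A * (CB N).w) h3
  simp only [smul_mul_assoc, (CB N).ww, zero_mul] at h5
  have h6 : 2 * k = 0 := CS.smul_one_inj (ι := Finset (Fin N)) (by rw [h5, zero_smul])
  omega

variable {n : ℕ}

lemma CD_c (x : Fin n → ℤ) : (CD n).c x = (CB (n + 1)).c (Fin.cons 0 x) := by
  have h1 : (CD n).c x = ∑ i, x i • cr i.succ := rfl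
  have h2 : (CB (n + 1)).c (Fin.cons 0 x) = ∑ i, (Fin.cons 0 x : Fin (n + 1) → ℤ) i • cr i := rfl
  rw [h1, h2, Fin.sum_univ_succ]
  simp

lemma CD_d (x : Fin n → ℤ) : (CD n).d x = (CB (n + 1)).d (Fin.cons 0 x) := by
  have h1 : (CD n).d x = ∑ i, x i • an i.succ := rfl
  have h2 : (CB (n + 1)).d (Fin.cons 0 x) = ∑ i, (Fin.cons 0 x : Fin (n + 1) → ℤ) i • an i := rfl
  rw [h1, h2, Fin.sum_univ_succ]
  simp

lemma CD_w : (CD n).w = cr 0 + an 0 := rfl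

lemma CB_ga_split (x ξ : Fin (n + 1) → ℤ) (h : x 0 = ξ 0) : (CB (n + 1)).ga 0 x ξ =
    (CD n).ga (x 0) (fun i => x i.succ) (fun i => ξ i.succ) := by
  have h1 : (CB (n + 1)).c x = ∑ i, x i • cr i := rfl
  have h2 : (CB (n + 1)).d ξ = ∑ i, ξ i • an i := rfl
  have h3 : (CD n).c (fun i => x i.succ) = ∑ i : Fin n, x i.succ • cr i.succ := rfl
  have h4 : (CD n).d (fun i => ξ i.succ) = ∑ i : Fin n, ξ i.succ • an i.succ := rfl
  rw [CS.ga, CS.ga, h1, h2, h3, h4, CD_w, Fin.sum_univ_succ, Fin.sum_univ_succ, zero_smul,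
    zero_add, ← h, smul_add]
  abel

/-- the parabolic subgroup -/
def PD (n : ℕ) : Subgroup (FM (n + 1))ˣ :=
  Subgroup.closure (((CB (n + 1)).PL : Set (FM (n + 1))ˣ) ∪ LV (n + 1))

/-- the opposite parabolic subgroup -/
def QD (n : ℕ) : Subgroup (FM (n + 1))ˣ :=
  Subgroup.closure (((CB (n + 1)).swap.PL : Set (FM (n + 1))ˣ) ∪ LV (n + 1))

lemma PD_has : (CD n).HasP (PD n) := by
  refine ⟨fun x => ?_, fun x y => ?_⟩
  · obtain ⟨u1, h1, e1⟩ := CS.long_PL (C := CB (n + 1)) (Fin.cons 0 x) (Pi.single 0 1)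
    obtain ⟨u2, h2, e2⟩ := mem_LV (N := n + 1) (x := Fin.cons 0 x) (v := Pi.single 0 1)
      (by rw [single_one_dotProduct, Fin.cons_zero])
    refine ⟨u1 * u2, Subgroup.mul_mem _ (Subgroup.subset_closure (Or.inl h1))
      (Subgroup.subset_closure (Or.inr h2)), ?_⟩
    have h3 : (CB (n + 1)).c (Fin.cons 0 x) * (CB (n + 1)).c (Pi.single 0 1) *
        ((CB (n + 1)).c (Fin.cons 0 x) * (CB (n + 1)).d (Pi.single 0 1)) = 0 := by
      rw [mul_assoc, ← mul_assoc ((CB (n + 1)).c (Pi.single 0 1)),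
        (CB (n + 1)).cc' (Pi.single 0 1), neg_mul, mul_neg, ← mul_assoc, ← mul_assoc,
        (CB (n + 1)).cc, zero_mul, zero_mul, neg_zero]
    rw [Units.val_mul, e1, e2, CD_c, CD_w, ← CB_c_single, ← CB_d_single]
    simp only [add_mul, mul_add, one_mul, mul_one, h3]
    abel
  · obtain ⟨u1, h1, e1⟩ := CS.long_PL (C := CB (n + 1)) (Fin.cons 0 x) (Fin.cons 0 y)
    exact ⟨u1, Subgroup.subset_closure (Or.inl h1), by rw [e1, CD_c, CD_c]⟩

lemma QD_has : (CD n).swap.HasP (QD n) := by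
  have ec : (CB (n + 1)).swap.c = (CB (n + 1)).d := rfl
  have ec' : (CD n).swap.c = (CD n).d := rfl
  have ew' : (CD n).swap.w = (CD n).w := rfl
  refine ⟨fun x => ?_, fun x y => ?_⟩
  · obtain ⟨u1, h1, e1⟩ := CS.long_PL (C := (CB (n + 1)).swap) (Fin.cons 0 x) (Pi.single 0 1)
    obtain ⟨u2, h2, e2⟩ := mem_LV (N := n + 1) (x := Pi.single 0 1) (v := -(Fin.cons 0 x))
      (by rw [dotProduct_single, Pi.neg_apply, Fin.cons_zero]; norm_num)
    refine ⟨u1 * u2, Subgroup.mul_mem _ (Subgroup.subset_closure (Or.inl h1))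
      (Subgroup.subset_closure (Or.inr h2)), ?_⟩
    have h4 : (CB (n + 1)).c (Pi.single 0 1) * (CB (n + 1)).d (-(Fin.cons 0 x)) =
        (CB (n + 1)).d (Fin.cons 0 x) * (CB (n + 1)).c (Pi.single 0 1) := by
      have := (CB (n + 1)).cd (Pi.single 0 1) (Fin.cons 0 x)
      rw [single_one_dotProduct, Fin.cons_zero, zero_smul] at this
      rw [map_neg, mul_neg]
      exact (eq_neg_of_add_eq_zero_right this).symm
    have h3 : (CB (n + 1)).d (Fin.cons 0 x) * (CB (n + 1)).d (Pi.single 0 1) *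
        ((CB (n + 1)).d (Fin.cons 0 x) * (CB (n + 1)).c (Pi.single 0 1)) = 0 := by
      have h5 : (CB (n + 1)).d (Pi.single 0 1) * (CB (n + 1)).d (Fin.cons 0 x) =
        -((CB (n + 1)).d (Fin.cons 0 x) * (CB (n + 1)).d (Pi.single 0 1)) :=
        (CB (n + 1)).swap.cc' _ _
      rw [mul_assoc, ← mul_assoc ((CB (n + 1)).d (Pi.single 0 1)), h5, neg_mul, mul_neg,
        ← mul_assoc, ← mul_assoc, (CB (n + 1)).dd, zero_mul, zero_mul, neg_zero]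
    rw [ec] at e1
    rw [Units.val_mul, e1, e2, h4, ec', ew', CD_d, CD_w, ← CB_c_single, ← CB_d_single]
    simp only [add_mul, mul_add, one_mul, mul_one, h3]
    abel
  · obtain ⟨u1, h1, e1⟩ := CS.long_PL (C := (CB (n + 1)).swap) (Fin.cons 0 x) (Fin.cons 0 y)
    exact ⟨u1, Subgroup.subset_closure (Or.inl h1), by rw [e1, ec, ec', CD_d, CD_d]⟩

lemma PD_vac {p : (FM (n + 1))ˣ} (hp : p ∈ PD n) :
    ∀ φ, vac (n + 1) ((p : FM (n + 1)) *ᵥ φ) = vac (n + 1) φ := by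
  refine lin_closure ?_ hp
  rintro u (hu | hu) φ
  · exact PL_vac hu φ
  · exact LV_vac hu φ

lemma PD_par {p : (FM (n + 1))ˣ} (hp : p ∈ PD n) :
    (p : FM (n + 1)) * par = par * (p : FM (n + 1)) := by
  refine comm_closure ?_ hp
  rintro u (hu | hu)
  · exact PL_par hu
  · exact LV_par hu

lemma QD_par {p : (FM (n + 1))ˣ} (hp : p ∈ QD n) :
    (p : FM (n + 1)) * par = par * (p : FM (n + 1)) := by
  refine comm_closure ?_ hp
  rintro u (hu | hu)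
  · exact QL_par hu
  · exact LV_par hu

lemma inv_par {g : (FM N)ˣ} (hg : (g : FM N) * par = par * (g : FM N)) :
    ((g⁻¹ : (FM N)ˣ) : FM N) * par = par * ((g⁻¹ : (FM N)ˣ) : FM N) :=
  comm_closure (S := {g}) (fun u hu => by rw [Set.mem_singleton_iff.1 hu]; exact hg)
    (Subgroup.inv_mem _ (Subgroup.subset_closure rfl))

lemma LV_le_GB (hN : 26 ≤ N) : LV N ≤ GB N := by
  intro l hl
  obtain ⟨a1, ha1, b1, hb1, a2, ha2, b2, hb2, rfl⟩ := LV_fact hN hl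
  exact Subgroup.mul_mem _ (Subgroup.mul_mem _ (Subgroup.mul_mem _ (LU_le_GB ha1) (LL_le_GB hb1))
    (LU_le_GB ha2)) (LL_le_GB hb2)

lemma PL_le_GB : (CB N).PL ≤ GB N := by
  refine PL_le' fun i j hij t => ?_
  obtain ⟨u, hu⟩ := unit_of_sq (sq_smul (sq_cc i j) t)
  exact ⟨u, Subgroup.subset_closure ⟨_, Or.inr (Or.inl ⟨i, j, hij.ne, rfl⟩), t, hu⟩, hu⟩

lemma QL_le_GB : (CB N).swap.PL ≤ GB N := by
  refine QL_le fun i j hij t => ?_
  obtain ⟨u, hu⟩ := unit_of_sq (sq_smul (sq_aa i j) t)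
  exact ⟨u, Subgroup.subset_closure ⟨_, Or.inr (Or.inr (Or.inl ⟨i, j, hij.ne, rfl⟩)), t, hu⟩, hu⟩

end Pool.Agent.KS6_44.UU
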