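import Pool.Agent.KS6_44.UU.FkF

/-!
Factorisation of the groups of type `D_N`, and the lower bound.
-/

namespace Pool.Agent.KS6_44.UU

open Matrix Pointwise

variable {n : ℕ} {N : ℕ}

lemma par_ga (x ξ : Fin N → ℤ) : par * (CB N).ga 0 x ξ * par = -(CB N).ga 0 x ξ := by
  have h2 : (CB N).w * (CB N).ga 0 x ξ * (CB N).w = -((CB N).c x) - (CB N).d ξ := by
    rw [CS.ga, zero_smul, zero_add, mul_add, add_mul, (CB N).wc, (CB N).wd, neg_mul, neg_mul,
      mul_assoc, mul_assoc, (CB N).ww, mul_one, mul_one]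
    abel
  rw [← CB_w, h2, CS.ga, zero_smul]; abel

/-- orthogonality -/
lemma ortho {g : (FM N)ˣ} {i : Fin N} {u u' v X Ξ : Fin N → ℤ}
    (h1 : ((g⁻¹ : (FM N)ˣ) : FM N) * (CB N).ga 0 (Pi.single i 1) (-Pi.single i 1) =
      (CB N).ga 0 u u' * ((g⁻¹ : (FM N)ˣ) : FM N))
    (h2 : (g : FM N) * (CB N).d v = (CB N).ga 0 X Ξ * (g : FM N)) : Ξ i - X i = u ⬝ᵥ v := by
  obtain ⟨W, hW⟩ : ∃ W, W = (CB N).ga 0 (Pi.single i 1) (-Pi.single i 1) := ⟨_, rfl⟩
  obtain ⟨G, hG⟩ : ∃ G, G = (CB N).ga 0 u u' := ⟨_, rfl⟩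
  rw [← hW, ← hG] at h1
  have h3 : W * (g : FM N) = (g : FM N) * G := by
    have := congrArg (fun A => (g : FM N) * A * (g : FM N)) h1
    simp only [← mul_assoc, Units.mul_inv, one_mul] at this
    rw [mul_assoc _ _ (g : FM N), Units.inv_mul, mul_one] at this
    exact this
  have h4 : (CB N).ga 0 X Ξ * W + W * (CB N).ga 0 X Ξ = (Ξ i - X i) • (1 : FM N) := by
    have a1 := CS.ga_c (C := CB N) 0 X Ξ (Pi.single i 1)
    have a2 := CS.ga_d (C := CB N) 0 X Ξ (Pi.single i 1)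
    rw [dotProduct_single, mul_one] at a1 a2
    have hWe : W = (CB N).c (Pi.single i 1) - (CB N).d (Pi.single i 1) := by
      rw [hW, CS.ga, zero_smul, zero_add, map_neg, sub_eq_add_neg]
    rw [sub_smul, ← a1, ← a2, hWe, mul_sub, sub_mul]
    abel
  have h5 : G * (CB N).d v + (CB N).d v * G = (u ⬝ᵥ v) • (1 : FM N) := by
    rw [hG]; exact CS.ga_d _ _ _ _
  refine CS.smul_one_inj (ι := Finset (Fin N)) ?_
  rw [← h4, ← h5]
  have h6 : (g : FM N) * (G * (CB N).d v + (CB N).d v * G) =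
      ((CB N).ga 0 X Ξ * W + W * (CB N).ga 0 X Ξ) * (g : FM N) := by
    rw [mul_add, add_mul, ← mul_assoc, ← h3, mul_assoc W, h2, ← mul_assoc (g : FM N), h2,
      mul_assoc _ (g : FM N), ← h3, mul_assoc, mul_assoc]
    abel
  rw [h5, mul_smul_comm, mul_one] at h6
  have h7 : ((CB N).ga 0 X Ξ * W + W * (CB N).ga 0 X Ξ) * (g : FM N) =
      ((u ⬝ᵥ v) • (1 : FM N)) * (g : FM N) := by rw [← h6, smul_mul_assoc, one_mul]
  rw [CS.cancel_right h7, h5]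

/-- **type D**: reduction of a group element to the stabiliser of the vacuum -/
theorem D_fact (hN : 26 ≤ n + 1) {g : (FM (n + 1))ˣ} (hg : g ∈ GB (n + 1))
    (hgp : (g : FM (n + 1)) * par = par * (g : FM (n + 1))) :
    ∃ p1 ∈ (CB (n + 1)).PL, ∃ q1 ∈ (CB (n + 1)).swap.PL, ∃ p2 ∈ (CB (n + 1)).PL,
      ∃ l ∈ LV (n + 1), ∃ q2 ∈ (CB (n + 1)).swap.PL, g = p1 * q1 * p2 * l * q2 := by
  obtain ⟨hpr, hpr'⟩ := GB_pr hg
  have hgp' := inv_par hgp
  -- the vector `w'`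
  obtain ⟨κ, u, u', hu⟩ := hpr' 0 (Pi.single 0 1) (-Pi.single 0 1)
  have hκ : κ = 0 := k_zero hgp' (par_ga _ _) hu
  subst hκ
  have huu : u ⬝ᵥ u' = -1 := by
    have h1 : ((CB (n + 1)).ga 0 u u' * (CB (n + 1)).ga 0 u u') *
        ((g⁻¹ : (FM (n + 1))ˣ) : FM (n + 1)) =
        ((-1 : ℤ) • (1 : FM (n + 1))) * ((g⁻¹ : (FM (n + 1))ˣ) : FM (n + 1)) := by
      rw [mul_assoc, ← hu, ← mul_assoc, ← hu, mul_assoc, CS.ga_sq, mul_smul_comm, mul_one,
        smul_mul_assoc, one_mul]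
      simp
    have h2 := CS.cancel_right h1
    rw [CS.ga_sq] at h2
    have h3 := CS.smul_one_inj (ι := Finset (Fin (n + 1))) h2
    linarith
  have h01 : (⟨1, by omega⟩ : Fin (n + 1)) ≠ 0 := by
    intro h; have := congrArg Fin.val h; simp at this
  obtain ⟨Z, hZ, hZu⟩ := exists_SL_prim (v := u) (c := fun i => -u' i) (i0 := 0)
    (i1 := ⟨1, by omega⟩) (by
      have : ∑ i, (-u' i) * u i = -(u ⬝ᵥ u') := by
        rw [dotProduct, ← Finset.sum_neg_distrib]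
        exact Finset.sum_congr rfl fun i _ => by ring
      rw [this, huu, neg_neg]) h01
  obtain ⟨W, hZW, hWZ⟩ := det_to_inv hZ
  -- the families
  obtain ⟨fA, hfA⟩ : ∃ fA : Fin n → FM (n + 1), fA = fun j =>
      (CB (n + 1)).d (Zᵀ *ᵥ Pi.single j.succ 1) := ⟨_, rfl⟩
  obtain ⟨fB, hfB⟩ : ∃ fB : Fin n → FM (n + 1), fB = fun j =>
      (CB (n + 1)).c (W *ᵥ Pi.single j.succ 1) := ⟨_, rfl⟩
  have hAA : ∀ i j, fA i * fA j + fA j * fA i = 0 := by
    intro i j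
    have h5 : (CB (n + 1)).d (Zᵀ *ᵥ Pi.single i.succ 1) * (CB (n + 1)).d (Zᵀ *ᵥ Pi.single j.succ 1)
      = -((CB (n + 1)).d (Zᵀ *ᵥ Pi.single j.succ 1) * (CB (n + 1)).d (Zᵀ *ᵥ Pi.single i.succ 1)) :=
      (CB (n + 1)).swap.cc' _ _
    rw [hfA]; simp only [h5]; exact neg_add_cancel _
  have hBA : ∀ i j, fB i * fA j + fA j * fB i = if i = j then 1 else 0 := by
    intro i j
    rw [hfA, hfB]
    simp only [(CB (n + 1)).cd]
    have h6 : (W *ᵥ Pi.single i.succ 1) ⬝ᵥ (Zᵀ *ᵥ (Pi.single j.succ 1 : Fin (n + 1) → ℤ)) =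
        (Pi.single i.succ 1 : Fin (n + 1) → ℤ) ⬝ᵥ Pi.single j.succ 1 := by
      rw [Matrix.mulVec_transpose, dotProduct_comm, ← Matrix.dotProduct_mulVec,
        Matrix.mulVec_mulVec, hZW, Matrix.one_mulVec, dotProduct_comm]
    rw [h6, single_one_dotProduct]
    by_cases hij : i = j
    · subst hij; rw [Pi.single_eq_same, one_smul, if_pos rfl]
    · rw [Pi.single_eq_of_ne (fun h => hij (Fin.succ_injective _ h)), zero_smul, if_neg hij]
  have hd : ∀ j, ∃ k X Ξ, (g : FM (n + 1)) * fA j = (CD n).ga k X Ξ * (g : FM (n + 1)) := by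
    intro j
    obtain ⟨k, X, Ξ, h7⟩ := hpr 0 0 (Zᵀ *ᵥ Pi.single j.succ 1)
    have hk : k = 0 := k_zero hgp (par_ga _ _) h7
    subst hk
    have e : (CB (n + 1)).ga 0 0 (Zᵀ *ᵥ Pi.single j.succ 1) =
        (CB (n + 1)).d (Zᵀ *ᵥ Pi.single j.succ 1) := by
      rw [CS.ga, zero_smul, map_zero, zero_add, zero_add]
    rw [e] at h7
    have h8 := ortho hu h7
    have h9 : u ⬝ᵥ (Zᵀ *ᵥ Pi.single j.succ 1) = 0 := by
      rw [Matrix.mulVec_transpose, dotProduct_comm, ← Matrix.dotProduct_mulVec, hZu,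
        single_one_dotProduct, Pi.single_eq_of_ne (Fin.succ_ne_zero j)]
    rw [h9] at h8
    refine ⟨X 0, fun i => X i.succ, fun i => Ξ i.succ, ?_⟩
    rw [hfA, ← CB_ga_split X Ξ (by linarith)]
    exact h7
  choose k X Ξ hd using hd
  have hc : ∀ j, ∃ k X Ξ, (g : FM (n + 1)) * fB j =
      (CB (n + 1)).ga k X Ξ * (g : FM (n + 1)) := by
    intro j
    obtain ⟨k, X, Ξ, h7⟩ := hpr 0 (W *ᵥ Pi.single j.succ 1) 0
    refine ⟨k, X, Ξ, ?_⟩
    rw [← h7, hfB, CS.ga, zero_smul, map_zero, zero_add, add_zero]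
  choose k' X' Ξ' hc using hc
  obtain ⟨F, hF⟩ : ∃ F : Fr n, F = ⟨Matrix.of fun (_ : Fin 1) j => k j,
    Matrix.of fun i j => X j i, Matrix.of fun i j => Ξ j i⟩ := ⟨_, rfl⟩
  have hA : ∀ y, (g : FM (n + 1)) * lc fA y =
      (CD n).ga ((F.k *ᵥ y) 0) (F.b *ᵥ y) (F.d *ᵥ y) * (g : FM (n + 1)) := by
    intro y
    have := CS.ga_lin (C := CD n) (g : FM (n + 1)) (lc fA) k X Ξ
      (fun j => by rw [lc_single]; exact hd j) y
    rw [hF]; exact this
  have hIso : F.Iso := by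
    refine CS.frame_of (C := CD n) (B := fB) hA (fun y => lc_sq _ hAA y) hc (fun j y => ?_)
      (fun j => Ξ' j 0 + X' j 0) (fun j i => Ξ' j i.succ) (fun j i => X' j i.succ)
      (fun j => ?_) (fun j x => ?_) fun j x => ?_
    · have := lc_cd fB fA hBA (Pi.single j 1) y
      rwa [lc_single, single_one_dotProduct] at this
    · have a1 := CS.ga_c (C := CB (n + 1)) (k' j) (X' j) (Ξ' j) (Pi.single 0 1)
      have a2 := CS.ga_d (C := CB (n + 1)) (k' j) (X' j) (Ξ' j) (Pi.single 0 1)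
      rw [dotProduct_single, mul_one, CB_c_single] at a1
      rw [dotProduct_single, mul_one, CB_d_single] at a2
      rw [CD_w, add_smul, ← a1, ← a2, mul_add, add_mul]; abel
    · have a1 := CS.ga_c (C := CB (n + 1)) (k' j) (X' j) (Ξ' j) (Fin.cons 0 x)
      rw [CD_c, a1]
      congr 1
      rw [dotProduct, Fin.sum_univ_succ]
      simp [dotProduct]
    · have a1 := CS.ga_d (C := CB (n + 1)) (k' j) (X' j) (Ξ' j) (Fin.cons 0 x)
      rw [CD_d, a1]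
      congr 1
      rw [dotProduct, Fin.sum_univ_succ]
      simp [dotProduct]
  have hAnn : (CD n).Ann ((g : FM (n + 1)) *ᵥ Om (n + 1)) F := by
    intro y
    have h1 : (CD n).ga ((F.k *ᵥ y) 0) (F.b *ᵥ y) (F.d *ᵥ y) *ᵥ
        ((g : FM (n + 1)) *ᵥ Om (n + 1)) = 0 := by
      rw [Matrix.mulVec_mulVec, ← hA, ← Matrix.mulVec_mulVec]
      have h2 : lc fA y *ᵥ Om (n + 1) = 0 := by
        rw [lc_apply, Matrix.sum_mulVec]
        refine Finset.sum_eq_zero fun i _ => ?_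
        rw [Matrix.smul_mulVec, hfA]
        simp only [d_Om, smul_zero]
      rw [h2, Matrix.mulVec_zero]
    exact h1
  have hE : ∀ {p : (FM (n + 1))ˣ}, (p : FM (n + 1)) * par = par * (p : FM (n + 1)) →
      ∀ φ ∈ {φ : Finset (Fin (n + 1)) → ℤ | par *ᵥ φ = φ},
        (p : FM (n + 1)) *ᵥ φ ∈ {φ : Finset (Fin (n + 1)) → ℤ | par *ᵥ φ = φ} := by
    intro p hp φ hφ
    have hφ' : par *ᵥ φ = φ := hφ
    show par *ᵥ ((p : FM (n + 1)) *ᵥ φ) = (p : FM (n + 1)) *ᵥ φ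
    rw [Matrix.mulVec_mulVec, ← hp, ← Matrix.mulVec_mulVec, hφ']
  obtain ⟨p, hp, q, hq, p', hp', h⟩ := CS.core (C := CD n) (by omega) (P := PD n)
    (Q := QD n) PD_has QD_has (vac (n + 1)) (Om (n + 1)) vac_Om
    (fun x φ => by rw [CD_c]; exact vac_c _ _)
    (fun p hp φ => PD_vac hp φ) {φ | par *ᵥ φ = φ} (fun p hp => hE (PD_par hp))
    (fun p hp => hE (QD_par hp))
    (fun φ hφ hφ' => ⟨φ ∅, kernelD (fun i => by
      have := hφ' (Pi.single i 1)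
      have e : (CD n).d (Pi.single i 1) = an i.succ := lc_single _ _
      rwa [e] at this) hφ⟩) g
    (hE hgp _ par_Om) hIso hAnn
  have hPG : PD n ≤ GB (n + 1) := by
    rw [PD, Subgroup.closure_le]
    rintro x (hx | hx)
    · exact PL_le_GB hx
    · exact LV_le_GB hN hx
  have hQG : QD n ≤ GB (n + 1) := by
    rw [QD, Subgroup.closure_le]
    rintro x (hx | hx)
    · exact QL_le_GB hx
    · exact LV_le_GB hN hx
  have hG : p' * q * p * g ∈ GB (n + 1) := Subgroup.mul_mem _ (Subgroup.mul_mem _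
    (Subgroup.mul_mem _ (hPG hp') (hQG hq)) (hPG hp)) hg
  have hpar : ((p' * q * p * g : (FM (n + 1))ˣ) : FM (n + 1)) * par =
      par * ((p' * q * p * g : (FM (n + 1))ˣ) : FM (n + 1)) := by
    rw [Units.val_mul, Units.val_mul, Units.val_mul, mul_assoc, hgp, ← mul_assoc,
      mul_assoc _ (p : FM (n + 1)), PD_par hp, ← mul_assoc, mul_assoc _ (q : FM (n + 1)),
      QD_par hq, ← mul_assoc, PD_par hp']
    simp only [mul_assoc]
  obtain ⟨l, hl, -, hq2⟩ := stab_fact hN hG h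
  obtain ⟨q2, hq2, e⟩ := hq2 hpar
  have hcP : ∀ l ∈ LV (n + 1), ∀ a ∈ (CB (n + 1)).PL, l * a * l⁻¹ ∈ (CB (n + 1)).PL := by
    intro l hl
    obtain ⟨T, T', -, hL⟩ := LV_lev hl
    exact hL.conj_PL
  have hcQ : ∀ l ∈ LV (n + 1), ∀ a ∈ (CB (n + 1)).swap.PL,
      l * a * l⁻¹ ∈ (CB (n + 1)).swap.PL := by
    intro l hl
    obtain ⟨T, T', -, hL⟩ := LV_lev hl
    exact hL.swap.conj_PL
  obtain ⟨u1, hu1, l1, hl1, e1⟩ := sup_fact hcP (Subgroup.inv_mem _ hp)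
  obtain ⟨v1, hv1, l2, hl2, e2⟩ := sup_fact hcQ (Subgroup.inv_mem _ hq)
  obtain ⟨u2, hu2, l3, hl3, e3⟩ := sup_fact hcP (Subgroup.inv_mem _ hp')
  have hl12 := Subgroup.mul_mem _ hl1 hl2
  refine ⟨u1, hu1, l1 * v1 * l1⁻¹, hcQ _ hl1 _ hv1, (l1 * l2) * u2 * (l1 * l2)⁻¹,
    hcP _ hl12 _ hu2, l1 * l2 * l3 * l,
    Subgroup.mul_mem _ (Subgroup.mul_mem _ hl12 hl3) hl, q2, hq2, ?_⟩
  have e4 : g = p⁻¹ * q⁻¹ * p'⁻¹ * (l * q2) := by rw [← e]; group
  rw [e4, e1, e2, e3]; group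

/-! ### the lower bound -/

/-- an element of the group outside `U U⁻` -/
theorem low_bound {U Um G : Subgroup (FM N)ˣ}
    (hU : ∀ u ∈ U, ∀ φ, vac N ((u : FM N) *ᵥ φ) = vac N φ)
    (hUm : ∀ u ∈ Um, (u : FM N) *ᵥ Om N = Om N) {i j : Fin N} (hij : i ≠ j)
    (h1 : ∃ u ∈ G, (u : FM N) = 1 + an i * an j) (h2 : ∃ u ∈ G, (u : FM N) = 1 + cr i * cr j) :
    (U : Set (FM N)ˣ) * (Um : Set (FM N)ˣ) ≠ (G : Set (FM N)ˣ) := by
  obtain ⟨a, ha, ha'⟩ := h1
  obtain ⟨b, hb, hb'⟩ := h2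
  intro h
  have hab : a * b ∈ (U : Set (FM N)ˣ) * (Um : Set (FM N)ˣ) := by
    rw [h]; exact G.mul_mem ha hb
  obtain ⟨u, hu, v, hv, e⟩ := Set.mem_mul.1 hab
  have e1 : vac N (((a * b : (FM N)ˣ) : FM N) *ᵥ Om N) = 1 := by
    rw [← e, Units.val_mul, ← Matrix.mulVec_mulVec, hUm v hv, hU u hu, vac_Om]
  have e2 : an i * an j * (cr i * cr j) = -((an i * cr i) * (an j * cr j)) := by
    have h3 : an j * cr i = -(cr i * an j) := by rw [anti_ca hij, neg_neg]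
    calc an i * an j * (cr i * cr j) = an i * (an j * cr i) * cr j := by simp only [mul_assoc]
      _ = _ := by rw [h3]; simp only [mul_neg, neg_mul, mul_assoc]
  have e3 : ∀ k : Fin N, (an k * cr k) *ᵥ Om N = Om N := by
    intro k
    rw [anck, Matrix.sub_mulVec, Matrix.one_mulVec, ← Matrix.mulVec_mulVec, an_Om,
      Matrix.mulVec_zero, sub_zero]
  have e4 : ((a * b : (FM N)ˣ) : FM N) *ᵥ Om N = cr i *ᵥ (cr j *ᵥ Om N) := by
    have h5 : ((a * b : (FM N)ˣ) : FM N) = 1 + cr i * cr j + an i * an j -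
        (an i * cr i) * (an j * cr j) := by
      rw [Units.val_mul, ha', hb', add_mul, mul_add, mul_add, one_mul, one_mul, mul_one, e2]
      abel
    rw [h5, Matrix.sub_mulVec, Matrix.add_mulVec, Matrix.add_mulVec, Matrix.one_mulVec,
      ← Matrix.mulVec_mulVec, ← Matrix.mulVec_mulVec (M := an i), an_Om, Matrix.mulVec_zero,
      add_zero, ← Matrix.mulVec_mulVec (M := an i * cr i), e3, e3]
    abel
  rw [e4, vac_cr] at e1
  exact zero_ne_one e1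

end Pool.Agent.KS6_44.UU
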