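import Pool.Agent.KS6_44.UU.FkG

/-!
Types `B_n` and `D_n`: `L = 2`.
-/

namespace Pool.Agent.KS6_44.UU

open Matrix Pointwise

variable {n : ℕ}

lemma vac_pos {g : (FM n)ˣ} (hg : g ∈ posB n) : ∀ φ, vac n ((g : FM n) *ᵥ φ) = vac n φ := by
  intro φ
  rcases hg with ⟨i, j, t, hij, h | h⟩ | ⟨i, t, h⟩ <;>
    rw [h, Matrix.add_mulVec, Matrix.one_mulVec, Matrix.smul_mulVec, ← Matrix.mulVec_mulVec,
      map_add, map_smul, vac_cr, smul_zero, add_zero]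

lemma Om_neg {g : (FM n)ˣ} (hg : g ∈ negB n) : (g : FM n) *ᵥ Om n = Om n := by
  rcases hg with ⟨i, j, t, hij, h | h⟩ | ⟨i, t, h⟩
  · rw [h, Matrix.add_mulVec, Matrix.one_mulVec, Matrix.smul_mulVec, ← Matrix.mulVec_mulVec,
      an_Om, Matrix.mulVec_zero, smul_zero, add_zero]
  · rw [h, Matrix.add_mulVec, Matrix.one_mulVec, Matrix.smul_mulVec, ← Matrix.mulVec_mulVec,
      an_Om, Matrix.mulVec_zero, smul_zero, add_zero]
  · rw [h, Matrix.add_mulVec, Matrix.one_mulVec, Matrix.smul_mulVec, ← Matrix.mulVec_mulVec,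
      par_Om, an_Om, smul_zero, add_zero]

lemma LU_le {H : Subgroup (FM n)ˣ} (h : posD n ⊆ H) : LU n ≤ H := by
  rw [LU, Subgroup.closure_le]
  rintro u ⟨i, j, t, hij, hu⟩
  exact h ⟨i, j, t, hij, Or.inl hu⟩

lemma LL_le {H : Subgroup (FM n)ˣ} (h : negD n ⊆ H) : LL n ≤ H := by
  rw [LL, Subgroup.closure_le]
  rintro u ⟨i, j, t, hij, hu⟩
  exact h ⟨i, j, t, hij, Or.inl hu⟩

lemma PL_le_of {H : Subgroup (FM n)ˣ} (h : posD n ⊆ H) : (CB n).PL ≤ H := by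
  refine PL_le' fun i j hij t => ?_
  obtain ⟨u, hu⟩ := unit_of_sq (sq_smul (sq_cc i j) t)
  exact ⟨u, h ⟨i, j, t, hij, Or.inr hu⟩, hu⟩

lemma QL_le_of {H : Subgroup (FM n)ˣ} (h : negD n ⊆ H) : (CB n).swap.PL ≤ H := by
  refine QL_le fun i j hij t => ?_
  obtain ⟨u, hu⟩ := unit_of_sq (sq_smul (sq_aa i j) t)
  exact ⟨u, h ⟨i, j, t, hij, Or.inr hu⟩, hu⟩

lemma PS_le_of {H : Subgroup (FM n)ˣ} (h : posB n ⊆ H) : (CB n).PS ≤ H := by
  refine PS_le' (fun i t => ?_) fun i j hij t => ?_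
  · obtain ⟨u, hu⟩ := unit_of_sq (sq_smul (sq_cp i) t)
    exact ⟨u, h (Or.inr ⟨i, t, hu⟩), hu⟩
  · obtain ⟨u, hu⟩ := unit_of_sq (sq_smul (sq_cc i j) t)
    exact ⟨u, h (Or.inl ⟨i, j, t, hij, Or.inr hu⟩), hu⟩

lemma QS_le_of {H : Subgroup (FM n)ˣ} (h : negB n ⊆ H) : (CB n).swap.PS ≤ H := by
  refine QS_le (fun i t => ?_) fun i j hij t => ?_
  · obtain ⟨u, hu⟩ := unit_of_sq (sq_smul (sq_ap i) t)
    exact ⟨u, h (Or.inr ⟨i, t, hu⟩), hu⟩
  · obtain ⟨u, hu⟩ := unit_of_sq (sq_smul (sq_aa i j) t)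
    exact ⟨u, h (Or.inl ⟨i, j, t, hij, Or.inr hu⟩), hu⟩

/-- **type B** -/
theorem B_main (hn : 26 ≤ n) {g : (FM n)ˣ} (hg : g ∈ Subgroup.closure (posB n ∪ negB n)) :
    g ∈ ((Subgroup.closure (posB n) : Set (FM n)ˣ) *
      (Subgroup.closure (negB n) : Set (FM n)ˣ)) ^ 2 := by
  have hG : g ∈ GB n := Subgroup.closure_mono (Set.union_subset posB_sub negB_sub) hg
  obtain ⟨p1, h1, q1, h2, p2, h3, l, hl, q2, h4, rfl⟩ := B_fact hn hG
  obtain ⟨a1, ha1, b1, hb1, a2, ha2, b2, hb2, rfl⟩ := LV_fact hn hl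
  have hp : posB n ⊆ (Subgroup.closure (posB n) : Set (FM n)ˣ) := Subgroup.subset_closure
  have hm : negB n ⊆ (Subgroup.closure (negB n) : Set (FM n)ˣ) := Subgroup.subset_closure
  refine asm (L := LV n) (PS_le_of hp) (QS_le_of hm)
    (LU_le (Set.Subset.trans Set.subset_union_left hp))
    (LL_le (Set.Subset.trans Set.subset_union_left hm)) LU_le_LV LL_le_LV ?_ ?_
    h1 h2 h3 ha1 hb1 ha2 hb2 h4
  · intro l hl
    obtain ⟨T, T', -, hL⟩ := LV_lev hl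
    exact hL.conj_PS
  · intro l hl
    obtain ⟨T, T', -, hL⟩ := LV_lev hl
    exact hL.swap.conj_PS

lemma posD_par {g : (FM n)ˣ} (hg : g ∈ posD n ∪ negD n) :
    (g : FM n) * par = par * (g : FM n) := by
  rcases hg with ⟨i, j, t, hij, h | h⟩ | ⟨i, j, t, hij, h | h⟩
  · rw [h, add_mul, mul_add, one_mul, mul_one, smul_mul_assoc, mul_smul_comm, ← CB_c_single,
      ← CB_d_single, par_cd']
  · rw [h, add_mul, mul_add, one_mul, mul_one, smul_mul_assoc, mul_smul_comm, ← CB_c_single,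
      ← CB_c_single, par_cc']
  · rw [h, add_mul, mul_add, one_mul, mul_one, smul_mul_assoc, mul_smul_comm, ← CB_c_single,
      ← CB_d_single, par_cd']
  · rw [h, add_mul, mul_add, one_mul, mul_one, smul_mul_assoc, mul_smul_comm, ← CB_d_single,
      ← CB_d_single, par_dd']

/-- **type D** -/
theorem D_main (hn : 26 ≤ n) {g : (FM n)ˣ} (hg : g ∈ Subgroup.closure (posD n ∪ negD n)) :
    g ∈ ((Subgroup.closure (posD n) : Set (FM n)ˣ) *
      (Subgroup.closure (negD n) : Set (FM n)ˣ)) ^ 2 := by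
  obtain ⟨m, rfl⟩ : ∃ m, n = m + 1 := ⟨n - 1, by omega⟩
  have hG : g ∈ GB (m + 1) := Subgroup.closure_mono (Set.union_subset
    (Set.Subset.trans Set.subset_union_left posB_sub)
    (Set.Subset.trans Set.subset_union_left negB_sub)) hg
  have hpar : (g : FM (m + 1)) * par = par * (g : FM (m + 1)) :=
    comm_closure (fun u hu => posD_par hu) hg
  obtain ⟨p1, h1, q1, h2, p2, h3, l, hl, q2, h4, rfl⟩ := D_fact hn hG hpar
  obtain ⟨a1, ha1, b1, hb1, a2, ha2, b2, hb2, rfl⟩ := LV_fact hn hl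
  have hp : posD (m + 1) ⊆ (Subgroup.closure (posD (m + 1)) : Set (FM (m + 1))ˣ) :=
    Subgroup.subset_closure
  have hm : negD (m + 1) ⊆ (Subgroup.closure (negD (m + 1)) : Set (FM (m + 1))ˣ) :=
    Subgroup.subset_closure
  refine asm (L := LV (m + 1)) (PL_le_of hp) (QL_le_of hm) (LU_le hp) (LL_le hm)
    LU_le_LV LL_le_LV ?_ ?_ h1 h2 h3 ha1 hb1 ha2 hb2 h4
  · intro l hl
    obtain ⟨T, T', -, hL⟩ := LV_lev hl
    exact hL.conj_PL
  · intro l hl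
    obtain ⟨T, T', -, hL⟩ := LV_lev hl
    exact hL.swap.conj_PL

/-- the general form of the final statement -/
theorem isLeast_two {S T : Set (FM n)ˣ} (hn : 1 < n) (hS : S ⊆ posB n) (hT : T ⊆ negB n)
    (hSD : posD n ⊆ S) (hTD : negD n ⊆ T)
    (hmain : ∀ g ∈ Subgroup.closure (S ∪ T), g ∈ ((Subgroup.closure S : Set (FM n)ˣ) *
      (Subgroup.closure T : Set (FM n)ˣ)) ^ 2) :
    IsLeast {L : ℕ | 0 < L ∧ ((Subgroup.closure S : Set (FM n)ˣ) *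
      (Subgroup.closure T : Set (FM n)ˣ)) ^ L = (Subgroup.closure (S ∪ T) : Set (FM n)ˣ)} 2 := by
  have hU : Subgroup.closure S ≤ Subgroup.closure (S ∪ T) :=
    Subgroup.closure_mono Set.subset_union_left
  have hUm : Subgroup.closure T ≤ Subgroup.closure (S ∪ T) :=
    Subgroup.closure_mono Set.subset_union_right
  refine ⟨⟨by norm_num, Set.Subset.antisymm ?_ fun g hg => hmain g hg⟩, ?_⟩
  · rw [pow_two]
    rintro g hg
    obtain ⟨x, hx, y, hy, rfl⟩ := Set.mem_mul.1 hg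
    obtain ⟨a, ha, b, hb, rfl⟩ := Set.mem_mul.1 hx
    obtain ⟨c, hc, d, hd, rfl⟩ := Set.mem_mul.1 hy
    exact Subgroup.mul_mem _ (Subgroup.mul_mem _ (hU ha) (hUm hb))
      (Subgroup.mul_mem _ (hU hc) (hUm hd))
  · rintro L ⟨hL, hLu⟩
    by_contra hlt
    have h1 : L = 1 := by omega
    subst h1
    rw [pow_one] at hLu
    have h01 : (⟨0, by omega⟩ : Fin n) < ⟨1, hn⟩ := by rw [Fin.lt_def]; simp
    refine low_bound (fun u hu => lin_closure (fun u hu => vac_pos (hS hu)) hu)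
      (fun u hu => fix_closure (fun u hu => Om_neg (hT hu)) hu) h01.ne ?_ ?_ hLu
    · obtain ⟨u, hu⟩ := unit_of_sq (sq_aa (⟨0, by omega⟩ : Fin n) ⟨1, hn⟩)
      exact ⟨u, Subgroup.subset_closure (Or.inr (hTD ⟨_, _, 1, h01, Or.inr
        (by rw [one_smul]; exact hu)⟩)), hu⟩
    · obtain ⟨u, hu⟩ := unit_of_sq (sq_cc (⟨0, by omega⟩ : Fin n) ⟨1, hn⟩)
      exact ⟨u, Subgroup.subset_closure (Or.inl (hSD ⟨_, _, 1, h01, Or.inr
        (by rw [one_smul]; exact hu)⟩)), hu⟩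

end Pool.Agent.KS6_44.UU
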