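import Pool.Agent.KS6_44.UU.SpB

/-!
Isotropic frames `(k, b, d)` for the form `k² + x·ξ` over `ℤ` (type B).
-/

namespace Pool.Agent.KS6_44.UU

open Matrix

/-- frames -/
structure Fr (n : ℕ) where
  k : Mat 1 n
  b : Mat n n
  d : Mat n n

/-- admissible pairs -/
def PA {n : ℕ} (x : Mat n 1) (M : Mat n n) : Prop := M + Mᵀ = -((2 : ℤ) • (x * xᵀ))

namespace Fr
variable {n : ℕ}

/-- the moves of the unipotent radical -/
def P (F : Fr n) (x : Mat n 1) (M : Mat n n) : Fr n :=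
  ⟨F.k - xᵀ * F.d, F.b + (2 : ℤ) • (x * F.k) + M * F.d, F.d⟩

/-- the moves of the opposite unipotent radical -/
def Q (F : Fr n) (x : Mat n 1) (M : Mat n n) : Fr n :=
  ⟨F.k - xᵀ * F.b, F.b, F.d + (2 : ℤ) • (x * F.k) + M * F.b⟩

/-- change of the basis of the frame -/
def R (F : Fr n) (Y : Mat n n) : Fr n := ⟨F.k * Y, F.b * Y, F.d * Y⟩

/-- Levi moves -/
def L (F : Fr n) (X X' : Mat n n) : Fr n := ⟨F.k, X'ᵀ * F.b, X * F.d⟩

/-- isotropic unimodular frames -/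
def Iso (F : Fr n) : Prop :=
  F.bᵀ * F.d + F.dᵀ * F.b = -((2 : ℤ) • (F.kᵀ * F.k)) ∧
    ∃ (l : Mat n 1) (r s : Mat n n), l * F.k + r * F.b + s * F.d = 1

end Fr

section
variable {n : ℕ}

lemma PA.add {x y : Mat n 1} {M N : Mat n n} (h : PA x M) (h' : PA y N) :
    PA (x + y) (M + N - (2 : ℤ) • (y * xᵀ)) := by
  unfold PA at *
  have e : (M + N - (2 : ℤ) • (y * xᵀ)) + (M + N - (2 : ℤ) • (y * xᵀ))ᵀ =
      (M + Mᵀ) + (N + Nᵀ) - (2 : ℤ) • (y * xᵀ) - (2 : ℤ) • (x * yᵀ) := by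
    simp only [Matrix.transpose_sub, Matrix.transpose_add, Matrix.transpose_smul,
      Matrix.transpose_mul, Matrix.transpose_transpose]
    abel
  rw [e, h, h']
  simp only [Matrix.transpose_add, Matrix.mul_add, Matrix.add_mul, smul_add]
  abel

lemma Fr.P_P (F : Fr n) (x y : Mat n 1) (M N : Mat n n) :
    (F.P x M).P y N = F.P (x + y) (M + N - (2 : ℤ) • (y * xᵀ)) := by
  simp only [Fr.P, Fr.mk.injEq, and_true]
  constructor
  · simp only [Matrix.transpose_add, Matrix.add_mul]; abel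
  · simp only [Matrix.add_mul, Matrix.mul_sub, smul_add, smul_sub, Matrix.sub_mul,
      Matrix.smul_mul, Matrix.mul_assoc]
    abel

lemma Fr.Q_Q (F : Fr n) (x y : Mat n 1) (M N : Mat n n) :
    (F.Q x M).Q y N = F.Q (x + y) (M + N - (2 : ℤ) • (y * xᵀ)) := by
  simp only [Fr.Q, Fr.mk.injEq, true_and]
  constructor
  · simp only [Matrix.transpose_add, Matrix.add_mul]; abel
  · simp only [Matrix.add_mul, Matrix.mul_sub, smul_add, smul_sub, Matrix.sub_mul,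
      Matrix.smul_mul, Matrix.mul_assoc]
    abel

lemma Fr.Q_R (F : Fr n) (x : Mat n 1) (M Y : Mat n n) : (F.R Y).Q x M = (F.Q x M).R Y := by
  simp only [Fr.Q, Fr.R, Fr.mk.injEq, true_and]
  constructor
  · simp only [Matrix.sub_mul, Matrix.mul_assoc]
  · simp only [Matrix.add_mul, Matrix.smul_mul, Matrix.mul_assoc]

lemma Fr.P_R (F : Fr n) (x : Mat n 1) (M Y : Mat n n) : (F.R Y).P x M = (F.P x M).R Y := by
  simp only [Fr.P, Fr.R, Fr.mk.injEq, and_true]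
  constructor
  · simp only [Matrix.sub_mul, Matrix.mul_assoc]
  · simp only [Matrix.add_mul, Matrix.smul_mul, Matrix.mul_assoc]

/-- the swap of the two radicals -/
def Fr.swap (F : Fr n) : Fr n := ⟨F.k, F.d, F.b⟩

lemma Fr.Iso.swap {F : Fr n} (h : F.Iso) : F.swap.Iso := by
  obtain ⟨h1, l, r, s, h2⟩ := h
  refine ⟨?_, l, s, r, ?_⟩
  · simp only [Fr.swap]; rw [← h1, add_comm]
  · simp only [Fr.swap]; rw [← h2]; abel

lemma Fr.Iso.P {F : Fr n} (h : F.Iso) {x : Mat n 1} {M : Mat n n} (hM : PA x M) :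
    (F.P x M).Iso := by
  obtain ⟨h1, l, r, s, h2⟩ := h
  unfold PA at hM
  refine ⟨?_, l - (2 : ℤ) • (r * x), r, s + (l - (2 : ℤ) • (r * x)) * xᵀ - r * M, ?_⟩
  · simp only [Fr.P]
    have e : (F.b + (2 : ℤ) • (x * F.k) + M * F.d)ᵀ * F.d +
        F.dᵀ * (F.b + (2 : ℤ) • (x * F.k) + M * F.d) =
        (F.bᵀ * F.d + F.dᵀ * F.b) + F.dᵀ * (M + Mᵀ) * F.d + (2 : ℤ) • (F.kᵀ * (xᵀ * F.d)) +
          (2 : ℤ) • (F.dᵀ * x * F.k) := by
      simp only [Matrix.transpose_add, Matrix.transpose_smul, Matrix.transpose_mul,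
        Matrix.add_mul, Matrix.mul_add, Matrix.smul_mul, Matrix.mul_smul, Matrix.mul_assoc]
      abel
    rw [e, h1, hM]
    simp only [Matrix.transpose_sub, Matrix.transpose_mul, Matrix.transpose_transpose,
      Matrix.sub_mul, Matrix.mul_sub, Matrix.mul_neg, Matrix.neg_mul, Matrix.mul_smul,
      Matrix.smul_mul, smul_sub, Matrix.mul_assoc]
    abel
  · simp only [Fr.P]
    rw [← h2]
    simp only [Matrix.sub_mul, Matrix.mul_sub, Matrix.add_mul, Matrix.mul_add, Matrix.smul_mul,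
      Matrix.mul_smul, Matrix.mul_assoc]
    abel

lemma Fr.Iso.Q {F : Fr n} (h : F.Iso) {x : Mat n 1} {M : Mat n n} (hM : PA x M) :
    (F.Q x M).Iso := (h.swap.P hM).swap

lemma Fr.Iso.R {F : Fr n} (h : F.Iso) {Y Y' : Mat n n} (h1 : Y' * Y = 1) : (F.R Y).Iso := by
  obtain ⟨h2, l, r, s, h3⟩ := h
  refine ⟨?_, Y' * l, Y' * r, Y' * s, ?_⟩
  · simp only [Fr.R]
    have e : (F.b * Y)ᵀ * (F.d * Y) + (F.d * Y)ᵀ * (F.b * Y) =
        Yᵀ * (F.bᵀ * F.d + F.dᵀ * F.b) * Y := by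
      simp only [Matrix.transpose_mul, Matrix.mul_add, Matrix.add_mul, Matrix.mul_assoc]
    rw [e, h2]
    simp only [Matrix.transpose_mul, Matrix.mul_neg, Matrix.neg_mul, Matrix.mul_smul,
      Matrix.smul_mul, Matrix.mul_assoc]
  · simp only [Fr.R]
    calc Y' * l * (F.k * Y) + Y' * r * (F.b * Y) + Y' * s * (F.d * Y) =
          Y' * (l * F.k + r * F.b + s * F.d) * Y := by
            simp only [Matrix.mul_add, Matrix.add_mul, Matrix.mul_assoc]
      _ = 1 := by rw [h3, Matrix.mul_one, h1]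

lemma Fr.Iso.L {F : Fr n} (h : F.Iso) {X X' : Mat n n} (h1 : X' * X = 1) :
    (F.L X X').Iso := by
  obtain ⟨h2, l, r, s, h3⟩ := h
  have ht : Xᵀ * X'ᵀ = 1 := by rw [← Matrix.transpose_mul, h1, Matrix.transpose_one]
  refine ⟨?_, l, r * Xᵀ, s * X', ?_⟩
  · simp only [Fr.L]
    rw [← h2]
    have e1 : (X'ᵀ * F.b)ᵀ * (X * F.d) = F.bᵀ * F.d := by
      rw [Matrix.transpose_mul, Matrix.transpose_transpose]
      calc F.bᵀ * X' * (X * F.d) = F.bᵀ * (X' * X) * F.d := by simp only [Matrix.mul_assoc]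
        _ = _ := by rw [h1, Matrix.mul_one]
    have e2 : (X * F.d)ᵀ * (X'ᵀ * F.b) = F.dᵀ * F.b := by
      rw [Matrix.transpose_mul]
      calc F.dᵀ * Xᵀ * (X'ᵀ * F.b) = F.dᵀ * (Xᵀ * X'ᵀ) * F.b := by simp only [Matrix.mul_assoc]
        _ = _ := by rw [ht, Matrix.mul_one]
    rw [e1, e2]
  · simp only [Fr.L]
    calc l * F.k + r * Xᵀ * (X'ᵀ * F.b) + s * X' * (X * F.d) =
          l * F.k + r * (Xᵀ * X'ᵀ) * F.b + s * (X' * X) * F.d := by
            simp only [Matrix.mul_assoc]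
      _ = 1 := by rw [ht, h1, Matrix.mul_one, Matrix.mul_one, h3]

/-- weak solvability -/
def SolW (F : Fr n) : Prop := ∃ (x y : Mat n 1) (M N : Mat n n), PA x M ∧ PA y N ∧
  (((F.P x M).Q y N).d.det = 1 ∨ ((F.P x M).Q y N).d.det = -1)

/-- strong solvability -/
def SolS (F : Fr n) : Prop := ∃ (x y z : Mat n 1) (M N : Mat n n) (ε : ℤ), PA x M ∧ PA y N ∧
  (ε = 1 ∨ ε = -1) ∧
  ∀ ν : ℤ, (((F.P x M).Q y N).Q (ν • z) (-(ν ^ 2 • (z * zᵀ)))).d.det = ε * (1 + ν) ^ 2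

lemma PA.smul (z : Mat n 1) (ν : ℤ) : PA (ν • z) (-(ν ^ 2 • (z * zᵀ))) := by
  unfold PA
  simp only [Matrix.transpose_neg, Matrix.transpose_smul, Matrix.transpose_mul,
    Matrix.transpose_transpose, Matrix.smul_mul, Matrix.mul_smul, smul_smul]
  rw [← sub_eq_zero]
  ext i j
  simp only [Matrix.add_apply, Matrix.sub_apply, Matrix.neg_apply, Matrix.smul_apply,
    Matrix.zero_apply, smul_eq_mul]
  ring

lemma SolS.weak {F : Fr n} (h : SolS F) : SolW F := by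
  obtain ⟨x, y, z, M, N, ε, h1, h2, hε, h3⟩ := h
  refine ⟨x, y, M, N, h1, h2, ?_⟩
  have := h3 0
  simp only [zero_smul, Fr.Q] at this
  simp only [Fr.Q]
  rw [show (-((0 : ℤ) ^ 2 • (z * zᵀ))) = 0 by simp] at this
  simp only [Matrix.zero_mul, add_zero, smul_zero] at this
  rcases hε with h | h <;> rw [h] at this
  · left; rw [this]; norm_num
  · right; rw [this]; norm_num

lemma SolW.shift {F : Fr n} {x : Mat n 1} {M : Mat n n} (hM : PA x M) (h : SolW (F.P x M)) :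
    SolW F := by
  obtain ⟨x', y, M', N, h1, h2, h3⟩ := h
  rw [Fr.P_P] at h3
  exact ⟨_, y, _, N, hM.add h1, h2, h3⟩

lemma SolS.shift {F : Fr n} {x : Mat n 1} {M : Mat n n} (hM : PA x M) (h : SolS (F.P x M)) :
    SolS F := by
  obtain ⟨x', y, z, M', N, ε, h1, h2, hε, h3⟩ := h
  simp only [Fr.P_P] at h3
  exact ⟨_, y, z, _, N, ε, hM.add h1, h2, hε, h3⟩

lemma SolW.right {F : Fr n} {Y : Mat n n} (hY : Y.det = 1) (h : SolW (F.R Y)) : SolW F := by
  obtain ⟨x, y, M, N, h1, h2, h3⟩ := h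
  rw [Fr.P_R, Fr.Q_R] at h3
  refine ⟨x, y, M, N, h1, h2, ?_⟩
  simp only [Fr.R] at h3
  rwa [Matrix.det_mul, hY, mul_one] at h3

lemma SolS.right {F : Fr n} {Y : Mat n n} (hY : Y.det = 1) (h : SolS (F.R Y)) : SolS F := by
  obtain ⟨x, y, z, M, N, ε, h1, h2, hε, h3⟩ := h
  refine ⟨x, y, z, M, N, ε, h1, h2, hε, fun ν => ?_⟩
  have := h3 ν
  rw [Fr.P_R, Fr.Q_R, Fr.Q_R] at this
  simp only [Fr.R] at this
  rwa [Matrix.det_mul, hY, mul_one] at this

lemma PA.conj {X : Mat n n} {x : Mat n 1} {M : Mat n n} (h : PA x M) :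
    PA (X * x) (X * M * Xᵀ) := by
  unfold PA at *
  have e : X * M * Xᵀ + (X * M * Xᵀ)ᵀ = X * (M + Mᵀ) * Xᵀ := by
    simp only [Matrix.transpose_mul, Matrix.transpose_transpose, Matrix.mul_add, Matrix.add_mul,
      Matrix.mul_assoc]
  rw [e, h]
  simp only [Matrix.transpose_mul, Matrix.mul_neg, Matrix.neg_mul, Matrix.mul_smul,
    Matrix.smul_mul, Matrix.mul_assoc]

lemma Fr.L_P {F : Fr n} {X X' : Mat n n} (h1' : X * X' = 1) (x : Mat n 1)
    (M : Mat n n) : (F.L X X').P x M = (F.P (Xᵀ * x) (Xᵀ * M * X)).L X X' := by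
  have ht : X'ᵀ * Xᵀ = 1 := by rw [← Matrix.transpose_mul, h1', Matrix.transpose_one]
  simp only [Fr.L, Fr.P, Fr.mk.injEq, and_true]
  constructor
  · simp only [Matrix.transpose_mul, Matrix.transpose_transpose, Matrix.mul_assoc]
  · calc X'ᵀ * F.b + (2 : ℤ) • (x * F.k) + M * (X * F.d)
        = X'ᵀ * F.b + (2 : ℤ) • ((X'ᵀ * Xᵀ) * x * F.k) + (X'ᵀ * Xᵀ) * M * (X * F.d) := by
          rw [ht, Matrix.one_mul, Matrix.one_mul]
      _ = _ := by simp only [Matrix.mul_add, Matrix.mul_smul, Matrix.mul_assoc]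

lemma Fr.L_Q {F : Fr n} {X X' : Mat n n} (h1' : X * X' = 1) (x : Mat n 1)
    (M : Mat n n) : (F.L X X').Q x M = (F.Q (X' * x) (X' * M * X'ᵀ)).L X X' := by
  simp only [Fr.L, Fr.Q, Fr.mk.injEq, true_and]
  constructor
  · simp only [Matrix.transpose_mul, Matrix.mul_assoc]
  · calc X * F.d + (2 : ℤ) • (x * F.k) + M * (X'ᵀ * F.b)
        = X * F.d + (2 : ℤ) • ((X * X') * x * F.k) + (X * X') * M * (X'ᵀ * F.b) := by
          rw [h1', Matrix.one_mul, Matrix.one_mul]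
      _ = _ := by simp only [Matrix.mul_add, Matrix.mul_smul, Matrix.mul_assoc]

lemma SolW.left {F : Fr n} {X X' : Mat n n} (h1' : X * X' = 1) (hX : X.det = 1)
    (h : SolW (F.L X X')) : SolW F := by
  obtain ⟨x, y, M, N, h1, h2, h3⟩ := h
  rw [Fr.L_P h1', Fr.L_Q h1'] at h3
  refine ⟨Xᵀ * x, X' * y, Xᵀ * M * X, X' * N * X'ᵀ, ?_, h2.conj,
    h3.imp (fun h => ?_) (fun h => ?_)⟩
  · have := h1.conj (X := Xᵀ)
    rwa [Matrix.transpose_transpose] at this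
  · simp only [Fr.L] at h; rwa [Matrix.det_mul, hX, one_mul] at h
  · simp only [Fr.L] at h; rwa [Matrix.det_mul, hX, one_mul] at h

lemma SolS.left {F : Fr n} {X X' : Mat n n} (h1' : X * X' = 1) (hX : X.det = 1)
    (h : SolS (F.L X X')) : SolS F := by
  obtain ⟨x, y, z, M, N, ε, h1, h2, hε, h3⟩ := h
  refine ⟨Xᵀ * x, X' * y, X' * z, Xᵀ * M * X, X' * N * X'ᵀ, ε, ?_, h2.conj, hε,
    fun ν => ?_⟩
  · have := h1.conj (X := Xᵀ)
    rwa [Matrix.transpose_transpose] at this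
  · have h4 := h3 ν
    rw [Fr.L_P h1', Fr.L_Q h1', Fr.L_Q h1'] at h4
    simp only [Fr.L] at h4
    rw [Matrix.det_mul, hX, one_mul] at h4
    rw [← h4]
    have e1 : X' * (ν • z) = ν • (X' * z) := by rw [Matrix.mul_smul]
    have e2 : X' * (-(ν ^ 2 • (z * zᵀ))) * X'ᵀ = -(ν ^ 2 • (X' * z * (X' * z)ᵀ)) := by
      simp only [Matrix.mul_neg, Matrix.neg_mul, Matrix.mul_smul, Matrix.smul_mul,
        Matrix.transpose_mul, Matrix.mul_assoc]
    rw [e1, e2]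

end

end Pool.Agent.KS6_44.UU
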