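import Pool.Agent.KS6_44.UU.FrA

/-!
Type B frames: normal form, induction step and base case.
-/

namespace Pool.Agent.KS6_44.UU

open Matrix

lemma vcat_transpose {m n k : ℕ} (B : Mat n m) (E : Mat k m) : (vcat B E)ᵀ = hcat Bᵀ Eᵀ := by
  ext i j
  refine Fin.addCases (fun j => ?_) (fun j => ?_) j <;> simp

lemma hcat_transpose {m n k : ℕ} (B : Mat m n) (E : Mat m k) : (hcat B E)ᵀ = vcat Bᵀ Eᵀ := by
  ext i j
  refine Fin.addCases (fun i => ?_) (fun i => ?_) i <;> simp

lemma hcat_sub {m n k : ℕ} (B B' : Mat m n) (E E' : Mat m k) :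
    hcat B E - hcat B' E' = hcat (B - B') (E - E') := by
  ext i j
  refine Fin.addCases (fun j => ?_) (fun j => ?_) j <;> simp

lemma smul_hcat {m n k : ℕ} (a : ℤ) (B : Mat m n) (E : Mat m k) :
    a • hcat B E = hcat (a • B) (a • E) := by
  ext i j
  refine Fin.addCases (fun j => ?_) (fun j => ?_) j <;> simp

lemma smul_vcat {m n k : ℕ} (a : ℤ) (B : Mat n m) (E : Mat k m) :
    a • vcat B E = vcat (a • B) (a • E) := by
  ext i j
  refine Fin.addCases (fun i => ?_) (fun i => ?_) i <;> simp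

lemma smul_blk {m n : ℕ} (a : ℤ) (A : Mat m m) (B : Mat m n) (C : Mat n m) (D : Mat n n) :
    a • blk A B C D = blk (a • A) (a • B) (a • C) (a • D) :=
  blk_ext (fun i j => by rw [Matrix.smul_apply, blk_cc, blk_cc]; rfl)
    (fun i j => by rw [Matrix.smul_apply, blk_cn, blk_cn]; rfl)
    (fun i j => by rw [Matrix.smul_apply, blk_nc, blk_nc]; rfl)
    (fun i j => by rw [Matrix.smul_apply, blk_nn, blk_nn]; rfl)

lemma neg_blk {m n : ℕ} (A : Mat m m) (B : Mat m n) (C : Mat n m) (D : Mat n n) :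
    -blk A B C D = blk (-A) (-B) (-C) (-D) :=
  blk_ext (by simp) (by simp) (by simp) (by simp)

lemma blk_inj {m n : ℕ} {A A' : Mat m m} {B B' : Mat m n} {C C' : Mat n m} {D D' : Mat n n}
    (h : blk A B C D = blk A' B' C' D') : A = A' ∧ B = B' ∧ C = C' ∧ D = D' := by
  refine ⟨?_, ?_, ?_, ?_⟩ <;> ext i j
  · simpa using congrFun (congrFun h (Fin.castAdd n i)) (Fin.castAdd n j)
  · simpa using congrFun (congrFun h (Fin.castAdd n i)) (Fin.natAdd m j)
  · simpa using congrFun (congrFun h (Fin.natAdd m i)) (Fin.castAdd n j)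
  · simpa using congrFun (congrFun h (Fin.natAdd m i)) (Fin.natAdd m j)

lemma hcat_eta {m n k : ℕ} (M : Mat m (n + k)) :
    M = hcat (Matrix.of fun i j => M i (Fin.castAdd k j)) (Matrix.of fun i j => M i (Fin.natAdd n j)) := by
  ext i j
  refine Fin.addCases (fun j => ?_) (fun j => ?_) j <;> simp

lemma vcat_eta {m n k : ℕ} (M : Mat (n + k) m) :
    M = vcat (Matrix.of fun i j => M (Fin.castAdd k i) j) (Matrix.of fun i j => M (Fin.natAdd n i) j) := by
  ext i j
  refine Fin.addCases (fun i => ?_) (fun i => ?_) i <;> simp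

lemma det_blk_upper {m n : ℕ} (A : Mat m m) (B : Mat m n) (D : Mat n n) :
    (blk A B 0 D).det = A.det * D.det := by
  unfold blk
  rw [Matrix.det_submatrix_equiv_self, Matrix.det_fromBlocks_zero₂₁]

/-- vector form of the normalisation -/
lemma fr_prim_vec {n : ℕ} (x : Fin (n + 2) → ℤ) (k0 g : ℤ) (hiso : x 0 * g = -k0 ^ 2)
    (hprim : ∀ p : ℕ, p.Prime → (∀ i, (p : ℤ) ∣ x i) → (p : ℤ) ∣ k0 → ¬ (p : ℤ) ∣ g) :
    ∃ (t m : ℤ) (c : Fin (n + 2) → ℤ),
      ∑ i, c i * (x i + (if i = 0 then 2 * t * k0 - t ^ 2 * g else if i = 1 then m * g else 0)) =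
        1 := by
  have h10 : (1 : Fin (n + 2)) ≠ 0 := by simp
  by_cases hg : g = 0
  · subst hg
    have hk0 : k0 = 0 := by
      have : k0 ^ 2 = 0 := by linarith
      exact pow_eq_zero_iff (by norm_num) |>.1 this
    obtain ⟨c, hc⟩ := bezout x (fun p hp => by
      by_contra hcon
      push Not at hcon
      exact hprim p hp hcon (by rw [hk0]; exact dvd_zero _) (dvd_zero _))
    refine ⟨0, 0, c, ?_⟩
    rw [← hc]
    exact Finset.sum_congr rfl fun i _ => by simp
  · obtain ⟨t, ht⟩ : ∃ t : ℤ, x 0 + (2 * t * k0 - t ^ 2 * g) ≠ 0 := by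
      by_cases h0 : x 0 = 0
      · have hk0 : k0 = 0 := by
          have : k0 ^ 2 = 0 := by rw [h0] at hiso; linarith
          exact pow_eq_zero_iff (by norm_num) |>.1 this
        exact ⟨1, by rw [h0, hk0]; simpa using hg⟩
      · exact ⟨0, by simpa using h0⟩
    set x0 := x 0 + (2 * t * k0 - t ^ 2 * g) with hx0
    obtain ⟨m, hm⟩ := crt1 (fun p => (p : ℤ) ∣ x0 ∧ ∀ i, i ≠ 0 → i ≠ 1 → (p : ℤ) ∣ x i)
      (m := x0) (a := x 1) (b := g) ht (fun p _ hq => hq.1)
      (fun p hp hq hpa hpg => by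
        have hpp : Prime (p : ℤ) := Nat.prime_iff_prime_int.1 hp
        have h1 : (p : ℤ) ∣ k0 := by
          have : (p : ℤ) ∣ k0 ^ 2 := by
            have e : k0 ^ 2 = -(x 0 * g) := by rw [hiso]; ring
            rw [e]; exact (dvd_neg).2 (Dvd.dvd.mul_left hpg _)
          exact hpp.dvd_of_dvd_pow this
        refine hprim p hp (fun i => ?_) h1 hpg
        by_cases hi0 : i = 0
        · subst hi0
          refine (dvd_add_left ?_).1 hq.1
          exact dvd_sub (Dvd.dvd.mul_left h1 _) (Dvd.dvd.mul_left hpg _)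
        · by_cases hi1 : i = 1
          · subst hi1; exact hpa
          · exact hq.2 i hi0 hi1)
    obtain ⟨c, hc⟩ := bezout (fun i => x i + (if i = 0 then 2 * t * k0 - t ^ 2 * g else
        if i = 1 then m * g else 0)) (fun p hp => by
      by_contra hcon
      push Not at hcon
      refine hm p hp ⟨?_, fun i hi0 hi1 => ?_⟩ ?_
      · simpa using hcon 0
      · simpa [hi0, hi1] using hcon i
      · have := hcon 1
        simpa only [h10, if_false, if_true] using this)
    exact ⟨t, m, c, hc⟩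

/-- matrix form of the normalisation -/
lemma fr_prim {N : ℕ} (hN : 2 ≤ N) (i0 : Fin N) (hi0 : (i0 : ℕ) = 0) (F : Fr N) (hF : F.Iso)
    (g : ℤ) (hg : ∀ i, F.d i i0 = if i = i0 then g else 0) :
    ∃ (x : Mat N 1) (M : Mat N N) (c : Fin N → ℤ), PA x M ∧
      ∑ i, c i * (F.P x M).b i i0 = 1 := by
  obtain ⟨n, rfl⟩ : ∃ n, N = n + 2 := ⟨N - 2, by omega⟩
  have hi0' : i0 = 0 := Fin.ext hi0
  subst hi0'
  have h10 : (1 : Fin (n + 2)) ≠ 0 := by simp
  obtain ⟨h1, l, r, s, h2⟩ := hF
  have hcol : ∀ A : Mat (n + 2) (n + 2), (A * F.d) 0 0 = A 0 0 * g := by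
    intro A
    rw [Matrix.mul_apply, Finset.sum_eq_single 0]
    · rw [hg 0, if_pos rfl]
    · intro j _ hj; rw [hg j, if_neg hj, mul_zero]
    · intro h; exact absurd (Finset.mem_univ _) h
  have hcol' : ∀ (A : Mat (n + 2) (n + 2)) i, (A * F.d) i 0 = A i 0 * g := by
    intro A i
    rw [Matrix.mul_apply, Finset.sum_eq_single 0]
    · rw [hg 0, if_pos rfl]
    · intro j _ hj; rw [hg j, if_neg hj, mul_zero]
    · intro h; exact absurd (Finset.mem_univ _) h
  have hiso : F.b 0 0 * g = -(F.k 0 0) ^ 2 := by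
    have h3 := congrFun (congrFun h1 0) 0
    have h4 : (F.dᵀ * F.b) 0 0 = (F.bᵀ * F.d) 0 0 := by
      rw [Matrix.mul_apply, Matrix.mul_apply]
      exact Finset.sum_congr rfl fun i _ => by simp [mul_comm]
    rw [Matrix.add_apply, h4, hcol, Matrix.neg_apply, Matrix.smul_apply, Matrix.mul_apply] at h3
    simp only [Matrix.transpose_apply, Finset.univ_unique, Fin.default_eq_zero,
      Finset.sum_singleton, smul_eq_mul] at h3
    nlinarith
  have hprim : ∀ p : ℕ, p.Prime → (∀ i, (p : ℤ) ∣ F.b i 0) → (p : ℤ) ∣ F.k 0 0 →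
      ¬ (p : ℤ) ∣ g := by
    intro p hp hb hk hpg
    have h3 := congrFun (congrFun h2 0) 0
    rw [Matrix.add_apply, Matrix.add_apply, hcol', Matrix.mul_apply, Matrix.mul_apply,
      Matrix.one_apply_eq] at h3
    have h4 : (p : ℤ) ∣ 1 := by
      rw [← h3]
      refine dvd_add (dvd_add (Finset.dvd_sum fun i _ => ?_)
        (Finset.dvd_sum fun i _ => Dvd.dvd.mul_left (hb i) _)) (Dvd.dvd.mul_left hpg _)
      have : i = 0 := Subsingleton.elim _ _
      subst this
      exact Dvd.dvd.mul_left hk _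
    exact (Nat.prime_iff_prime_int.1 hp).not_dvd_one h4
  obtain ⟨t, m, c, hc⟩ := fr_prim_vec (fun i => F.b i 0) (F.k 0 0) g hiso hprim
  let x : Mat (n + 2) 1 := Matrix.of fun i _ => if i = 0 then t else 0
  let M : Mat (n + 2) (n + 2) := Matrix.of fun i j =>
    if j = 0 then (if i = 0 then -t ^ 2 else if i = 1 then m else 0)
    else if j = 1 then (if i = 0 then -m else 0) else 0
  refine ⟨x, M, c, ?_, ?_⟩
  · unfold PA
    ext i j
    simp only [Matrix.add_apply, Matrix.transpose_apply, Matrix.neg_apply, Matrix.smul_apply,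
      Matrix.mul_apply, Finset.univ_unique, Fin.default_eq_zero, Finset.sum_singleton, M, x,
      Matrix.of_apply, smul_eq_mul]
    by_cases hi : i = 0 <;> by_cases hj : j = 0 <;> by_cases hi1 : i = 1 <;>
      by_cases hj1 : j = 1 <;> simp_all <;> ring
  · rw [← hc]
    refine Finset.sum_congr rfl fun i _ => ?_
    simp only [Fr.P, Matrix.add_apply, Matrix.smul_apply, smul_eq_mul]
    rw [hcol', Matrix.mul_apply]
    simp only [Finset.univ_unique, Fin.default_eq_zero, Finset.sum_singleton, x, M,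
      Matrix.of_apply, if_true]
    by_cases hi : i = 0
    · simp only [hi, if_true]; ring
    · by_cases hi1 : i = 1
      · simp only [hi1, h10, if_true, if_false]; ring
      · simp only [hi, hi1, if_false]; ring

end Pool.Agent.KS6_44.UU
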