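import Pool.Agent.KS6_44.UU.FrB

/-!
Type B frames: induction step.
-/

namespace Pool.Agent.KS6_44.UU

open Matrix

section
variable {m n : ℕ}

lemma Fr.sub {κ1 : Mat 1 m} {κ : Mat 1 n} {b' : Mat n n} {δ : Mat m m} {ρ : Mat m n}
    {c : Mat n m} {d' : Mat n n}
    (h : (Fr.mk (hcat κ1 κ) (blk 1 0 0 b') (blk δ ρ c d')).Iso) :
    (Fr.mk κ b' d').Iso ∧ ρ = -((2 : ℤ) • (κ1ᵀ * κ)) - cᵀ * b' ∧
      δ + δᵀ = -((2 : ℤ) • (κ1ᵀ * κ1)) := by
  obtain ⟨h1, l, r, s, h2⟩ := h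
  simp only at h1 h2
  rw [blk_transpose, blk_transpose, hcat_transpose, blk_mul, blk_mul, vcat_mul_hcat, blk_add,
    smul_blk, neg_blk] at h1
  simp only [Matrix.transpose_one, Matrix.transpose_zero, Matrix.one_mul, Matrix.zero_mul,
    Matrix.mul_one, Matrix.mul_zero, add_zero, zero_add] at h1
  obtain ⟨e1, e2, e3, e4⟩ := blk_inj h1
  have hρ : ρ = -((2 : ℤ) • (κ1ᵀ * κ)) - cᵀ * b' := by rw [← e2]; abel
  refine ⟨⟨e4, ?_⟩, hρ, e1⟩
  rw [vcat_eta l, blk_eta r, blk_eta s, blk_mul, blk_mul, vcat_mul_hcat, blk_add, blk_add,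
    ← blk_one] at h2
  generalize (Matrix.of fun i j => l (Fin.natAdd m i) j) = l2 at h2
  generalize (Matrix.of fun i j => r (Fin.natAdd m i) (Fin.castAdd n j)) = R21 at h2
  generalize (Matrix.of fun i j => r (Fin.natAdd m i) (Fin.natAdd m j)) = R22 at h2
  generalize (Matrix.of fun i j => s (Fin.natAdd m i) (Fin.castAdd n j)) = S21 at h2
  generalize (Matrix.of fun i j => s (Fin.natAdd m i) (Fin.natAdd m j)) = S22 at h2
  obtain ⟨-, -, -, e5⟩ := blk_inj h2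
  refine ⟨l2 - (2 : ℤ) • (S21 * κ1ᵀ), R22 - S21 * cᵀ, S22, ?_⟩
  simp only
  rw [← e5, hρ]
  simp only [Matrix.mul_zero, zero_add, Matrix.sub_mul, Matrix.mul_sub, Matrix.mul_neg,
    Matrix.smul_mul, Matrix.mul_smul, Matrix.mul_assoc]
  abel

lemma Fr.step_P {κ1 : Mat 1 m} {κ : Mat 1 n} {b' : Mat n n} {δ : Mat m m} {ρ : Mat m n}
    {c : Mat n m} {d' : Mat n n} (x : Mat n 1) (M : Mat n n) :
    (Fr.mk (hcat κ1 κ) (blk 1 0 0 b') (blk δ ρ c d')).P (vcat 0 x) (blk 0 0 0 M) =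
      Fr.mk (hcat (κ1 - xᵀ * c) (κ - xᵀ * d'))
        (blk 1 0 ((2 : ℤ) • (x * κ1) + M * c) (b' + (2 : ℤ) • (x * κ) + M * d'))
        (blk δ ρ c d') := by
  simp only [Fr.P, Fr.mk.injEq, and_true]
  constructor
  · rw [vcat_transpose, hcat_mul_blk, hcat_sub]
    simp only [Matrix.transpose_zero, Matrix.zero_mul, zero_add]
  · rw [vcat_mul_hcat, blk_mul, smul_blk, blk_add, blk_add]
    simp only [Matrix.zero_mul, zero_add, add_zero, smul_zero]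

lemma Fr.step_Q {κ1 : Mat 1 m} {κ : Mat 1 n} {β : Mat n m} {b' : Mat n n} {δ : Mat m m}
    {ρ : Mat m n} {c : Mat n m} {d' : Mat n n} (x : Mat n 1) (M : Mat n n) :
    (Fr.mk (hcat κ1 κ) (blk 1 0 β b') (blk δ ρ c d')).Q (vcat 0 x) (blk 0 0 0 M) =
      Fr.mk (hcat (κ1 - xᵀ * β) (κ - xᵀ * b')) (blk 1 0 β b')
        (blk δ ρ (c + (2 : ℤ) • (x * κ1) + M * β) (d' + (2 : ℤ) • (x * κ) + M * b')) := by
  simp only [Fr.Q, Fr.mk.injEq, true_and]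
  constructor
  · rw [vcat_transpose, hcat_mul_blk, hcat_sub]
    simp only [Matrix.transpose_zero, Matrix.zero_mul, zero_add]
  · rw [vcat_mul_hcat, blk_mul, smul_blk, blk_add, blk_add]
    simp only [Matrix.zero_mul, zero_add, add_zero, smul_zero]

lemma PA.blk0 {x : Mat n 1} {M : Mat n n} (h : PA x M) :
    PA (vcat (0 : Mat m 1) x) (blk (0 : Mat m m) 0 0 M) := by
  unfold PA at *
  rw [vcat_transpose, vcat_mul_hcat, blk_transpose, blk_add, smul_blk, neg_blk, h]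
  simp only [Matrix.transpose_zero, Matrix.zero_mul, Matrix.mul_zero, smul_zero, neg_zero,
    add_zero]

end

/-- the first basis column -/
def z0 (n : ℕ) : Mat (1 + n) 1 := vcat 1 0

lemma z0_mul (n : ℕ) : z0 n * (z0 n)ᵀ = blk 1 0 0 0 := by
  rw [z0, vcat_transpose, vcat_mul_hcat]
  simp only [Matrix.transpose_one, Matrix.transpose_zero, Matrix.mul_one, Matrix.mul_zero]

/-- the determinant along the last direction -/
lemma fr_det {n : ℕ} {F : Fr (1 + n)} (hF : F.Iso) {κ1 : Mat 1 1} {κ : Mat 1 n} {β : Mat n 1}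
    {b' : Mat n n} {δ : Mat 1 1} {ρ : Mat 1 n} {c : Mat n 1} {T : Mat n n}
    (e : F = Fr.mk (hcat κ1 κ) (blk 1 0 β b') (blk δ ρ c T))
    (hT : T.det = 1 ∨ T.det = -1) :
    ∃ a : ℤ, ∀ μ : ℤ, (F.Q (μ • z0 n) (-(μ ^ 2 • (z0 n * (z0 n)ᵀ)))).d.det =
      -((a - μ) ^ 2 * T.det) := by
  have hu : IsUnit T.det := by rcases hT with h | h <;> rw [h] <;> decide
  have hT1 : T * T⁻¹ = 1 := Matrix.mul_nonsing_inv _ hu
  have hT2 : T⁻¹ * T = 1 := Matrix.nonsing_inv_mul _ hu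
  obtain ⟨y, hy⟩ : ∃ y, y = -(T⁻¹ * c) := ⟨_, rfl⟩
  have hY : (blk (1 : Mat 1 1) 0 y (1 : Mat n n)).det = 1 := by
    rw [det_blk_one]; simp
  have hYinv : blk (1 : Mat 1 1) 0 (-y) (1 : Mat n n) * blk 1 0 y 1 = 1 := by
    rw [blk_mul, ← blk_one]; simp
  have hRI := hF.R hYinv
  have hR : F.R (blk 1 0 y 1) =
      Fr.mk (hcat (κ1 + κ * y) κ) (blk 1 0 (β + b' * y) b') (blk (δ + ρ * y) ρ 0 T) := by
    rw [e]
    simp only [Fr.R, Fr.mk.injEq]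
    refine ⟨?_, ?_, ?_⟩
    · rw [hcat_mul_blk]; simp
    · rw [blk_mul]; simp
    · rw [blk_mul]
      have : c + T * y = 0 := by
        rw [hy, Matrix.mul_neg, ← Matrix.mul_assoc, hT1, Matrix.one_mul, add_neg_cancel]
      simp [this]
  rw [hR] at hRI
  obtain ⟨h1, -⟩ := hRI
  simp only at h1
  rw [blk_transpose, blk_transpose, hcat_transpose, blk_mul, blk_mul, vcat_mul_hcat, blk_add,
    smul_blk, neg_blk] at h1
  obtain ⟨e1, -, -, -⟩ := blk_inj h1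
  simp only [Matrix.transpose_one, Matrix.transpose_zero, Matrix.one_mul, Matrix.mul_one,
    Matrix.mul_zero, Matrix.zero_mul, add_zero] at e1
  obtain ⟨k1, hk1⟩ : ∃ k1 : Mat 1 1, k1 = κ1 + κ * y := ⟨_, rfl⟩
  obtain ⟨σ, hσ⟩ : ∃ σ : Mat 1 1, σ = δ + ρ * y := ⟨_, rfl⟩
  rw [← hk1, ← hσ] at e1
  rw [← hk1, ← hσ] at hR
  have e2 : σ 0 0 = -(k1 0 0) ^ 2 := by
    have := congrFun (congrFun e1 0) 0
    simp only [Matrix.add_apply, Matrix.transpose_apply, Matrix.neg_apply, Matrix.smul_apply,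
      Matrix.mul_apply, Finset.univ_unique, Fin.default_eq_zero, Finset.sum_singleton,
      smul_eq_mul] at this
    nlinarith
  refine ⟨k1 0 0, fun μ => ?_⟩
  have h3 : (F.Q (μ • z0 n) (-(μ ^ 2 • (z0 n * (z0 n)ᵀ)))).d.det =
      ((F.R (blk 1 0 y 1)).Q (μ • z0 n) (-(μ ^ 2 • (z0 n * (z0 n)ᵀ)))).d.det := by
    rw [Fr.Q_R]
    simp only [Fr.R]
    rw [Matrix.det_mul, hY, mul_one]
  rw [h3, hR, z0_mul]
  simp only [Fr.Q]
  rw [z0, smul_vcat, vcat_mul_hcat, smul_blk, smul_blk, neg_blk, blk_mul, blk_add, blk_add]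
  simp only [smul_zero, Matrix.zero_mul, Matrix.mul_zero, add_zero, zero_add, neg_zero]
  rw [det_blk_upper]
  have h4 : (σ + (2 : ℤ) • (μ • (1 : Mat 1 1) * k1) + -(μ ^ 2 • (1 : Mat 1 1)) * 1).det =
      -((k1 0 0 - μ) ^ 2) := by
    rw [Matrix.det_fin_one]
    simp only [Matrix.add_apply, Matrix.smul_apply, Matrix.neg_apply, Matrix.smul_mul,
      Matrix.one_mul, Matrix.mul_one, Matrix.one_apply_eq, smul_eq_mul, e2]
    ring
  rw [h4]; ring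

/-- the induction step -/
lemma SolW.step {n : ℕ} {κ1 : Mat 1 1} {κ : Mat 1 n} {b' : Mat n n} {δ : Mat 1 1}
    {ρ : Mat 1 n} {c : Mat n 1} {d' : Mat n n}
    (hI : (Fr.mk (hcat κ1 κ) (blk 1 0 0 b') (blk δ ρ c d')).Iso)
    (h : SolW (Fr.mk κ b' d')) :
    SolS (Fr.mk (hcat κ1 κ) (blk 1 0 0 b') (blk δ ρ c d')) := by
  obtain ⟨x, y, M, N, hM, hN, hT⟩ := h
  have hM0 : PA (vcat (0 : Mat 1 1) x) (blk (0 : Mat 1 1) 0 0 M) := hM.blk0
  have hN0 : PA (vcat (0 : Mat 1 1) y) (blk (0 : Mat 1 1) 0 0 N) := hN.blk0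
  have e1 := Fr.step_P (κ1 := κ1) (κ := κ) (b' := b') (δ := δ) (ρ := ρ) (c := c) (d' := d') x M
  have hI1 := hI.P hM0
  have hI2 := hI1.Q hN0
  have e2 := (congrArg (fun F : Fr (1 + n) => F.Q (vcat 0 y) (blk 0 0 0 N)) e1).trans
    (Fr.step_Q y N)
  obtain ⟨a, ha⟩ := fr_det hI2 e2 hT
  refine ⟨vcat 0 x, vcat 0 y + (a - 1) • z0 n, -(z0 n), blk 0 0 0 M,
    blk 0 0 0 N + -((a - 1) ^ 2 • (z0 n * (z0 n)ᵀ)) - (2 : ℤ) • (((a - 1) • z0 n) * (vcat 0 y)ᵀ),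
    -(((Fr.mk κ b' d').P x M).Q y N).d.det, hM0, hN0.add (PA.smul _ _), ?_, fun ν => ?_⟩
  · rcases hT with h | h <;> rw [h] <;> simp
  · rw [← Fr.Q_Q, Fr.Q_Q _ ((a - 1) • z0 n)]
    have h3 := ha (a - 1 - ν)
    have e3 : (a - 1) • z0 n + ν • -(z0 n) = (a - 1 - ν) • z0 n := by
      rw [smul_neg, sub_smul (a - 1) ν]
      exact (sub_eq_add_neg _ _).symm
    have e4 : -((a - 1) ^ 2 • (z0 n * (z0 n)ᵀ)) + -(ν ^ 2 • (-(z0 n) * (-(z0 n))ᵀ)) -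
        (2 : ℤ) • (ν • -(z0 n) * ((a - 1) • z0 n)ᵀ) =
        -((a - 1 - ν) ^ 2 • (z0 n * (z0 n)ᵀ)) := by
      simp only [Matrix.transpose_neg, Matrix.mul_neg, Matrix.neg_mul, neg_neg,
        Matrix.transpose_smul, Matrix.smul_mul, Matrix.mul_smul, smul_neg, smul_smul]
      ext i j
      simp only [Matrix.add_apply, Matrix.sub_apply, Matrix.neg_apply, Matrix.smul_apply,
        smul_eq_mul]
      ring
    rw [e3, e4, h3]
    have e5 : a - (a - 1 - ν) = 1 + ν := by ring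
    rw [e5]
    have e6 : (((Fr.mk κ b' d').P x M).Q y N).d =
        d' + (2 : ℤ) • (y * (κ - xᵀ * d')) + N * (b' + (2 : ℤ) • (x * κ) + M * d') := rfl
    rw [e6]; ring

end Pool.Agent.KS6_44.UU
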