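import Pool.Agent.KS6_44.UU.FrC

/-!
Type B frames: base case and main theorem.
-/

namespace Pool.Agent.KS6_44.UU

open Matrix

lemma sq_split {a b k : ℤ} (hc : IsCoprime a b) (h : a * b = -k ^ 2) :
    ∃ ε f s : ℤ, (ε = 1 ∨ ε = -1) ∧ a = ε * f ^ 2 ∧ b = -(ε * s ^ 2) ∧ k = ε * (f * s) := by
  have hg : Int.gcd a (-b) = 1 := Int.isCoprime_iff_gcd_eq_one.1 hc.neg_right
  have hg' : Int.gcd (-b) a = 1 := by rw [Int.gcd_comm]; exact hg
  obtain ⟨f, hf⟩ := Int.sq_of_gcd_eq_one (c := k) hg (by linarith)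
  obtain ⟨s, hs⟩ := Int.sq_of_gcd_eq_one (c := k) hg' (by linarith)
  obtain ⟨ε, hε, h1, h2⟩ : ∃ ε : ℤ, (ε = 1 ∨ ε = -1) ∧ a = ε * f ^ 2 ∧ b = -(ε * s ^ 2) := by
    rcases hf with hf | hf <;> rcases hs with hs | hs
    · exact ⟨1, Or.inl rfl, by linarith, by linarith⟩
    · -- f² s² = -k²
      by_cases hf0 : f = 0
      · exact ⟨-1, Or.inr rfl, by rw [hf, hf0]; ring, by linarith⟩
      · have hs0 : s = 0 := by
          by_contra hs0
          have h3 : f ^ 2 * s ^ 2 = -k ^ 2 := by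
            have hb : b = s ^ 2 := by linarith
            rw [← hf, ← hb]; exact h
          have : 0 < f ^ 2 * s ^ 2 := by positivity
          nlinarith [sq_nonneg k]
        exact ⟨1, Or.inl rfl, by linarith, by rw [hs0] at hs ⊢; linarith⟩
    · by_cases hf0 : f = 0
      · exact ⟨1, Or.inl rfl, by rw [hf, hf0]; ring, by linarith⟩
      · have hs0 : s = 0 := by
          by_contra hs0
          have h3 : f ^ 2 * s ^ 2 = -k ^ 2 := by
            have hb : b = -s ^ 2 := by linarith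
            have : a * b = f ^ 2 * s ^ 2 := by rw [hf, hb]; ring
            rw [← this]; exact h
          have : 0 < f ^ 2 * s ^ 2 := by positivity
          nlinarith [sq_nonneg k]
        exact ⟨-1, Or.inr rfl, by linarith, by rw [hs0] at hs ⊢; linarith⟩
    · exact ⟨-1, Or.inr rfl, by linarith, by linarith⟩
  have hε2 : ε * ε = 1 := by rcases hε with h | h <;> rw [h] <;> norm_num
  have h3 : k ^ 2 = (f * s) ^ 2 := by
    have : a * b = -(ε * ε * (f * s) ^ 2) := by rw [h1, h2]; ring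
    rw [hε2] at this
    linarith
  have h4 : k = f * s ∨ k = -(f * s) := sq_eq_sq_iff_eq_or_eq_neg.1 h3
  have h5 : k = ε * (f * s) ∨ k = ε * (-f * s) := by
    rcases hε with h | h <;> rcases h4 with h' | h' <;> rw [h, h']
    · left; ring
    · right; ring
    · right; ring
    · left; ring
  rcases h5 with h5 | h5
  · exact ⟨ε, f, s, hε, h1, h2, h5⟩
  · exact ⟨ε, -f, s, hε, by rw [h1]; ring, h2, h5⟩

lemma SolW.base {κ1 κ b' δ ρ c d' : Mat 1 1}
    (hI : (Fr.mk (hcat κ1 κ) (blk 1 0 0 b') (blk δ ρ c d')).Iso) :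
    SolW (Fr.mk (hcat κ1 κ) (blk 1 0 0 b') (blk δ ρ c d')) := by
  obtain ⟨⟨h1, l, r, s', h2⟩, hρ, hδ⟩ := Fr.sub hI
  simp only at h1 h2
  rw [eq_sc κ1, eq_sc κ, eq_sc b', eq_sc δ, eq_sc ρ, eq_sc c, eq_sc d']
  have g1 := congrFun (congrFun h1 0) 0
  have g2 := congrFun (congrFun h2 0) 0
  have g3 := congrFun (congrFun hρ 0) 0
  have g4 := congrFun (congrFun hδ 0) 0
  simp only [Matrix.add_apply, Matrix.sub_apply, Matrix.transpose_apply, Matrix.neg_apply,
    Matrix.smul_apply, Matrix.mul_apply, Finset.univ_unique, Fin.default_eq_zero,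
    Finset.sum_singleton, smul_eq_mul, Matrix.one_apply_eq] at g1 g2 g3 g4
  generalize κ1 0 0 = K1 at g1 g2 g3 g4 ⊢
  generalize κ 0 0 = K at g1 g2 g3 g4 ⊢
  generalize b' 0 0 = B at g1 g2 g3 g4 ⊢
  generalize d' 0 0 = D at g1 g2 g3 g4 ⊢
  generalize c 0 0 = C at g1 g2 g3 g4 ⊢
  generalize δ 0 0 = Δ at g1 g2 g3 g4 ⊢
  generalize ρ 0 0 = R at g1 g2 g3 g4 ⊢
  have hBD : B * D = -K ^ 2 := by linarith
  have hcop : IsCoprime B D := by
    rw [Int.isCoprime_iff_gcd_eq_one]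
    by_contra hne
    obtain ⟨p, hp, hpg⟩ := Nat.exists_prime_and_dvd hne
    have hpp : Prime (p : ℤ) := Nat.prime_iff_prime_int.1 hp
    have hpB : (p : ℤ) ∣ B := (Int.natCast_dvd_natCast.2 hpg).trans (Int.gcd_dvd_left _ _)
    have hpD : (p : ℤ) ∣ D := (Int.natCast_dvd_natCast.2 hpg).trans (Int.gcd_dvd_right _ _)
    have hpK : (p : ℤ) ∣ K := by
      refine hpp.dvd_of_dvd_pow (n := 2) ?_
      have : K ^ 2 = -(B * D) := by rw [hBD]; ring
      rw [this]; exact (dvd_neg).2 (Dvd.dvd.mul_right hpB _)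
    refine hpp.not_dvd_one ?_
    rw [← g2]
    exact dvd_add (dvd_add (Dvd.dvd.mul_left hpK _) (Dvd.dvd.mul_left hpB _))
      (Dvd.dvd.mul_left hpD _)
  obtain ⟨ε, f, s, hε, hB, hD, hK⟩ := sq_split hcop hBD
  have hfs : IsCoprime s f := by
    have h3 : IsCoprime (ε * f ^ 2) (-(ε * s ^ 2)) := by rw [← hB, ← hD]; exact hcop
    have h4 : IsCoprime (f ^ 2) (s ^ 2) :=
      (IsCoprime.of_mul_left_right (IsCoprime.of_mul_right_right ((IsCoprime.neg_right_iff _ _).1 h3)))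
    exact ((IsCoprime.pow_iff (by norm_num) (by norm_num)).1 h4).symm
  obtain ⟨E, G, hEG⟩ := hfs
  refine ⟨0, vcat (sc (K1 - E)) 0, 0, blk (sc (-(K1 - E) ^ 2)) (sc (C - G)) (sc (-(C - G))) 0,
    ?_, ?_, ?_⟩
  · unfold PA; simp
  · unfold PA
    rw [vcat_transpose, vcat_mul_hcat, blk_transpose, blk_add, smul_blk, neg_blk]
    congr 1 <;> ext i j <;>
      simp only [Matrix.add_apply, Matrix.neg_apply, Matrix.smul_apply, Matrix.transpose_apply,
        Matrix.mul_apply, Finset.univ_unique, Fin.default_eq_zero, Finset.sum_singleton,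
        smul_eq_mul, sc_apply, Matrix.zero_apply] <;> ring
  · have hdet : (((Fr.mk (hcat (sc K1) (sc K)) (blk 1 0 0 (sc B)) (blk (sc Δ) (sc R) (sc C)
        (sc D))).P 0 0).Q (vcat (sc (K1 - E)) 0) (blk (sc (-(K1 - E) ^ 2)) (sc (C - G))
        (sc (-(C - G))) 0)).d.det = ε * (E * s + G * f) ^ 2 := by
      simp only [Fr.Q, Fr.P, Matrix.transpose_zero, Matrix.zero_mul, sub_zero, smul_zero,
        add_zero]
      rw [vcat_mul_hcat, smul_blk, blk_mul, blk_add, blk_add, det_blk11]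
      simp only [Matrix.add_apply, Matrix.neg_apply, Matrix.smul_apply, Matrix.transpose_apply,
        Matrix.mul_apply, Finset.univ_unique, Fin.default_eq_zero, Finset.sum_singleton,
        smul_eq_mul, sc_apply, Matrix.zero_apply, Matrix.one_apply_eq]
      have hΔ : Δ = -K1 ^ 2 := by nlinarith
      have hR : R = -(2 * (K1 * K)) - C * B := by linarith
      rw [hΔ, hR, hK, hB, hD]
      rcases hε with h | h <;> rw [h] <;> ring
    rw [hdet, hEG]
    rcases hε with h | h <;> rw [h] <;> simp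

/-- normal form step -/
lemma fr_norm {n : ℕ} (hn : 1 ≤ n) {F : Fr (1 + n)} (hF : F.Iso)
    (Sol : Fr (1 + n) → Prop)
    (hshift : ∀ (F : Fr (1 + n)) (x : Mat (1 + n) 1) (M : Mat (1 + n) (1 + n)), PA x M →
      Sol (F.P x M) → Sol F)
    (hleft : ∀ (F : Fr (1 + n)) (X X' : Mat (1 + n) (1 + n)), X * X' = 1 → X.det = 1 →
      Sol (F.L X X') → Sol F)
    (hright : ∀ (F : Fr (1 + n)) (Y : Mat (1 + n) (1 + n)), Y.det = 1 → Sol (F.R Y) → Sol F)
    (H : ∀ (κ1 : Mat 1 1) (κ : Mat 1 n) (b' : Mat n n) (δ : Mat 1 1) (ρ : Mat 1 n)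
      (c : Mat n 1) (d' : Mat n n), (Fr.mk (hcat κ1 κ) (blk 1 0 0 b') (blk δ ρ c d')).Iso →
      Sol (Fr.mk (hcat κ1 κ) (blk 1 0 0 b') (blk δ ρ c d'))) : Sol F := by
  -- first column of `d`
  obtain ⟨Z, g, hZ, hZg⟩ := exists_SL (fun i => F.d i 0) (0 : Fin (1 + n))
  have hZu : IsUnit Z.det := by rw [hZ]; exact isUnit_one
  have hz1 : Z * Z⁻¹ = 1 := Matrix.mul_nonsing_inv _ hZu
  have hz2 : Z⁻¹ * Z = 1 := Matrix.nonsing_inv_mul _ hZu
  refine hleft F Z Z⁻¹ hz1 hZ ?_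
  have hF1 := hF.L hz2
  have hg1 : ∀ i, (F.L Z Z⁻¹).d i 0 = if i = 0 then g else 0 := by
    intro i
    have := congrFun hZg i
    rw [Pi.single_apply] at this
    rw [← this]
    simp only [Fr.L, Matrix.mul_apply, Matrix.mulVec, dotProduct]
  obtain ⟨x, M, c, hPA, hc⟩ := fr_prim (by omega) 0 rfl _ hF1 g hg1
  refine hshift _ x M hPA ?_
  have hF2 := hF1.P hPA
  generalize (F.L Z Z⁻¹).P x M = F2 at hc hF2
  -- move the first column of `b` to the first basis vector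
  have h01 : (Fin.natAdd 1 ⟨0, hn⟩ : Fin (1 + n)) ≠ 0 := by
    intro h
    have := congrArg Fin.val h
    simp at this
  obtain ⟨W, hW, hW1⟩ := exists_SL_prim (v := fun i => F2.b i 0) (c := c) hc h01
  have hWu : IsUnit W.det := by rw [hW]; exact isUnit_one
  have hw1 : W * W⁻¹ = 1 := Matrix.mul_nonsing_inv _ hWu
  have hw2 : W⁻¹ * W = 1 := Matrix.nonsing_inv_mul _ hWu
  have hx1 : Wᵀ * (W⁻¹)ᵀ = 1 := by rw [← Matrix.transpose_mul, hw2, Matrix.transpose_one]
  have hx2 : (W⁻¹)ᵀ * Wᵀ = 1 := by rw [← Matrix.transpose_mul, hw1, Matrix.transpose_one]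
  have hxd : ((W⁻¹)ᵀ).det = 1 := by
    have := congrArg Matrix.det hw1
    rw [Matrix.det_mul, hW, one_mul, Matrix.det_one] at this
    rw [Matrix.det_transpose, this]
  refine hleft F2 (W⁻¹)ᵀ Wᵀ hx2 hxd ?_
  have hF3 := hF2.L hx1
  have hcol : ∀ i, (F2.L (W⁻¹)ᵀ Wᵀ).b i 0 = (Pi.single 0 1 : Fin (1 + n) → ℤ) i := by
    intro i
    rw [← hW1]
    simp only [Fr.L, Matrix.transpose_transpose, Matrix.mul_apply, Matrix.mulVec, dotProduct]
  generalize F2.L (W⁻¹)ᵀ Wᵀ = F3 at hF3 hcol ⊢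
  obtain ⟨k3, b3, d3⟩ := F3
  simp only at hcol
  obtain ⟨ρ, b', hb3⟩ : ∃ (ρ : Mat 1 n) (b' : Mat n n), b3 = blk 1 ρ 0 b' := by
    refine ⟨Matrix.of fun i j => b3 (Fin.castAdd n i) (Fin.natAdd 1 j),
      Matrix.of fun i j => b3 (Fin.natAdd 1 i) (Fin.natAdd 1 j), (blk_eta b3).trans ?_⟩
    congr 1
    · ext i j
      have hi : i = 0 := Subsingleton.elim _ _
      have hj : j = 0 := Subsingleton.elim _ _
      subst hi; subst hj
      rw [Matrix.of_apply]
      have := hcol (Fin.castAdd n 0)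
      have e0 : (Fin.castAdd n 0 : Fin (1 + n)) = 0 := rfl
      rw [e0] at this ⊢
      rw [this]; simp
    · ext i j
      have hj : j = 0 := Subsingleton.elim _ _
      subst hj
      rw [Matrix.of_apply]
      have := hcol (Fin.natAdd 1 i)
      have e0 : (Fin.castAdd n 0 : Fin (1 + n)) = 0 := rfl
      rw [e0, this, Pi.single_eq_of_ne]
      · rfl
      · intro h
        have := congrArg Fin.val h
        simp at this
  subst hb3
  have hY : (blk (1 : Mat 1 1) (-ρ) 0 (1 : Mat n n)).det = 1 := by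
    rw [det_blk_one]; simp
  have hY1 : blk (1 : Mat 1 1) ρ 0 (1 : Mat n n) * blk 1 (-ρ) 0 1 = 1 := by
    rw [blk_mul, ← blk_one]; simp
  refine hright _ _ hY ?_
  have hF4 := hF3.R hY1
  have e1 : blk (1 : Mat 1 1) ρ 0 b' * blk 1 (-ρ) 0 1 = blk 1 0 0 b' := by
    rw [blk_mul]; simp
  simp only [Fr.R] at hF4 ⊢
  rw [e1] at hF4 ⊢
  generalize d3 * blk 1 (-ρ) 0 1 = d4 at hF4 ⊢
  generalize k3 * blk 1 (-ρ) 0 1 = k4 at hF4 ⊢
  rw [blk_eta d4, hcat_eta k4] at hF4 ⊢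
  exact H _ _ _ _ _ _ _ hF4

theorem fr_weak : ∀ (n : ℕ), 2 ≤ n → ∀ F : Fr n, F.Iso → SolW F := by
  intro n hn
  induction n, hn using Nat.le_induction with
  | base =>
    intro F hF
    exact fr_norm (n := 1) le_rfl hF SolW (fun _ _ _ h h' => h'.shift h)
      (fun _ _ _ h h' h'' => h''.left h h') (fun _ _ h h' => h'.right h)
      (fun _ _ _ _ _ _ _ h => SolW.base h)
  | succ n hn ih =>
    have key : ∀ F : Fr (1 + n), F.Iso → SolW F := fun F hF =>
      fr_norm (by omega) hF SolW (fun _ _ _ h h' => h'.shift h)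
        (fun _ _ _ h h' h'' => h''.left h h') (fun _ _ h h' => h'.right h)
        (fun _ _ _ _ _ _ _ h => (SolW.step h (ih _ (Fr.sub h).1)).weak)
    rw [Nat.add_comm n 1]
    exact key

theorem fr_strong (n : ℕ) (hn : 3 ≤ n) (F : Fr n) (hF : F.Iso) : SolS F := by
  obtain ⟨m, rfl⟩ : ∃ m, n = 1 + m := ⟨n - 1, by omega⟩
  exact fr_norm (by omega) hF SolS (fun _ _ _ h h' => h'.shift h)
    (fun _ _ _ h h' h'' => h''.left h h') (fun _ _ h h' => h'.right h)
    (fun _ _ _ _ _ _ _ h => SolW.step h (fr_weak m (by omega) _ (Fr.sub h).1))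

end Pool.Agent.KS6_44.UU
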