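import Pool.Agent.KS6_44.UU.Arith

namespace Pool.Agent.KS6_44.UU

open Matrix

lemma nt_step1 (b0 d0 : ℤ) (hcop : IsCoprime b0 d0) (hodd : Odd d0) :
    ∃ (p : ℕ) (k : ℤ), p.Prime ∧ p % 4 = 3 ∧ (p : ℤ) = b0 + k * d0 := by
  obtain ⟨m, hm⟩ := hodd
  have hd0 : d0 ≠ 0 := by omega
  obtain ⟨x, hx⟩ : ∃ x : ℤ, x = b0 + (3 - b0) * d0 * d0 := ⟨_, rfl⟩
  have hx4 : ∃ t : ℤ, x = 3 + 4 * t := ⟨(3 - b0) * (m ^ 2 + m), by rw [hx, hm]; ring⟩
  have c1 : IsCoprime x d0 := by rw [hx]; exact IsCoprime.add_mul_right_left hcop _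
  have c2 : IsCoprime x 4 := by
    obtain ⟨t, ht⟩ := hx4
    exact ⟨-1, 1 + t, by rw [ht]; ring⟩
  have c3 : IsCoprime x ((4 * d0).natAbs : ℤ) := by
    have := IsCoprime.mul_right c2 c1
    rcases Int.natAbs_eq (4 * d0) with h | h
    · rw [← h]; exact this
    · rw [← neg_eq_iff_eq_neg] at h
      rw [← h]; exact (IsCoprime.neg_right_iff _ _).2 this
  obtain ⟨p, -, hp, hpx⟩ := Nat.forall_exists_prime_gt_and_zmodEq 0
    (q := (4 * d0).natAbs) (a := x) (by simpa using hd0) c3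
  have hdvd : (4 * d0) ∣ x - p := Int.natAbs_dvd.1 hpx.dvd
  obtain ⟨t, ht⟩ := hdvd
  refine ⟨p, (3 - b0) * d0 - 4 * t, hp, ?_, ?_⟩
  · obtain ⟨t', ht'⟩ := hx4
    have : (p : ℤ) = 3 + 4 * (t' - d0 * t) := by linarith
    omega
  · have : (p : ℤ) = x - 4 * d0 * t := by linarith
    rw [this, hx]; ring

lemma nt_step2 {p : ℕ} (hp : p.Prime) (hp4 : p % 4 = 3) {d0 : ℤ} (hd : ¬ (p : ℤ) ∣ d0) :
    ∃ s ε k : ℤ, (ε = 1 ∨ ε = -1) ∧ ¬ (p : ℤ) ∣ s ∧ ε * s ^ 2 = d0 + k * p := by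
  have : Fact p.Prime := ⟨hp⟩
  have h0 : (d0 : ZMod p) ≠ 0 := by rwa [Ne, ZMod.intCast_zmod_eq_zero_iff_dvd]
  have key : ∃ ε : ℤ, (ε = 1 ∨ ε = -1) ∧ IsSquare ((ε : ZMod p) * (d0 : ZMod p)) := by
    rcases ZMod.pow_div_two_eq_neg_one_or_one p h0 with h | h
    · exact ⟨1, Or.inl rfl, by simpa using (ZMod.euler_criterion p h0).2 h⟩
    · refine ⟨-1, Or.inr rfl, ?_⟩
      have hodd : Odd (p / 2) := by rw [Nat.odd_iff]; omega
      have h1 : (-(d0 : ZMod p)) ^ (p / 2) = 1 := by rw [hodd.neg_pow, h, neg_neg]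
      have := (ZMod.euler_criterion p (neg_ne_zero.2 h0)).2 h1
      simpa using this
  obtain ⟨ε, hε, r, hr⟩ := key
  obtain ⟨s, hs⟩ := ZMod.intCast_surjective r
  have hε2 : ε * ε = 1 := by rcases hε with h | h <;> rw [h] <;> norm_num
  have hk : ((ε * s ^ 2 - d0 : ℤ) : ZMod p) = 0 := by
    push_cast
    have : (ε : ZMod p) * (ε : ZMod p) = 1 := by exact_mod_cast congrArg (Int.cast : ℤ → ZMod p) hε2
    rw [hs, pow_two, ← hr, ← mul_assoc, this]; ring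
  rw [ZMod.intCast_zmod_eq_zero_iff_dvd] at hk
  obtain ⟨k, hk⟩ := hk
  refine ⟨s, ε, k, hε, ?_, by linarith⟩
  intro hps
  apply hd
  have h1 : (p : ℤ) ∣ ε * s ^ 2 := Dvd.dvd.mul_left (dvd_pow hps (by norm_num)) _
  have : d0 = ε * s ^ 2 - p * k := by linarith
  rw [this]
  exact dvd_sub h1 (dvd_mul_right _ _)

lemma nt_step3 {p : ℕ} (hp : p.Prime) (hp4 : p % 4 = 3) {s : ℤ} (hs : ¬ (p : ℤ) ∣ s) :
    ∃ q v : ℕ, q.Prime ∧ s ^ 2 ∣ (p : ℤ) * q + 1 ∧ (p : ℤ) ∣ 1 - (s ^ 2) ^ (v + 1) ∧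
      (q : ℤ) ∣ 1 - (s ^ 2) ^ v := by
  have hs0 : s ≠ 0 := by rintro rfl; exact hs (dvd_zero _)
  obtain ⟨m, hm⟩ : ∃ m : ℕ, p = 2 * m + 1 := ⟨p / 2, by omega⟩
  have hmpos : 0 < m := by have := hp.two_le; omega
  have hmodd : m % 2 = 1 := by omega
  have hpp : Prime (p : ℤ) := Nat.prime_iff_prime_int.1 hp
  have c1 : IsCoprime (p : ℤ) (s ^ 2 * m) := by
    refine IsCoprime.mul_right ?_ ?_
    · exact ((Prime.coprime_iff_not_dvd hpp).2 hs).pow_right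
    · exact ⟨1, -2, by rw [hm]; push_cast; ring⟩
  obtain ⟨u, w, huw⟩ := c1
  have c2 : IsCoprime (-u) (((s ^ 2 * m).natAbs : ℕ) : ℤ) := by
    have hnn : 0 ≤ s ^ 2 * (m : ℤ) := by positivity
    rw [Int.natAbs_of_nonneg hnn]
    exact ⟨-p, w, by linarith⟩
  obtain ⟨q, hq0, hq, hqu⟩ := Nat.forall_exists_prime_gt_and_zmodEq 0
    (q := (s ^ 2 * m).natAbs) (a := -u) (by simp [hs0]; omega) c2
  have hdvd : (s ^ 2 * m) ∣ -u - q := Int.natAbs_dvd.1 hqu.dvd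
  have hpq : (s ^ 2 * (m : ℤ)) ∣ (p : ℤ) * q + 1 := by
    have : (p : ℤ) * q + 1 = -(p * (-u - q)) + w * (s ^ 2 * m) := by linarith
    rw [this]
    exact dvd_add ((dvd_neg).2 (Dvd.dvd.mul_left hdvd _)) (Dvd.dvd.mul_left dvd_rfl _)
  have h1 : s ^ 2 ∣ (p : ℤ) * q + 1 := (dvd_mul_right _ _).trans hpq
  have h2 : (m : ℤ) ∣ (p : ℤ) * q + 1 := (dvd_mul_left _ _).trans hpq
  have h3 : (m : ℤ) ∣ (q : ℤ) + 1 := by
    have : (q : ℤ) + 1 = (p * q + 1) - m * (2 * q) := by rw [hm]; push_cast; ring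
    rw [this]; exact dvd_sub h2 (dvd_mul_right _ _)
  have hq1 : 1 ≤ q := hq.one_lt.le
  have hcop : Nat.Coprime (q - 1) m := by
    rw [← Nat.isCoprime_iff_coprime]
    obtain ⟨t, ht⟩ := h3
    obtain ⟨m', hm'⟩ : ∃ m' : ℤ, (m : ℤ) = 2 * m' + 1 := ⟨m / 2, by omega⟩
    rw [Nat.cast_sub hq1]
    -- q - 1 = m t - 2, m = 2 m' + 1
    refine ⟨m', 1 - m' * t, ?_⟩
    have hq' : (q : ℤ) = m * t - 1 := by linarith
    push_cast
    rw [hq', hm']; ring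
  have hqs : ¬ (q : ℤ) ∣ s := by
    intro h
    have : (q : ℤ) ∣ (p : ℤ) * q + 1 := (dvd_pow h (by norm_num)).trans h1
    have h1' : (q : ℤ) ∣ 1 := by
      have h4 : (1 : ℤ) = ((p : ℤ) * q + 1) - p * q := by ring
      rw [h4]; exact dvd_sub this (dvd_mul_left _ _)
    exact (Nat.prime_iff_prime_int.1 hq).not_dvd_one h1'
  obtain ⟨v, hv1, hv2⟩ := Nat.chineseRemainder hcop 0 (m - 1)
  have hv1' : (q - 1) ∣ v := (Nat.modEq_zero_iff_dvd).1 hv1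
  have hv2' : m ∣ v + 1 := by
    have := hv2.add_right 1
    rw [Nat.sub_add_cancel hmpos] at this
    exact (Nat.modEq_zero_iff_dvd).1 (this.trans (by simp [Nat.ModEq]))
  refine ⟨q, v, hq, h1, ?_, ?_⟩
  · obtain ⟨t, ht⟩ := hv2'
    rw [ht, ← pow_mul]
    have : 2 * (m * t) = (p - 1) * t := by rw [hm]; simp; ring
    rw [this, pow_mul]
    have h5 : s ^ (p - 1) ≡ 1 [ZMOD p] :=
      Int.ModEq.pow_card_sub_one_eq_one hp (by
        rw [isCoprime_comm]; exact (Prime.coprime_iff_not_dvd hpp).2 hs)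
    have := (h5.pow t)
    rw [one_pow] at this
    exact this.dvd
  · obtain ⟨t, ht⟩ := hv1'
    rw [ht, ← pow_mul]
    have : 2 * ((q - 1) * t) = (q - 1) * (2 * t) := by ring
    rw [this, pow_mul]
    have h5 : s ^ (q - 1) ≡ 1 [ZMOD q] :=
      Int.ModEq.pow_card_sub_one_eq_one hq (by
        rw [isCoprime_comm]
        exact (Prime.coprime_iff_not_dvd (Nat.prime_iff_prime_int.1 hq)).2 hqs)
    have := (h5.pow (2 * t))
    rw [one_pow] at this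
    exact this.dvd

end Pool.Agent.KS6_44.UU
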