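import Pool.Agent.KS6_44.UU.NT

namespace Pool.Agent.KS6_44.UU

open Matrix

/-- upper elementary -/
def x12 (k : ℤ) : Mat 2 2 := !![1, k; 0, 1]
/-- lower elementary -/
def x21 (k : ℤ) : Mat 2 2 := !![1, 0; k, 1]

lemma x12_mul (a b : ℤ) : x12 a * x12 b = x12 (a + b) := by
  unfold x12; ext i j
  fin_cases i <;> fin_cases j <;> simp [Matrix.mul_apply, Fin.sum_univ_two, add_comm]

lemma x21_mul (a b : ℤ) : x21 a * x21 b = x21 (a + b) := by
  unfold x21; ext i j
  fin_cases i <;> fin_cases j <;> simp [Matrix.mul_apply, Fin.sum_univ_two]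

lemma x12_zero : x12 0 = 1 := by
  unfold x12; ext i j; fin_cases i <;> fin_cases j <;> simp

lemma x21_zero : x21 0 = 1 := by
  unfold x21; ext i j; fin_cases i <;> fin_cases j <;> simp

lemma x12_isU (k : ℤ) : IsU (x12 k) := by
  unfold x12
  constructor
  · intro i; fin_cases i <;> simp
  · intro i j hij; fin_cases i <;> fin_cases j <;> simp at hij ⊢

lemma x21_isL (k : ℤ) : IsL (x21 k) := by
  unfold x21
  constructor
  · intro i; fin_cases i <;> simp
  · intro i j hij; fin_cases i <;> fin_cases j <;> simp at hij ⊢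

lemma good_neg_one : Good (-1 : Mat 2 2) := by
  refine Good.of_mul (u := x12 1) (v := x21 (-2)) (x12_isU _) (x21_isL _) ?_
  have : x12 1 * (-1 : Mat 2 2) * x21 (-2) = x21 2 * x12 (-1) := by
    unfold x12 x21; ext i j
    fin_cases i <;> fin_cases j <;> simp [Matrix.mul_apply, Fin.sum_univ_two]
  rw [this]
  exact Good.lr (x21_isL _) (x12_isU _)

lemma good_eps {ε : ℤ} (h : ε = 1 ∨ ε = -1) (k w : ℤ) : Good (ε • (x12 k * x21 w)) := by
  refine Good.of_mul (u := x12 (-k)) (v := x21 (-w)) (x12_isU _) (x21_isL _) ?_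
  have : x12 (-k) * (ε • (x12 k * x21 w)) * x21 (-w) = ε • (1 : Mat 2 2) := by
    rw [Matrix.mul_smul, Matrix.smul_mul, ← Matrix.mul_assoc, x12_mul, neg_add_cancel, x12_zero,
      Matrix.one_mul, x21_mul, add_neg_cancel, x21_zero]
  rw [this]
  rcases h with h | h <;> rw [h]
  · rw [one_smul]; exact Good.one
  · rw [neg_smul, one_smul]; exact good_neg_one

lemma good_eps' {ε : ℤ} (h : ε = 1 ∨ ε = -1) (k w : ℤ) :
    Good (x21 1 * (ε • (x12 k * x21 w))) := by
  refine Good.of_mul (u := 1) (v := x21 (-w)) IsU.one (x21_isL _) ?_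
  have : 1 * (x21 1 * (ε • (x12 k * x21 w))) * x21 (-w) = ε • (x21 1 * x12 k) := by
    rw [Matrix.one_mul, Matrix.mul_smul, Matrix.smul_mul, ← Matrix.mul_assoc, Matrix.mul_assoc _ _
      (x21 (-w)), x21_mul, add_neg_cancel, x21_zero, Matrix.mul_one]
  rw [this]
  rcases h with h | h <;> rw [h]
  · rw [one_smul]; exact Good.lr (x21_isL _) (x12_isU _)
  · refine Good.of_mul (u := x12 (-2)) (v := 1) (x12_isU _) IsL.one ?_
    have : x12 (-2) * ((-1 : ℤ) • (x21 1 * x12 k)) * 1 = x21 (-1) * x12 (k + 2) := by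
      unfold x12 x21; ext i j
      fin_cases i <;> fin_cases j <;> simp [Matrix.mul_apply, Fin.sum_univ_two] <;> ring
    rw [this]
    exact Good.lr (x21_isL _) (x12_isU _)

lemma GK6_core {a0 b0 c0 d0 : ℤ} (hdet : a0 * d0 - b0 * c0 = 1) (hodd : Odd d0) :
    ∃ ε k w : ℤ, (ε = 1 ∨ ε = -1) ∧ ∀ (T0 T T' : Mat 2 2), Good T → T' * T = 1 →
      T = T0 * (ε • (x12 k * x21 w)) → GK ((2 + 2) + 2) (T0 * !![a0, b0; c0, d0]) := by
  obtain ⟨p, k1, hp, hp4, hpk⟩ := nt_step1 b0 d0 ⟨-c0, a0, by linarith⟩ hodd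
  have hpp : Prime (p : ℤ) := Nat.prime_iff_prime_int.1 hp
  have hpd : ¬ (p : ℤ) ∣ d0 := by
    intro h
    apply hpp.not_dvd_one
    have hb : (p : ℤ) ∣ b0 := by
      have : b0 = p - k1 * d0 := by linarith
      rw [this]; exact dvd_sub dvd_rfl (Dvd.dvd.mul_left h _)
    rw [← hdet]
    exact dvd_sub (Dvd.dvd.mul_left h _) (Dvd.dvd.mul_right hb _)
  obtain ⟨s, ε, k2, hε, hps, hs⟩ := nt_step2 hp hp4 hpd
  obtain ⟨q, v, hq, hsq, hv1, hv2⟩ := nt_step3 hp hp4 hps
  have hε2 : ε * ε = 1 := by rcases hε with h | h <;> rw [h] <;> norm_num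
  obtain ⟨a1, ha1⟩ : ∃ a1 : ℤ, a1 = a0 + k1 * c0 := ⟨_, rfl⟩
  obtain ⟨c1, hc1⟩ : ∃ c1 : ℤ, c1 = c0 + k2 * a1 := ⟨_, rfl⟩
  have hdet1 : a1 * d0 - p * c0 = 1 := by rw [ha1, hpk]; linear_combination hdet
  have hdet2 : a1 * (ε * s ^ 2) - p * c1 = 1 := by
    rw [hs, hc1]; linear_combination hdet1
  obtain ⟨t, ht⟩ : s ^ 2 ∣ (q : ℤ) - c1 := by
    have hcop : IsCoprime (s ^ 2) (p : ℤ) := by
      rw [isCoprime_comm]
      exact ((Prime.coprime_iff_not_dvd hpp).2 hps).pow_right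
    refine hcop.dvd_of_dvd_mul_left ?_
    have : (p : ℤ) * ((q : ℤ) - c1) = (p * q + 1) - s ^ 2 * (a1 * ε) := by
      linear_combination hdet2
    rw [this]
    exact dvd_sub hsq (dvd_mul_right _ _)
  -- k3
  obtain ⟨k3, hk3⟩ : ∃ k3 : ℤ, k3 = ε * t := ⟨_, rfl⟩
  have hk3' : ε * q = ε * c1 + k3 * s ^ 2 := by
    rw [hk3]; linear_combination ε * ht
  obtain ⟨a2, ha2⟩ : ∃ a2 : ℤ, a2 = ε * a1 + k3 * (ε * p) := ⟨_, rfl⟩
  have hdet3 : a2 * s ^ 2 - (ε * p) * (ε * q) = 1 := by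
    rw [hk3', ha2]; linear_combination hdet2 - p * c1 * hε2
  have hs0 : s ≠ 0 := by rintro rfl; exact hps (dvd_zero _)
  have hε0 : ε ≠ 0 := by rintro rfl; simp at hε2
  refine ⟨ε, -k1, -k2 - k3, hε, ?_⟩
  intro T0 T T' hT hT' hTT
  have hX : (!![a2, ε * p; ε * q, s ^ 2] : Mat 2 2) =
      ε • (x21 k2 * (x12 k1 * !![a0, b0; c0, d0]) * x21 k3) := by
    unfold x12 x21
    have e0 : ε * (ε * s ^ 2) = s ^ 2 := by rw [← mul_assoc, hε2, one_mul]
    ext i j
    fin_cases i <;> fin_cases j <;> simp [Matrix.mul_apply, Fin.sum_univ_two]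
    · rw [ha2, ha1, hpk]; ring
    · left; linarith
    · left
      rw [← hpk, ← ha1, hk3]
      linear_combination ht + hc1 + ε * t * hs - s ^ 2 * t * hε2
    · rw [← e0, hs, hpk]; ring
  have key := GK6_X (a := a2) (b := ε * p) (c := ε * q) (d := s ^ 2) hdet3
    (mul_ne_zero hε0 hpp.ne_zero) (mul_ne_zero hε0 (Nat.prime_iff_prime_int.1 hq).ne_zero) v
    (by
      rcases hε with h | h <;> rw [h]
      · simpa using hv1
      · simpa using hv1)
    (by
      rcases hε with h | h <;> rw [h]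
      · simpa using hv2
      · simpa using hv2)
    (T := T) (T' := T') (h := x21 (-k3)) (h' := x21 k3) hT hT'
    (by rw [x21_mul, neg_add_cancel, x21_zero]) (by rw [x21_mul, add_neg_cancel, x21_zero])
  have : T * (x21 k3 * !![a2, ε * p; ε * q, s ^ 2] * x21 (-k3)) = T0 * !![a0, b0; c0, d0] := by
    rw [hTT, hX, Matrix.mul_assoc T0]
    congr 1
    generalize (!![a0, b0; c0, d0] : Mat 2 2) = A
    calc (ε • (x12 (-k1) * x21 (-k2 - k3))) *
          (x21 k3 * (ε • (x21 k2 * (x12 k1 * A) * x21 k3)) * x21 (-k3))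
        = (ε * ε) • (x12 (-k1) * (x21 (-k2 - k3) * x21 k3 * x21 k2) * (x12 k1 * A) *
            (x21 k3 * x21 (-k3))) := by
          simp only [Matrix.mul_smul, Matrix.smul_mul, smul_smul, Matrix.mul_assoc]
      _ = A := by
          rw [hε2, one_smul, x21_mul, x21_mul, x21_mul, add_neg_cancel, x21_zero, Matrix.mul_one]
          have : -k2 - k3 + k3 + k2 = 0 := by ring
          rw [this, x21_zero, Matrix.mul_one, ← Matrix.mul_assoc, x12_mul, neg_add_cancel, x12_zero,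
            Matrix.one_mul]
  rw [this] at key
  exact key

lemma inv_eps {ε : ℤ} (h : ε = 1 ∨ ε = -1) (k w : ℤ) :
    (ε • (x21 (-w) * x12 (-k))) * (ε • (x12 k * x21 w)) = 1 := by
  have hε2 : ε * ε = 1 := by rcases h with h | h <;> rw [h] <;> norm_num
  have : (ε • (x21 (-w) * x12 (-k))) * (ε • (x12 k * x21 w)) =
      (ε * ε) • (x21 (-w) * (x12 (-k) * x12 k) * x21 w) := by
    simp only [Matrix.mul_smul, Matrix.smul_mul, smul_smul, Matrix.mul_assoc]
  rw [this, hε2, one_smul, x12_mul, neg_add_cancel, x12_zero, Matrix.mul_one, x21_mul,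
    neg_add_cancel, x21_zero]

theorem GK6_all (A : Mat 2 2) (hA : A.det = 1) : GK ((2 + 2) + 2) A := by
  rw [Matrix.det_fin_two] at hA
  have hA' : A = !![A 0 0, A 0 1; A 1 0, A 1 1] := by
    ext i j; fin_cases i <;> fin_cases j <;> simp
  rcases Int.even_or_odd (A 1 1) with he | ho
  · have hb : Odd (A 0 1) := by
      by_contra hb
      rw [Int.not_odd_iff_even] at hb
      have : Even (A 0 0 * A 1 1 - A 0 1 * A 1 0) := (he.mul_left _).sub (hb.mul_right _)
      rw [hA] at this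
      exact absurd this (by decide)
    have hodd : Odd (A 1 1 - A 0 1) := he.sub_odd hb
    obtain ⟨ε, k, w, hε, H⟩ := GK6_core (a0 := A 0 0) (b0 := A 0 1) (c0 := A 1 0 - A 0 0)
      (d0 := A 1 1 - A 0 1) (by linear_combination hA) hodd
    have := H (x21 1) (x21 1 * (ε • (x12 k * x21 w))) ((ε • (x21 (-w) * x12 (-k))) * x21 (-1))
      (good_eps' hε k w) (by
        calc (ε • (x21 (-w) * x12 (-k))) * x21 (-1) * (x21 1 * (ε • (x12 k * x21 w)))
            = (ε • (x21 (-w) * x12 (-k))) * (x21 (-1) * x21 1) * (ε • (x12 k * x21 w)) := by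
              simp only [Matrix.mul_assoc]
          _ = 1 := by rw [x21_mul, neg_add_cancel, x21_zero, Matrix.mul_one, inv_eps hε]) rfl
    have e : x21 1 * !![A 0 0, A 0 1; A 1 0 - A 0 0, A 1 1 - A 0 1] = A := by
      unfold x21
      ext i j; fin_cases i <;> fin_cases j <;> simp [Matrix.mul_apply, Fin.sum_univ_two]
    rw [e] at this
    exact this
  · obtain ⟨ε, k, w, hε, H⟩ := GK6_core (a0 := A 0 0) (b0 := A 0 1) (c0 := A 1 0)
      (d0 := A 1 1) (by linear_combination hA) ho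
    have := H 1 (ε • (x12 k * x21 w)) (ε • (x21 (-w) * x12 (-k))) (good_eps hε k w)
      (inv_eps hε k w) (by rw [Matrix.one_mul])
    rw [Matrix.one_mul, ← hA'] at this
    exact this

end Pool.Agent.KS6_44.UU
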