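import Pool.Agent.KS6_44.UU.Compl

/-!
Lagrangian frames `(b, d)` over `ℤ`, type C: reduction steps.
-/

namespace Pool.Agent.KS6_44.UU

open Matrix

/-- make a vector primitive by adding multiples of `k` -/
lemma prim_add {n : ℕ} (v : Fin (n + 2) → ℤ) (k : ℤ)
    (h : ∀ p : ℕ, p.Prime → (∀ i, (p : ℤ) ∣ v i) → ¬ (p : ℤ) ∣ k) :
    ∃ w c : Fin (n + 2) → ℤ, ∑ i, c i * (v i + k * w i) = 1 := by
  by_cases hk : k = 0
  · obtain ⟨c, hc⟩ := bezout v (fun p hp => by
      by_contra hcon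
      push Not at hcon
      exact h p hp hcon (by rw [hk]; exact dvd_zero _))
    exact ⟨0, c, by simpa using hc⟩
  · obtain ⟨t0, ht0⟩ : ∃ t0 : ℤ, v 0 + k * t0 ≠ 0 := by
      by_cases h0 : v 0 = 0
      · exact ⟨1, by rw [h0]; simpa using hk⟩
      · exact ⟨0, by simpa using h0⟩
    obtain ⟨t, ht⟩ := crt1 (fun p => (p : ℤ) ∣ v 0 + k * t0 ∧ ∀ i, i ≠ 0 → i ≠ 1 → (p : ℤ) ∣ v i)
      (m := v 0 + k * t0) (a := v 1) (b := k) ht0 (fun p _ hq => hq.1)
      (fun p hp hq hpa hpk => by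
        refine h p hp (fun i => ?_) hpk
        by_cases hi0 : i = 0
        · subst hi0
          exact (dvd_add_left (Dvd.dvd.mul_right hpk _)).1 hq.1
        · by_cases hi1 : i = 1
          · subst hi1; exact hpa
          · exact hq.2 i hi0 hi1)
    have h10 : (1 : Fin (n + 2)) ≠ 0 := by simp
    let w : Fin (n + 2) → ℤ := fun i => if i = 0 then t0 else if i = 1 then t else 0
    obtain ⟨c, hc⟩ := bezout (fun i => v i + k * w i) (fun p hp => by
      by_contra hcon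
      push Not at hcon
      refine ht p hp ⟨?_, fun i hi0 hi1 => ?_⟩ ?_
      · simpa [w] using hcon 0
      · simpa [w, hi0, hi1] using hcon i
      · have := hcon 1
        simp only [w, h10, if_false, if_true] at this
        rwa [mul_comm] at this)
    exact ⟨w, c, hc⟩

/-- Symmetric matrices act transitively enough. -/
lemma sym_prim {n : ℕ} (v1 v2 : Fin (n + 2) → ℤ)
    (h : ∀ p : ℕ, p.Prime → (∀ i, (p : ℤ) ∣ v1 i) → ¬ ∀ i, (p : ℤ) ∣ v2 i) :
    ∃ (M : Mat (n + 2) (n + 2)) (c : Fin (n + 2) → ℤ), Mᵀ = M ∧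
      ∑ i, c i * (v1 + M *ᵥ v2) i = 1 := by
  obtain ⟨Z, g, hZ, hg⟩ := exists_SL v2 0
  have hZ' : IsUnit Z.det := by rw [hZ]; exact isUnit_one
  have hv2 : ∀ p : ℤ, p ∣ g → ∀ i, p ∣ v2 i := by
    intro p hpg i
    have : v2 = Z⁻¹ *ᵥ (Pi.single 0 g) := by
      rw [← hg, Matrix.mulVec_mulVec, Matrix.nonsing_inv_mul _ hZ', Matrix.one_mulVec]
    rw [this]
    simp only [Matrix.mulVec, dotProduct]
    refine Finset.dvd_sum fun k _ => ?_
    by_cases hk : k = 0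
    · subst hk; rw [Pi.single_eq_same]; exact Dvd.dvd.mul_left hpg _
    · rw [Pi.single_eq_of_ne hk, mul_zero]; exact dvd_zero _
  obtain ⟨w, c, hc⟩ := prim_add v1 g (fun p hp h1 h2 => h p hp h1 (hv2 p h2))
  let w' : Fin (n + 2) → ℤ := (Z⁻¹)ᵀ *ᵥ w
  let M' : Mat (n + 2) (n + 2) := Matrix.of fun i j =>
    if j = 0 then w' i else if i = 0 then w' j else 0
  have hM' : M'ᵀ = M' := by
    ext i j
    simp only [M', Matrix.transpose_apply, Matrix.of_apply]
    by_cases hi : i = 0 <;> by_cases hj : j = 0 <;> simp [hi, hj]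
  have hMv : M' *ᵥ (Pi.single 0 g) = g • w' := by
    ext i
    rw [Matrix.mulVec, dotProduct, Finset.sum_eq_single 0]
    · simp [M', mul_comm]
    · intro j _ hj; rw [Pi.single_eq_of_ne hj, mul_zero]
    · intro h; exact absurd (Finset.mem_univ _) h
  refine ⟨Zᵀ * M' * Z, c, ?_, ?_⟩
  · rw [Matrix.transpose_mul, Matrix.transpose_mul, Matrix.transpose_transpose, hM',
      Matrix.mul_assoc]
  · have h1 : (Zᵀ * M' * Z) *ᵥ v2 = g • w := by
      rw [← Matrix.mulVec_mulVec, hg, ← Matrix.mulVec_mulVec, hMv, Matrix.mulVec_smul]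
      simp only [w']
      rw [Matrix.mulVec_mulVec, ← Matrix.transpose_mul, Matrix.nonsing_inv_mul _ hZ',
        Matrix.transpose_one, Matrix.one_mulVec]
    rw [h1]
    simpa using hc

lemma sym_prim' {N : ℕ} (hN : 2 ≤ N) (v1 v2 : Fin N → ℤ)
    (h : ∀ p : ℕ, p.Prime → (∀ i, (p : ℤ) ∣ v1 i) → ¬ ∀ i, (p : ℤ) ∣ v2 i) :
    ∃ (M : Mat N N) (c : Fin N → ℤ), Mᵀ = M ∧ ∑ i, c i * (v1 + M *ᵥ v2) i = 1 := by
  obtain ⟨m, rfl⟩ : ∃ m, N = m + 2 := ⟨N - 2, by omega⟩
  exact sym_prim v1 v2 h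

lemma blk_transpose {m n : ℕ} (A : Mat m m) (B : Mat m n) (C : Mat n m) (D : Mat n n) :
    (blk A B C D)ᵀ = blk Aᵀ Cᵀ Bᵀ Dᵀ :=
  blk_ext (fun i j => by rw [Matrix.transpose_apply, blk_cc, blk_cc]; rfl)
    (fun i j => by rw [Matrix.transpose_apply, blk_cn, blk_nc]; rfl)
    (fun i j => by rw [Matrix.transpose_apply, blk_nc, blk_cn]; rfl)
    (fun i j => by rw [Matrix.transpose_apply, blk_nn, blk_nn]; rfl)

/-- Lagrangian frames -/
def Lag {n : ℕ} (b d : Mat n n) : Prop := (bᵀ * d)ᵀ = bᵀ * d ∧ ∃ r s : Mat n n, r * b + s * d = 1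

/-- the solvable frames -/
def Sol {n : ℕ} (b d : Mat n n) : Prop :=
  ∃ M N : Mat n n, Mᵀ = M ∧ Nᵀ = N ∧ (d + N * (b + M * d)).det = 1

section
variable {n : ℕ} {b d : Mat n n}

lemma Sol.shift {M : Mat n n} (hM : Mᵀ = M) (h : Sol (b + M * d) d) : Sol b d := by
  obtain ⟨M', N, h1, h2, h3⟩ := h
  refine ⟨M + M', N, by rw [Matrix.transpose_add, hM, h1], h2, ?_⟩
  rw [← h3, Matrix.add_mul]; congr 3; abel

lemma Lag.shift {M : Mat n n} (hM : Mᵀ = M) (h : Lag b d) : Lag (b + M * d) d := by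
  obtain ⟨h1, r, s, h2⟩ := h
  refine ⟨?_, r, s - r * M, ?_⟩
  · rw [Matrix.transpose_add, Matrix.add_mul, Matrix.transpose_add, h1]
    simp only [Matrix.transpose_mul, Matrix.transpose_transpose, hM, Matrix.mul_assoc]
  · rw [Matrix.mul_add, Matrix.sub_mul, ← h2, Matrix.mul_assoc]; abel

lemma Sol.left {X X' : Mat n n} (h1 : X' * X = 1) (h1' : X * X' = 1) (hX : X.det = 1)
    (h : Sol (X'ᵀ * b) (X * d)) : Sol b d := by
  obtain ⟨M, N, h2, h3, h4⟩ := h
  refine ⟨Xᵀ * M * X, X' * N * X'ᵀ, ?_, ?_, ?_⟩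
  · simp only [Matrix.transpose_mul, Matrix.transpose_transpose, h2, Matrix.mul_assoc]
  · simp only [Matrix.transpose_mul, Matrix.transpose_transpose, h3, Matrix.mul_assoc]
  · have ht : X'ᵀ * Xᵀ = 1 := by rw [← Matrix.transpose_mul, h1', Matrix.transpose_one]
    have e : X * (d + X' * N * X'ᵀ * (b + Xᵀ * M * X * d)) =
        X * d + N * (X'ᵀ * b + M * (X * d)) := by
      calc X * (d + X' * N * X'ᵀ * (b + Xᵀ * M * X * d))
          = X * d + (X * X') * N * (X'ᵀ * b + (X'ᵀ * Xᵀ) * M * X * d) := by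
            simp only [Matrix.mul_add, Matrix.mul_assoc]
        _ = _ := by rw [h1', ht]; simp only [Matrix.one_mul, Matrix.mul_assoc]
    have := congrArg Matrix.det e
    rw [Matrix.det_mul, hX, one_mul] at this
    rw [this, h4]

lemma Lag.left {X X' : Mat n n} (h1 : X' * X = 1) (h1' : X * X' = 1)
    (h : Lag b d) : Lag (X'ᵀ * b) (X * d) := by
  obtain ⟨h2, r, s, h3⟩ := h
  have e : (X'ᵀ * b)ᵀ * (X * d) = bᵀ * d := by
    rw [Matrix.transpose_mul, Matrix.transpose_transpose]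
    calc bᵀ * X' * (X * d) = bᵀ * (X' * X) * d := by simp only [Matrix.mul_assoc]
      _ = _ := by rw [h1, Matrix.mul_one]
  have ht : Xᵀ * X'ᵀ = 1 := by rw [← Matrix.transpose_mul, h1, Matrix.transpose_one]
  refine ⟨by rw [e, h2], r * Xᵀ, s * X', ?_⟩
  calc r * Xᵀ * (X'ᵀ * b) + s * X' * (X * d) = r * (Xᵀ * X'ᵀ) * b + s * (X' * X) * d := by
        simp only [Matrix.mul_assoc]
    _ = 1 := by rw [ht, h1, Matrix.mul_one, Matrix.mul_one, h3]

lemma Sol.right {Y : Mat n n} (hY : Y.det = 1) (h : Sol (b * Y) (d * Y)) : Sol b d := by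
  obtain ⟨M, N, h2, h3, h4⟩ := h
  refine ⟨M, N, h2, h3, ?_⟩
  have e : d * Y + N * (b * Y + M * (d * Y)) = (d + N * (b + M * d)) * Y := by
    simp only [Matrix.add_mul, Matrix.mul_add, Matrix.mul_assoc]
  rw [e, Matrix.det_mul, hY, mul_one] at h4
  exact h4

lemma Lag.right {Y Y' : Mat n n} (h1 : Y' * Y = 1) (h1' : Y * Y' = 1) (h : Lag b d) :
    Lag (b * Y) (d * Y) := by
  obtain ⟨h2, r, s, h3⟩ := h
  have e : (b * Y)ᵀ * (d * Y) = Yᵀ * (bᵀ * d) * Y := by
    simp only [Matrix.transpose_mul, Matrix.mul_assoc]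
  refine ⟨?_, Y' * r, Y' * s, ?_⟩
  · rw [e, Matrix.transpose_mul, Matrix.transpose_mul (Yᵀ), Matrix.transpose_transpose, h2]
    simp only [Matrix.mul_assoc]
  · calc Y' * r * (b * Y) + Y' * s * (d * Y) = Y' * (r * b + s * d) * Y := by
          simp only [Matrix.add_mul, Matrix.mul_add, Matrix.mul_assoc]
      _ = 1 := by rw [h3, Matrix.mul_one, h1]

end

/-- a block of a Lagrangian frame -/
lemma Lag.sub {m n : ℕ} {b' : Mat n n} {δ : Mat m m} {ρ : Mat m n} {c : Mat n m} {d' : Mat n n}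
    (h : Lag (blk 1 0 0 b') (blk δ ρ c d')) : Lag b' d' ∧ ρ = cᵀ * b' := by
  obtain ⟨h1, r, s, h2⟩ := h
  have ht : (blk (1 : Mat m m) 0 0 b')ᵀ = blk 1 0 0 b'ᵀ :=
    blk_ext (by simp [Matrix.one_apply, eq_comm]) (by simp) (by simp) (by simp)
  rw [ht, blk_mul] at h1
  simp only [Matrix.one_mul, Matrix.zero_mul, add_zero, zero_add] at h1
  have hρ : ρ = cᵀ * b' := by
    ext i j
    have := congrFun (congrFun h1 (Fin.natAdd m j)) (Fin.castAdd n i)
    rw [Matrix.transpose_apply, blk_cn, blk_nc] at this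
    rw [this, Matrix.mul_apply, Matrix.mul_apply]
    exact Finset.sum_congr rfl fun k _ => by simp [mul_comm]
  refine ⟨⟨?_, ?_⟩, hρ⟩
  · ext i j
    have := congrFun (congrFun h1 (Fin.natAdd m i)) (Fin.natAdd m j)
    simpa using this
  · rw [blk_eta r, blk_eta s, blk_mul, blk_mul, blk_add, ← blk_one] at h2
    generalize (Matrix.of fun i j => r (Fin.natAdd m i) (Fin.castAdd n j)) = R21 at h2
    generalize (Matrix.of fun i j => r (Fin.natAdd m i) (Fin.natAdd m j)) = R22 at h2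
    generalize (Matrix.of fun i j => s (Fin.natAdd m i) (Fin.castAdd n j)) = S21 at h2
    generalize (Matrix.of fun i j => s (Fin.natAdd m i) (Fin.natAdd m j)) = S22 at h2
    refine ⟨R22 + S21 * cᵀ, S22, ?_⟩
    ext i j
    have := congrFun (congrFun h2 (Fin.natAdd m i)) (Fin.natAdd m j)
    rw [blk_nn, blk_nn] at this
    rw [← this, hρ]
    simp only [Matrix.mul_zero, zero_add, Matrix.add_mul, Matrix.mul_assoc, add_assoc]

/-- normal form step -/
lemma norm_step {n : ℕ} (hn : 1 ≤ n) {b d : Mat (1 + n) (1 + n)} (hL : Lag b d)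
    (H : ∀ (b' d' : Mat n n) (δ : Mat 1 1) (c : Mat n 1), Lag b' d' →
      Sol (blk 1 0 0 b') (blk δ (cᵀ * b') c d')) : Sol b d := by
  obtain ⟨m, hm⟩ : ∃ m, 1 + n = m + 2 := ⟨n - 1, by omega⟩
  -- first column primitive
  obtain ⟨M, c, hM, hc⟩ : ∃ (M : Mat (1 + n) (1 + n)) (c : Fin (1 + n) → ℤ), Mᵀ = M ∧
      ∑ i, c i * (b + M * d) i 0 = 1 := by
    obtain ⟨h1, r, s, h2⟩ := hL
    have key : ∀ p : ℕ, p.Prime → (∀ i, (p : ℤ) ∣ b i 0) → ¬ ∀ i, (p : ℤ) ∣ d i 0 := by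
      intro p hp hb hd
      have h3 := congrFun (congrFun h2 0) 0
      rw [Matrix.add_apply, Matrix.mul_apply, Matrix.mul_apply, Matrix.one_apply_eq] at h3
      have h4 : (p : ℤ) ∣ 1 := by
        rw [← h3]
        exact dvd_add (Finset.dvd_sum fun i _ => Dvd.dvd.mul_left (hb i) _)
          (Finset.dvd_sum fun i _ => Dvd.dvd.mul_left (hd i) _)
      exact (Nat.prime_iff_prime_int.1 hp).not_dvd_one h4
    obtain ⟨M, c, hM, hc⟩ := sym_prim' (by omega) (fun i => b i 0) (fun i => d i 0) key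
    refine ⟨M, c, hM, ?_⟩
    rw [← hc]
    exact Finset.sum_congr rfl fun i _ => by
      simp [Matrix.add_apply, Matrix.mul_apply, Matrix.mulVec, dotProduct]
  refine Sol.shift hM ?_
  have hL1 := hL.shift hM
  generalize b + M * d = b1 at hc hL1
  -- move the first column to the first basis vector
  have h01 : (Fin.natAdd 1 ⟨0, hn⟩ : Fin (1 + n)) ≠ 0 := by
    intro h
    have := congrArg Fin.val h
    simp at this
  obtain ⟨Z, hZ, hZ1⟩ := exists_SL_prim (v := fun i => b1 i 0) (c := c) hc h01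
  have hZu : IsUnit Z.det := by rw [hZ]; exact isUnit_one
  have hz1 : Z * Z⁻¹ = 1 := Matrix.mul_nonsing_inv _ hZu
  have hz2 : Z⁻¹ * Z = 1 := Matrix.nonsing_inv_mul _ hZu
  have hx1 : Zᵀ * (Z⁻¹)ᵀ = 1 := by rw [← Matrix.transpose_mul, hz2, Matrix.transpose_one]
  have hx2 : (Z⁻¹)ᵀ * Zᵀ = 1 := by rw [← Matrix.transpose_mul, hz1, Matrix.transpose_one]
  have hxd : ((Z⁻¹)ᵀ).det = 1 := by
    have := congrArg Matrix.det hz1
    rw [Matrix.det_mul, hZ, one_mul, Matrix.det_one] at this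
    rw [Matrix.det_transpose, this]
  refine Sol.left (X := (Z⁻¹)ᵀ) (X' := Zᵀ) hx1 hx2 hxd ?_
  have hL2 := hL1.left hx1 hx2
  rw [Matrix.transpose_transpose] at hL2 ⊢
  have hcol : ∀ i, (Z * b1) i 0 = (Pi.single 0 1 : Fin (1 + n) → ℤ) i := by
    intro i
    rw [← hZ1]
    simp [Matrix.mul_apply, Matrix.mulVec, dotProduct]
  generalize Z * b1 = b2 at hL2 hcol ⊢
  generalize (Z⁻¹)ᵀ * d = d2 at hL2 ⊢
  obtain ⟨ρ, b', hb2⟩ : ∃ (ρ : Mat 1 n) (b' : Mat n n), b2 = blk 1 ρ 0 b' := by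
    refine ⟨Matrix.of fun i j => b2 (Fin.castAdd n i) (Fin.natAdd 1 j),
      Matrix.of fun i j => b2 (Fin.natAdd 1 i) (Fin.natAdd 1 j), (blk_eta b2).trans ?_⟩
    congr 1
    · ext i j
      have hi : i = 0 := Subsingleton.elim _ _
      have hj : j = 0 := Subsingleton.elim _ _
      subst hi; subst hj
      rw [Matrix.of_apply]
      have := hcol (Fin.castAdd n 0)
      have e0 : (Fin.castAdd n 0 : Fin (1 + n)) = 0 := rfl
      rw [e0] at this ⊢
      rw [this]; simp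
    · ext i j
      have hj : j = 0 := Subsingleton.elim _ _
      subst hj
      rw [Matrix.of_apply]
      have := hcol (Fin.natAdd 1 i)
      have e0 : (Fin.castAdd n 0 : Fin (1 + n)) = 0 := rfl
      rw [e0, this, Pi.single_eq_of_ne]
      · rfl
      · intro h
        have := congrArg Fin.val h
        simp at this
  subst hb2
  -- clear the first row
  have hY : (blk (1 : Mat 1 1) (-ρ) 0 (1 : Mat n n)).det = 1 := by
    rw [det_blk_one]; simp
  have hY1 : blk (1 : Mat 1 1) ρ 0 (1 : Mat n n) * blk 1 (-ρ) 0 1 = 1 := by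
    rw [blk_mul, ← blk_one]; simp
  have hY2 : blk (1 : Mat 1 1) (-ρ) 0 (1 : Mat n n) * blk 1 ρ 0 1 = 1 := by
    rw [blk_mul, ← blk_one]; simp
  refine Sol.right hY ?_
  have hL3 := hL2.right hY1 hY2
  have e1 : blk (1 : Mat 1 1) ρ 0 b' * blk 1 (-ρ) 0 1 = blk 1 0 0 b' := by
    rw [blk_mul]; simp
  rw [e1] at hL3 ⊢
  generalize d2 * blk 1 (-ρ) 0 1 = d3 at hL3 ⊢
  rw [blk_eta d3] at hL3 ⊢
  obtain ⟨hL4, hρ⟩ := hL3.sub
  rw [hρ]
  exact H _ _ _ _ hL4

/-- the induction step -/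
lemma Sol.step {n : ℕ} {b' d' : Mat n n} (h : Sol b' d') (δ : Mat 1 1) (c : Mat n 1) :
    Sol (blk 1 0 0 b') (blk δ (cᵀ * b') c d') := by
  obtain ⟨M, N, hM, hN, hT⟩ := h
  have htr : ∀ (x : Mat 1 1) (A : Mat n n), Aᵀ = A → (blk x 0 0 A)ᵀ = blk x 0 0 A := by
    intro x A hA
    refine blk_ext (fun i j => ?_) (by simp) (by simp) (fun i j => ?_)
    · have : i = j := Subsingleton.elim _ _
      subst this; rfl
    · rw [Matrix.transpose_apply, blk_nn, blk_nn, ← Matrix.transpose_apply A, hA]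
  set T := d' + N * (b' + M * d') with hTd
  have hu : IsUnit T.det := by rw [hT]; exact isUnit_one
  have hT1 : T * T⁻¹ = 1 := Matrix.mul_nonsing_inv _ hu
  have hT2 : T⁻¹ * T = 1 := Matrix.nonsing_inv_mul _ hu
  let c1 : Mat n 1 := c + N * (M * c)
  let y : ℤ := (cᵀ * b' * T⁻¹ * c1) 0 0
  refine ⟨blk 0 0 0 M, blk (Matrix.of fun _ _ => 1 + y - δ 0 0) 0 0 N, htr _ _ hM, htr _ _ hN, ?_⟩
  have e : blk δ (cᵀ * b') c d' + blk (Matrix.of fun _ _ => 1 + y - δ 0 0) 0 0 N *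
      (blk 1 0 0 b' + blk 0 0 0 M * blk δ (cᵀ * b') c d') =
      blk (Matrix.of fun _ _ => 1 + y) (cᵀ * b') c1 T := by
    rw [blk_mul, blk_add, blk_mul, blk_add]
    simp only [Matrix.zero_mul, Matrix.mul_zero, add_zero, zero_add, Matrix.mul_one]
    congr 1
    ext i j
    have hi : i = 0 := Subsingleton.elim _ _
    have hj : j = 0 := Subsingleton.elim _ _
    subst hi; subst hj
    simp
  rw [e]
  have e2 : blk (Matrix.of fun _ _ => 1 + y) (cᵀ * b') c1 T * blk 1 0 (-(T⁻¹ * c1)) 1 =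
      blk 1 (cᵀ * b') 0 T := by
    rw [blk_mul]
    simp only [Matrix.mul_one, Matrix.mul_zero, zero_add, Matrix.mul_neg]
    have e3 : T * (T⁻¹ * c1) = c1 := by rw [← Matrix.mul_assoc, hT1, Matrix.one_mul]
    rw [e3, add_neg_cancel]
    congr 1
    ext i j
    have hi : i = 0 := Subsingleton.elim _ _
    have hj : j = 0 := Subsingleton.elim _ _
    subst hi; subst hj
    simp only [Matrix.add_apply, Matrix.neg_apply, Matrix.of_apply, Matrix.one_apply_eq, y,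
      Matrix.mul_assoc]
    ring
  have h3 : (blk (1 : Mat 1 1) 0 (-(T⁻¹ * c1)) (1 : Mat n n)).det = 1 := by
    rw [det_blk_one]; simp
  have h4 := congrArg Matrix.det e2
  rw [Matrix.det_mul, h3, mul_one, det_blk_one, Matrix.zero_mul, sub_zero, hT] at h4
  exact h4

end Pool.Agent.KS6_44.UU
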