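import Pool.Agent.KS6_44.UU.SpA

/-!
Type C: the base case and the theorem on Lagrangian frames.
-/

namespace Pool.Agent.KS6_44.UU

open Matrix
open scoped NumberTheorySymbols

lemma sp_prime (D : ℕ) (hodd : Odd D) (y r : ℤ) (hy : IsCoprime y D) (hr : r = 1 ∨ r = 3) :
    ∃ q : ℕ, q.Prime ∧ D < q ∧ (q : ℤ) % 4 = r ∧ (D : ℤ) ∣ q - y := by
  obtain ⟨m, hm⟩ := hodd
  have hmZ : (D : ℤ) = 2 * m + 1 := by rw [hm]; push_cast; ring
  obtain ⟨x, hx⟩ : ∃ x : ℤ, x = y + (r - y) * D * D := ⟨_, rfl⟩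
  have hx4 : ∃ t : ℤ, x = r + 4 * t := ⟨(r - y) * ((m : ℤ) ^ 2 + m), by rw [hx, hmZ]; ring⟩
  have c1 : IsCoprime x D := by rw [hx]; exact IsCoprime.add_mul_right_left hy _
  have c2 : IsCoprime x 4 := by
    obtain ⟨t, ht⟩ := hx4
    rcases hr with h | h
    · exact ⟨1, -t, by rw [ht, h]; ring⟩
    · exact ⟨-1, 1 + t, by rw [ht, h]; ring⟩
  have c3 : IsCoprime x ((4 * D : ℕ) : ℤ) := by
    push_cast; exact IsCoprime.mul_right c2 c1
  obtain ⟨q, hq0, hq, hqx⟩ := Nat.forall_exists_prime_gt_and_zmodEq D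
    (q := 4 * D) (a := x) (by omega) c3
  have hdvd : ((4 * D : ℕ) : ℤ) ∣ x - q := hqx.dvd
  obtain ⟨t, ht⟩ := hdvd
  push_cast at ht
  refine ⟨q, hq, hq0, ?_, ?_⟩
  · obtain ⟨t', ht'⟩ := hx4
    have : (q : ℤ) = r + 4 * (t' - D * t) := by linarith
    rcases hr with h | h <;> omega
  · refine ⟨(r - y) * D - 4 * t, ?_⟩
    rw [hx] at ht
    linarith

/-- the arithmetic of the base case -/
lemma sp_nt (D : ℕ) (u : ℤ) (hodd : Odd D) (hc : IsCoprime u D) :
    ∃ γ a β : ℤ, a * (u + γ * D) = 1 + D * β ^ 2 := by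
  have hD0 : 0 < D := hodd.pos
  have hJ : J(u | D) = 1 ∨ J(u | D) = -1 := by
    refine jacobiSym.eq_one_or_neg_one ?_
    exact Int.isCoprime_iff_gcd_eq_one.1 hc
  obtain ⟨ε, q, hε, hq, hDq, hqu, hqJ⟩ : ∃ (ε : ℤ) (q : ℕ), (ε = 1 ∨ ε = -1) ∧ q.Prime ∧ D < q ∧
      (D : ℤ) ∣ q - ε * u ∧ J(-(D : ℤ) | q) = 1 := by
    have hmod : ∀ (q : ℕ) (y : ℤ), (D : ℤ) ∣ q - y → J(q | D) = J(y | D) := by
      intro q y h
      exact jacobiSym.mod_left' (Int.ModEq.symm (Int.modEq_iff_dvd.2 h))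
    have h4 : D % 4 = 1 ∨ D % 4 = 3 := by
      obtain ⟨m, hm⟩ := hodd; omega
    rcases h4 with h4 | h4
    · rcases hJ with hJ | hJ
      · obtain ⟨q, hq, hDq, hq4, hqu⟩ := sp_prime D hodd u 1 hc (Or.inl rfl)
        have hqo : Odd q := hq.odd_of_ne_two (by rintro rfl; norm_num at hq4)
        refine ⟨1, q, Or.inl rfl, hq, hDq, by rwa [one_mul], ?_⟩
        rw [jacobiSym.neg _ hqo, ZMod.χ₄_nat_one_mod_four (by omega),
          jacobiSym.quadratic_reciprocity_one_mod_four h4 hqo, hmod q u hqu, hJ]; norm_num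
      · obtain ⟨q, hq, hDq, hq4, hqu⟩ := sp_prime D hodd u 3 hc (Or.inr rfl)
        have hqo : Odd q := hq.odd_of_ne_two (by rintro rfl; norm_num at hq4)
        refine ⟨1, q, Or.inl rfl, hq, hDq, by rwa [one_mul], ?_⟩
        rw [jacobiSym.neg _ hqo, ZMod.χ₄_nat_three_mod_four (by omega),
          jacobiSym.quadratic_reciprocity_one_mod_four h4 hqo, hmod q u hqu, hJ]; norm_num
    · rcases hJ with hJ | hJ
      · obtain ⟨q, hq, hDq, hq4, hqu⟩ := sp_prime D hodd u 1 hc (Or.inl rfl)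
        have hqo : Odd q := hq.odd_of_ne_two (by rintro rfl; norm_num at hq4)
        refine ⟨1, q, Or.inl rfl, hq, hDq, by rwa [one_mul], ?_⟩
        rw [jacobiSym.neg _ hqo, ZMod.χ₄_nat_one_mod_four (by omega),
          ← jacobiSym.quadratic_reciprocity_one_mod_four (a := q) (b := D) (by omega) hodd,
          hmod q u hqu, hJ]; norm_num
      · obtain ⟨q, hq, hDq, hq4, hqu⟩ := sp_prime D hodd (-u) 1 hc.neg_left (Or.inl rfl)
        have hqo : Odd q := hq.odd_of_ne_two (by rintro rfl; norm_num at hq4)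
        refine ⟨-1, q, Or.inr rfl, hq, hDq, by rwa [neg_one_mul], ?_⟩
        rw [jacobiSym.neg _ hqo, ZMod.χ₄_nat_one_mod_four (by omega),
          ← jacobiSym.quadratic_reciprocity_one_mod_four (a := q) (b := D) (by omega) hodd,
          hmod q _ hqu, jacobiSym.neg _ hodd, ZMod.χ₄_nat_three_mod_four h4, hJ]; norm_num
  have : Fact q.Prime := ⟨hq⟩
  obtain ⟨x, hx⟩ := ZMod.isSquare_of_jacobiSym_eq_one hqJ
  have hDne : ((D : ℤ) : ZMod q) ≠ 0 := by
    rw [Ne, ZMod.intCast_zmod_eq_zero_iff_dvd]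
    intro h
    have := Nat.le_of_dvd hD0 (Int.natCast_dvd_natCast.1 h)
    omega
  have hx0 : x ≠ 0 := by
    rintro rfl
    rw [mul_zero, Int.cast_neg, neg_eq_zero] at hx
    exact hDne hx
  obtain ⟨β, hβ⟩ := ZMod.intCast_surjective (x⁻¹)
  have hdvd : (q : ℤ) ∣ 1 + D * β ^ 2 := by
    rw [← ZMod.intCast_zmod_eq_zero_iff_dvd]
    push_cast
    rw [hβ]
    push_cast at hx
    have : (D : ZMod q) = -(x * x) := by rw [← hx, neg_neg]
    rw [this]
    field_simp
    ring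
  obtain ⟨a, ha⟩ := hdvd
  obtain ⟨γ, hγ⟩ := hqu
  have hε2 : ε * ε = 1 := by rcases hε with h | h <;> rw [h] <;> norm_num
  refine ⟨ε * γ, ε * a, β, ?_⟩
  have e1 : u + ε * γ * D = ε * q := by
    have : ε * (D * γ) = ε * (q - ε * u) := by rw [hγ]
    linear_combination this - u * hε2
  rw [e1, ha]
  linear_combination (a * q) * hε2

lemma sp_nt2 (B E : ℤ) (h : IsCoprime B E) :
    ∃ m γ a β : ℤ, a * (E + γ * (B + m * E)) = 1 + (B + m * E) * β ^ 2 := by
  by_cases hE : E = 0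
  · subst hE
    have hB : IsUnit B := (isCoprime_zero_right).1 h
    rcases Int.isUnit_iff.1 hB with h1 | h1
    · exact ⟨0, 1, 1, 0, by rw [h1]; ring⟩
    · exact ⟨0, -1, 1, 0, by rw [h1]; ring⟩
  · obtain ⟨t, ht⟩ : ∃ t : ℤ, Odd (B + t * E) := by
      rcases Int.even_or_odd B with hB | hB
      · refine ⟨1, ?_⟩
        rw [one_mul]
        have : Odd E := by
          by_contra hcon
          rw [Int.not_odd_iff_even] at hcon
          obtain ⟨x, y, hxy⟩ := h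
          have : Even (1 : ℤ) := by rw [← hxy]; exact (hB.mul_left x).add (hcon.mul_left y)
          exact absurd this (by decide)
        exact hB.add_odd this
      · exact ⟨0, by simpa using hB⟩
    set z := B + t * E with hz
    obtain ⟨m, hm⟩ : ∃ m : ℤ, m = t + 2 * E * |z| := ⟨_, rfl⟩
    have hD : B + m * E = z + 2 * E ^ 2 * |z| := by rw [hm, hz]; ring
    have hz0 : z ≠ 0 := by rintro h0; rw [h0] at ht; exact absurd ht (by decide)
    have hpos : 0 < B + m * E := by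
      rw [hD]
      have h1 : 0 < |z| := abs_pos.2 hz0
      have h2 : 1 ≤ E ^ 2 := by
        have : 0 < E ^ 2 := by positivity
        omega
      have h3 : -|z| ≤ z := neg_abs_le z
      nlinarith
    have hodd : Odd (B + m * E) := by
      rw [hD]
      exact ht.add_even ⟨E ^ 2 * |z|, by ring⟩
    obtain ⟨D, hDD⟩ : ∃ D : ℕ, (D : ℤ) = B + m * E := ⟨(B + m * E).toNat, Int.toNat_of_nonneg hpos.le⟩
    have hcop : IsCoprime E (B + m * E) := (IsCoprime.add_mul_right_left h m).symm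
    rw [← hDD] at hcop hodd
    have hodd' : Odd D := by exact_mod_cast hodd
    obtain ⟨γ, a, β, hh⟩ := sp_nt D E hodd' hcop
    exact ⟨m, γ, a, β, by rw [← hDD]; exact hh⟩

lemma det_blk11 (A B C D : Mat 1 1) :
    (blk A B C D).det = A 0 0 * D 0 0 - B 0 0 * C 0 0 := by
  have h := Matrix.det_fin_two (blk A B C D : Mat 2 2)
  have e1 : (blk A B C D : Mat 2 2) 0 0 = A 0 0 := blk_cc A B C D 0 0
  have e2 : (blk A B C D : Mat 2 2) 0 1 = B 0 0 := blk_cn A B C D 0 0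
  have e3 : (blk A B C D : Mat 2 2) 1 0 = C 0 0 := blk_nc A B C D 0 0
  have e4 : (blk A B C D : Mat 2 2) 1 1 = D 0 0 := blk_nn A B C D 0 0
  rw [e1, e2, e3, e4] at h
  exact h

/-- scalar matrix -/
def sc (x : ℤ) : Mat 1 1 := Matrix.of fun _ _ => x

lemma sc_apply (x : ℤ) (i j : Fin 1) : sc x i j = x := rfl

lemma eq_sc (A : Mat 1 1) : A = sc (A 0 0) := by
  ext i j
  have hi : i = 0 := Subsingleton.elim _ _
  have hj : j = 0 := Subsingleton.elim _ _
  subst hi; subst hj; rfl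

lemma Sol.base {b' d' : Mat 1 1} (hL : Lag b' d') (δ : Mat 1 1) (c : Mat 1 1) :
    Sol (blk 1 0 0 b') (blk δ (cᵀ * b') c d') := by
  obtain ⟨_, r, s, h⟩ := hL
  rw [eq_sc δ, eq_sc c, eq_sc b', eq_sc d']
  have hcop : IsCoprime (b' 0 0) (d' 0 0) := by
    have := congrFun (congrFun h 0) 0
    rw [Matrix.add_apply, Matrix.mul_apply, Matrix.mul_apply] at this
    simp at this
    exact ⟨r 0 0, s 0 0, this⟩
  generalize b' 0 0 = B at hcop
  generalize d' 0 0 = E at hcop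
  generalize c 0 0 = C
  generalize δ 0 0 = δ0
  obtain ⟨m, γ, a, β, hm⟩ := sp_nt2 B E hcop
  have hsc : ∀ x y z w : ℤ, (blk (sc x) (sc y) (sc y) (sc w))ᵀ = blk (sc x) (sc y) (sc y) (sc w) := by
    intro x y _ w
    rw [blk_transpose]; rfl
  refine Sol.shift (M := blk (sc 0) (sc 0) (sc 0) (sc m)) (hsc _ _ 0 _) ?_
  have hX1 : blk (1 : Mat 1 1) (sc (-(m * C))) 0 (1 : Mat 1 1) * blk 1 (sc (m * C)) 0 1 = 1 := by
    rw [blk_mul, ← blk_one]
    congr 1 <;> ext i j <;> simp [sc_apply]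
  have hX2 : blk (1 : Mat 1 1) (sc (m * C)) 0 (1 : Mat 1 1) * blk 1 (sc (-(m * C))) 0 1 = 1 := by
    rw [blk_mul, ← blk_one]
    congr 1 <;> ext i j <;> simp [sc_apply]
  have hX3 : (blk (1 : Mat 1 1) (sc (m * C)) 0 (1 : Mat 1 1)).det = 1 := by
    rw [det_blk_one]; simp
  refine Sol.left hX1 hX2 hX3 ?_
  refine ⟨0, blk (sc (a - (δ0 + m * C * C))) (sc (β - C)) (sc (β - C)) (sc γ), by simp,
    hsc _ _ 0 _, ?_⟩
  have e1 : (blk (1 : Mat 1 1) (sc (-(m * C))) 0 (1 : Mat 1 1))ᵀ = blk 1 0 (sc (-(m * C))) 1 := by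
    rw [blk_transpose, Matrix.transpose_one, Matrix.transpose_zero]; rfl
  rw [Matrix.zero_mul, add_zero, e1, blk_mul, blk_mul, blk_add, blk_mul, blk_mul, blk_add,
    det_blk11]
  simp only [Matrix.add_apply, Matrix.mul_apply, sc_apply, Matrix.transpose_apply,
    Matrix.zero_apply, Finset.univ_unique, Fin.default_eq_zero, Finset.sum_singleton,
    Matrix.one_apply_eq]
  linear_combination hm

/-- **Type C, frames.** -/
theorem sol_of_lag : ∀ (n : ℕ), 2 ≤ n → ∀ b d : Mat n n, Lag b d → Sol b d := by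
  intro n hn
  induction n, hn using Nat.le_induction with
  | base =>
    intro b d hL
    exact norm_step (n := 1) le_rfl hL (fun b' d' δ c h => Sol.base h δ c)
  | succ n hn ih =>
    have key : ∀ b d : Mat (1 + n) (1 + n), Lag b d → Sol b d := fun b d hL =>
      norm_step (by omega) hL (fun b' d' δ c h => (ih b' d' h).step δ c)
    rw [Nat.add_comm n 1]
    exact key

end Pool.Agent.KS6_44.UU
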