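import Pool.Agent.KS6_44.UU.SpB
import Pool.Agent.KS6_44.UU.Growth

/-!
Type C: the factorisation of `Sp(2n, ℤ)`.
-/

namespace Pool.Agent.KS6_44.UU

open Matrix

section
variable {n : ℕ}

/-- unipotent radical of the Siegel parabolic -/
def up (S : Mat n n) (hS : Sᵀ = S) : symplecticGroup (Fin n) ℤ :=
  ⟨fromBlocks 1 S 0 1, by
    rw [SymplecticGroup.fromBlocks_mem_iff]; simp [hS]⟩

/-- opposite unipotent radical -/
def lo (S : Mat n n) (hS : Sᵀ = S) : symplecticGroup (Fin n) ℤ :=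
  ⟨fromBlocks 1 0 S 1, by
    rw [SymplecticGroup.fromBlocks_mem_iff]; simp [hS]⟩

/-- Levi element -/
def levi (X X' : Mat n n) (h : X * X' = 1) : symplecticGroup (Fin n) ℤ :=
  ⟨fromBlocks X 0 0 X'ᵀ, by
    rw [SymplecticGroup.fromBlocks_mem_iff]
    have : Xᵀ * X'ᵀ = 1 := by
      rw [← Matrix.transpose_mul, mul_eq_one_comm.1 h, Matrix.transpose_one]
    simp [this]⟩

lemma coe_up (S : Mat n n) (hS : Sᵀ = S) :
    (up S hS : Matrix (Fin n ⊕ Fin n) (Fin n ⊕ Fin n) ℤ) = fromBlocks 1 S 0 1 := rfl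

lemma coe_lo (S : Mat n n) (hS : Sᵀ = S) :
    (lo S hS : Matrix (Fin n ⊕ Fin n) (Fin n ⊕ Fin n) ℤ) = fromBlocks 1 0 S 1 := rfl

lemma coe_levi (X X' : Mat n n) (h : X * X' = 1) :
    (levi X X' h : Matrix (Fin n ⊕ Fin n) (Fin n ⊕ Fin n) ℤ) = fromBlocks X 0 0 X'ᵀ := rfl

lemma levi_mul {X X' Y Y' : Mat n n} (h : X * X' = 1) (h' : Y * Y' = 1)
    (h'' : (X * Y) * (Y' * X') = 1) : levi X X' h * levi Y Y' h' = levi (X * Y) (Y' * X') h'' := by
  apply Subtype.ext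
  rw [Submonoid.coe_mul, coe_levi, coe_levi, coe_levi, fromBlocks_multiply]
  simp [Matrix.transpose_mul]

lemma up_levi {X X' : Mat n n} (h : X * X' = 1) (S : Mat n n) (hS : Sᵀ = S)
    (hS' : (X' * S * X'ᵀ)ᵀ = X' * S * X'ᵀ) :
    up S hS * levi X X' h = levi X X' h * up (X' * S * X'ᵀ) hS' := by
  apply Subtype.ext
  rw [Submonoid.coe_mul, Submonoid.coe_mul, coe_levi, coe_up, coe_up, fromBlocks_multiply,
    fromBlocks_multiply]
  have : X * (X' * S * X'ᵀ) = S * X'ᵀ := by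
    rw [← Matrix.mul_assoc, ← Matrix.mul_assoc, h, Matrix.one_mul]
  simp [this]

lemma lo_levi {X X' : Mat n n} (h : X * X' = 1) (S : Mat n n) (hS : Sᵀ = S)
    (hS' : (Xᵀ * S * X)ᵀ = Xᵀ * S * X) :
    lo S hS * levi X X' h = levi X X' h * lo (Xᵀ * S * X) hS' := by
  apply Subtype.ext
  rw [Submonoid.coe_mul, Submonoid.coe_mul, coe_levi, coe_lo, coe_lo, fromBlocks_multiply,
    fromBlocks_multiply]
  have : X'ᵀ * (Xᵀ * S * X) = S * X := by
    rw [← Matrix.mul_assoc, ← Matrix.mul_assoc, ← Matrix.transpose_mul, h, Matrix.transpose_one,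
      Matrix.one_mul]
  simp [this]

/-- upper unitriangular symplectic matrices -/
def SpU (g : symplecticGroup (Fin n) ℤ) : Prop :=
  ∃ u u' S : Mat n n, IsU u ∧ u * u' = 1 ∧ Sᵀ = S ∧
    (g : Matrix (Fin n ⊕ Fin n) (Fin n ⊕ Fin n) ℤ) = fromBlocks 1 S 0 1 * fromBlocks u 0 0 u'ᵀ

/-- lower unitriangular symplectic matrices -/
def SpL (g : symplecticGroup (Fin n) ℤ) : Prop :=
  ∃ u u' S : Mat n n, IsL u ∧ u * u' = 1 ∧ Sᵀ = S ∧
    (g : Matrix (Fin n ⊕ Fin n) (Fin n ⊕ Fin n) ℤ) = fromBlocks 1 0 S 1 * fromBlocks u 0 0 u'ᵀ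

theorem sp_factor (hn : 26 ≤ n) (g : symplecticGroup (Fin n) ℤ) :
    ∃ x1 y1 x2 y2 : symplecticGroup (Fin n) ℤ, SpU x1 ∧ SpL y1 ∧ SpU x2 ∧ SpL y2 ∧
      g = x1 * y1 * (x2 * y2) := by
  obtain ⟨a, b, c, d, hg⟩ : ∃ a b c d : Mat n n,
      (g : Matrix (Fin n ⊕ Fin n) (Fin n ⊕ Fin n) ℤ) = fromBlocks a b c d :=
    ⟨_, _, _, _, (fromBlocks_toBlocks g.1).symm⟩
  have hmem := g.2
  rw [hg, SymplecticGroup.fromBlocks_mem_iff] at hmem
  obtain ⟨g1, g2, g3⟩ := hmem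
  have hL : Lag b d := by
    refine ⟨?_, -cᵀ, aᵀ, ?_⟩
    · rw [Matrix.transpose_mul, Matrix.transpose_transpose]; exact g2.symm
    · rw [← g3, Matrix.neg_mul]; abel
  obtain ⟨M, N, hM, hN, hT⟩ := sol_of_lag n (by omega) b d hL
  have hM' : (-M)ᵀ = -M := by rw [Matrix.transpose_neg, hM]
  have hN' : (-N)ᵀ = -N := by rw [Matrix.transpose_neg, hN]
  obtain ⟨B, hB⟩ : ∃ B, B = b + M * d := ⟨_, rfl⟩
  obtain ⟨T, hTT⟩ : ∃ T, T = d + N * B := ⟨_, rfl⟩
  obtain ⟨a1, ha1⟩ : ∃ a1, a1 = a + M * c := ⟨_, rfl⟩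
  obtain ⟨c1, hc1⟩ : ∃ c1, c1 = c + N * a1 := ⟨_, rfl⟩
  rw [← hB, ← hTT] at hT
  -- the transformed element
  have hh : (lo N hN * (up M hM * g) : symplecticGroup (Fin n) ℤ).1 = fromBlocks a1 B c1 T := by
    rw [Submonoid.coe_mul, Submonoid.coe_mul, hg, coe_lo, coe_up, fromBlocks_multiply,
      fromBlocks_multiply]
    simp only [Matrix.one_mul, Matrix.zero_mul, add_zero, zero_add]
    rw [hTT, hB, hc1, ha1, add_comm c, add_comm d]
  have hhm := (lo N hN * (up M hM * g)).2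
  rw [hh, SymplecticGroup.fromBlocks_mem_iff] at hhm
  obtain ⟨h1, h2, h3⟩ := hhm
  have hu : IsUnit T.det := by rw [hT]; exact isUnit_one
  have hT1 : T * T⁻¹ = 1 := Matrix.mul_nonsing_inv _ hu
  have hT2 : T⁻¹ * T = 1 := Matrix.nonsing_inv_mul _ hu
  have hT3 : Tᵀ * (T⁻¹)ᵀ = 1 := by rw [← Matrix.transpose_mul, hT2, Matrix.transpose_one]
  have hT4 : (T⁻¹)ᵀ * Tᵀ = 1 := mul_eq_one_comm.1 hT3
  have hdet : ((T⁻¹)ᵀ).det = 1 := by
    have := congrArg Matrix.det hT1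
    rw [Matrix.det_mul, hT, one_mul, Matrix.det_one] at this
    rw [Matrix.det_transpose, this]
  -- symmetric matrices
  have hS : (B * T⁻¹)ᵀ = B * T⁻¹ := by
    rw [Matrix.transpose_mul]
    calc (T⁻¹)ᵀ * Bᵀ = (T⁻¹)ᵀ * (Bᵀ * T) * T⁻¹ := by
          rw [Matrix.mul_assoc, Matrix.mul_assoc, hT1, Matrix.mul_one]
      _ = B * T⁻¹ := by rw [h2, ← Matrix.mul_assoc, hT4, Matrix.one_mul]
  have ha1' : a1 = (T⁻¹)ᵀ + B * T⁻¹ * c1 := by
    have e1 : a1ᵀ * T = 1 + c1ᵀ * B := by rw [← h3]; abel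
    have e2 : a1ᵀ = T⁻¹ + c1ᵀ * (B * T⁻¹) := by
      calc a1ᵀ = (a1ᵀ * T) * T⁻¹ := by rw [Matrix.mul_assoc, hT1, Matrix.mul_one]
        _ = _ := by rw [e1, Matrix.add_mul, Matrix.one_mul, Matrix.mul_assoc]
    have e3 := congrArg Matrix.transpose e2
    rw [Matrix.transpose_transpose, Matrix.transpose_add, Matrix.transpose_mul, hS,
      Matrix.transpose_transpose] at e3
    exact e3
  have hR : (T⁻¹ * c1)ᵀ = T⁻¹ * c1 := by
    -- from the symmetry of a1ᵀ c1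
    have e1 : a1ᵀ * c1 = T⁻¹ * c1 + c1ᵀ * (B * T⁻¹) * c1 := by
      rw [ha1', Matrix.transpose_add, Matrix.transpose_mul, hS, Matrix.transpose_transpose,
        Matrix.add_mul]
    have e2 : (c1ᵀ * (B * T⁻¹) * c1)ᵀ = c1ᵀ * (B * T⁻¹) * c1 := by
      rw [Matrix.transpose_mul, Matrix.transpose_mul, hS, Matrix.transpose_transpose]
      simp only [Matrix.mul_assoc]
    have e3 : (a1ᵀ * c1)ᵀ = a1ᵀ * c1 := by
      rw [Matrix.transpose_mul, Matrix.transpose_transpose]; exact h1.symm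
    rw [e1, Matrix.transpose_add, e2] at e3
    exact add_right_cancel e3
  -- unitriangular factorisation of the Levi part
  obtain ⟨u, v, l, r, hu1, hv1, hl1, hr1, e⟩ := good_of_26_le hn _ hdet
  obtain ⟨u', hu', u1, u1'⟩ := hu1.inv
  obtain ⟨v', hv', v1, v1'⟩ := hv1.inv
  obtain ⟨l', hl', l1, l1'⟩ := hl1.inv
  obtain ⟨r', hr', r1, r1'⟩ := hr1.inv
  have hA : (T⁻¹)ᵀ = (u' * l) * (r * v') := by
    calc (T⁻¹)ᵀ = (u' * u) * (T⁻¹)ᵀ * (v * v') := by
          rw [u1', v1, Matrix.one_mul, Matrix.mul_one]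
      _ = u' * (u * (T⁻¹)ᵀ * v) * v' := by simp only [Matrix.mul_assoc]
      _ = (u' * l) * (r * v') := by rw [e]; simp only [Matrix.mul_assoc]
  have hul : (u' * l) * (l' * u) = 1 := by
    calc (u' * l) * (l' * u) = u' * (l * l') * u := by simp only [Matrix.mul_assoc]
      _ = 1 := by rw [l1, Matrix.mul_one, u1']
  have hrv : (r * v') * (v * r') = 1 := by
    calc (r * v') * (v * r') = r * (v' * v) * r' := by simp only [Matrix.mul_assoc]
      _ = 1 := by rw [v1', Matrix.mul_one, r1]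
  have hAll : ((u' * l) * (r * v')) * ((v * r') * (l' * u)) = 1 := by
    calc ((u' * l) * (r * v')) * ((v * r') * (l' * u)) =
          (u' * l) * ((r * v') * (v * r')) * (l' * u) := by simp only [Matrix.mul_assoc]
      _ = 1 := by rw [hrv, Matrix.mul_one, hul]
  have hTl : Tᵀ = (v * r') * (l' * u) := by
    rw [hA] at hT3
    calc Tᵀ = Tᵀ * (((u' * l) * (r * v')) * ((v * r') * (l' * u))) := by
          rw [hAll, Matrix.mul_one]
      _ = (Tᵀ * ((u' * l) * (r * v'))) * ((v * r') * (l' * u)) := by simp only [Matrix.mul_assoc]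
      _ = _ := by rw [hT3, Matrix.one_mul]
  -- assemble
  have hS1 : ((l' * u) * (B * T⁻¹) * (l' * u)ᵀ)ᵀ = (l' * u) * (B * T⁻¹) * (l' * u)ᵀ := by
    rw [Matrix.transpose_mul, Matrix.transpose_transpose, Matrix.transpose_mul (l' * u), hS,
      ← Matrix.mul_assoc]
  have hN1 : (u'ᵀ * (-N) * u')ᵀ = u'ᵀ * (-N) * u' := by
    rw [Matrix.transpose_mul, Matrix.transpose_mul, Matrix.transpose_transpose, hN',
      ← Matrix.mul_assoc]
  have main : lo N hN * (up M hM * g) =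
      up (B * T⁻¹) hS * levi _ _ hAll * lo (T⁻¹ * c1) hR := by
    apply Subtype.ext
    rw [hh, Submonoid.coe_mul, Submonoid.coe_mul, coe_up, coe_levi, coe_lo, fromBlocks_multiply,
      fromBlocks_multiply, ← hA, ← hTl, Matrix.transpose_transpose]
    simp only [Matrix.one_mul, Matrix.mul_one, Matrix.zero_mul, Matrix.mul_zero, add_zero,
      zero_add]
    have e1 : B * T⁻¹ * T = B := by rw [Matrix.mul_assoc, hT2, Matrix.mul_one]
    have e2 : T * (T⁻¹ * c1) = c1 := by rw [← Matrix.mul_assoc, hT1, Matrix.one_mul]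
    rw [e1, e2]
    congr 1
    rw [ha1', ← Matrix.mul_assoc B]
  have inv1 : (up M hM)⁻¹ = up (-M) hM' := by
    rw [inv_eq_iff_mul_eq_one]
    apply Subtype.ext
    rw [Submonoid.coe_mul, coe_up, coe_up, fromBlocks_multiply, Submonoid.coe_one,
      ← fromBlocks_one]
    simp
  have inv2 : (lo N hN)⁻¹ = lo (-N) hN' := by
    rw [inv_eq_iff_mul_eq_one]
    apply Subtype.ext
    rw [Submonoid.coe_mul, coe_lo, coe_lo, fromBlocks_multiply, Submonoid.coe_one,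
      ← fromBlocks_one]
    simp
  have hfin : g = (up (-M) hM' * levi u' u u1') * (lo _ hN1 * levi l l' l1) *
      ((up _ hS1 * levi r r' r1) * (levi v' v v1' * lo (T⁻¹ * c1) hR)) := by
    have e1 : g = up (-M) hM' * (lo (-N) hN' * (up (B * T⁻¹) hS * levi _ _ hAll *
        lo (T⁻¹ * c1) hR)) := by
      rw [← main, ← inv1, ← inv2]; group
    have e2 : levi _ _ hAll = levi _ _ hul * levi _ _ hrv := (levi_mul hul hrv hAll).symm
    have e3 : levi _ _ hul = levi u' u u1' * levi l l' l1 := (levi_mul u1' l1 hul).symm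
    have e4 : levi _ _ hrv = levi r r' r1 * levi v' v v1' := (levi_mul r1 v1' hrv).symm
    have e5 : up (B * T⁻¹) hS * levi _ _ hul = levi _ _ hul * up _ hS1 := up_levi hul _ hS hS1
    have e6 : lo (-N) hN' * levi u' u u1' = levi u' u u1' * lo _ hN1 := lo_levi u1' _ hN' hN1
    calc g = up (-M) hM' * (lo (-N) hN' * ((up (B * T⁻¹) hS * levi _ _ hul) * levi _ _ hrv *
        lo (T⁻¹ * c1) hR)) := by rw [e1, e2]; simp only [mul_assoc]
      _ = up (-M) hM' * ((lo (-N) hN' * levi u' u u1') * levi l l' l1 *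
          up _ hS1 * levi r r' r1 * levi v' v v1' * lo (T⁻¹ * c1) hR) := by
            rw [e5, e3, e4]; simp only [mul_assoc]
      _ = _ := by rw [e6]; simp only [mul_assoc]
  have hsym : (vᵀ * (T⁻¹ * c1) * v)ᵀ = vᵀ * (T⁻¹ * c1) * v := by
    rw [Matrix.transpose_mul, Matrix.transpose_mul, Matrix.transpose_transpose, hR,
      ← Matrix.mul_assoc]
  have hlv : levi v' v v1' * lo (T⁻¹ * c1) hR =
      lo (vᵀ * (T⁻¹ * c1) * v) hsym * levi v' v v1' := by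
    apply Subtype.ext
    rw [Submonoid.coe_mul, Submonoid.coe_mul, coe_levi, coe_lo, coe_lo, fromBlocks_multiply,
      fromBlocks_multiply]
    have e7 : vᵀ * (T⁻¹ * c1) * v * v' = vᵀ * (T⁻¹ * c1) := by
      rw [Matrix.mul_assoc _ v, v1, Matrix.mul_one]
    simp [e7]
  rw [hlv] at hfin
  exact ⟨_, _, _, _, ⟨u', u, -M, hu', u1', hM', rfl⟩, ⟨l, l', _, hl1, l1, hN1, rfl⟩,
    ⟨r, r', _, hr1, r1, hS1, rfl⟩, ⟨v', v, _, hv', v1', hsym, rfl⟩, hfin⟩

end

end Pool.Agent.KS6_44.UU
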